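import Mathlib

/-!
# KFV : A_5(n) = 2^(C(n,2) - 10) for every n ≥ 5   (MP_64e56f_co, r = 5)

Definitions of the project (helper16).  Graphs are finite edge sets `T : Finset (Sym2 V)`.
For a colouring `c : V → Fin 4` an edge is *cross* when its two ends have different colours,
and *mono* otherwise.
-/

namespace Pool.Agent.KFV

open Finset

section abs

variable {V : Type} [Fintype V] [DecidableEq V]

/-- `uv` is a cross (bichromatic) edge of `T` -/
def xr (T : Finset (Sym2 V)) (c : V → Fin 4) (u v : V) : Prop := s(u, v) ∈ T ∧ c u ≠ c v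

instance (T : Finset (Sym2 V)) (c : V → Fin 4) (u v : V) : Decidable (xr T c u v) := by
  unfold xr; infer_instance

/-- number of cross neighbours -/
def dg (T : Finset (Sym2 V)) (c : V → Fin 4) (v : V) : ℕ := ∑ w, if xr T c v w then 1 else 0

/-- number of vertices of colour `k` which have a cross neighbour -/
def Ncl (T : Finset (Sym2 V)) (c : V → Fin 4) (k : Fin 4) : ℕ :=
  ∑ v, if c v = k ∧ dg T c v ≠ 0 then 1 else 0

/-- sum of the cross degrees in colour class `k` -/
def Dcl (T : Finset (Sym2 V)) (c : V → Fin 4) (k : Fin 4) : ℕ :=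
  ∑ v, if c v = k then dg T c v else 0

/-- weight of a vertex -/
def wt (T : Finset (Sym2 V)) (c : V → Fin 4) (v : V) : ℕ :=
  Dcl T c (c v) + dg T c v + Ncl T c (c v)

/-- twice the number of cross edges -/
def e2 (T : Finset (Sym2 V)) (c : V → Fin 4) : ℕ := ∑ v, dg T c v

/-- sum of the squares of the class sizes (vertices with a cross neighbour only) -/
def sp2 (T : Finset (Sym2 V)) (c : V → Fin 4) : ℕ := ∑ k, Ncl T c k ^ 2

/-- twice the sum over cross edges of the product of the weights of the two ends -/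
def X2 (T : Finset (Sym2 V)) (c : V → Fin 4) : ℕ :=
  ∑ v, ∑ w, if xr T c v w then wt T c v * wt T c w else 0

/-- average of `F` over all functions `V → κ` -/
def Ex (κ : Type) [Fintype κ] (F : (V → κ) → ℚ) : ℚ :=
  (∑ c, F c) / (Fintype.card κ : ℚ) ^ (Fintype.card V)

/-- `2 ^ (- rank of the graph of cross edges)` : the probability that a random
0/1 labelling is constant along all cross edges -/
def pr (T : Finset (Sym2 V)) (c : V → Fin 4) : ℚ :=
  Ex Bool (fun b : V → Bool => if ∀ u v, xr T c u v → b u = b v then 1 else 0)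

/-- the sign `(-1)^(number of monochromatic edges)` -/
def sg (T : Finset (Sym2 V)) (c : V → Fin 4) : ℤ :=
  (-1) ^ (T.filter (fun e => (e.map c).IsDiag)).card

end abs

/-- basis of the packed numbers (`2 ^ 100`) -/
def BB : ℕ := 1267650600228229401496703205376

/-- digit number `q` in basis `BB` -/
def fld (N q : ℕ) : ℕ := N / BB ^ q % BB

/-- an entry of the table: the key `(r, e, s, x)` and two packed numbers. `pp` has fifteen
digits in basis `BB`: positive and negative part of `h 0`, ..., positive and negative part of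
`h 4`, then `g 0, ..., g 4`; `pm` is the same with positive and negative parts exchanged -/
structure Ent where
  r : ℕ
  e : ℕ
  s : ℕ
  x : ℕ
  pp : ℕ
  pm : ℕ

/-- the value `h i` of the entry -/
def Ent.h (t : Ent) (i : ℕ) : ℤ :=
  if i < 5 then (fld t.pp (2 * i) : ℤ) - (fld t.pp (2 * i + 1) : ℤ) else 0

/-- maximum of the ten digits for `h` (so `|h i| ≤ mx` for every `i`) -/
def Ent.mx (t : Ent) : ℕ := ((List.range 10).map (fld t.pp)).foldr max 0

/-- the bound `g k` of the entry -/
def Ent.g (t : Ent) (k : ℕ) : ℕ := fld t.pp (10 + k)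

section tb

variable {V : Type} [Fintype V] [DecidableEq V]

/-- the key of the entry is the key of `(T, c)` -/
def Mat (T : Finset (Sym2 V)) (c : V → Fin 4) (t : Ent) : Prop :=
  pr T c = (1 / 2) ^ t.r ∧ e2 T c = t.e ∧ sp2 T c = t.s ∧ X2 T c = t.x

/-- the key of the entry is above the key of `(T, c)` shifted `k` times -/
def Dom (k : ℕ) (T : Finset (Sym2 V)) (c : V → Fin 4) (t : Ent) : Prop :=
  (1 / 2) ^ t.r ≤ pr T c * (1 / 2) ^ k ∧ e2 T c + 2 * k ≤ t.e ∧ sp2 T c + k ≤ t.s ∧
    X2 T c + 18 * k ≤ t.x

open Classical in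
/-- the kernel (an integer; the real kernel is this divided by `LL`) -/
noncomputable def Hn (tab : List Ent) (i : ℕ) (T : Finset (Sym2 V)) (c : V → Fin 4) : ℤ :=
  (tab.map (fun t => if Mat T c t then t.h i else 0)).sum

open Classical in
/-- upper bound for the absolute value of all kernels on all graphs above `(T, c)` whose
rank is larger by at least `k` -/
noncomputable def Gn (tab : List Ent) (k : ℕ) (T : Finset (Sym2 V)) (c : V → Fin 4) : ℕ :=
  (tab.map (fun t => if Dom k T c t then t.mx else 0)).foldr max 0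

/-- `A i T` = average of sign times kernel -/
noncomputable def Av (tab : List Ent) (i : ℕ) (T : Finset (Sym2 V)) : ℚ :=
  Ex (Fin 4) (fun c => ((sg T c * Hn tab i T c : ℤ) : ℚ))

/-- `g k T` = average of the bound -/
noncomputable def Gv (tab : List Ent) (k : ℕ) (T : Finset (Sym2 V)) : ℚ :=
  Ex (Fin 4) (fun c => ((Gn tab k T c : ℕ) : ℚ))

end tb

/-- the common denominator -/
def LL : ℕ := 54358179840

/-- properties of the table which are checked by computation -/
structure TabOK (tab : List Ent) : Prop where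
  /-- `h i` vanishes above rank `4 - i` -/
  rk : ∀ t ∈ tab, ∀ i, 4 < t.r + i → t.h i = 0
  r4 : ∀ t ∈ tab, t.r ≤ 4
  /-- the keys are distinct -/
  inj : tab.Pairwise (fun t t' => ¬ (t.r = t'.r ∧ t.e = t'.e ∧ t.s = t'.s ∧ t.x = t'.x))
  /-- `g k` is a bound -/
  gb : ∀ t ∈ tab, ∀ k < 5, ∀ t' ∈ tab,
    t.r + k ≤ t'.r → t.e + 2 * k ≤ t'.e → t.s + k ≤ t'.s → t.x + 18 * k ≤ t'.x → t'.mx ≤ t.g k
  /-- `pm` is `pp` with the parts exchanged -/
  sw : ∀ t ∈ tab, ∀ i < 5, fld t.pm (2 * i) = fld t.pp (2 * i + 1) ∧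
      fld t.pm (2 * i + 1) = fld t.pp (2 * i) ∧ fld t.pm (10 + i) = fld t.pp (10 + i)
  /-- the digits are smaller than `2 ^ 70` -/
  sz : ∀ t ∈ tab, t.pp < BB ^ 15 ∧ t.pm < BB ^ 15 ∧ ∀ q < 15, fld t.pp q < 2 ^ 70
  /-- the empty graph -/
  em : ∃ t ∈ tab, t.r = 0 ∧ t.e = 0 ∧ t.s = 0 ∧ t.x = 0 ∧ t.h 0 = 1023 * LL

/-- the leaf averaging property of the table -/
def LA (tab : List Ent) : Prop :=
  ∀ (V : Type) [Fintype V] [DecidableEq V] (T : Finset (Sym2 V)) (c : V → Fin 4) (u l : V) (i : ℕ),
    u ≠ l → (∀ w, s(l, w) ∉ T) →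
    (∑ a ∈ univ.filter (fun a : Fin 4 => a ≠ c u),
      Hn tab i (insert s(u, l) T) (Function.update c l a)) = 3 * Hn tab (i + 1) T c

section gr

variable {V : Type} [Fintype V] [DecidableEq V]

/-- degree -/
def degT (T : Finset (Sym2 V)) (v : V) : ℕ := (univ.filter (fun w => s(v, w) ∈ T)).card

/-- no loops -/
def Lpl (T : Finset (Sym2 V)) : Prop := ∀ v : V, s(v, v) ∉ T

/-- no leaves -/
def Leafless (T : Finset (Sym2 V)) : Prop := ∀ v : V, degT T v ≠ 1

/-- `T` is obtained from `T0` by `k` successive leaf insertions -/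
inductive Chain : Finset (Sym2 V) → ℕ → Finset (Sym2 V) → Prop
  | zero (T : Finset (Sym2 V)) : Chain T 0 T
  | succ {T0 T : Finset (Sym2 V)} {k : ℕ} {u l : V} : Chain T0 k T → u ≠ l →
      (∀ w, s(l, w) ∉ T) → Chain T0 (k + 1) (insert s(u, l) T)

/-- `T` is obtained from `C` by attaching at `u` a path with `k` edges, which ends at the
last vertex -/
inductive PExt : Finset (Sym2 V) → V → ℕ → Finset (Sym2 V) → V → Prop
  | zero (C : Finset (Sym2 V)) (u : V) : PExt C u 0 C u
  | succ {C T : Finset (Sym2 V)} {u l l' : V} {k : ℕ} : PExt C u k T l → l ≠ l' →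
      (∀ w, s(l', w) ∉ T) → PExt C u (k + 1) (insert s(l, l') T) l'

end gr

/-! ## concrete part -/

/-- a concrete graph with vertices `0, ..., m - 1` -/
structure CG where
  m : ℕ
  E : List (ℕ × ℕ)

/-- well formed: edges `(a, b)` with `a < b < m ≤ 12`, no repetition -/
def CG.Wf (C : CG) : Prop := (∀ p ∈ C.E, p.1 < p.2 ∧ p.2 < C.m) ∧ C.E.Nodup ∧ C.m ≤ 12

instance (C : CG) : Decidable C.Wf := by unfold CG.Wf; infer_instance

/-- the graph `C` as an edge set on `Fin m` -/
def TG (C : CG) : Finset (Sym2 (Fin C.m)) :=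
  ((univ : Finset (Fin C.m × Fin C.m)).filter
    (fun q => ((q.1 : ℕ), (q.2 : ℕ)) ∈ C.E)).image (fun q => s(q.1, q.2))

/-- image of a list of pairs -/
def img {V : Type} [DecidableEq V] (φ : ℕ → V) (E : List (ℕ × ℕ)) : Finset (Sym2 V) :=
  (E.map (fun p => s(φ p.1, φ p.2))).toFinset

/-- `T` is a copy of the concrete graph with `m` vertices and edge list `E` -/
def Copy {V : Type} [DecidableEq V] (m : ℕ) (E : List (ℕ × ℕ)) (φ : ℕ → V)
    (T : Finset (Sym2 V)) : Prop :=
  Set.InjOn φ (Set.Iio m) ∧ T = img φ E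

/-- a core: a concrete graph and a number `K` of leaves after which it is good -/
structure Core where
  C : CG
  K : ℕ

/-! ### the evaluator -/

/-- binary search tree of table entries -/
inductive Bst where
  | nil : Bst
  | node : ℕ → Ent → Bst → Bst → Bst

/-- search -/
def Bst.find : Bst → ℕ → Option Ent
  | .nil, _ => none
  | .node k e l r, q => bif Nat.beq q k then some e else bif Nat.blt q k then l.find q else r.find q

/-- all entries -/
def Bst.toL : Bst → List Ent
  | .nil => []
  | .node _ e l r => l.toL ++ e :: r.toL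

/-- force a natural number (this is just `f n`) -/
def frc {α : Type} (n : ℕ) (f : ℕ → α) : α := Nat.casesOn n (f 0) (fun k => f (Nat.succ k))

/-- merge all components (bit masks, base `2 ^ 16`) which meet `x` with `u`; `r` counts the
merged components; the other ones are put into `acc` -/
def mergeC {α : Type} : List ℕ → ℕ → ℕ → ℕ → List ℕ → (List ℕ → ℕ → α) → α
  | [], _, u, r, acc, f => frc u (fun u => frc r (fun r => f (u :: acc) r))
  | M :: Ms, x, u, r, acc, f => bif Nat.beq (Nat.land M x) 0 then
      mergeC Ms x u r (M :: acc) f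
      else mergeC Ms x (Nat.add u (Nat.sub M (Nat.land M u))) (Nat.succ r) acc f

/-- packed degrees (fields of 16 bits) from the list of rows -/
def degP : List (ℕ × ℕ) → ℕ
  | [] => 0
  | (b, x) :: l => Nat.add (Nat.add x (Nat.mul (Nat.mod x 65535) b)) (degP l)

/-- sum over the rows of weight of the row vertex times weights of its neighbours in the row -/
def xP (W : ℕ) : List (ℕ × ℕ) → ℕ
  | [] => 0
  | (b, x) :: l => Nat.add (Nat.mul (Nat.mod (Nat.div W b) 65536)
      (Nat.mod (Nat.land W (Nat.mul 65535 x)) 65535)) (xP W l)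

/-- the key `(e, s, x)` of a complete coloured graph state, passed to `f` -/
def leafK {α : Type} (XR : List (ℕ × ℕ)) (M0 M1 M2 M3 S : ℕ) (f : ℕ → ℕ → ℕ → α) : α :=
  frc (degP XR) fun DEG =>
  frc (Nat.mod (Nat.land S M0) 65535) fun N0 =>
  frc (Nat.mod (Nat.land S M1) 65535) fun N1 =>
  frc (Nat.mod (Nat.land S M2) 65535) fun N2 =>
  frc (Nat.mod (Nat.land S M3) 65535) fun N3 =>
  frc (Nat.add DEG (Nat.add
      (Nat.mul (Nat.add N0 (Nat.mod (Nat.land DEG (Nat.mul 65535 M0)) 65535)) M0) (Nat.add
      (Nat.mul (Nat.add N1 (Nat.mod (Nat.land DEG (Nat.mul 65535 M1)) 65535)) M1) (Nat.add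
      (Nat.mul (Nat.add N2 (Nat.mod (Nat.land DEG (Nat.mul 65535 M2)) 65535)) M2)
      (Nat.mul (Nat.add N3 (Nat.mod (Nat.land DEG (Nat.mul 65535 M3)) 65535)) M3))))) fun W =>
  frc (Nat.mod DEG 65535) fun e =>
  frc (Nat.add (Nat.mul N0 N0) (Nat.add (Nat.mul N1 N1) (Nat.add (Nat.mul N2 N2)
      (Nat.mul N3 N3)))) fun s =>
  frc (Nat.mul 2 (xP W XR)) fun X => f e s X

/-- search the key in the tree -/
def look (tree : Bst) (r e s x : ℕ) : Option Ent :=
  match tree.find (Nat.add (Nat.mul (Nat.add (Nat.mul (Nat.add (Nat.mul r 64) e) 64) s) 4096) x)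
  with
  | none => none
  | some t => bif (Nat.beq t.r r && Nat.beq t.e e && Nat.beq t.s s && Nat.beq t.x x) then some t
      else none

/-- value of a leaf of the recursion (`BB ^ 15` on failure); `nE` is twice the number of edges -/
def leafv (tree : Bst) (nE : ℕ) (XR : List (ℕ × ℕ)) (M0 M1 M2 M3 S r : ℕ) : ℕ :=
  leafK XR M0 M1 M2 M3 S fun e s X =>
    match look tree r e s X with
    | none => Nat.pow BB 15
    | some t => bif Nat.beq (Nat.mod (Nat.sub nE e) 4) 0 then t.pp else t.pm

/-- one child of the recursion: the new vertex (with bit `b`) has cross neighbours `x` -/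
def child (x b w : ℕ) (XR : List (ℕ × ℕ)) (S : ℕ) (cs : List ℕ) (r : ℕ)
    (rec : List (ℕ × ℕ) → ℕ → List ℕ → ℕ → ℕ) : ℕ :=
  bif Nat.beq x 0 then Nat.mul w (rec XR S cs r) else
    mergeC cs x (Nat.add x b) (Nat.add r (Nat.mod (Nat.sub x (Nat.land x S)) 65535)) []
      fun cs' r' =>
        bif Nat.blt 4 r' then 0 else
          frc (Nat.add b (Nat.add S (Nat.sub x (Nat.land x S)))) fun S' =>
            Nat.mul w (rec ((b, x) :: XR) S' cs' r')

/-- the recursion over the vertices; a row is (bit of the vertex, mask of its smaller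
neighbours); `k` colours are used so far; `M0, ..., M3` are the colour classes, `XR` the
nonempty cross rows, `S` the support, `cs` the components with an edge, `r` the rank -/
def go (tree : Bst) (nE : ℕ) :
    List (ℕ × ℕ) → ℕ → List (ℕ × ℕ) → ℕ → ℕ → ℕ → ℕ → ℕ → List ℕ → ℕ → ℕ
  | [], _, XR, M0, M1, M2, M3, S, _, r => leafv tree nE XR M0 M1 M2 M3 S r
  | (b, nb) :: rows, k, XR, M0, M1, M2, M3, S, cs, r =>
    Nat.add
     (Nat.add
      (frc (Nat.sub nb (Nat.land nb M0)) fun x => frc (Nat.add M0 b) fun M =>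
        child x b (bif Nat.beq k 0 then 4 else 1) XR S cs r
          (fun XR S cs r => go tree nE rows (bif Nat.beq k 0 then 1 else k) XR M M1 M2 M3 S cs r))
      (bif Nat.blt k 1 then 0 else
       frc (Nat.sub nb (Nat.land nb M1)) fun x => frc (Nat.add M1 b) fun M =>
        child x b (bif Nat.beq k 1 then 3 else 1) XR S cs r
          (fun XR S cs r => go tree nE rows (bif Nat.beq k 1 then 2 else k) XR M0 M M2 M3 S cs r)))
     (Nat.add
      (bif Nat.blt k 2 then 0 else
       frc (Nat.sub nb (Nat.land nb M2)) fun x => frc (Nat.add M2 b) fun M =>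
        child x b (bif Nat.beq k 2 then 2 else 1) XR S cs r
          (fun XR S cs r => go tree nE rows (bif Nat.beq k 2 then 3 else k) XR M0 M1 M M3 S cs r))
      (bif Nat.blt k 3 then 0 else
       frc (Nat.sub nb (Nat.land nb M3)) fun x => frc (Nat.add M3 b) fun M =>
        child x b 1 XR S cs r
          (fun XR S cs r => go tree nE rows (bif Nat.beq k 3 then 4 else k) XR M0 M1 M2 M S cs r)))

/-- mask of the smaller neighbours of `j` -/
def rowm (E : List (ℕ × ℕ)) (j : ℕ) : ℕ :=
  E.foldr (fun p x => bif Nat.beq p.2 j then Nat.add x (Nat.pow 2 (Nat.mul 16 p.1)) else x) 0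

/-- all rows -/
def rowsOf (C : CG) : List (ℕ × ℕ) :=
  (List.range C.m).map (fun j => (Nat.pow 2 (Nat.mul 16 j), rowm C.E j))

/-- the packed value of the graph `C` -/
def evalG (tree : Bst) (C : CG) : ℕ :=
  go tree (Nat.mul 2 C.E.length) (rowsOf C) 0 [] 0 0 0 0 0 [] 0

/-- recursion for the bounds: `K` leaf insertions -/
def gIter : ℕ → List ℕ → List ℕ
  | 0, l => l
  | K + 1, [a, b, c, d, e] => gIter K [a + 3 * b, b + 3 * c, c + 3 * d, d + 3 * e, e]
  | _ + 1, l => l

/-- check of positivity: `D` is `LL * 4 ^ (number of vertices)`; `st` says that the current graph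
may be skipped (it is empty) -/
def aIter : ℕ → Bool → ℤ → List ℤ → Bool
  | 0, _, _, _ => false
  | f + 1, st, D, [a, b, c, d, e] =>
    (st || decide (0 ≤ D + a)) &&
    ((decide (a ≤ D) && decide (-D ≤ a) && decide (b ≤ D) && decide (-D ≤ b) &&
      decide (c ≤ D) && decide (-D ≤ c) && decide (d ≤ D) && decide (-D ≤ d) &&
      decide (e ≤ D) && decide (-D ≤ e)) ||
     aIter f false (4 * D) [-a + 3 * b, -b + 3 * c, -c + 3 * d, -d + 3 * e, -e])
  | _ + 1, _, _, _ => false

/-- check of a core -/
def coreOK (tree : Bst) (C : Core) : Bool :=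
  frc (evalG tree C.C) fun N =>
    decide C.C.Wf && Nat.blt N (Nat.pow BB 15) &&
    Nat.blt ((gIter C.K [fld N 10, fld N 11, fld N 12, fld N 13, fld N 14]).headD 0)
      (LL * 4 ^ (C.C.m + C.K)) &&
    aIter 14 (C.C.E.isEmpty) ((LL : ℤ) * 4 ^ C.C.m)
      [(fld N 0 : ℤ) - fld N 1, (fld N 2 : ℤ) - fld N 3, (fld N 4 : ℤ) - fld N 5,
        (fld N 6 : ℤ) - fld N 7, (fld N 8 : ℤ) - fld N 9]

/-- check of a good graph -/
def goodOK (tree : Bst) (C : CG) : Bool :=
  frc (evalG tree C) fun N =>
    decide C.Wf && Nat.blt N (Nat.pow BB 15) && Nat.blt (fld N 10) (LL * 4 ^ C.m)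

/-! ### the closure check -/

/-- adjacency mask: bit `16 a + b` -/
def adjM (E : List (ℕ × ℕ)) : ℕ :=
  E.foldr (fun p x => Nat.lor x (Nat.lor (Nat.pow 2 (Nat.add (Nat.mul 16 p.1) p.2))
    (Nat.pow 2 (Nat.add (Nat.mul 16 p.2) p.1)))) 0

/-- bit test -/
def tb (A n : ℕ) : Bool := Nat.beq (Nat.mod (Nat.div A (Nat.pow 2 n)) 2) 1

/-- degree from the mask -/
def degM (A m i : ℕ) : ℕ :=
  (List.range m).foldr (fun j x => bif tb A (Nat.add (Nat.mul 16 i) j) then Nat.succ x else x) 0

/-- first free index after attaching at `u` -/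
def baseV (m u : ℕ) : ℕ := Nat.max m (Nat.succ u)

/-- end of the path -/
def lastV (m u k : ℕ) : ℕ := if k = 0 then u else baseV m u + k - 1

/-- edges of the path with `k` edges attached at `u` -/
def pathE (m u k : ℕ) : List (ℕ × ℕ) :=
  (List.range k).map (fun t => (lastV m u t, baseV m u + t))

/-- does the graph `E'` with `m'` vertices, whose last edge is `l j`, have to be considered? -/
def need (A m' l j : ℕ) : Bool :=
  (List.range m').all (fun i => Nat.ble 2 (degM A m' i) && Nat.ble (degM A m' i) (degM A m' j) &&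
    (!(tb A (Nat.add (Nat.mul 16 j) i)) || Nat.ble (degM A m' l) (degM A m' i)))

/-- hexadecimal digit -/
def dig (n i : ℕ) : ℕ := Nat.mod (Nat.div n (Nat.pow 16 i)) 16

/-- the map coded in the digits `4, 5, ...` of a certificate -/
def cmap (n i : ℕ) : ℕ := dig n (Nat.add 4 i)

/-- injective and with values `< m'` -/
def injB (n m m' : ℕ) : Bool :=
  (List.range m).all (fun i => Nat.blt (cmap n i) m' &&
    (List.range i).all (fun j => !(Nat.beq (cmap n i) (cmap n j))))

/-- mapped edges -/
def mapE (n : ℕ) (E : List (ℕ × ℕ)) : List (ℕ × ℕ) := E.map (fun p => (cmap n p.1, cmap n p.2))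

/-- check of a chain of `K` leaf insertions inside the graph with mask `A`; `S` is the list of the
vertices used so far; digits `i, i+1` are the next edge `(a, b)`, where `b` is new -/
def chainB (n A m' : ℕ) : ℕ → ℕ → List ℕ → Bool
  | 0, _, _ => true
  | K + 1, i, S =>
    let a := dig n i
    let b := dig n (i + 1)
    Nat.blt a m' && Nat.blt b m' && !(Nat.beq a b) && tb A (Nat.add (Nat.mul 16 a) b) &&
      S.all (fun v => !(Nat.beq v b)) && chainB n A m' K (i + 2) (a :: b :: S)

/-- the certificate `n` for the graph with mask `A` and `m'` vertices: digit 0 is the kind, digits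
1, 2, 3 the index -/
def certOK (cores : List Core) (goods : List CG) (A m' n : ℕ) : Bool :=
  let idx := dig n 1 + 16 * dig n 2 + 256 * dig n 3
  match dig n 0 with
  | 0 => match cores[idx]? with
    | none => false
    | some C => injB n C.C.m m' && Nat.beq (adjM (mapE n C.C.E)) A
  | 1 => match cores[idx]? with
    | none => false
    | some C => injB n C.C.m m' && Nat.beq (Nat.land (adjM (mapE n C.C.E)) A) (adjM (mapE n C.C.E))
        && chainB n A m' C.K (4 + C.C.m) ((List.range C.C.m).map (cmap n))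
  | _ => match goods[idx]? with
    | none => false
    | some C => injB n C.m m' && Nat.beq (Nat.land (adjM (mapE n C.E)) A) (adjM (mapE n C.E))

/-- all combinations (attaching vertex, length, vertex joined to the end) for a core -/
def combos (C : Core) : List (ℕ × ℕ × ℕ) :=
  (List.range (C.C.m + 1)).flatMap (fun u => (List.range C.K).flatMap (fun k =>
    (List.range (baseV C.C.m u + k)).map (fun j => (u, k, j))))

/-- edge list of the graph of a combination -/
def comboE (C : CG) (u k j : ℕ) : List (ℕ × ℕ) :=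
  (lastV C.m u k, j) :: (pathE C.m u k ++ C.E)

/-- the graph of the combination has to be considered -/
def needC (C : CG) (q : ℕ × ℕ × ℕ) : Bool :=
  !(Nat.beq (lastV C.m q.1 q.2.1) q.2.2) &&
  !(tb (adjM (pathE C.m q.1 q.2.1 ++ C.E)) (16 * lastV C.m q.1 q.2.1 + q.2.2)) &&
  frc (adjM (comboE C q.1 q.2.1 q.2.2)) fun A =>
    need A (baseV C.m q.1 + q.2.1) (lastV C.m q.1 q.2.1) q.2.2

/-- run through the combinations, one certificate for each one which has to be considered -/
def runC (cores : List Core) (goods : List CG) (C : CG) :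
    List (ℕ × ℕ × ℕ) → List ℕ → Bool
  | [], _ => true
  | q :: qs, certs =>
    bif needC C q then
      (match certs with
        | [] => false
        | n :: ns => certOK cores goods (adjM (comboE C q.1 q.2.1 q.2.2))
            (baseV C.m q.1 + q.2.1) n && runC cores goods C qs ns)
    else runC cores goods C qs certs

/-! ### the check of the leaf averaging -/

/-- a concrete coloured graph, all edges are cross -/
structure CC where
  C : CG
  col : List ℕ

/-- well formed coloured graph -/
def CC.Wf (D : CC) : Prop :=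
  D.C.Wf ∧ D.col.length = D.C.m ∧ (∀ a ∈ D.col, a < 4) ∧
    ∀ p ∈ D.C.E, D.col.getD p.1 0 ≠ D.col.getD p.2 0

instance (D : CC) : Decidable D.Wf := by unfold CC.Wf; infer_instance

/-- the key of a coloured graph: state recursion as in `go`, along the given colours -/
def keyGo {α : Type} : List (ℕ × ℕ) → List ℕ → List (ℕ × ℕ) → ℕ → ℕ → ℕ → ℕ → ℕ → List ℕ → ℕ →
    (ℕ → ℕ → ℕ → ℕ → α) → α
  | (b, x) :: rows, a :: col, XR, M0, M1, M2, M3, S, cs, r, f =>
    frc (if a = 0 then Nat.add M0 b else M0) fun M0 =>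
    frc (if a = 1 then Nat.add M1 b else M1) fun M1 =>
    frc (if a = 2 then Nat.add M2 b else M2) fun M2 =>
    frc (if a = 3 then Nat.add M3 b else M3) fun M3 =>
    bif Nat.beq x 0 then keyGo rows col XR M0 M1 M2 M3 S cs r f else
      mergeC cs x (Nat.add x b) (Nat.add r (Nat.mod (Nat.sub x (Nat.land x S)) 65535)) []
        fun cs' r' =>
          frc (Nat.add b (Nat.add S (Nat.sub x (Nat.land x S)))) fun S' =>
            keyGo rows col ((b, x) :: XR) M0 M1 M2 M3 S' cs' r' f
  | _, _, XR, M0, M1, M2, M3, S, _, r, f => leafK XR M0 M1 M2 M3 S fun e s X => f r e s X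

/-- the key of a coloured graph -/
def keyOf (D : CC) : ℕ × ℕ × ℕ × ℕ :=
  keyGo (rowsOf D.C) D.col [] 0 0 0 0 0 [] 0 (fun r e s x => (r, e, s, x))

/-- look up the entry of a coloured graph -/
def entOf (tree : Bst) (D : CC) : Option Ent :=
  match keyOf D with
  | (r, e, s, x) => look tree r e s x

/-- attach a new leaf of colour `a` at vertex `u` (`u < m`) -/
def attA (D : CC) (u a : ℕ) : CC := ⟨⟨D.C.m + 1, (u, D.C.m) :: D.C.E⟩, D.col ++ [a]⟩

/-- a new component with one edge, colours `z` and `a` -/
def attB (D : CC) (z a : ℕ) : CC := ⟨⟨D.C.m + 2, (D.C.m, D.C.m + 1) :: D.C.E⟩, D.col ++ [z, a]⟩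

/-- a new edge -/
def attE (D : CC) (u v : ℕ) : CC := ⟨⟨D.C.m, (u, v) :: D.C.E⟩, D.col⟩

/-- the averaging identity for one attachment, given the entry of `D` and the three entries -/
def avg3 (t : Ent) : Option Ent → Option Ent → Option Ent → Bool
  | some a, some b, some c =>
    (List.range 5).all (fun i => decide (a.h i + b.h i + c.h i = 3 * t.h (i + 1)))
  | _, _, _ => false

/-- the three colours different from `z` -/
def oth : ℕ → ℕ × ℕ × ℕ
  | 0 => (1, 2, 3)
  | 1 => (0, 2, 3)
  | 2 => (0, 1, 3)
  | _ => (0, 1, 2)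

/-- leaf averaging at the coloured graph `D` -/
def laOK (tree : Bst) (D : CC) : Bool :=
  decide D.Wf && decide (D.C.m ≤ 10) &&
  match entOf tree D with
  | none => false
  | some t =>
    (List.range D.C.m).all (fun u => match oth (D.col.getD u 0) with
      | (a, b, c) => avg3 t (entOf tree (attA D u a)) (entOf tree (attA D u b))
          (entOf tree (attA D u c))) &&
    (List.range 4).all (fun z => match oth z with
      | (a, b, c) => avg3 t (entOf tree (attB D z a)) (entOf tree (attB D z b))
          (entOf tree (attB D z c)))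

/-- colour permutation of a certificate: digits `20, ..., 23` -/
def csig (n a : ℕ) : ℕ := dig n (Nat.add 20 a)

/-- certificate for a coloured graph `D'`: it has rank at least four, or it is a copy of one of
the listed graphs (digits 1, 2, 3: index; from digit 4: map; digits 20 - 23: colours) -/
def ccert (types : List CC) (D' : CC) (n : ℕ) : Bool :=
  Nat.ble 4 (keyOf D').1 ||
  match types[dig n 1 + 16 * dig n 2 + 256 * dig n 3]? with
  | none => false
  | some D => injB n D.C.m D'.C.m && Nat.beq (adjM (mapE n D.C.E)) (adjM D'.C.E) &&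
      (List.range D.C.m).all (fun i => Nat.beq (D'.col.getD (cmap n i) 0)
        (csig n (D.col.getD i 0))) &&
      (List.range 4).all (fun a => Nat.blt (csig n a) 4 &&
        (List.range a).all (fun b => !(Nat.beq (csig n a) (csig n b))))

/-- all one-edge extensions of the coloured graph `D` -/
def extC (D : CC) : List CC :=
  ((List.range D.C.m).flatMap (fun v => ((List.range v).filter (fun u =>
    !(tb (adjM D.C.E) (16 * u + v)) && !(Nat.beq (D.col.getD u 0) (D.col.getD v 0)))).map
      (fun u => attE D u v))) ++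
  ((List.range D.C.m).flatMap (fun u => ((List.range 4).filter (fun a =>
    !(Nat.beq (D.col.getD u 0) a))).map (fun a => attA D u a))) ++
  ((List.range 4).flatMap (fun z => (List.range z).map (fun a => attB D z a)))

/-- check all extensions -/
def extOK (types : List CC) : List CC → List ℕ → Bool
  | [], _ => true
  | _ :: _, [] => false
  | D' :: Ds, n :: ns => decide D'.Wf && ccert types D' n && extOK types Ds ns

end Pool.Agent.KFV
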