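import Pool.Agent.KFV.Targets

/-!
# KFV, AVU: averaging over one coordinate first
-/

namespace Pool.Agent.KFV

open Finset

namespace AVU_

/-- exchange the value at `l` with the second component -/
def sw {V κ : Type} [DecidableEq V] (l : V) : ((V → κ) × κ) ≃ ((V → κ) × κ) where
  toFun q := (Function.update q.1 l q.2, q.1 l)
  invFun q := (Function.update q.1 l q.2, q.1 l)
  left_inv q := by
    obtain ⟨c, a⟩ := q
    simp
  right_inv q := by
    obtain ⟨c, a⟩ := q
    simp

end AVU_

open AVU_ in
theorem p_AVU : T_AVU := by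
  intro V κ _ _ _ _ l F
  have hc : (Fintype.card κ : ℚ) ≠ 0 := by
    exact_mod_cast Fintype.card_ne_zero
  have h1 : ∑ q : (V → κ) × κ, F (Function.update q.1 l q.2) = ∑ q : (V → κ) × κ, F q.1 :=
    Equiv.sum_comp (sw l) (fun q : (V → κ) × κ => F q.1)
  rw [Fintype.sum_prod_type, Fintype.sum_prod_type] at h1
  simp only [sum_const, card_univ, nsmul_eq_mul] at h1
  rw [← Finset.mul_sum] at h1
  unfold Ex
  rw [← Finset.sum_div, h1, mul_div_cancel_left₀ _ hc]

end Pool.Agent.KFV
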