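import Pool.Agent.KFV.Targets2

/-!
# KFV, target CCE: meaning of a certificate of a coloured graph
-/

set_option autoImplicit false

namespace Pool.Agent.KFV

open Finset

namespace CCE_

theorem mem_img {V : Type} [DecidableEq V] (φ : ℕ → V) (E : List (ℕ × ℕ)) (e : Sym2 V) :
    e ∈ img φ E ↔ ∃ p ∈ E, s(φ p.1, φ p.2) = e := by
  simp [img]

theorem img_mapE {V : Type} [DecidableEq V] (ψ : ℕ → V) (n : ℕ) (E : List (ℕ × ℕ)) :
    img ψ (mapE n E) = img (fun i => ψ (cmap n i)) E := by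
  unfold img mapE
  rw [List.map_map]
  rfl

theorem injB_spec {n m m' : ℕ} (h : injB n m m' = true) :
    (∀ i < m, cmap n i < m') ∧ ∀ i < m, ∀ j < m, cmap n i = cmap n j → i = j := by
  unfold injB at h
  rw [List.all_eq_true] at h
  have h1 : ∀ i < m, cmap n i < m' ∧ ∀ j < i, cmap n i ≠ cmap n j := by
    intro i hi
    have h2 := h i (List.mem_range.mpr hi)
    rw [Bool.and_eq_true_iff, List.all_eq_true] at h2
    refine ⟨by simpa using h2.1, fun j hj he => ?_⟩
    have h3 := h2.2 j (List.mem_range.mpr hj)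
    rw [he] at h3
    simp at h3
  refine ⟨fun i hi => (h1 i hi).1, fun i hi j hj he => ?_⟩
  rcases lt_trichotomy i j with hij | hij | hij
  · exact absurd he.symm ((h1 j hj).2 i hij)
  · exact hij
  · exact absurd he ((h1 i hi).2 j hij)

theorem mapE_spec {n m' : ℕ} {C : CG} (hC : C.Wf) (h : injB n C.m m' = true) :
    ∀ p ∈ mapE n C.E, p.1 < m' ∧ p.2 < m' ∧ p.1 ≠ p.2 := by
  obtain ⟨h1, h2⟩ := injB_spec h
  intro p hp
  unfold mapE at hp
  rw [List.mem_map] at hp
  obtain ⟨q, hq, rfl⟩ := hp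
  obtain ⟨h3, h4⟩ := hC.1 q hq
  refine ⟨h1 _ (by omega), h1 _ h4, fun he => ?_⟩
  have := h2 _ (by omega) _ h4 he
  omega

/-- inclusion of masks gives inclusion of edge sets -/
theorem img_sub (hD : T_DGM) {V : Type} [Fintype V] [DecidableEq V] {m : ℕ}
    {E E' : List (ℕ × ℕ)} {ψ : ℕ → V} (hm : m ≤ 16)
    (hE : ∀ p ∈ E, p.1 < m ∧ p.2 < m ∧ p.1 ≠ p.2)
    (hE' : ∀ p ∈ E', p.1 < m ∧ p.2 < m ∧ p.1 ≠ p.2) (hψ : Set.InjOn ψ (Set.Iio m))
    (h : ∀ k, tb (adjM E') k = true → tb (adjM E) k = true) : img ψ E' ⊆ img ψ E := by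
  intro e he
  rw [mem_img] at he
  obtain ⟨p, hp, rfl⟩ := he
  obtain ⟨h1, h2, -⟩ := hE' p hp
  rw [← (hD V m E ψ hm hE hψ).1 p.1 h1 p.2 h2]
  apply h
  rw [(hD V m E' ψ hm hE' hψ).1 p.1 h1 p.2 h2, mem_img]
  exact ⟨p, hp, rfl⟩

/-- the colour permutation of a certificate -/
theorem sig_spec {n : ℕ} (h : ((List.range 4).all (fun a => Nat.blt (csig n a) 4 &&
      (List.range a).all (fun b => !(Nat.beq (csig n a) (csig n b))))) = true) :
    ∃ σ : Equiv.Perm (Fin 4), ∀ a : Fin 4, ((σ a : Fin 4) : ℕ) = csig n (a : ℕ) := by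
  rw [List.all_eq_true] at h
  have h1 : ∀ a < 4, csig n a < 4 ∧ ∀ b < a, csig n a ≠ csig n b := by
    intro a ha
    have h2 := h a (List.mem_range.mpr ha)
    rw [Bool.and_eq_true_iff, List.all_eq_true] at h2
    refine ⟨by simpa using h2.1, fun b hb he => ?_⟩
    have h3 := h2.2 b (List.mem_range.mpr hb)
    rw [he] at h3
    simp at h3
  have hinj : Function.Injective
      (fun a : Fin 4 => (⟨csig n (a : ℕ), (h1 a a.2).1⟩ : Fin 4)) := by
    intro a b hab
    have hab' : csig n (a : ℕ) = csig n (b : ℕ) := congrArg Fin.val hab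
    rcases lt_trichotomy (a : ℕ) (b : ℕ) with hl | hl | hl
    · exact absurd hab'.symm ((h1 b b.2).2 a hl)
    · exact Fin.ext hl
    · exact absurd hab' ((h1 a a.2).2 b hl)
  refine ⟨Equiv.ofBijective _ (Finite.injective_iff_bijective.mp hinj), fun a => rfl⟩

end CCE_

open CCE_ in
theorem p_CCE : T_CCE := by
  intro hD V _ _ types D' n T c htypes hD' h hR
  unfold ccert at h
  rw [Bool.or_eq_true] at h
  rcases h with h | h
  · left
    exact Nat.le_of_ble_eq_true h
  · right
    split at h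
    · exact absurd h (by simp)
    · rename_i D hDi
      have hDm := List.mem_of_getElem? hDi
      have hDw := htypes D hDm
      simp only [Bool.and_eq_true_iff] at h
      obtain ⟨⟨⟨hinj, hmask⟩, hcol⟩, hsig⟩ := h
      have hmask' : adjM (mapE n D.C.E) = adjM D'.C.E := Nat.eq_of_beq_eq_true hmask
      have hE1 := mapE_spec hDw.1 hinj
      obtain ⟨hi1, hi2⟩ := injB_spec hinj
      obtain ⟨σ, hσ⟩ := sig_spec hsig
      obtain ⟨φ, hφ, π, hx, hc⟩ := hR
      have hm16 : D'.C.m ≤ 16 := by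
        have := hD'.1.2.2
        omega
      have hE2 : ∀ p ∈ D'.C.E, p.1 < D'.C.m ∧ p.2 < D'.C.m ∧ p.1 ≠ p.2 := by
        intro p hp
        obtain ⟨h3, h4⟩ := hD'.1.1 p hp
        exact ⟨by omega, h4, by omega⟩
      have heq : img φ D'.C.E = img φ (mapE n D.C.E) :=
        Finset.Subset.antisymm
          (img_sub hD hm16 hE1 hE2 hφ (fun k hk => by rw [hmask']; exact hk))
          (img_sub hD hm16 hE2 hE1 hφ (fun k hk => by rw [← hmask']; exact hk))
      refine ⟨D, hDm, fun i => φ (cmap n i), fun i hi j hj he => ?_, σ.trans π, ?_, ?_⟩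
      · exact hi2 i hi j hj (hφ (hi1 i hi) (hi1 j hj) he)
      · intro u v
        rw [hx u v, heq, img_mapE]
      · intro i hi
        show c (φ (cmap n i)) = π (σ (colF D i))
        rw [hc (cmap n i) (hi1 i hi)]
        congr 1
        apply Fin.ext
        rw [hσ]
        rw [List.all_eq_true] at hcol
        have h5 : D'.col.getD (cmap n i) 0 = csig n (D.col.getD i 0) :=
          Nat.eq_of_beq_eq_true (hcol i (List.mem_range.mpr hi))
        have h6 : D.col.getD i 0 < 4 := by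
          rw [List.getD_eq_getElem _ _ (by rw [hDw.2.1]; exact hi)]
          exact hDw.2.2.1 _ (List.getElem_mem _)
        have h7 : D'.col.getD (cmap n i) 0 < 4 := by
          rw [List.getD_eq_getElem _ _ (by rw [hD'.2.1]; exact hi1 i hi)]
          exact hD'.2.2.1 _ (List.getElem_mem _)
        show D'.col.getD (cmap n i) 0 % 4 = csig n (D.col.getD i 0 % 4)
        rw [Nat.mod_eq_of_lt h6, Nat.mod_eq_of_lt h7, h5]

end Pool.Agent.KFV
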