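import Pool.Agent.KFV.Targets

/-!
# KFV, target CER: meaning of a certificate
-/

namespace Pool.Agent.KFV

open Finset

namespace CER_

theorem tb_iff (A k : ℕ) : tb A k = true ↔ A.testBit k = true := by
  unfold tb
  rw [Nat.testBit_eq_decide_div_mod_eq, decide_eq_true_iff]
  exact ⟨fun h => Nat.eq_of_beq_eq_true h, fun h => by
    show Nat.beq (A / 2 ^ k % 2) 1 = true
    rw [h]
    rfl⟩

theorem tb_land {M A k : ℕ} (h : Nat.land M A = M) (hM : tb M k = true) : tb A k = true := by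
  rw [tb_iff] at hM ⊢
  have h1 : (M &&& A).testBit k = true := by
    show (Nat.land M A).testBit k = true
    rw [h]
    exact hM
  rw [Nat.testBit_land, Bool.and_eq_true_iff] at h1
  exact h1.2

theorem mem_img {V : Type} [DecidableEq V] (φ : ℕ → V) (E : List (ℕ × ℕ)) (e : Sym2 V) :
    e ∈ img φ E ↔ ∃ p ∈ E, s(φ p.1, φ p.2) = e := by
  simp [img]

theorem img_mapE {V : Type} [DecidableEq V] (ψ : ℕ → V) (n : ℕ) (E : List (ℕ × ℕ)) :
    img ψ (mapE n E) = img (fun i => ψ (cmap n i)) E := by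
  unfold img mapE
  rw [List.map_map]
  rfl

theorem injB_spec {n m m' : ℕ} (h : injB n m m' = true) :
    (∀ i < m, cmap n i < m') ∧ ∀ i < m, ∀ j < m, cmap n i = cmap n j → i = j := by
  unfold injB at h
  rw [List.all_eq_true] at h
  have h1 : ∀ i < m, cmap n i < m' ∧ ∀ j < i, cmap n i ≠ cmap n j := by
    intro i hi
    have h2 := h i (List.mem_range.mpr hi)
    rw [Bool.and_eq_true_iff, List.all_eq_true] at h2
    refine ⟨by simpa using h2.1, fun j hj he => ?_⟩
    have h3 := h2.2 j (List.mem_range.mpr hj)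
    rw [he] at h3
    simp at h3
  refine ⟨fun i hi => (h1 i hi).1, fun i hi j hj he => ?_⟩
  rcases lt_trichotomy i j with hij | hij | hij
  · exact absurd he.symm ((h1 j hj).2 i hij)
  · exact hij
  · exact absurd he ((h1 i hi).2 j hij)

theorem mapE_spec {n m' : ℕ} {C : CG} (hC : C.Wf) (h : injB n C.m m' = true) :
    ∀ p ∈ mapE n C.E, p.1 < m' ∧ p.2 < m' ∧ p.1 ≠ p.2 := by
  obtain ⟨h1, h2⟩ := injB_spec h
  intro p hp
  unfold mapE at hp
  rw [List.mem_map] at hp
  obtain ⟨q, hq, rfl⟩ := hp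
  obtain ⟨h3, h4⟩ := hC.1 q hq
  refine ⟨h1 _ (by omega), h1 _ h4, fun he => ?_⟩
  have := h2 _ (by omega) _ h4 he
  omega

theorem copy_spec {V : Type} [DecidableEq V] {n m' : ℕ} {C : CG} (h : injB n C.m m' = true)
    {ψ : ℕ → V} (hψ : Set.InjOn ψ (Set.Iio m')) :
    Copy C.m C.E (fun i => ψ (cmap n i)) (img ψ (mapE n C.E)) := by
  obtain ⟨h1, h2⟩ := injB_spec h
  refine ⟨fun i hi j hj he => ?_, img_mapE ψ n C.E⟩
  exact h2 i hi j hj (hψ (h1 i hi) (h1 j hj) he)

/-- inclusion of masks gives inclusion of edge sets -/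
theorem img_sub (hD : T_DGM) {V : Type} [Fintype V] [DecidableEq V] {m : ℕ}
    {E E' : List (ℕ × ℕ)} {ψ : ℕ → V} (hm : m ≤ 16)
    (hE : ∀ p ∈ E, p.1 < m ∧ p.2 < m ∧ p.1 ≠ p.2)
    (hE' : ∀ p ∈ E', p.1 < m ∧ p.2 < m ∧ p.1 ≠ p.2) (hψ : Set.InjOn ψ (Set.Iio m))
    (h : ∀ k, tb (adjM E') k = true → tb (adjM E) k = true) : img ψ E' ⊆ img ψ E := by
  intro e he
  rw [mem_img] at he
  obtain ⟨p, hp, rfl⟩ := he
  obtain ⟨h1, h2, -⟩ := hE' p hp
  rw [← (hD V m E ψ hm hE hψ).1 p.1 h1 p.2 h2]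
  apply h
  rw [(hD V m E' ψ hm hE' hψ).1 p.1 h1 p.2 h2, mem_img]
  exact ⟨p, hp, rfl⟩

/-- the chain -/
theorem chain_spec (hD : T_DGM) {V : Type} [Fintype V] [DecidableEq V] {m n : ℕ}
    {E : List (ℕ × ℕ)} {ψ : ℕ → V} (hm : m ≤ 16)
    (hE : ∀ p ∈ E, p.1 < m ∧ p.2 < m ∧ p.1 ≠ p.2) (hψ : Set.InjOn ψ (Set.Iio m))
    (T0 : Finset (Sym2 V)) :
    ∀ (K i : ℕ) (S : List ℕ) (T : Finset (Sym2 V)) (k0 : ℕ), Chain T0 k0 T → T ⊆ img ψ E →
      (∀ x ∈ S, x < m) → (∀ v w : V, s(v, w) ∈ T → ∃ x ∈ S, ψ x = v) →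
      chainB n (adjM E) m K i S = true → ∃ T1, Chain T0 (k0 + K) T1 ∧ T1 ⊆ img ψ E := by
  intro K
  induction K with
  | zero => exact fun i S T k0 hT hsub _ _ _ => ⟨T, hT, hsub⟩
  | succ K ih =>
    intro i S T k0 hT hsub hS hend h
    unfold chainB at h
    simp only [Bool.and_eq_true_iff] at h
    obtain ⟨⟨⟨⟨⟨ha, hb⟩, hab⟩, htb⟩, hall⟩, hrest⟩ := h
    set a := dig n i with hadef
    set b := dig n (i + 1) with hbdef
    have ha' : a < m := by simpa using ha
    have hb' : b < m := by simpa using hb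
    have hab' : a ≠ b := by
      intro he
      rw [he] at hab
      simp at hab
    rw [List.all_eq_true] at hall
    have hbS : b ∉ S := by
      intro hbS
      have := hall b hbS
      simp at this
    have hmem : s(ψ a, ψ b) ∈ img ψ E :=
      ((hD V m E ψ hm hE hψ).1 a ha' b hb').mp htb
    have hne : ψ a ≠ ψ b := fun he => hab' (hψ ha' hb' he)
    have hnew : ∀ w, s(ψ b, w) ∉ T := by
      intro w hw
      obtain ⟨x, hx, hxe⟩ := hend _ _ hw
      have : x = b := hψ (hS x hx) hb' hxe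
      exact hbS (this ▸ hx)
    have hT' : Chain T0 (k0 + 1) (insert s(ψ a, ψ b) T) := Chain.succ hT hne hnew
    have hres := ih (i + 2) (a :: b :: S) (insert s(ψ a, ψ b) T) (k0 + 1) hT'
      (Finset.insert_subset hmem hsub) ?_ ?_ hrest
    · obtain ⟨T1, h1, h2⟩ := hres
      exact ⟨T1, by rwa [show k0 + (K + 1) = k0 + 1 + K by ring], h2⟩
    · intro x hx
      rcases List.mem_cons.mp hx with rfl | hx
      · exact ha'
      · rcases List.mem_cons.mp hx with rfl | hx
        · exact hb'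
        · exact hS x hx
    · intro v w hvw
      rcases Finset.mem_insert.mp hvw with he | hvw
      · rw [Sym2.eq_iff] at he
        rcases he with ⟨h1, -⟩ | ⟨h1, -⟩
        · exact ⟨a, by simp, h1.symm⟩
        · exact ⟨b, by simp, h1.symm⟩
      · obtain ⟨x, hx, hxe⟩ := hend v w hvw
        exact ⟨x, by simp [hx], hxe⟩

end CER_

open CER_ in
theorem p_CER : T_CER := by
  intro hD V _ _ cores goods m n E ψ hcores hgoods hm hE hψ h
  unfold certOK at h
  simp only at h
  split at h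
  · -- kind 0
    split at h
    · exact absurd h (by simp)
    · rename_i C hC
      have hCm := List.mem_of_getElem? hC
      rw [Bool.and_eq_true_iff] at h
      obtain ⟨hinj, hmask⟩ := h
      have hmask' : adjM (mapE n C.C.E) = adjM E := Nat.eq_of_beq_eq_true hmask
      have hE' := mapE_spec (hcores C hCm) hinj
      left
      refine ⟨C, hCm, fun i => ψ (cmap n i), ?_⟩
      have heq : img ψ E = img ψ (mapE n C.C.E) :=
        Finset.Subset.antisymm
          (img_sub hD hm hE' hE hψ (fun k hk => by rw [hmask']; exact hk))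
          (img_sub hD hm hE hE' hψ (fun k hk => by rw [← hmask']; exact hk))
      rw [heq]
      exact copy_spec hinj hψ
  · -- kind 1
    split at h
    · exact absurd h (by simp)
    · rename_i C hC
      have hCm := List.mem_of_getElem? hC
      rw [Bool.and_eq_true_iff, Bool.and_eq_true_iff] at h
      obtain ⟨⟨hinj, hmask⟩, hch⟩ := h
      have hmask' := Nat.eq_of_beq_eq_true hmask
      have hE' := mapE_spec (hcores C hCm) hinj
      obtain ⟨hi1, hi2⟩ := injB_spec hinj
      right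
      left
      have hsub : img ψ (mapE n C.C.E) ⊆ img ψ E :=
        img_sub hD hm hE hE' hψ (fun k hk => tb_land hmask' hk)
      obtain ⟨T1, h1, h2⟩ := chain_spec hD hm hE hψ (img ψ (mapE n C.C.E)) C.K (4 + C.C.m)
        ((List.range C.C.m).map (cmap n)) (img ψ (mapE n C.C.E)) 0 (Chain.zero _) hsub
        (by
          intro x hx
          rw [List.mem_map] at hx
          obtain ⟨i, hi, rfl⟩ := hx
          exact hi1 i (List.mem_range.mp hi))
        (by
          intro v w hvw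
          rw [img_mapE, mem_img] at hvw
          obtain ⟨p, hp, he⟩ := hvw
          obtain ⟨h3, h4⟩ := (hcores C hCm).1 p hp
          rw [Sym2.eq_iff] at he
          rcases he with ⟨h5, -⟩ | ⟨-, h5⟩
          · exact ⟨cmap n p.1, List.mem_map.mpr ⟨p.1, List.mem_range.mpr (by omega), rfl⟩, h5⟩
          · exact ⟨cmap n p.2, List.mem_map.mpr ⟨p.2, List.mem_range.mpr h4, rfl⟩, h5⟩)
        hch
      rw [Nat.zero_add] at h1
      exact ⟨C, hCm, fun i => ψ (cmap n i), img ψ (mapE n C.C.E), T1, copy_spec hinj hψ, h1, h2⟩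
  · -- other kinds
    split at h
    · exact absurd h (by simp)
    · rename_i C hC
      have hCm := List.mem_of_getElem? hC
      rw [Bool.and_eq_true_iff] at h
      obtain ⟨hinj, hmask⟩ := h
      have hmask' := Nat.eq_of_beq_eq_true hmask
      have hE' := mapE_spec (hgoods C hCm) hinj
      right
      right
      exact ⟨C, hCm, fun i => ψ (cmap n i), img ψ (mapE n C.E), copy_spec hinj hψ,
        img_sub hD hm hE hE' hψ (fun k hk => tb_land hmask' hk)⟩

end Pool.Agent.KFV
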