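import Pool.Agent.KFV.Targets

/-! KFV-CHA: positivity along a chain. -/

namespace Pool.Agent.KFV

open Finset

namespace CHA_

variable {V : Type} [DecidableEq V]

theorem chain0 {T T' : Finset (Sym2 V)} (h : Chain T 0 T') : T' = T := by
  cases h
  rfl

theorem chain_front {T T' : Finset (Sym2 V)} {n : ℕ} (h : Chain T n T') :
    ∀ j, n = j + 1 → ∃ u l : V, u ≠ l ∧ (∀ w, s(l, w) ∉ T) ∧ Chain (insert s(u, l) T) j T' := by
  induction h with
  | zero => intro j hj; omega
  | @succ T' k u l hc hul hl ih =>
    intro j hj
    have hk : k = j := by omega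
    subst hk
    rcases Nat.eq_zero_or_pos k with hk | hk
    · subst hk
      have e := chain0 hc
      subst e
      exact ⟨u, l, hul, hl, Chain.zero _⟩
    · obtain ⟨k', rfl⟩ : ∃ k', k = k' + 1 := ⟨k - 1, by omega⟩
      obtain ⟨u', l', h1, h2, h3⟩ := ih k' rfl
      exact ⟨u', l', h1, h2, Chain.succ h3 hul hl⟩

theorem small_step {x y L : ℚ} (hx : |x| ≤ L) (hy : |y| ≤ L) : |(-x + 3 * y) / 4| ≤ L := by
  rw [abs_le] at *
  constructor <;> linarith [hx.1, hx.2, hy.1, hy.2]

end CHA_

open CHA_ in
theorem p_CHA (hAVU : T_AVU) (hLFK : T_LFK) : T_CHA := by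
  intro hLFA V _ _ T T' tab j f
  have hA := fun (T : Finset (Sym2 V)) (u l : V) (i : ℕ) (hLA : LA tab) (hul : u ≠ l)
    (hl : ∀ w, s(l, w) ∉ T) => hLFA hAVU hLFK V T u l tab i hLA hul hl
  have hLL : (0 : ℚ) < (LL : ℚ) := by
    have : 0 < LL := by unfold LL; norm_num
    exact_mod_cast this
  revert T T' j
  induction f with
  | zero =>
    intro T T' j st D a b c d e _ _ _ _ _ _ _ _ h
    simp [aIter] at h
  | succ f ih =>
    intro T T' j st D a b c d e hLA hz hD ha hb hc hd he h hch hst
    have hDq : (0 : ℚ) < (D : ℚ) := by exact_mod_cast hD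
    rw [aIter, Bool.and_eq_true, Bool.or_eq_true, Bool.or_eq_true] at h
    obtain ⟨h1, h2⟩ := h
    have val : ∀ (i : ℕ) (x : ℤ), Av tab i T * ((D : ℚ) / LL) = x →
        Av tab i T = x * LL / D := by
      intro i x hx
      rw [← hx]
      field_simp
    rcases Nat.eq_zero_or_pos j with hj | hj
    · subst hj
      have e := chain0 hch
      subst e
      have h3 : 0 ≤ D + a := by
        rcases h1 with h1 | h1
        · exact absurd (hst h1) (by omega)
        · exact of_decide_eq_true h1
      have h4 : (0 : ℚ) ≤ (D : ℚ) + a := by exact_mod_cast h3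
      rw [val 0 a ha]
      have : (LL : ℚ) + a * LL / D = LL * ((D : ℚ) + a) / D := by
        field_simp
      rw [this]
      positivity
    · rcases h2 with h2 | h2
      · simp only [Bool.and_eq_true, decide_eq_true_eq] at h2
        obtain ⟨⟨⟨⟨⟨⟨⟨⟨⟨a1, a2⟩, b1⟩, b2⟩, c1⟩, c2⟩, d1⟩, d2⟩, e1⟩, e2⟩ := h2
        have sm : ∀ (i : ℕ) (x : ℤ), Av tab i T * ((D : ℚ) / LL) = x → x ≤ D → -D ≤ x →
            |Av tab i T| ≤ LL := by
          intro i x hx h5 h6
          have h5' : (x : ℚ) ≤ D := by exact_mod_cast h5
          have h6' : -(D : ℚ) ≤ x := by exact_mod_cast h6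
          rw [val i x hx, abs_le]
          constructor
          · rw [le_div_iff₀ hDq]
            nlinarith
          · rw [div_le_iff₀ hDq]
            nlinarith
        have s0 : ∀ i, |Av tab i T| ≤ LL := by
          intro i
          rcases i with _ | _ | _ | _ | _ | i
          · exact sm 0 a ha a1 a2
          · exact sm 1 b hb b1 b2
          · exact sm 2 c hc c1 c2
          · exact sm 3 d hd d1 d2
          · exact sm 4 e he e1 e2
          · rw [hz T _ (by omega), abs_zero]
            exact hLL.le
        have s1 : ∀ i, |Av tab i T'| ≤ LL := by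
          clear ha hb hc hd he val sm hst hj h1
          induction hch with
          | zero => exact s0
          | succ hc hul hl ih2 =>
            intro i
            rw [hA _ _ _ i hLA hul hl]
            exact small_step (ih2 i) (ih2 (i + 1))
        have := (abs_le.1 (s1 0)).1
        linarith
      · obtain ⟨j', rfl⟩ : ∃ j', j = j' + 1 := ⟨j - 1, by omega⟩
        obtain ⟨u, l, hul, hl, hc'⟩ := chain_front hch j' rfl
        refine ih (insert s(u, l) T) T' j' false (4 * D) _ _ _ _ _ hLA hz (by omega)
          ?_ ?_ ?_ ?_ ?_ h2 hc' (fun h => by simp at h)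
        · rw [hA T u l 0 hLA hul hl]
          push_cast
          rw [← ha, ← hb]
          ring
        · rw [hA T u l 1 hLA hul hl]
          push_cast
          rw [← hb, ← hc]
          ring
        · rw [hA T u l 2 hLA hul hl]
          push_cast
          rw [← hc, ← hd]
          ring
        · rw [hA T u l 3 hLA hul hl]
          push_cast
          rw [← hd, ← he]
          ring
        · rw [hA T u l 4 hLA hul hl, hz T (4 + 1) (by omega)]
          push_cast
          rw [← he]
          ring

end Pool.Agent.KFV
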