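import Pool.Agent.KFV.Targets

/-!
# KFV, target CHG: bounds along a chain
-/

set_option autoImplicit false

namespace Pool.Agent.KFV

open Finset

namespace CHG_

section

variable {V : Type} [Fintype V] [DecidableEq V]

theorem pr_le_one (T : Finset (Sym2 V)) (c : V → Fin 4) : pr T c ≤ 1 := by
  unfold pr Ex
  have h0 : (0 : ℚ) < (Fintype.card Bool : ℚ) ^ (Fintype.card V) := by
    rw [Fintype.card_bool]
    positivity
  rw [div_le_one h0]
  calc (∑ b : V → Bool, (if ∀ u v, xr T c u v → b u = b v then (1 : ℚ) else 0))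
      ≤ ∑ _b : V → Bool, (1 : ℚ) := by
        apply Finset.sum_le_sum
        intro b _
        split_ifs <;> norm_num
    _ = (Fintype.card Bool : ℚ) ^ (Fintype.card V) := by
        rw [Finset.sum_const, Finset.card_univ, Fintype.card_fun, nsmul_eq_mul, mul_one]
        push_cast
        rfl

theorem foldr_zero (l : List ℕ) (h : ∀ x ∈ l, x = 0) : l.foldr max 0 = 0 := by
  induction l with
  | nil => rfl
  | cons a l ih =>
    rw [List.foldr_cons, ih (fun x hx => h x (List.mem_cons_of_mem _ hx)),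
      h a List.mem_cons_self]
    rfl

theorem Gn_five (tab : List Ent) (h4 : ∀ t ∈ tab, t.r ≤ 4) (T : Finset (Sym2 V))
    (c : V → Fin 4) : Gn tab 5 T c = 0 := by
  unfold Gn
  apply foldr_zero
  intro x hx
  rw [List.mem_map] at hx
  obtain ⟨t, ht, rfl⟩ := hx
  rw [if_neg]
  rintro ⟨h1, -⟩
  have h2 := h4 t ht
  have h3 := pr_le_one T c
  have h5 : ((1 : ℚ) / 2) ^ 4 ≤ (1 / 2) ^ t.r :=
    pow_le_pow_of_le_one (by norm_num) (by norm_num) h2
  have h6 : pr T c * ((1 : ℚ) / 2) ^ 5 ≤ 1 * (1 / 2) ^ 5 :=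
    mul_le_mul_of_nonneg_right h3 (by positivity)
  norm_num at h5 h6 h1
  linarith

theorem Gv_five (tab : List Ent) (h4 : ∀ t ∈ tab, t.r ≤ 4) (T : Finset (Sym2 V)) :
    Gv tab 5 T = 0 := by
  unfold Gv Ex
  simp only [Gn_five tab h4 T]
  simp

end

theorem step {x x' y D S : ℚ} {p q : ℕ} (hS : 0 < D * S) (h : x' ≤ (x + 3 * y) / 4)
    (hx : x * (D * S) ≤ p) (hy : y * (D * S) ≤ q) : x' * (D * (S * 4)) ≤ ((p + 3 * q : ℕ) : ℚ) := by
  have h1 : x' * (D * (S * 4)) ≤ (x + 3 * y) / 4 * (D * (S * 4)) :=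
    mul_le_mul_of_nonneg_right h (by nlinarith)
  push_cast
  calc x' * (D * (S * 4)) ≤ (x + 3 * y) / 4 * (D * (S * 4)) := h1
    _ = x * (D * S) + 3 * (y * (D * S)) := by ring
    _ ≤ p + 3 * q := by linarith

theorem main (hG : T_LFG) (hA : T_AVU) (hK : T_LFK) (V : Type) [Fintype V] [DecidableEq V]
    (T : Finset (Sym2 V)) (tab : List Ent) (D : ℚ) (a b c d e : ℕ) (h4 : ∀ t ∈ tab, t.r ≤ 4)
    (hD : 0 < D) (ha : Gv tab 0 T * D ≤ a) (hb : Gv tab 1 T * D ≤ b) (hc : Gv tab 2 T * D ≤ c)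
    (hd : Gv tab 3 T * D ≤ d) (he : Gv tab 4 T * D ≤ e) (j : ℕ) (T' : Finset (Sym2 V))
    (h : Chain T j T') :
    ∃ a' b' c' d' e' : ℕ, Gv tab 0 T' * (D * 4 ^ j) ≤ a' ∧ Gv tab 1 T' * (D * 4 ^ j) ≤ b' ∧
      Gv tab 2 T' * (D * 4 ^ j) ≤ c' ∧ Gv tab 3 T' * (D * 4 ^ j) ≤ d' ∧
      Gv tab 4 T' * (D * 4 ^ j) ≤ e' ∧
      ∀ K : ℕ, gIter (K + j) [a, b, c, d, e] = gIter K [a', b', c', d', e'] := by
  induction h with
  | zero =>
    exact ⟨a, b, c, d, e, by simpa using ha, by simpa using hb, by simpa using hc,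
      by simpa using hd, by simpa using he, fun K => rfl⟩
  | @succ S j u l hch hul hl ih =>
    obtain ⟨a', b', c', d', e', h0, h1, h2, h3, h5, h6⟩ := ih
    have hS : 0 < D * 4 ^ j := by positivity
    have g := fun k => hG hA hK V S u l tab k hul hl
    refine ⟨a' + 3 * b', b' + 3 * c', c' + 3 * d', d' + 3 * e', e', ?_, ?_, ?_, ?_, ?_, ?_⟩
    · rw [pow_succ]
      exact step hS (g 0) h0 h1
    · rw [pow_succ]
      exact step hS (g 1) h1 h2
    · rw [pow_succ]
      exact step hS (g 2) h2 h3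
    · rw [pow_succ]
      exact step hS (g 3) h3 h5
    · rw [pow_succ]
      have h7 := g 4
      rw [show (4 + 1 : ℕ) = 5 from rfl, Gv_five tab h4 S] at h7
      have h8 := step (p := e') (q := 0) (y := 0) hS h7 h5 (by simp)
      simpa using h8
    · intro K
      have h9 : K + (j + 1) = (K + 1) + j := by omega
      rw [h9, h6 (K + 1)]
      rfl

end CHG_

/-- The two additional hypotheses are those of `T_LFG`. -/
theorem p_CHG (hA : T_AVU) (hK : T_LFK) : T_CHG := by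
  intro hG V _ _ T T' tab j D a b c d e h4 hD hch ha hb hc hd he
  obtain ⟨a', b', c', d', e', h0, -, -, -, -, h6⟩ :=
    CHG_.main hG hA hK V T tab D a b c d e h4 hD ha hb hc hd he j T' hch
  have h7 := h6 0
  rw [zero_add] at h7
  rw [h7]
  exact h0

end Pool.Agent.KFV
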