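import Pool.Agent.KFV.Targets

/-!
# KFV-CLO: the closure theorem

The statement `T_CLO1` is `T_CLO` with the additional assumption that `V` is not empty.
-/

namespace Pool.Agent.KFV

open Finset

/-- the closure theorem for a nonempty vertex set -/
def T_CLO1 : Prop := T_DEC → T_PD1 → T_PD2 → T_PCH → T_PCO → T_DGM → T_NED → T_CER → T_RUN →
  ∀ (V : Type) [Fintype V] [DecidableEq V] [Nonempty V] (cores : List Core) (goods : List CG)
  (Good : Finset (Sym2 V) → Prop),
  (∀ T T' : Finset (Sym2 V), T ⊆ T' → Good T → Good T') →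
  (∀ C ∈ cores, C.C.Wf) → (∀ C ∈ goods, C.Wf) →
  (∃ C ∈ cores, C.C.m = 0 ∧ C.C.E = []) →
  (∀ C ∈ cores, ∀ i < C.C.m, 1 ≤ degM (adjM C.C.E) C.C.m i) →
  (∀ C ∈ cores, C.C.m + 1 + C.K ≤ 16) →
  (∀ C ∈ cores, ∀ (φ : ℕ → V) (T0 T1 : Finset (Sym2 V)), Copy C.C.m C.C.E φ T0 →
    Chain T0 C.K T1 → Good T1) →
  (∀ C ∈ goods, ∀ (φ : ℕ → V) (T0 : Finset (Sym2 V)), Copy C.m C.E φ T0 → Good T0) →
  (∀ C ∈ cores, ∃ certs, runC cores goods C.C (combos C) certs = true) →
  ∀ T : Finset (Sym2 V), Lpl T → Leafless T →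
    Good T ∨ ∃ C ∈ cores, ∃ φ : ℕ → V, Copy C.C.m C.C.E φ T

namespace CLO_

variable {V : Type} [Fintype V] [DecidableEq V]

theorem trunc {T0 T : Finset (Sym2 V)} {k : ℕ} (h : Chain T0 k T) :
    ∀ j ≤ k, ∃ T2, T2 ⊆ T ∧ Chain T0 j T2 := by
  induction h with
  | zero =>
    intro j hj
    obtain rfl : j = 0 := Nat.le_zero.1 hj
    exact ⟨_, Subset.refl _, Chain.zero _⟩
  | @succ T k u l hc hul hl ih =>
    intro j hj
    rcases Nat.lt_or_ge j (k + 1) with h1 | h1
    · obtain ⟨T2, h2, h3⟩ := ih j (Nat.lt_succ_iff.1 h1)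
      exact ⟨T2, h2.trans (subset_insert _ _), h3⟩
    · obtain rfl : j = k + 1 := le_antisymm hj h1
      exact ⟨_, Subset.refl _, Chain.succ hc hul hl⟩

theorem deg_mono {T T' : Finset (Sym2 V)} (h : T ⊆ T') (v : V) : degT T v ≤ degT T' v := by
  unfold degT
  exact card_le_card fun w hw => mem_filter.2 ⟨mem_univ _, h (mem_filter.1 hw).2⟩

theorem deg_pos {T : Finset (Sym2 V)} {u v : V} (h : s(u, v) ∈ T) : 1 ≤ degT T u := by
  unfold degT
  exact card_pos.2 ⟨v, mem_filter.2 ⟨mem_univ _, h⟩⟩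

theorem wf_bd {C : CG} (h : C.Wf) : ∀ p ∈ C.E, p.1 < C.m ∧ p.2 < C.m ∧ p.1 ≠ p.2 := by
  intro p hp
  have := h.1 p hp
  exact ⟨this.1.trans this.2, this.2, this.1.ne⟩

theorem mem_combos {C : Core} {u k j : ℕ} (hu : u ≤ C.C.m) (hk : k < C.K)
    (hj : j < baseV C.C.m u + k) : (u, k, j) ∈ combos C := by
  unfold combos
  rw [List.mem_flatMap]
  refine ⟨u, List.mem_range.2 (Nat.lt_succ_iff.2 hu), ?_⟩
  rw [List.mem_flatMap]
  refine ⟨k, List.mem_range.2 hk, ?_⟩
  rw [List.mem_map]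
  exact ⟨j, List.mem_range.2 hj, rfl⟩

end CLO_

open CLO_ in
theorem p_CLO : T_CLO1 := by
  intro hDEC hPD1 hPD2 hPCH hPCO hDGM hNED hCER hRUN V _ _ _ cores goods Good hup hW hWg hE hD hm
    h1 h2 hrun
  have key : ∀ n : ℕ, ∀ T : Finset (Sym2 V), T.card = n → Lpl T → Leafless T →
      Good T ∨ ∃ C ∈ cores, ∃ φ : ℕ → V, Copy C.C.m C.C.E φ T := by
    intro n
    induction n using Nat.strong_induction_on with
    | _ n ih =>
      intro T hT hL hF
      by_cases hT0 : T = ∅
      · right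
        obtain ⟨C, hC, hC1, hC2⟩ := hE
        refine ⟨C, hC, fun _ => Classical.arbitrary V, ?_, ?_⟩
        · rw [hC1]
          intro i hi
          exact absurd hi (Nat.not_lt_zero i)
        · rw [hC2, hT0]
          simp [img]
      obtain ⟨C, T1, u, l, w, k, hC1, hC2, hC3, hP, hlw, hne, hins, hdw, hmax, hmin⟩ :=
        hDEC hPD1 hPD2 V T hL hF hT0
      have hT1T : T1 ⊆ T := by rw [hins]; exact subset_insert _ _
      have hcard : T1.card < T.card := by
        rw [hins, card_insert_of_notMem hlw]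
        exact Nat.lt_succ_self _
      have hCc : C.card < n := by
        rw [← hT]
        exact lt_of_le_of_lt (card_le_card hC3) hcard
      rcases ih C.card hCc C rfl hC2 hC1 with hg | ⟨C0, hC0, φ, hφ⟩
      · exact Or.inl (hup C T (hC3.trans hT1T) hg)
      obtain ⟨hch, _⟩ := hPCH V C T1 u l k hP
      rcases Nat.lt_or_ge k C0.K with hk | hk
      · have hWf := hW C0 hC0
        have hm12 : C0.C.m ≤ 12 := hWf.2.2
        have hdeg : ∀ i < C0.C.m, 1 ≤ degT C (φ i) := by
          intro i hi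
          have h3 := (hDGM V C0.C.m C0.C.E φ (by omega) (wf_bd hWf) hφ.1).2.1 i hi
          rw [hφ.2, ← h3]
          exact hD C0 hC0 i hi
        obtain ⟨u0, hu0, ψ, hψ, hT1, hlast, hdeg1, hcov⟩ := hPCO V C0.C φ C T1 u l k hWf hφ hdeg hP
        obtain ⟨j, hj, hjw⟩ := hcov w hdw
        have hb : baseV C0.C.m u0 + k ≤ 16 := by
          have h3 := hm C0 hC0
          have h4 : baseV C0.C.m u0 ≤ C0.C.m + 1 := by
            unfold baseV
            exact Nat.max_le.2 ⟨Nat.le_succ _, Nat.succ_le_succ hu0⟩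
          omega
        have hlwT : s(l, w) ∈ T := by rw [hins]; exact mem_insert_self _ _
        obtain ⟨hneed, hTimg, hbd⟩ := hNED hDGM V C0.C u0 k j ψ T1 T hWf hu0 hb hψ hT1 hj
          (by rw [hjw, hlast]; exact hne.symm) (by rw [hjw, hlast]; exact hlw)
          (by rw [hjw, hlast]; exact hins) hF
          (by
            intro i hi
            rcases hdeg1 i hi with h3 | h3
            · rw [h3]; exact deg_pos hlwT
            · exact h3.trans (deg_mono hT1T _))
          (by intro v; rw [hjw]; exact hmax v)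
          (by intro v hv; rw [hlast]; rw [hjw] at hv; exact hmin v hv)
        obtain ⟨certs, hcerts⟩ := hrun C0 hC0
        obtain ⟨n', hn'⟩ := hRUN cores goods C0.C (combos C0) certs hcerts (u0, k, j)
          (mem_combos hu0 hk hj) hneed
        rcases hCER hDGM V cores goods (baseV C0.C.m u0 + k) n' (comboE C0.C u0 k j) ψ hW hWg hb
          hbd hψ hn' with ⟨C', hC', φ', hφ'⟩ | ⟨C', hC', φ', A0, A1, hA, hA1, hA2⟩ |
            ⟨C', hC', φ', A0, hA, hA2⟩
        · right
          rw [← hTimg] at hφ'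
          exact ⟨C', hC', φ', hφ'⟩
        · left
          rw [← hTimg] at hA2
          exact hup A1 T hA2 (h1 C' hC' φ' A0 A1 hA hA1)
        · left
          rw [← hTimg] at hA2
          exact hup A0 T hA2 (h2 C' hC' φ' A0 hA)
      · left
        obtain ⟨T2, hT2, hc2⟩ := trunc hch C0.K hk
        exact hup T2 T (hT2.trans hT1T) (h1 C0 hC0 φ C T2 hφ hc2)
  intro T hL hF
  exact key T.card T rfl hL hF

theorem p_CLO2 : T_CLO := p_CLO

end Pool.Agent.KFV
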