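import Pool.Agent.KFV.Targets2

/-!
# KFV, target COK: soundness of the check of a core
-/

set_option autoImplicit false

namespace Pool.Agent.KFV

open Finset

namespace COK_

theorem frc_eq {α : Type} (n : ℕ) (f : ℕ → α) : frc n f = f n := by
  cases n <;> rfl

theorem Hn_five {V : Type} [Fintype V] [DecidableEq V] (tab : List Ent) (i : ℕ) (hi : 5 ≤ i)
    (T : Finset (Sym2 V)) (c : V → Fin 4) : Hn tab i T c = 0 := by
  unfold Hn
  have h1 : ∀ t : Ent, t.h i = 0 := by
    intro t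
    unfold Ent.h
    rw [if_neg (by omega)]
  simp [h1]

theorem Av_five {V : Type} [Fintype V] [DecidableEq V] (tab : List Ent)
    (T : Finset (Sym2 V)) (i : ℕ) (hi : 5 ≤ i) : Av tab i T = 0 := by
  unfold Av Ex
  simp [Hn_five tab i hi]

theorem chain_zero {V : Type} [DecidableEq V] {T T' : Finset (Sym2 V)} {j : ℕ}
    (h : Chain T j T') (hj : j = 0) : T' = T := by
  cases h with
  | zero => rfl
  | succ => omega

end COK_

open COK_ in
theorem p_COK : T_COK := by
  intro hAVC hEMK hEMV hCPY hLFG hCHG hLFA hCHA hEVL V _ _ tree C φ T0 hT hLA hOK hC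
  unfold coreOK at hOK
  rw [frc_eq] at hOK
  simp only [Bool.and_eq_true, decide_eq_true_eq] at hOK
  obtain ⟨⟨⟨hWf, hN⟩, hG⟩, hA⟩ := hOK
  have hN' : evalG tree C.C < BB ^ 15 := Nat.blt_eq.mp hN
  have hG' := Nat.blt_eq.mp hG
  obtain ⟨hE1, hE2⟩ := hEVL C.C tree hWf hT hN'
  obtain ⟨ψ, -, hψ⟩ := hCPY V C.C φ T0 hWf hC
  have hAv : ∀ i, Av tree.toL i T0 = Av tree.toL i (TG C.C) := by
    intro i
    rw [hψ]
    exact (hEMV hAVC hEMK V (Fin C.C.m) ψ (TG C.C) tree.toL i).1
  have hGv : ∀ i, Gv tree.toL i T0 = Gv tree.toL i (TG C.C) := by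
    intro i
    rw [hψ]
    exact (hEMV hAVC hEMK V (Fin C.C.m) ψ (TG C.C) tree.toL i).2.1
  have h4 : (0 : ℚ) < 4 ^ C.C.m := by positivity
  constructor
  · intro T1 h1
    have g := fun k hk => hE2 k hk
    simp only [← hGv] at g
    have h2 := hCHG hLFG V T0 T1 tree.toL C.K (4 ^ C.C.m) _ _ _ _ _ hT.r4 h4 h1
      (g 0 (by norm_num)) (g 1 (by norm_num)) (g 2 (by norm_num)) (g 3 (by norm_num))
      (g 4 (by norm_num))
    rw [← pow_add] at h2
    have h3 : (((gIter C.K [fld (evalG tree C.C) (10 + 0), fld (evalG tree C.C) (10 + 1),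
        fld (evalG tree C.C) (10 + 2), fld (evalG tree C.C) (10 + 3),
        fld (evalG tree C.C) (10 + 4)]).headD 0 : ℕ) : ℚ) <
        ((LL * 4 ^ (C.C.m + C.K) : ℕ) : ℚ) := by
      exact_mod_cast hG'
    have h5 := lt_of_le_of_lt h2 h3
    push_cast at h5
    exact lt_of_mul_lt_mul_right h5 (by positivity)
  · intro j T1 h1 hne
    have e := fun i hi => hE1 i hi
    simp only [← hAv] at e
    have hL : (LL : ℚ) ≠ 0 := by
      unfold LL
      norm_num
    have hD : ((((LL : ℤ) * 4 ^ C.C.m : ℤ) : ℚ) / (LL : ℚ)) = 4 ^ C.C.m := by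
      push_cast
      rw [mul_div_assoc, mul_comm, div_mul_cancel₀ _ hL]
    refine hCHA hLFA V T0 T1 tree.toL j 14 C.C.E.isEmpty ((LL : ℤ) * 4 ^ C.C.m) _ _ _ _ _ hLA
      (fun T i hi => Av_five tree.toL T i hi) ?_ ?_ ?_ ?_ ?_ ?_ hA h1 ?_
    · have : (0 : ℤ) < (LL : ℤ) := by
        unfold LL
        norm_num
      positivity
    · rw [hD, e 0 (by norm_num)]
      push_cast
      rfl
    · rw [hD, e 1 (by norm_num)]
      push_cast
      rfl
    · rw [hD, e 2 (by norm_num)]
      push_cast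
      rfl
    · rw [hD, e 3 (by norm_num)]
      push_cast
      rfl
    · rw [hD, e 4 (by norm_num)]
      push_cast
      rfl
    · intro hst
      by_contra hj
      apply hne
      rw [chain_zero h1 (by omega), hC.2]
      rw [List.isEmpty_iff] at hst
      rw [hst]
      rfl

end Pool.Agent.KFV
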