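import Pool.Agent.KFV.Targets

/-!
# KFV, CPY: a copy of a concrete graph is an image of `TG C`
-/

namespace Pool.Agent.KFV

open Finset

theorem p_CPY : T_CPY := by
  intro V _ _ C φ T hwf hcopy
  obtain ⟨hinj, hT⟩ := hcopy
  obtain ⟨hE, -, -⟩ := hwf
  refine ⟨⟨fun i => φ i, ?_⟩, fun i => rfl, ?_⟩
  · intro i j hij
    exact Fin.ext (hinj (Set.mem_Iio.2 i.2) (Set.mem_Iio.2 j.2) hij)
  · rw [hT]
    ext e
    simp only [img, TG, List.mem_toFinset, List.mem_map, mem_map, mem_image, mem_filter,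
      mem_univ, true_and, Function.Embedding.sym2Map_apply]
    constructor
    · rintro ⟨p, hp, rfl⟩
      have h1 := hE p hp
      refine ⟨s(⟨p.1, by omega⟩, ⟨p.2, by omega⟩), ⟨(⟨p.1, by omega⟩, ⟨p.2, by omega⟩), ?_, rfl⟩,
        ?_⟩
      · exact hp
      · rw [Sym2.map_mk]
        rfl
    · rintro ⟨x, ⟨q, hq, rfl⟩, rfl⟩
      refine ⟨((q.1 : ℕ), (q.2 : ℕ)), hq, ?_⟩
      rw [Sym2.map_mk]
      rfl

end Pool.Agent.KFV
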