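import Pool.Agent.KFV.Targets2

set_option autoImplicit false

/-!
# CTY: every coloured graph of rank at most three is a copy of one of the types
-/

namespace Pool.Agent.KFV

open Finset

namespace CTY_

lemma ext_mem (types : List CC) : ∀ (l : List CC) (ns : List ℕ), extOK types l ns = true →
    ∀ D' ∈ l, D'.Wf ∧ ∃ n, ccert types D' n = true := by
  intro l
  induction l with
  | nil => intro ns _ D' h; simp at h
  | cons D0 l ih =>
    intro ns h D' hD
    cases ns with
    | nil => simp [extOK] at h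
    | cons n ns =>
      simp only [extOK, Bool.and_eq_true, decide_eq_true_eq] at h
      rcases List.mem_cons.mp hD with h1 | h1
      · subst h1
        exact ⟨h.1.1, n, h.1.2⟩
      · exact ih ns h.2 D' h1

theorem main (hP : T_PKA) (hS : T_STN) (hR1 : T_RK1) (hR2 : T_RK2) (hRow : T_ROW) (hL : T_LFL)
    (hK : T_KEY) (hA : T_AVC) (hE : T_EMK) (hX : T_XRI) (hI : T_INV) (hRK : T_RKY) (hM : T_MON)
    (hD : T_DGM) (hEx : T_EXC) (hC : T_CCE)
    (V : Type) [Fintype V] [DecidableEq V] [Nonempty V] (types : List CC)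
    (c : V → Fin 4) (hWf : ∀ D ∈ types, D.Wf) (h0 : ∃ D ∈ types, D.C.m = 0 ∧ D.C.E = [])
    (hext : ∀ D ∈ types, ∃ ns, extOK types (extC D) ns = true) :
    ∀ (N : ℕ) (T : Finset (Sym2 V)), (univ.filter (fun p : V × V => xr T c p.1 p.2)).card = N →
      1 / 8 ≤ pr T c → ∃ D ∈ types, Real D T c := by
  intro N
  induction N using Nat.strong_induction_on with
  | _ N ih =>
    intro T hN hp
    by_cases hx : ∃ u v, xr T c u v
    · obtain ⟨u, v, huv⟩ := hx
      have hsub : T.erase s(u, v) ⊆ T := Finset.erase_subset _ _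
      have hp' : 1 / 8 ≤ pr (T.erase s(u, v)) c :=
        hp.trans (hM V (T.erase s(u, v)) T c hsub).2.2.2.1
      have hlt : (univ.filter (fun p : V × V => xr (T.erase s(u, v)) c p.1 p.2)).card < N := by
        rw [← hN]
        refine Finset.card_lt_card ⟨?_, ?_⟩
        · intro p hp
          rw [Finset.mem_filter] at hp ⊢
          exact ⟨hp.1, hsub hp.2.1, hp.2.2⟩
        · intro h
          have h1 := h (Finset.mem_filter.mpr ⟨Finset.mem_univ (u, v), huv⟩)
          rw [Finset.mem_filter] at h1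
          exact (Finset.mem_erase.mp h1.2.1).1 rfl
      obtain ⟨D, hDt, hDr⟩ := ih _ hlt (T.erase s(u, v)) rfl hp'
      obtain ⟨D', hD', hr'⟩ := hEx hD V D T c u v (hWf D hDt) huv hDr
      obtain ⟨ns, hns⟩ := hext D hDt
      obtain ⟨hw', n, hn⟩ := ext_mem types (extC D) ns hns D' hD'
      rcases hC hD V types D' n T c hWf hw' hn hr' with h4 | h4
      · exfalso
        have hk := hK hP hS hR1 hR2 hRow hL D' (keyOf D').1 (keyOf D').2.1 (keyOf D').2.2.1
          (keyOf D').2.2.2 hw' rfl
        have hk2 := hRK hA hE hX hI V D' T c hw' hr'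
        rw [hk2.1, hk.1] at hp
        have h5 : ((1 : ℚ) / 2) ^ (keyOf D').1 ≤ (1 / 2) ^ 4 :=
          pow_le_pow_of_le_one (by norm_num) (by norm_num) h4
        have h6 := hp.trans h5
        norm_num at h6
      · exact h4
    · obtain ⟨D, hDt, hm, hEE⟩ := h0
      refine ⟨D, hDt, fun _ => Classical.arbitrary V, ?_, 1, ?_, ?_⟩
      · rw [hm]
        intro a ha
        exact absurd ha (Nat.not_lt_zero a)
      · intro a b
        constructor
        · intro h
          exact absurd ⟨a, b, h⟩ hx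
        · intro h
          rw [hEE] at h
          simp [img] at h
      · intro i hi
        rw [hm] at hi
        exact absurd hi (Nat.not_lt_zero i)

end CTY_

theorem p_CTY' : T_PKA → T_STN → T_RK1 → T_RK2 → T_ROW → T_LFL → T_KEY → T_AVC → T_EMK →
    T_XRI → T_INV → T_RKY → T_MON → T_DGM → T_EXC → T_CCE →
    ∀ (V : Type) [Fintype V] [DecidableEq V] [Nonempty V] (types : List CC) (T : Finset (Sym2 V))
    (c : V → Fin 4), (∀ D ∈ types, D.Wf) → (∃ D ∈ types, D.C.m = 0 ∧ D.C.E = []) →
    (∀ D ∈ types, ∃ ns, extOK types (extC D) ns = true) → 1 / 8 ≤ pr T c →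
    ∃ D ∈ types, Real D T c := by
  intro hP hS hR1 hR2 hRow hL hK hA hE hX hI hRK hM hD hEx hC V _ _ _ types T c hWf h0 hext hp
  exact CTY_.main hP hS hR1 hR2 hRow hL hK hA hE hX hI hRK hM hD hEx hC V types c hWf h0 hext _ T
    rfl hp

theorem p_CTY : T_CTY := p_CTY'

end Pool.Agent.KFV
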