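import Pool.Agent.KFV.Targets

/-!
# KFV, target DEC: the last edge of a leafless graph.
-/

namespace Pool.Agent.KFV

open Finset

namespace DEC_

variable {V : Type} [Fintype V] [DecidableEq V]

theorem deg_other (T : Finset (Sym2 V)) {l w v : V} (h1 : v ≠ l) (h2 : v ≠ w) :
    degT (T.erase s(l, w)) v = degT T v := by
  unfold degT
  congr 1
  refine Finset.filter_congr fun x _ => ?_
  rw [Finset.mem_erase]
  refine ⟨fun h => h.2, fun h => ⟨fun he => ?_, h⟩⟩
  rcases Sym2.eq_iff.1 he with h3 | h3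
  · exact h1 h3.1
  · exact h2 h3.1

theorem deg_left (T : Finset (Sym2 V)) {l w : V} (h : s(l, w) ∈ T) :
    degT (T.erase s(l, w)) l + 1 = degT T l := by
  have h1 : (univ.filter fun x => s(l, x) ∈ T.erase s(l, w))
      = (univ.filter fun x => s(l, x) ∈ T).erase w := by
    ext x
    simp only [Finset.mem_filter, Finset.mem_univ, true_and, Finset.mem_erase, ne_eq,
      Sym2.congr_right]
  unfold degT
  rw [h1]
  exact Finset.card_erase_add_one (by simpa using h)

theorem deg_right (T : Finset (Sym2 V)) {l w : V} (h : s(l, w) ∈ T) :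
    degT (T.erase s(l, w)) w + 1 = degT T w := by
  rw [Sym2.eq_swap (a := l) (b := w)] at h ⊢
  exact deg_left T h

theorem deg_pos (T : Finset (Sym2 V)) {v x : V} (h : s(v, x) ∈ T) : 1 ≤ degT T v :=
  Finset.card_pos.2 ⟨x, by simpa using h⟩

end DEC_

open DEC_ in
/-- Target DEC. -/
theorem p_DEC : T_DEC := by
  intro hP1 hP2 V _ _ T hL hT hne
  -- an edge
  obtain ⟨e, he⟩ := Finset.nonempty_iff_ne_empty.2 hne
  induction e using Sym2.ind with
  | _ a b =>
  obtain ⟨w, -, hw⟩ := Finset.exists_max_image (univ : Finset V) (degT T) ⟨a, mem_univ a⟩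
  have hw1 : ∀ v, degT T v ≤ degT T w := fun v => hw v (mem_univ v)
  have hwpos : 1 ≤ degT T w := (deg_pos T he).trans (hw1 a)
  have hw2 : 2 ≤ degT T w := by
    have := hT w
    omega
  obtain ⟨x, hx⟩ := Finset.card_pos.1 (show 0 < (univ.filter fun x => s(w, x) ∈ T).card from hwpos)
  obtain ⟨l, hl, hlmin⟩ := Finset.exists_min_image (univ.filter fun x => s(w, x) ∈ T)
    (degT T) ⟨x, hx⟩
  have hwl : s(w, l) ∈ T := (Finset.mem_filter.1 hl).2
  have hlw : s(l, w) ∈ T := by rwa [Sym2.eq_swap]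
  have hne' : l ≠ w := by
    rintro rfl
    exact hL l hlw
  have hmin : ∀ v, s(w, v) ∈ T → degT T l ≤ degT T v := fun v hv =>
    hlmin v (Finset.mem_filter.2 ⟨mem_univ v, hv⟩)
  have hL1 : Lpl (T.erase s(l, w)) := fun v hv => hL v (Finset.mem_of_mem_erase hv)
  have hdl := deg_left T hlw
  have hdw := deg_right T hlw
  have hlp : 2 ≤ degT T l := by
    have h1 := deg_pos T hlw
    have h2 := hT l
    omega
  have hins : T = insert s(l, w) (T.erase s(l, w)) := (Finset.insert_erase hlw).symm
  rcases Nat.lt_or_ge 2 (degT T w) with h3 | h3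
  · obtain ⟨C, u, k, hC1, hC2, hC3, -, hC5⟩ := hP1 V (T.erase s(l, w)) l hL1 (by omega)
      (fun v hv => by
        by_cases hvw : v = w
        · subst hvw
          omega
        · rw [deg_other T hv hvw]
          exact hT v)
    exact ⟨C, T.erase s(l, w), u, l, w, k, hC1, hC2, hC3, hC5, Finset.notMem_erase _ _, hne',
      hins, by omega, hw1, hmin⟩
  · have h4 : ∀ v, degT T v = 0 ∨ degT T v = 2 := fun v => by
      have h5 := hw1 v
      have h6 := hT v
      omega
    obtain ⟨C, k, hC1, hC2, hC3, -, hC5⟩ := hP2 V (T.erase s(l, w)) w l hL1 (Ne.symm hne')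
      (by omega) (by have := h4 l; omega) (fun v hv1 hv2 => by
        rw [deg_other T hv2 hv1]
        exact h4 v)
    exact ⟨C, T.erase s(l, w), w, l, w, k, hC1, hC2, hC3, hC5, Finset.notMem_erase _ _, hne',
      hins, by omega, hw1, hmin⟩

end Pool.Agent.KFV
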