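import Pool.Agent.KFV.Targets

/-!
# KFV: meaning of the adjacency mask
-/

set_option autoImplicit false

namespace Pool.Agent.KFV

open Finset

namespace DGM_

theorem tb_iff (A n : ℕ) : tb A n = true ↔ A.testBit n = true := by
  unfold tb
  rw [Nat.beq_eq, Nat.testBit_eq_decide_div_mod_eq, decide_eq_true_iff]
  exact Iff.rfl

theorem adj_iff (E : List (ℕ × ℕ)) (n : ℕ) : (adjM E).testBit n = true ↔
    ∃ p ∈ E, n = 16 * p.1 + p.2 ∨ n = 16 * p.2 + p.1 := by
  induction E with
  | nil => simp [adjM]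
  | cons q E ih =>
    have h1 : adjM (q :: E) = adjM E ||| ((2 ^ (16 * q.1 + q.2)) ||| (2 ^ (16 * q.2 + q.1))) := rfl
    rw [h1, Nat.testBit_or, Nat.testBit_or, Nat.testBit_two_pow, Nat.testBit_two_pow]
    simp only [Bool.or_eq_true, decide_eq_true_eq, List.mem_cons]
    rw [ih]
    constructor
    · rintro (⟨p, hp, h⟩ | h | h)
      · exact ⟨p, Or.inr hp, h⟩
      · exact ⟨q, Or.inl rfl, Or.inl h.symm⟩
      · exact ⟨q, Or.inl rfl, Or.inr h.symm⟩
    · rintro ⟨p, rfl | hp, h⟩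
      · right
        rcases h with h | h
        · left; exact h.symm
        · right; exact h.symm
      · left
        exact ⟨p, hp, h⟩

theorem img_iff {V : Type} [DecidableEq V] (E : List (ℕ × ℕ)) (ψ : ℕ → V) (a b : V) :
    s(a, b) ∈ img ψ E ↔
      ∃ p ∈ E, (ψ p.1 = a ∧ ψ p.2 = b) ∨ (ψ p.1 = b ∧ ψ p.2 = a) := by
  unfold img
  rw [List.mem_toFinset, List.mem_map]
  constructor
  · rintro ⟨p, hp, h⟩
    rw [Sym2.eq_iff] at h
    exact ⟨p, hp, h⟩
  · rintro ⟨p, hp, h⟩
    exact ⟨p, hp, Sym2.eq_iff.mpr h⟩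

theorem fold_len (f : ℕ → Bool) (l : List ℕ) :
    l.foldr (fun j x => bif f j then Nat.succ x else x) 0 = (l.filter f).length := by
  induction l with
  | nil => rfl
  | cons a l ih =>
    rw [List.foldr_cons, ih, List.filter_cons]
    cases h : f a <;> simp

theorem main1 {V : Type} [DecidableEq V] (m : ℕ) (E : List (ℕ × ℕ))
    (ψ : ℕ → V) (hm : m ≤ 16) (hE : ∀ p ∈ E, p.1 < m ∧ p.2 < m ∧ p.1 ≠ p.2)
    (hψ : Set.InjOn ψ (Set.Iio m)) (i : ℕ) (hi : i < m) (j : ℕ) (hj : j < m) :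
    tb (adjM E) (16 * i + j) = true ↔ s(ψ i, ψ j) ∈ img ψ E := by
  rw [tb_iff, adj_iff, img_iff]
  constructor
  · rintro ⟨p, hp, h⟩
    obtain ⟨h1, h2, h3⟩ := hE p hp
    refine ⟨p, hp, ?_⟩
    rcases h with h | h
    · left
      have e1 : i = p.1 := by omega
      have e2 : j = p.2 := by omega
      rw [e1, e2]
      exact ⟨rfl, rfl⟩
    · right
      have e1 : i = p.2 := by omega
      have e2 : j = p.1 := by omega
      rw [e1, e2]
      exact ⟨rfl, rfl⟩
  · rintro ⟨p, hp, h⟩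
    obtain ⟨h1, h2, h3⟩ := hE p hp
    refine ⟨p, hp, ?_⟩
    rcases h with ⟨ha, hb⟩ | ⟨ha, hb⟩
    · left
      have e1 := hψ (Set.mem_Iio.mpr h1) (Set.mem_Iio.mpr hi) ha
      have e2 := hψ (Set.mem_Iio.mpr h2) (Set.mem_Iio.mpr hj) hb
      omega
    · right
      have e1 := hψ (Set.mem_Iio.mpr h1) (Set.mem_Iio.mpr hj) ha
      have e2 := hψ (Set.mem_Iio.mpr h2) (Set.mem_Iio.mpr hi) hb
      omega

end DGM_

open DGM_ in
theorem p_DGM : T_DGM := by
  intro V _ _ m E ψ hm hE hψ
  refine ⟨fun i hi j hj => main1 m E ψ hm hE hψ i hi j hj, ?_, ?_⟩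
  · intro i hi
    have h1 : degM (adjM E) m i =
        ((Finset.range m).filter (fun j => tb (adjM E) (16 * i + j) = true)).card := by
      have h2 : degM (adjM E) m i =
          ((List.range m).filter (fun j => tb (adjM E) (16 * i + j))).length :=
        fold_len (fun j => tb (adjM E) (16 * i + j)) (List.range m)
      rw [h2, ← List.toFinset_card_of_nodup (List.nodup_range.filter _)]
      congr 1
      ext j
      simp
    rw [h1]
    unfold degT
    have h3 : (univ.filter (fun w => s(ψ i, w) ∈ img ψ E)) =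
        ((Finset.range m).filter (fun j => tb (adjM E) (16 * i + j) = true)).image ψ := by
      ext w
      rw [mem_filter, mem_image]
      constructor
      · rintro ⟨-, hw⟩
        have hw' := hw
        rw [img_iff] at hw'
        obtain ⟨p, hp, h⟩ := hw'
        obtain ⟨a1, a2, a3⟩ := hE p hp
        rcases h with ⟨ha, hb⟩ | ⟨ha, hb⟩
        · refine ⟨p.2, ?_, hb⟩
          rw [mem_filter, Finset.mem_range]
          refine ⟨a2, ?_⟩
          rw [main1 m E ψ hm hE hψ i hi p.2 a2, hb]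
          exact hw
        · refine ⟨p.1, ?_, ha⟩
          rw [mem_filter, Finset.mem_range]
          refine ⟨a1, ?_⟩
          rw [main1 m E ψ hm hE hψ i hi p.1 a1, ha]
          exact hw
      · rintro ⟨j, hj, rfl⟩
        rw [mem_filter, Finset.mem_range] at hj
        refine ⟨mem_univ _, ?_⟩
        rw [← main1 m E ψ hm hE hψ i hi j hj.1]
        exact hj.2
    rw [h3, card_image_of_injOn]
    intro a ha b hb hab
    rw [mem_coe, mem_filter, Finset.mem_range] at ha hb
    exact hψ (Set.mem_Iio.mpr ha.1) (Set.mem_Iio.mpr hb.1) hab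
  · intro v hv
    unfold degT at hv
    have hne : (univ.filter (fun w => s(v, w) ∈ img ψ E)).Nonempty := by
      rw [← card_pos]
      omega
    obtain ⟨w, hw⟩ := hne
    rw [mem_filter, img_iff] at hw
    obtain ⟨-, p, hp, h⟩ := hw
    obtain ⟨a1, a2, a3⟩ := hE p hp
    rcases h with ⟨ha, hb⟩ | ⟨ha, hb⟩
    · exact ⟨p.1, a1, ha⟩
    · exact ⟨p.2, a2, hb⟩

end Pool.Agent.KFV
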