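import Pool.Agent.KFV.Targets

set_option autoImplicit false

/-!
# KFV, target EMK: the key of the image of a graph (MP_64e56f_co, r = 5)
-/

namespace Pool.Agent.KFV

open Finset

namespace EMK_

variable {V W : Type} [Fintype V] [DecidableEq V] [Fintype W] [DecidableEq W]

omit [Fintype V] [DecidableEq V] [Fintype W] [DecidableEq W] in
theorem mem_iff (φ : W ↪ V) (T : Finset (Sym2 W)) (u v : W) :
    s(φ u, φ v) ∈ T.map φ.sym2Map ↔ s(u, v) ∈ T := by
  have h : s(φ u, φ v) = φ.sym2Map s(u, v) := rfl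
  rw [h, Finset.mem_map']

omit [Fintype V] [DecidableEq V] [Fintype W] [DecidableEq W] in
theorem mem_range (φ : W ↪ V) (T : Finset (Sym2 W)) (v w : V)
    (h : s(v, w) ∈ T.map φ.sym2Map) : v ∈ Set.range φ ∧ w ∈ Set.range φ := by
  rw [Finset.mem_map] at h
  obtain ⟨e, he, hh⟩ := h
  induction e using Sym2.ind with
  | _ a b =>
    have h2 : s(φ a, φ b) = s(v, w) := hh
    rw [Sym2.eq_iff] at h2
    rcases h2 with ⟨h3, h4⟩ | ⟨h3, h4⟩
    · exact ⟨⟨a, h3⟩, ⟨b, h4⟩⟩
    · exact ⟨⟨b, h4⟩, ⟨a, h3⟩⟩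

omit [DecidableEq V] [DecidableEq W] in
theorem sum_range (φ : W ↪ V) (f : V → ℕ) (h : ∀ v, v ∉ Set.range φ → f v = 0) :
    ∑ v, f v = ∑ w, f (φ w) := by
  have h1 := Finset.sum_map (univ : Finset W) φ f
  rw [← h1]
  symm
  apply Finset.sum_subset (subset_univ _)
  intro v _ hv
  apply h
  intro ⟨w, hw⟩
  exact hv (Finset.mem_map.2 ⟨w, mem_univ _, hw⟩)

omit [Fintype V] [Fintype W] [DecidableEq V] [DecidableEq W] in
theorem xr_iff (φ : W ↪ V) (T : Finset (Sym2 W)) (c : V → Fin 4) (u v : W) :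
    xr (T.map φ.sym2Map) c (φ u) (φ v) ↔ xr T (c ∘ φ) u v := by
  unfold xr
  rw [mem_iff]
  rfl

omit [Fintype V] [Fintype W] [DecidableEq V] [DecidableEq W] in
theorem xr_range (φ : W ↪ V) (T : Finset (Sym2 W)) (c : V → Fin 4) (v w : V)
    (h : xr (T.map φ.sym2Map) c v w) : v ∈ Set.range φ ∧ w ∈ Set.range φ :=
  mem_range φ T v w h.1

theorem dg_map (φ : W ↪ V) (T : Finset (Sym2 W)) (c : V → Fin 4) (u : W) :
    dg (T.map φ.sym2Map) c (φ u) = dg T (c ∘ φ) u := by
  unfold dg
  rw [sum_range φ]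
  · apply Finset.sum_congr rfl
    intro w _
    exact if_congr (xr_iff φ T c u w) rfl rfl
  · intro v hv
    exact if_neg (fun h => hv (xr_range φ T c _ _ h).2)

omit [Fintype W] [DecidableEq W] in
theorem dg_out (φ : W ↪ V) (T : Finset (Sym2 W)) (c : V → Fin 4) (v : V)
    (hv : v ∉ Set.range φ) : dg (T.map φ.sym2Map) c v = 0 := by
  unfold dg
  apply Finset.sum_eq_zero
  intro w _
  exact if_neg (fun h => hv (xr_range φ T c _ _ h).1)

theorem Ncl_map (φ : W ↪ V) (T : Finset (Sym2 W)) (c : V → Fin 4) (k : Fin 4) :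
    Ncl (T.map φ.sym2Map) c k = Ncl T (c ∘ φ) k := by
  unfold Ncl
  rw [sum_range φ]
  · apply Finset.sum_congr rfl
    intro w _
    rw [dg_map]
    rfl
  · intro v hv
    exact if_neg (fun h => h.2 (dg_out φ T c v hv))

theorem Dcl_map (φ : W ↪ V) (T : Finset (Sym2 W)) (c : V → Fin 4) (k : Fin 4) :
    Dcl (T.map φ.sym2Map) c k = Dcl T (c ∘ φ) k := by
  unfold Dcl
  rw [sum_range φ]
  · apply Finset.sum_congr rfl
    intro w _
    rw [dg_map]
    rfl
  · intro v hv
    rw [dg_out φ T c v hv]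
    exact ite_self 0

theorem wt_map (φ : W ↪ V) (T : Finset (Sym2 W)) (c : V → Fin 4) (u : W) :
    wt (T.map φ.sym2Map) c (φ u) = wt T (c ∘ φ) u := by
  unfold wt
  rw [dg_map, Dcl_map, Ncl_map]
  rfl

end EMK_

open EMK_

theorem p_EMK : T_EMK := by
  intro hAVC V W _ _ _ _ φ T c
  refine ⟨?_, ?_, ?_, ?_, ?_⟩
  · unfold e2
    rw [sum_range φ]
    · exact Finset.sum_congr rfl (fun w _ => dg_map φ T c w)
    · exact fun v hv => dg_out φ T c v hv
  · unfold sp2
    exact Finset.sum_congr rfl (fun k _ => by rw [Ncl_map])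
  · unfold X2
    rw [sum_range φ]
    · apply Finset.sum_congr rfl
      intro u _
      rw [sum_range φ]
      · apply Finset.sum_congr rfl
        intro w _
        rw [wt_map, wt_map]
        exact if_congr (xr_iff φ T c u w) rfl rfl
      · intro v hv
        exact if_neg (fun h => hv (xr_range φ T c _ _ h).2)
    · intro v hv
      apply Finset.sum_eq_zero
      intro w _
      exact if_neg (fun h => hv (xr_range φ T c _ _ h).1)
  · unfold pr
    rw [← hAVC V W Bool φ (fun b : W → Bool =>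
      if ∀ u v, xr T (c ∘ φ) u v → b u = b v then 1 else 0)]
    congr 1
    funext b
    have h : (∀ u v, xr (T.map φ.sym2Map) c u v → b u = b v) ↔
        (∀ u v, xr T (c ∘ φ) u v → (b ∘ φ) u = (b ∘ φ) v) := by
      constructor
      · intro h u v huv
        exact h (φ u) (φ v) ((xr_iff φ T c u v).2 huv)
      · intro h u v huv
        obtain ⟨⟨u', rfl⟩, ⟨v', rfl⟩⟩ := xr_range φ T c u v huv
        exact h u' v' ((xr_iff φ T c u' v').1 huv)
    exact if_congr h rfl rfl
  · unfold sg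
    congr 1
    rw [Finset.filter_map, Finset.card_map]
    congr 1
    apply Finset.filter_congr
    intro e _
    have h : (φ.sym2Map e).map c = e.map (c ∘ φ) := by
      have : φ.sym2Map e = e.map φ := rfl
      rw [this, Sym2.map_map]
    show ((φ.sym2Map e).map c).IsDiag ↔ (e.map (c ∘ φ)).IsDiag
    rw [h]

end Pool.Agent.KFV
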