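import Pool.Agent.KFV.Targets

set_option autoImplicit false

/-!
# EMV: the kernels and the averages are invariant under embeddings
-/

namespace Pool.Agent.KFV

open Finset

namespace EMV_

variable {V W : Type} [Fintype V] [DecidableEq V] [Fintype W] [DecidableEq W]

lemma mat_iff (hA : T_AVC) (hE : T_EMK) (φ : W ↪ V) (T : Finset (Sym2 W)) (c : V → Fin 4)
    (t : Ent) : Mat (T.map φ.sym2Map) c t ↔ Mat T (c ∘ φ) t := by
  obtain ⟨h1, h2, h3, h4, -⟩ := hE hA V W φ T c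
  unfold Mat
  rw [h1, h2, h3, h4]

lemma dom_iff (hA : T_AVC) (hE : T_EMK) (k : ℕ) (φ : W ↪ V) (T : Finset (Sym2 W))
    (c : V → Fin 4) (t : Ent) : Dom k (T.map φ.sym2Map) c t ↔ Dom k T (c ∘ φ) t := by
  obtain ⟨h1, h2, h3, h4, -⟩ := hE hA V W φ T c
  unfold Dom
  rw [h1, h2, h3, h4]

lemma hn_eq (hA : T_AVC) (hE : T_EMK) (φ : W ↪ V) (T : Finset (Sym2 W)) (tab : List Ent)
    (i : ℕ) (c : V → Fin 4) :
    Hn tab i (T.map φ.sym2Map) c = Hn tab i T (c ∘ φ) := by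
  classical
  unfold Hn
  exact congrArg List.sum (List.map_congr_left fun t _ =>
    if_congr (mat_iff hA hE φ T c t) rfl rfl)

lemma gn_eq (hA : T_AVC) (hE : T_EMK) (φ : W ↪ V) (T : Finset (Sym2 W)) (tab : List Ent)
    (k : ℕ) (c : V → Fin 4) :
    Gn tab k (T.map φ.sym2Map) c = Gn tab k T (c ∘ φ) := by
  classical
  unfold Gn
  exact congrArg (List.foldr max 0) (List.map_congr_left fun t _ =>
    if_congr (dom_iff hA hE k φ T c t) rfl rfl)

end EMV_

open EMV_ in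
theorem p_EMV : T_EMV := by
  intro hA hE V W _ _ _ _ φ T tab i
  refine ⟨?_, ?_, fun c => hn_eq hA hE φ T tab i c⟩
  · unfold Av
    rw [← hA V W (Fin 4) φ (fun d => ((sg T d * Hn tab i T d : ℤ) : ℚ))]
    congr 1
    ext c
    rw [hn_eq hA hE φ T tab i c, (hE hA V W φ T c).2.2.2.2]
  · unfold Gv
    rw [← hA V W (Fin 4) φ (fun d => ((Gn tab i T d : ℕ) : ℚ))]
    congr 1
    ext c
    rw [gn_eq hA hE φ T tab i c]

end Pool.Agent.KFV
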