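import Pool.Agent.KFV.Targets2

/-!
# KFV-EVL: the evaluator computes the averages
-/

namespace Pool.Agent.KFV

open Finset

namespace EVL_

theorem sum_lt (B : ℕ) (f : ℕ → ℕ) (k : ℕ) (hf : ∀ q < k, f q < B) :
    ∑ q ∈ range k, f q * B ^ q < B ^ k := by
  induction k with
  | zero => simp
  | succ k ih =>
    rw [sum_range_succ]
    have h1 := ih fun q hq => hf q (Nat.lt_succ_of_lt hq)
    have h2 := hf k (Nat.lt_succ_self k)
    calc ∑ q ∈ range k, f q * B ^ q + f k * B ^ k < B ^ k + f k * B ^ k :=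
          Nat.add_lt_add_right h1 _
      _ = (f k + 1) * B ^ k := by ring
      _ ≤ B * B ^ k := Nat.mul_le_mul_right _ h2
      _ = B ^ (k + 1) := by rw [pow_succ]; ring

theorem sum_split (B : ℕ) (f : ℕ → ℕ) (k n : ℕ) (hk : k < n) :
    ∑ q ∈ range n, f q * B ^ q = ∑ q ∈ range k, f q * B ^ q +
      B ^ k * (f k + B * ∑ i ∈ range (n - k - 1), f (k + 1 + i) * B ^ i) := by
  obtain ⟨d, rfl⟩ : ∃ d, n = k + 1 + d := ⟨n - k - 1, by omega⟩
  rw [sum_range_add, sum_range_succ]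
  have h1 : k + 1 + d - k - 1 = d := by omega
  rw [h1, mul_add, ← mul_assoc, mul_sum]
  have h2 : ∀ i ∈ range d, f (k + 1 + i) * B ^ (k + 1 + i) =
      B ^ k * B * (f (k + 1 + i) * B ^ i) := by
    intro i _
    rw [pow_add, pow_add, pow_one]
    ring
  rw [sum_congr rfl h2]
  ring

theorem digit (B : ℕ) (f : ℕ → ℕ) (k n : ℕ) (hk : k < n) (hf : ∀ q < n, f q < B) :
    (∑ q ∈ range n, f q * B ^ q) / B ^ k % B = f k := by
  have hB : 0 < B := lt_of_le_of_lt (Nat.zero_le _) (hf k hk)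
  have h1 := sum_lt B f k fun q hq => hf q (hq.trans hk)
  rw [sum_split B f k n hk, Nat.add_mul_div_left _ _ (pow_pos hB k), Nat.div_eq_of_lt h1,
    zero_add, Nat.add_mul_mod_self_left]
  exact Nat.mod_eq_of_lt (hf k hk)

theorem TJ_zero {m : ℕ} (T : Finset (Sym2 (Fin m))) : TJ T 0 = ∅ := by
  unfold TJ
  rw [filter_eq_empty_iff]
  intro e _ h
  induction e using Sym2.ind with
  | _ a b => exact absurd (h a (Sym2.mem_mk_left a b)) (Nat.not_lt_zero _)

theorem xr_empty {m : ℕ} (c : Fin m → Fin 4) (u v : Fin m) : ¬ xr ∅ c u v :=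
  fun h => absurd h.1 (notMem_empty _)

theorem dg_empty {m : ℕ} (c : Fin m → Fin 4) (v : Fin m) : dg ∅ c v = 0 := by
  unfold dg
  exact sum_eq_zero fun w _ => if_neg (xr_empty c v w)

theorem spt_empty {m : ℕ} (c : Fin m → Fin 4) : spt ∅ c = ∅ := by
  unfold spt
  rw [filter_eq_empty_iff]
  intro v _ h
  exact h (dg_empty c v)

theorem st0 {m : ℕ} (T : Finset (Sym2 (Fin m))) (c : Fin m → Fin 4) :
    StOK T c 0 [] 0 0 0 0 0 := by
  refine ⟨?_, ?_, ?_, ?_, ?_, ?_⟩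
  · simp
  · simp [pkS]
  · simp [pkS]
  · simp [pkS]
  · simp [pkS]
  · rw [TJ_zero, spt_empty]
    simp [pkS]

theorem cs0 {m : ℕ} (T : Finset (Sym2 (Fin m))) (c : Fin m → Fin 4) :
    CsOK (TJ T 0) c [] 0 := by
  rw [TJ_zero]
  refine ⟨[], rfl, List.Pairwise.nil, ?_, ?_, ?_, ?_⟩
  · intro K hK
    simp at hK
  · intro v
    simp [dg_empty]
  · intro b
    constructor
    · intro _ K hK
      simp at hK
    · intro _ u v h
      exact absurd h (xr_empty c u v)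
  · rw [spt_empty]
    simp

theorem SX_zero {m : ℕ} (p : Fin m → Fin 4) (F : (Fin m → Fin 4) → ℤ) :
    SX 0 p F = ∑ c, F c := by
  unfold SX
  rw [filter_true_of_mem]
  intro c _ i hi
  exact absurd hi (Nat.not_lt_zero _)

theorem Ex_mul {m : ℕ} (F : (Fin m → Fin 4) → ℚ) : Ex (Fin 4) F * 4 ^ m = ∑ c, F c := by
  unfold Ex
  rw [Fintype.card_fin, Fintype.card_fin]
  have : ((4 : ℕ) : ℚ) ^ m ≠ 0 := by positivity
  push_cast
  rw [div_mul_cancel₀]
  positivity

end EVL_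

open EVL_ in
theorem p_EVL : T_EVL := by
  intro hPKA hSTN hRK1 hRK2 hPRN hMON hSYM hINV hROW hLVF hLFL hLOK hUNM hGO C tree hW hT hev
  obtain ⟨f, h1, h2, h3, h4⟩ := hGO hPKA hSTN hRK1 hRK2 hPRN hMON hSYM hINV hROW hLVF hLFL hLOK
    hUNM C tree 0 (fun _ => 0) 0 [] 0 0 0 0 0 [] 0 hW hT (Nat.zero_le _) (Nat.zero_le _)
    (fun i hi => absurd hi (Nat.not_lt_zero _)) (st0 _ _) (cs0 _ _) hev
  have e1 : evalG tree C = ∑ q ∈ range 15, f q * BB ^ q := h1
  have hm : C.m ≤ 12 := hW.2.2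
  have hf : ∀ q < 15, f q < BB := by
    intro q hq
    refine lt_of_le_of_lt (h4 q hq) ?_
    calc 2 ^ 70 * 4 ^ (C.m - 0) ≤ 2 ^ 70 * 4 ^ 12 :=
          Nat.mul_le_mul_left _ (Nat.pow_le_pow_right (by norm_num) hm)
      _ < BB := by unfold BB; norm_num
  have hfld : ∀ q < 15, fld (evalG tree C) q = f q := by
    intro q hq
    unfold fld
    rw [e1]
    exact digit BB f q 15 hq hf
  constructor
  · intro i hi
    have h5 := h2 i hi
    rw [SX_zero] at h5
    rw [hfld _ (by omega), hfld _ (by omega)]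
    unfold Av
    rw [Ex_mul]
    have h6 : ((f (2 * i) : ℤ) : ℚ) - ((f (2 * i + 1) : ℤ) : ℚ) =
        ((∑ c, sg (TG C) c * Hn tree.toL i (TG C) c : ℤ) : ℚ) := by
      rw [← h5]
      push_cast
      ring
    rw [← Int.cast_sum, ← h6]
    push_cast
    ring
  · intro k hk
    have h5 := h3 k hk
    rw [SX_zero] at h5
    rw [hfld _ (by omega)]
    unfold Gv
    rw [Ex_mul]
    have h6 : ((∑ c, (Gn tree.toL k (TG C) c : ℤ) : ℤ) : ℚ) ≤ ((f (10 + k) : ℤ) : ℚ) := by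
      exact_mod_cast h5
    push_cast at h6
    exact_mod_cast h6

end Pool.Agent.KFV
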