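import Pool.Agent.KFV.Targets2

/-!
# KFV: EXC, one new cross edge
-/

set_option autoImplicit false

namespace Pool.Agent.KFV

open Finset

namespace EXC_

variable {V : Type} [Fintype V] [DecidableEq V]

theorem img_cons (φ : ℕ → V) (p : ℕ × ℕ) (E : List (ℕ × ℕ)) :
    img φ (p :: E) = insert s(φ p.1, φ p.2) (img φ E) := by
  unfold img
  simp

theorem img_congr {φ φ' : ℕ → V} {E : List (ℕ × ℕ)} {m : ℕ}
    (hE : ∀ p ∈ E, p.1 < m ∧ p.2 < m) (h : ∀ i < m, φ' i = φ i) : img φ' E = img φ E := by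
  unfold img
  congr 1
  apply List.map_congr_left
  intro p hp
  rw [h _ (hE p hp).1, h _ (hE p hp).2]

theorem xr_iff {T : Finset (Sym2 V)} {c : V → Fin 4} {u v : V} (hx : xr T c u v) (x y : V) :
    xr T c x y ↔ s(x, y) = s(u, v) ∨ xr (T.erase s(u, v)) c x y := by
  unfold xr at *
  constructor
  · rintro ⟨h1, h2⟩
    by_cases h : s(x, y) = s(u, v)
    · exact Or.inl h
    · exact Or.inr ⟨Finset.mem_erase.2 ⟨h, h1⟩, h2⟩
  · rintro (h | ⟨h1, h2⟩)
    · refine ⟨by rw [h]; exact hx.1, ?_⟩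
      rw [Sym2.eq_iff] at h
      rcases h with ⟨rfl, rfl⟩ | ⟨rfl, rfl⟩
      · exact hx.2
      · exact hx.2.symm
    · exact ⟨Finset.mem_of_mem_erase h1, h2⟩

theorem real_of {D D' : CC} {T : Finset (Sym2 V)} {c : V → Fin 4} {u v : V} {φ φ' : ℕ → V}
    {π : Equiv.Perm (Fin 4)} {i' j' : ℕ} (hD : D.Wf) (hx : xr T c u v)
    (hφ : ∀ x y, xr (T.erase s(u, v)) c x y ↔ s(x, y) ∈ img φ D.C.E)
    (hE : D'.C.E = (i', j') :: D.C.E) (hag : ∀ i < D.C.m, φ' i = φ i)
    (hs : s(φ' i', φ' j') = s(u, v)) (hinj : Set.InjOn φ' (Set.Iio D'.C.m))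
    (hcol : ∀ i < D'.C.m, c (φ' i) = π (colF D' i)) : Real D' T c := by
  have hEE : ∀ p ∈ D.C.E, p.1 < D.C.m ∧ p.2 < D.C.m := fun p hp =>
    ⟨(hD.1.1 p hp).1.trans (hD.1.1 p hp).2, (hD.1.1 p hp).2⟩
  refine ⟨φ', hinj, π, fun x y => ?_, hcol⟩
  rw [hE, img_cons, img_congr hEE hag, Finset.mem_insert, hs, xr_iff hx, hφ]

theorem getD_lt {D : CC} (hD : D.Wf) {i : ℕ} (hi : i < D.C.m) : D.col.getD i 0 < 4 := by
  have h1 : i < D.col.length := by rw [hD.2.1]; exact hi
  rw [List.getD_eq_getElem _ _ h1]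
  exact hD.2.2.1 _ (List.getElem_mem h1)

theorem colF_val {D : CC} (hD : D.Wf) {i : ℕ} (hi : i < D.C.m) :
    (colF D i : ℕ) = D.col.getD i 0 := Nat.mod_eq_of_lt (getD_lt hD hi)

/-- both ends have an index -/
theorem both (h : T_DGM) {D : CC} {T : Finset (Sym2 V)} {c : V → Fin 4} {u v : V} {φ : ℕ → V}
    {π : Equiv.Perm (Fin 4)} (hD : D.Wf) (hx : xr T c u v) (hinj : Set.InjOn φ (Set.Iio D.C.m))
    (hφ : ∀ x y, xr (T.erase s(u, v)) c x y ↔ s(x, y) ∈ img φ D.C.E)
    (hcol : ∀ i < D.C.m, c (φ i) = π (colF D i)) {i j : ℕ} (hj : j < D.C.m) (hij : i < j)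
    (hs : s(φ i, φ j) = s(u, v)) : ∃ D' ∈ extC D, Real D' T c := by
  have hi : i < D.C.m := hij.trans hj
  refine ⟨attE D i j, ?_, real_of hD hx hφ rfl (fun _ _ => rfl) hs hinj hcol⟩
  unfold extC
  rw [List.mem_append, List.mem_append]
  refine Or.inl (Or.inl ?_)
  rw [List.mem_flatMap]
  refine ⟨j, List.mem_range.2 hj, ?_⟩
  rw [List.mem_map]
  refine ⟨i, ?_, rfl⟩
  rw [List.mem_filter]
  refine ⟨List.mem_range.2 hij, ?_⟩
  have hE : ∀ p ∈ D.C.E, p.1 < D.C.m ∧ p.2 < D.C.m ∧ p.1 ≠ p.2 := fun p hp =>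
    ⟨(hD.1.1 p hp).1.trans (hD.1.1 p hp).2, (hD.1.1 p hp).2, (hD.1.1 p hp).1.ne⟩
  have h1 := (h V D.C.m D.C.E φ (hD.1.2.2.trans (by norm_num)) hE hinj).1 i hi j hj
  have h2 : s(φ i, φ j) ∉ img φ D.C.E := by
    rw [← hφ]
    intro hh
    have := hh.1
    rw [hs] at this
    exact Finset.notMem_erase _ _ this
  have h3 : tb (adjM D.C.E) (16 * i + j) = false := by
    rw [Bool.eq_false_iff]
    intro hh
    exact h2 (h1.1 hh)
  have h4 : c (φ i) ≠ c (φ j) := by
    rw [Sym2.eq_iff] at hs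
    rcases hs with ⟨a1, a2⟩ | ⟨a1, a2⟩
    · rw [a1, a2]
      exact hx.2
    · rw [a1, a2]
      exact hx.2.symm
  have h5 : D.col.getD i 0 ≠ D.col.getD j 0 := by
    intro hh
    apply h4
    rw [hcol i hi, hcol j hj]
    congr 1
    apply Fin.ext
    rw [colF_val hD hi, colF_val hD hj, hh]
  have h6 : Nat.beq (D.col.getD i 0) (D.col.getD j 0) = false := by
    rw [Bool.eq_false_iff]
    intro hh
    exact h5 (Nat.eq_of_beq_eq_true hh)
  rw [h3, h6]
  rfl

theorem update_inj {φ : ℕ → V} {m : ℕ} (hinj : Set.InjOn φ (Set.Iio m)) {v : V}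
    (hv : ∀ i < m, φ i ≠ v) : Set.InjOn (Function.update φ m v) (Set.Iio (m + 1)) := by
  intro a ha b hb hab
  rw [Set.mem_Iio] at ha hb
  rcases Nat.lt_succ_iff_lt_or_eq.1 ha with h1 | h1 <;>
    rcases Nat.lt_succ_iff_lt_or_eq.1 hb with h2 | h2
  · rw [Function.update_of_ne h1.ne, Function.update_of_ne h2.ne] at hab
    exact hinj h1 h2 hab
  · subst h2
    rw [Function.update_of_ne h1.ne, Function.update_self] at hab
    exact absurd hab (hv a h1)
  · subst h1
    rw [Function.update_of_ne h2.ne, Function.update_self] at hab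
    exact absurd hab.symm (hv b h2)
  · rw [h1, h2]

theorem perm_symm_val {π : Equiv.Perm (Fin 4)} {x : Fin 4} {y : Fin 4} (h : x ≠ y) :
    (π.symm x : ℕ) ≠ (π.symm y : ℕ) := by
  intro hh
  exact h (π.symm.injective (Fin.ext hh))

/-- one end has an index -/
theorem one {D : CC} {T : Finset (Sym2 V)} {c : V → Fin 4} {u v : V} {φ : ℕ → V}
    {π : Equiv.Perm (Fin 4)} (hD : D.Wf) (hx : xr T c u v) (hinj : Set.InjOn φ (Set.Iio D.C.m))
    (hφ : ∀ x y, xr (T.erase s(u, v)) c x y ↔ s(x, y) ∈ img φ D.C.E)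
    (hcol : ∀ i < D.C.m, c (φ i) = π (colF D i)) {i : ℕ} {w : V} (hi : i < D.C.m)
    (hw : ∀ j < D.C.m, φ j ≠ w) (hs : s(φ i, w) = s(u, v)) : ∃ D' ∈ extC D, Real D' T c := by
  have hne : c (φ i) ≠ c w := by
    rw [Sym2.eq_iff] at hs
    rcases hs with ⟨a1, a2⟩ | ⟨a1, a2⟩
    · rw [a1, a2]
      exact hx.2
    · rw [a1, a2]
      exact hx.2.symm
  set a : ℕ := (π.symm (c w) : ℕ) with ha
  have ha4 : a < 4 := (π.symm (c w)).2
  refine ⟨attA D i a, ?_, ?_⟩
  · unfold extC
    rw [List.mem_append, List.mem_append]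
    refine Or.inl (Or.inr ?_)
    rw [List.mem_flatMap]
    refine ⟨i, List.mem_range.2 hi, ?_⟩
    rw [List.mem_map]
    refine ⟨a, ?_, rfl⟩
    rw [List.mem_filter]
    refine ⟨List.mem_range.2 ha4, ?_⟩
    have h6 : Nat.beq (D.col.getD i 0) a = false := by
      rw [Bool.eq_false_iff]
      intro hh
      have h7 := Nat.eq_of_beq_eq_true hh
      apply hne
      rw [hcol i hi]
      have h8 : colF D i = π.symm (c w) := by
        apply Fin.ext
        rw [colF_val hD hi, h7]
      rw [h8, Equiv.apply_symm_apply]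
    rw [h6]
    rfl
  · refine real_of (π := π) (φ' := Function.update φ D.C.m w) (i' := i) (j' := D.C.m) hD hx hφ rfl
      (fun k hk => Function.update_of_ne hk.ne _ _) ?_ (update_inj hinj hw) ?_
    · rw [Function.update_of_ne hi.ne, Function.update_self]
      exact hs
    · intro k hk
      have hlen : D.col.length = D.C.m := hD.2.1
      rcases Nat.lt_succ_iff_lt_or_eq.1 (show k < D.C.m + 1 from hk) with h1 | h1
      · rw [Function.update_of_ne h1.ne, hcol k h1]
        congr 1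
        apply Fin.ext
        change D.col.getD k 0 % 4 = (D.col ++ [a]).getD k 0 % 4
        rw [List.getD_append _ _ _ _ (by rw [hlen]; exact h1)]
      · subst h1
        rw [Function.update_self]
        have h2 : colF (attA D i a) D.C.m = π.symm (c w) := by
          apply Fin.ext
          change (D.col ++ [a]).getD D.C.m 0 % 4 = (π.symm (c w) : ℕ)
          rw [List.getD_append_right _ _ _ _ (by rw [hlen]), hlen, Nat.sub_self]
          exact Nat.mod_eq_of_lt ha4
        rw [h2, Equiv.apply_symm_apply]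

/-- no end has an index -/
theorem none {D : CC} {T : Finset (Sym2 V)} {c : V → Fin 4} {u v : V} {φ : ℕ → V}
    {π : Equiv.Perm (Fin 4)} (hD : D.Wf) (hx : xr T c u v) (hinj : Set.InjOn φ (Set.Iio D.C.m))
    (hφ : ∀ x y, xr (T.erase s(u, v)) c x y ↔ s(x, y) ∈ img φ D.C.E)
    (hcol : ∀ i < D.C.m, c (φ i) = π (colF D i)) {w w' : V}
    (hw : ∀ j < D.C.m, φ j ≠ w) (hw' : ∀ j < D.C.m, φ j ≠ w') (hne : w ≠ w')
    (hlt : (π.symm (c w') : ℕ) < (π.symm (c w) : ℕ))
    (hs : s(w, w') = s(u, v)) : ∃ D' ∈ extC D, Real D' T c := by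
  set a : ℕ := (π.symm (c w') : ℕ) with ha
  set z : ℕ := (π.symm (c w) : ℕ) with hz
  have ha4 : a < 4 := (π.symm (c w')).2
  have hz4 : z < 4 := (π.symm (c w)).2
  have hlen : D.col.length = D.C.m := hD.2.1
  refine ⟨attB D z a, ?_, ?_⟩
  · unfold extC
    rw [List.mem_append]
    refine Or.inr ?_
    rw [List.mem_flatMap]
    refine ⟨z, List.mem_range.2 hz4, ?_⟩
    rw [List.mem_map]
    exact ⟨a, List.mem_range.2 hlt, rfl⟩
  · have hi1 := update_inj hinj hw
    have hw2 : ∀ j < D.C.m + 1, Function.update φ D.C.m w j ≠ w' := by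
      intro j hj
      rcases Nat.lt_succ_iff_lt_or_eq.1 hj with h1 | h1
      · rw [Function.update_of_ne h1.ne]
        exact hw' j h1
      · subst h1
        rw [Function.update_self]
        exact hne
    have hi2 := update_inj hi1 hw2
    refine real_of (π := π) (φ' := Function.update (Function.update φ D.C.m w) (D.C.m + 1) w')
      (i' := D.C.m) (j' := D.C.m + 1) hD hx hφ rfl ?_ ?_ hi2 ?_
    · intro k hk
      rw [Function.update_of_ne (by omega), Function.update_of_ne (by omega)]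
    · rw [Function.update_of_ne (by omega), Function.update_self, Function.update_self]
      exact hs
    · intro k hk
      have hk' : k < D.C.m + 2 := hk
      have h3 : k < D.C.m ∨ k = D.C.m ∨ k = D.C.m + 1 := by omega
      rcases h3 with h1 | h1 | h1
      · rw [Function.update_of_ne (by omega), Function.update_of_ne (by omega), hcol k h1]
        congr 1
        apply Fin.ext
        change D.col.getD k 0 % 4 = (D.col ++ [z, a]).getD k 0 % 4
        rw [List.getD_append _ _ _ _ (by rw [hlen]; exact h1)]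
      · subst h1
        rw [Function.update_of_ne (by omega), Function.update_self]
        have h2 : colF (attB D z a) D.C.m = π.symm (c w) := by
          apply Fin.ext
          change (D.col ++ [z, a]).getD D.C.m 0 % 4 = (π.symm (c w) : ℕ)
          rw [List.getD_append_right _ _ _ _ (by rw [hlen]), hlen, Nat.sub_self]
          exact Nat.mod_eq_of_lt hz4
        rw [h2, Equiv.apply_symm_apply]
      · subst h1
        rw [Function.update_self]
        have h2 : colF (attB D z a) (D.C.m + 1) = π.symm (c w') := by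
          apply Fin.ext
          change (D.col ++ [z, a]).getD (D.C.m + 1) 0 % 4 = (π.symm (c w') : ℕ)
          rw [List.getD_append_right _ _ _ _ (by rw [hlen]; omega), hlen, Nat.add_sub_cancel_left]
          exact Nat.mod_eq_of_lt ha4
        rw [h2, Equiv.apply_symm_apply]

end EXC_

open EXC_ in
/-- EXC. -/
theorem p_EXC : T_EXC := by
  intro h V _ _ D T c u v hD hx hR
  obtain ⟨φ, hinj, π, hφ, hcol⟩ := hR
  by_cases hu : ∃ i < D.C.m, φ i = u
  · obtain ⟨i, hi, hiu⟩ := hu
    by_cases hv : ∃ j < D.C.m, φ j = v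
    · obtain ⟨j, hj, hjv⟩ := hv
      have hne : i ≠ j := by
        intro hh
        apply hx.2
        rw [← hiu, ← hjv, hh]
      rcases lt_or_gt_of_ne hne with h1 | h1
      · exact both h hD hx hinj hφ hcol hj h1 (by rw [hiu, hjv])
      · exact both h hD hx hinj hφ hcol hi h1 (by rw [hiu, hjv, Sym2.eq_swap])
    · push Not at hv
      exact one hD hx hinj hφ hcol hi hv (by rw [hiu])
  · push Not at hu
    by_cases hv : ∃ j < D.C.m, φ j = v
    · obtain ⟨j, hj, hjv⟩ := hv
      exact one hD hx hinj hφ hcol hj hu (by rw [hjv, Sym2.eq_swap])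
    · push Not at hv
      have hne : u ≠ v := by
        intro hh
        apply hx.2
        rw [hh]
      rcases lt_or_gt_of_ne (perm_symm_val (π := π) hx.2) with h1 | h1
      · exact none hD hx hinj hφ hcol hv hu hne.symm h1 (Sym2.eq_swap)
      · exact none hD hx hinj hφ hcol hu hv hne h1 rfl

end Pool.Agent.KFV
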