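import Pool.Agent.KFV.Targets2

/-!
# KFV: correctness of the recursion `go`
-/

namespace Pool.Agent.KFV

open Finset

namespace GO_

theorem frc_eq {α : Type} (n : ℕ) (f : ℕ → α) : frc n f = f n := by cases n <;> rfl

/-- digit description of a value -/
def GV (F G : ℕ → ℤ) (B N : ℕ) : Prop :=
  ∃ f : ℕ → ℕ, N = ∑ q ∈ range 15, f q * BB ^ q ∧
    (∀ i < 5, (f (2 * i) : ℤ) - (f (2 * i + 1) : ℤ) = F i) ∧
    (∀ i < 5, G i ≤ (f (10 + i) : ℤ)) ∧ (∀ q < 15, f q ≤ B)

theorem GV_zero {F G : ℕ → ℤ} (B : ℕ) (hF : ∀ i < 5, F i = 0) (hG : ∀ i < 5, G i ≤ 0) :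
    GV F G B 0 :=
  ⟨fun _ => 0, by simp, fun i hi => by simp [hF i hi], fun i hi => by simpa using hG i hi,
    fun q _ => Nat.zero_le _⟩

theorem GV_add {F G F' G' : ℕ → ℤ} {B B' N N' : ℕ} (h : GV F G B N) (h' : GV F' G' B' N') :
    GV (fun i => F i + F' i) (fun i => G i + G' i) (B + B') (N + N') := by
  obtain ⟨f, h1, h2, h3, h4⟩ := h
  obtain ⟨f', h1', h2', h3', h4'⟩ := h'
  refine ⟨fun q => f q + f' q, ?_, ?_, ?_, ?_⟩
  · rw [h1, h1', ← sum_add_distrib]
    exact sum_congr rfl fun q _ => by ring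
  · intro i hi
    have e1 := h2 i hi
    have e2 := h2' i hi
    push_cast
    linarith
  · intro i hi
    have e1 := h3 i hi
    have e2 := h3' i hi
    push_cast
    linarith
  · intro q hq
    exact Nat.add_le_add (h4 q hq) (h4' q hq)

theorem GV_mul {F G : ℕ → ℤ} {B N : ℕ} (w : ℕ) (h : GV F G B N) :
    GV (fun i => w * F i) (fun i => w * G i) (w * B) (w * N) := by
  obtain ⟨f, h1, h2, h3, h4⟩ := h
  refine ⟨fun q => w * f q, ?_, ?_, ?_, ?_⟩
  · rw [h1, mul_sum]
    exact sum_congr rfl fun q _ => by ring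
  · intro i hi
    push_cast
    rw [← h2 i hi]
    ring
  · intro i hi
    push_cast
    exact mul_le_mul_of_nonneg_left (h3 i hi) (by positivity)
  · intro q hq
    exact Nat.mul_le_mul_left w (h4 q hq)

theorem GV_congr {F G F' G' : ℕ → ℤ} {B B' N N' : ℕ} (h : GV F G B N) (hF : ∀ i < 5, F' i = F i)
    (hG : ∀ i < 5, G' i = G i) (hB : B ≤ B') (hN : N' = N) : GV F' G' B' N' := by
  obtain ⟨f, h1, h2, h3, h4⟩ := h
  refine ⟨f, hN.trans h1, fun i hi => ?_, fun i hi => ?_, fun q hq => (h4 q hq).trans hB⟩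
  · rw [hF i hi, h2 i hi]
  · rw [hG i hi]; exact h3 i hi

variable {m : ℕ}

theorem xr_agree {T : Finset (Sym2 (Fin m))} {c c' : Fin m → Fin 4} {j : ℕ}
    (h : ∀ i : Fin m, (i : ℕ) < j → c i = c' i) (u v : Fin m) :
    xr (TJ T j) c u v ↔ xr (TJ T j) c' u v := by
  unfold xr TJ
  rw [mem_filter]
  constructor
  · rintro ⟨⟨h1, h2⟩, h3⟩
    refine ⟨⟨h1, h2⟩, ?_⟩
    rwa [← h u (h2 u (Sym2.mem_mk_left u v)), ← h v (h2 v (Sym2.mem_mk_right u v))]
  · rintro ⟨⟨h1, h2⟩, h3⟩
    refine ⟨⟨h1, h2⟩, ?_⟩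
    rwa [h u (h2 u (Sym2.mem_mk_left u v)), h v (h2 v (Sym2.mem_mk_right u v))]

theorem dg_congr {T : Finset (Sym2 (Fin m))} {c c' : Fin m → Fin 4}
    (hx : ∀ u v, xr T c u v ↔ xr T c' u v) (v : Fin m) : dg T c v = dg T c' v := by
  simp only [dg, hx]

theorem spt_congr {T : Finset (Sym2 (Fin m))} {c c' : Fin m → Fin 4}
    (hx : ∀ u v, xr T c u v ↔ xr T c' u v) : spt T c = spt T c' := by
  unfold spt
  simp only [dg_congr hx]

theorem pr_congr {T : Finset (Sym2 (Fin m))} {c c' : Fin m → Fin 4}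
    (hx : ∀ u v, xr T c u v ↔ xr T c' u v) : pr T c = pr T c' := by
  unfold pr
  congr 1
  funext b
  have e : (∀ u v, xr T c u v → b u = b v) ↔ (∀ u v, xr T c' u v → b u = b v) := by
    simp only [hx]
  by_cases h : ∀ u v, xr T c u v → b u = b v
  · rw [if_pos h, if_pos (e.1 h)]
  · rw [if_neg h, if_neg (fun h' => h (e.2 h'))]

theorem CsOK_congr {T : Finset (Sym2 (Fin m))} {c c' : Fin m → Fin 4}
    (hx : ∀ u v, xr T c u v ↔ xr T c' u v) {cs : List ℕ} {r : ℕ} (h : CsOK T c cs r) :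
    CsOK T c' cs r := by
  obtain ⟨Ks, h1, h2, h3, h4, h5, h6⟩ := h
  refine ⟨Ks, h1, h2, h3, fun v => ?_, fun b => ?_, ?_⟩
  · rw [← dg_congr hx]; exact h4 v
  · rw [← h5 b]
    simp only [hx]
  · rw [← spt_congr hx]; exact h6

theorem rowS_agree {T : Finset (Sym2 (Fin m))} {c c' : Fin m → Fin 4} {j : ℕ}
    (h : ∀ i : Fin m, (i : ℕ) < j → c i = c' i) (i : Fin m) (hi : (i : ℕ) < j) :
    rowS T c i = rowS T c' i := by
  unfold rowS
  apply filter_congr
  intro u _
  constructor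
  · rintro ⟨h1, h2, h3⟩
    refine ⟨h1, h2, ?_⟩
    rwa [← h u (by omega), ← h i hi]
  · rintro ⟨h1, h2, h3⟩
    refine ⟨h1, h2, ?_⟩
    rwa [h u (by omega), h i hi]

theorem cls_agree {c c' : Fin m → Fin 4} {j : ℕ}
    (h : ∀ i : Fin m, (i : ℕ) < j → c i = c' i) (a : Fin 4) :
    univ.filter (fun i : Fin m => (i : ℕ) < j ∧ c i = a) =
      univ.filter (fun i : Fin m => (i : ℕ) < j ∧ c' i = a) := by
  apply filter_congr
  intro i _
  constructor
  · rintro ⟨h1, h2⟩; exact ⟨h1, by rw [← h i h1]; exact h2⟩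
  · rintro ⟨h1, h2⟩; exact ⟨h1, by rw [h i h1]; exact h2⟩

theorem StOK_agree {T : Finset (Sym2 (Fin m))} {c c' : Fin m → Fin 4} {j : ℕ}
    (h : ∀ i : Fin m, (i : ℕ) < j → c i = c' i) {XR : List (ℕ × ℕ)} {M0 M1 M2 M3 S : ℕ}
    (hs : StOK T c j XR M0 M1 M2 M3 S) : StOK T c' j XR M0 M1 M2 M3 S := by
  constructor
  · rw [hs.hx]
    have e1 : (List.finRange m).filter (fun i : Fin m => decide ((i : ℕ) < j ∧ rowS T c i ≠ ∅)) =
        (List.finRange m).filter (fun i : Fin m => decide ((i : ℕ) < j ∧ rowS T c' i ≠ ∅)) := by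
      apply List.filter_congr
      intro i _
      by_cases hi : (i : ℕ) < j
      · rw [rowS_agree h i hi]
      · simp [hi]
    rw [e1]
    apply List.map_congr_left
    intro i hi
    rw [List.mem_reverse, List.mem_filter] at hi
    have h2 := of_decide_eq_true hi.2
    rw [rowS_agree h i h2.1]
  · rw [hs.h0, cls_agree h]
  · rw [hs.h1, cls_agree h]
  · rw [hs.h2, cls_agree h]
  · rw [hs.h3, cls_agree h]
  · rw [hs.hs, spt_congr (xr_agree h)]

theorem SX_full (p : Fin m → Fin 4) (F : (Fin m → Fin 4) → ℤ) : SX m p F = F p := by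
  unfold SX
  have : univ.filter (fun c : Fin m → Fin 4 => ∀ i : Fin m, (i : ℕ) < m → c i = p i) = {p} := by
    ext c
    simp only [mem_filter, mem_univ, true_and, mem_singleton]
    constructor
    · intro h; funext i; exact h i i.2
    · rintro rfl i _; rfl
  rw [this, sum_singleton]

theorem SX_zero {j : ℕ} {p : Fin m → Fin 4} {F : (Fin m → Fin 4) → ℤ}
    (h : ∀ c : Fin m → Fin 4, (∀ i : Fin m, (i : ℕ) < j → c i = p i) → F c = 0) :
    SX j p F = 0 := by
  unfold SX
  exact sum_eq_zero fun c hc => h c (mem_filter.1 hc).2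

theorem TJ_full (T : Finset (Sym2 (Fin m))) : TJ T m = T := by
  unfold TJ
  rw [filter_true_of_mem]
  intro e _ v _
  exact v.2

theorem TJ_sub (T : Finset (Sym2 (Fin m))) (j : ℕ) : TJ T j ⊆ T := filter_subset _ _

theorem update_agree (p : Fin m → Fin 4) {j : ℕ} (hj : j < m) (a : Fin 4) :
    ∀ i : Fin m, (i : ℕ) < j → p i = Function.update p ⟨j, hj⟩ a i := by
  intro i hi
  rw [Function.update_of_ne]
  rintro rfl
  simp at hi

/-- the two families of functions which are summed -/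
noncomputable def FF (tab : List Ent) (T : Finset (Sym2 (Fin m))) (i : ℕ) (c : Fin m → Fin 4) :
    ℤ := sg T c * Hn tab i T c

noncomputable def GG (tab : List Ent) (T : Finset (Sym2 (Fin m))) (i : ℕ) (c : Fin m → Fin 4) :
    ℤ := (Gn tab i T c : ℤ)

theorem child_lem (hPKA : T_PKA) (hSTN : T_STN) (hRK1 : T_RK1) (hRK2 : T_RK2) (hPRN : T_PRN)
    (hMON : T_MON) (tree : Bst) (T : Finset (Sym2 (Fin m))) (nE : ℕ) (rows : List (ℕ × ℕ))
    (hm : m ≤ 12) (htab : TabOK tree.toL) (j : ℕ) (hj : j < m) (p : Fin m → Fin 4) (a : Fin 4)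
    (XR : List (ℕ × ℕ)) (M0 M1 M2 M3 S : ℕ) (cs : List ℕ) (r : ℕ)
    (hst : StOK T p j XR M0 M1 M2 M3 S) (hcs : CsOK (TJ T j) p cs r)
    (w k' : ℕ) (hw : 1 ≤ w) (M0' M1' M2' M3' x : ℕ)
    (h0 : M0' = M0 + if a = 0 then 2 ^ (16 * j) else 0)
    (h1 : M1' = M1 + if a = 1 then 2 ^ (16 * j) else 0)
    (h2 : M2' = M2 + if a = 2 then 2 ^ (16 * j) else 0)
    (h3 : M3' = M3 + if a = 3 then 2 ^ (16 * j) else 0)
    (hx : x = pkS (rowS T (Function.update p ⟨j, hj⟩ a) ⟨j, hj⟩))
    (IH : ∀ (XR' : List (ℕ × ℕ)) (S' : ℕ) (cs' : List ℕ) (r' : ℕ),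
      StOK T (Function.update p ⟨j, hj⟩ a) (j + 1) XR' M0' M1' M2' M3' S' →
      CsOK (TJ T (j + 1)) (Function.update p ⟨j, hj⟩ a) cs' r' →
      go tree nE rows k' XR' M0' M1' M2' M3' S' cs' r' < BB ^ 15 →
      GV (fun i => SX (j + 1) (Function.update p ⟨j, hj⟩ a) (FF tree.toL T i))
        (fun i => SX (j + 1) (Function.update p ⟨j, hj⟩ a) (GG tree.toL T i))
        (2 ^ 70 * 4 ^ (m - (j + 1))) (go tree nE rows k' XR' M0' M1' M2' M3' S' cs' r'))
    (hlt : child x (2 ^ (16 * j)) w XR S cs r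
      (fun XR S cs r => go tree nE rows k' XR M0' M1' M2' M3' S cs r) < BB ^ 15) :
    GV (fun i => w * SX (j + 1) (Function.update p ⟨j, hj⟩ a) (FF tree.toL T i))
      (fun i => w * SX (j + 1) (Function.update p ⟨j, hj⟩ a) (GG tree.toL T i))
      (w * (2 ^ 70 * 4 ^ (m - (j + 1))))
      (child x (2 ^ (16 * j)) w XR S cs r
        (fun XR S cs r => go tree nE rows k' XR M0' M1' M2' M3' S cs r)) := by
  set p' := Function.update p ⟨j, hj⟩ a with hp'
  have hag := update_agree p hj a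
  rw [← hp'] at hag
  have hst' : StOK T p' j XR M0 M1 M2 M3 S := StOK_agree hag hst
  have hcs' : CsOK (TJ T j) p' cs r := CsOK_congr (xr_agree hag) hcs
  have ha : p' ⟨j, hj⟩ = a := by rw [hp', Function.update_self]
  obtain ⟨-, -, -, -, hE, hN⟩ := hSTN hPKA m j hj T p' XR M0 M1 M2 M3 S hm hst'
  obtain ⟨hE2, hN2⟩ := hRK1 hPKA m j hj T p' cs r hm hcs'
  rw [ha, ← h0, ← h1, ← h2, ← h3] at hE hN
  have hz := (hPKA m hm).2.2.1 (rowS T p' ⟨j, hj⟩)
  rw [← hx] at hz
  by_cases hr : rowS T p' ⟨j, hj⟩ = ∅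
  · have hx0 : x = 0 := hz.2 hr
    have e : child x (2 ^ (16 * j)) w XR S cs r
        (fun XR S cs r => go tree nE rows k' XR M0' M1' M2' M3' S cs r) =
        w * go tree nE rows k' XR M0' M1' M2' M3' S cs r := by
      rw [hx0]; rfl
    rw [e] at hlt ⊢
    apply GV_mul
    apply IH _ _ _ _ (hE hr) (hE2 hr)
    calc go tree nE rows k' XR M0' M1' M2' M3' S cs r
        ≤ w * go tree nE rows k' XR M0' M1' M2' M3' S cs r := Nat.le_mul_of_pos_left _ hw
      _ < _ := hlt
  · have hx0 : x ≠ 0 := fun h => hr (hz.1 h)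
    obtain ⟨cs', r', hcs2, hmer⟩ := hN2 hr
    have hst2 := hN hr
    rw [← hx] at hst2 hmer
    rw [← hst'.hs] at hmer
    have e : child x (2 ^ (16 * j)) w XR S cs r
        (fun XR S cs r => go tree nE rows k' XR M0' M1' M2' M3' S cs r) =
        (bif Nat.blt 4 r' then 0 else w * go tree nE rows k' ((2 ^ (16 * j), x) :: XR)
          M0' M1' M2' M3' (Nat.add (2 ^ (16 * j)) (Nat.add S (Nat.sub x (Nat.land x S))))
            cs' r') := by
      unfold child
      have hb : Nat.beq x 0 = false := by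
        cases x with
        | zero => exact absurd rfl hx0
        | succ n => rfl
      rw [hb, cond_false, hmer]
      simp only [frc_eq]
      rfl
    rw [e] at hlt ⊢
    by_cases hr4 : 4 < r'
    · have hb : Nat.blt 4 r' = true := by rw [Nat.blt_eq]; exact hr4
      rw [hb, cond_true]
      have hpr : pr (TJ T (j + 1)) p' < 1 / 16 := by
        rw [hRK2 m _ _ _ _ hcs2]
        have : (1 / 2 : ℚ) ^ r' ≤ (1 / 2) ^ 5 :=
          pow_le_pow_of_le_one (by norm_num) (by norm_num) hr4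
        calc (1 / 2 : ℚ) ^ r' ≤ (1 / 2) ^ 5 := this
          _ < 1 / 16 := by norm_num
      have hall : ∀ (i : ℕ) (c : Fin m → Fin 4), (∀ i : Fin m, (i : ℕ) < j + 1 → c i = p' i) →
          Hn tree.toL i T c = 0 ∧ Gn tree.toL i T c = 0 := by
        intro i c hc
        refine hPRN hMON (Fin m) (TJ T (j + 1)) T c tree.toL i htab (TJ_sub T _) ?_
        rw [pr_congr (xr_agree hc)]
        exact hpr
      apply GV_zero
      · intro i _
        rw [SX_zero, mul_zero]
        intro c hc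
        unfold FF
        rw [(hall i c hc).1, mul_zero]
      · intro i _
        rw [SX_zero, mul_zero]
        intro c hc
        unfold GG
        rw [(hall i c hc).2]
        rfl
    · have hb : Nat.blt 4 r' = false := by
        rw [Bool.eq_false_iff]
        intro h
        rw [Nat.blt_eq] at h
        exact hr4 h
      rw [hb, cond_false] at hlt ⊢
      apply GV_mul
      apply IH _ _ _ _ hst2 hcs2
      refine lt_of_le_of_lt ?_ hlt
      exact Nat.le_mul_of_pos_left _ hw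

theorem go_cons (tree : Bst) (nE b nb : ℕ) (rows : List (ℕ × ℕ)) (k : ℕ) (XR : List (ℕ × ℕ))
    (M0 M1 M2 M3 S : ℕ) (cs : List ℕ) (r : ℕ) :
    go tree nE ((b, nb) :: rows) k XR M0 M1 M2 M3 S cs r =
      (child (Nat.sub nb (Nat.land nb M0)) b (bif Nat.beq k 0 then 4 else 1) XR S cs r
          (fun XR S cs r => go tree nE rows (bif Nat.beq k 0 then 1 else k) XR (M0 + b) M1 M2 M3
            S cs r) +
        (bif Nat.blt k 1 then 0 else
          child (Nat.sub nb (Nat.land nb M1)) b (bif Nat.beq k 1 then 3 else 1) XR S cs r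
          (fun XR S cs r => go tree nE rows (bif Nat.beq k 1 then 2 else k) XR M0 (M1 + b) M2 M3
            S cs r))) +
      ((bif Nat.blt k 2 then 0 else
          child (Nat.sub nb (Nat.land nb M2)) b (bif Nat.beq k 2 then 2 else 1) XR S cs r
          (fun XR S cs r => go tree nE rows (bif Nat.beq k 2 then 3 else k) XR M0 M1 (M2 + b) M3
            S cs r)) +
        (bif Nat.blt k 3 then 0 else
          child (Nat.sub nb (Nat.land nb M3)) b 1 XR S cs r
          (fun XR S cs r => go tree nE rows (bif Nat.beq k 3 then 4 else k) XR M0 M1 M2 (M3 + b)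
            S cs r))) := by
  rw [go]
  simp only [frc_eq]
  rfl

theorem main (hPKA : T_PKA) (hSTN : T_STN) (hRK1 : T_RK1) (hRK2 : T_RK2) (hPRN : T_PRN)
    (hMON : T_MON) (hSYM : T_SYM) (hINV : T_INV) (hROW : T_ROW) (hLVF : T_LVF) (hLFL : T_LFL)
    (hLOK : T_LOK) (hUNM : T_UNM) (C : CG) (tree : Bst) (hwf : C.Wf) (htab : TabOK tree.toL) :
    ∀ (d j : ℕ), j + d = C.m → ∀ (p : Fin C.m → Fin 4) (k : ℕ) (XR : List (ℕ × ℕ))
      (M0 M1 M2 M3 S : ℕ) (cs : List ℕ) (r : ℕ), k ≤ 4 →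
      (∀ i : Fin C.m, (i : ℕ) < j → (p i : ℕ) < k) →
      StOK (TG C) p j XR M0 M1 M2 M3 S → CsOK (TJ (TG C) j) p cs r →
      go tree (2 * (TG C).card) ((rowsOf C).drop j) k XR M0 M1 M2 M3 S cs r < BB ^ 15 →
      GV (fun i => SX j p (FF tree.toL (TG C) i)) (fun i => SX j p (GG tree.toL (TG C) i))
        (2 ^ 70 * 4 ^ (C.m - j))
        (go tree (2 * (TG C).card) ((rowsOf C).drop j) k XR M0 M1 M2 M3 S cs r) := by
  obtain ⟨hcard, hLpl, hlen, hrow⟩ := hROW C hwf
  have hm : C.m ≤ 12 := hwf.2.2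
  intro d
  induction d with
  | zero =>
    intro j hjd p k XR M0 M1 M2 M3 S cs r _ _ hst hcs hlt
    have hj : j = C.m := by omega
    subst hj
    have hdrop : (rowsOf C).drop C.m = [] := List.drop_eq_nil_of_le hlen.le
    rw [hdrop] at hlt ⊢
    have hgo : go tree (2 * (TG C).card) [] k XR M0 M1 M2 M3 S cs r =
      leafv tree (2 * (TG C).card) XR M0 M1 M2 M3 S r := by rw [go]
    rw [hgo] at hlt ⊢
    have hpr : pr (TG C) p = (1 / 2) ^ r := by
      have := hRK2 _ _ _ _ _ hcs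
      rwa [TJ_full] at this
    obtain ⟨f, h1, h2, h3, h4⟩ := hLVF hPKA hLFL hLOK hUNM C.m (TG C) p tree XR M0 M1 M2 M3 S r
      hm hLpl htab hst hpr hlt
    refine ⟨f, h1, fun i hi => ?_, fun i hi => ?_, fun q hq => ?_⟩
    · beta_reduce
      rw [SX_full]
      exact h2 i hi
    · beta_reduce
      rw [SX_full]
      unfold GG
      exact_mod_cast h3 i hi
    · have := h4 q hq
      simpa using this
  | succ d ih =>
    intro j hjd p k XR M0 M1 M2 M3 S cs r hk hp hst hcs hlt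
    have hj : j < C.m := by omega
    have hdrop : (rowsOf C).drop j =
        (2 ^ (16 * j), pkS (nbS (TG C) ⟨j, hj⟩)) :: (rowsOf C).drop (j + 1) := by
      have hj' : j < (rowsOf C).length := by omega
      have h1 := hrow j hj
      rw [List.getElem?_eq_getElem hj', Option.some_inj] at h1
      rw [List.drop_eq_getElem_cons hj', h1]
    rw [hdrop] at hlt ⊢
    have key : ∀ (a : Fin 4) (w k' M0' M1' M2' M3' x : ℕ), 1 ≤ w → k' ≤ 4 → (a : ℕ) < k' →
        k ≤ k' → M0' = M0 + (if a = 0 then 2 ^ (16 * j) else 0) →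
        M1' = M1 + (if a = 1 then 2 ^ (16 * j) else 0) →
        M2' = M2 + (if a = 2 then 2 ^ (16 * j) else 0) →
        M3' = M3 + (if a = 3 then 2 ^ (16 * j) else 0) →
        x = pkS (rowS (TG C) (Function.update p ⟨j, hj⟩ a) ⟨j, hj⟩) →
        child x (2 ^ (16 * j)) w XR S cs r
          (fun XR S cs r => go tree (2 * (TG C).card) ((rowsOf C).drop (j + 1)) k' XR
            M0' M1' M2' M3' S cs r) < BB ^ 15 →
        GV (fun i => w * SX (j + 1) (Function.update p ⟨j, hj⟩ a) (FF tree.toL (TG C) i))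
          (fun i => w * SX (j + 1) (Function.update p ⟨j, hj⟩ a) (GG tree.toL (TG C) i))
          (w * (2 ^ 70 * 4 ^ (C.m - (j + 1))))
          (child x (2 ^ (16 * j)) w XR S cs r
            (fun XR S cs r => go tree (2 * (TG C).card) ((rowsOf C).drop (j + 1)) k' XR
              M0' M1' M2' M3' S cs r)) := by
      intro a w k' M0' M1' M2' M3' x hw hk' hak hkk h0 h1 h2 h3 hx hlt'
      apply child_lem hPKA hSTN hRK1 hRK2 hPRN hMON tree (TG C) _ _ hm htab j hj p a XR M0 M1 M2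
        M3 S cs r hst hcs w k' hw M0' M1' M2' M3' x h0 h1 h2 h3 hx _ hlt'
      intro XR' S' cs' r' hst' hcs' hlt2
      apply ih (j + 1) (by omega) _ _ _ _ _ _ _ _ _ _ hk' _ hst' hcs' hlt2
      intro i hi
      by_cases hij : i = ⟨j, hj⟩
      · rw [hij, Function.update_self]; exact hak
      · rw [Function.update_of_ne hij]
        have : (i : ℕ) ≠ j := fun h => hij (Fin.ext h)
        exact lt_of_lt_of_le (hp i (by omega)) hkk
    have hx0 : Nat.sub (pkS (nbS (TG C) ⟨j, hj⟩)) (Nat.land (pkS (nbS (TG C) ⟨j, hj⟩)) M0) =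
        pkS (rowS (TG C) (Function.update p ⟨j, hj⟩ 0) ⟨j, hj⟩) :=
      (hSTN hPKA C.m j hj (TG C) _ XR M0 M1 M2 M3 S hm
        (StOK_agree (update_agree p hj 0) hst)).1 (Function.update_self _ _ _)
    have hx1 : Nat.sub (pkS (nbS (TG C) ⟨j, hj⟩)) (Nat.land (pkS (nbS (TG C) ⟨j, hj⟩)) M1) =
        pkS (rowS (TG C) (Function.update p ⟨j, hj⟩ 1) ⟨j, hj⟩) :=
      (hSTN hPKA C.m j hj (TG C) _ XR M0 M1 M2 M3 S hm
        (StOK_agree (update_agree p hj 1) hst)).2.1 (Function.update_self _ _ _)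
    have hx2 : Nat.sub (pkS (nbS (TG C) ⟨j, hj⟩)) (Nat.land (pkS (nbS (TG C) ⟨j, hj⟩)) M2) =
        pkS (rowS (TG C) (Function.update p ⟨j, hj⟩ 2) ⟨j, hj⟩) :=
      (hSTN hPKA C.m j hj (TG C) _ XR M0 M1 M2 M3 S hm
        (StOK_agree (update_agree p hj 2) hst)).2.2.1 (Function.update_self _ _ _)
    have hx3 : Nat.sub (pkS (nbS (TG C) ⟨j, hj⟩)) (Nat.land (pkS (nbS (TG C) ⟨j, hj⟩)) M3) =
        pkS (rowS (TG C) (Function.update p ⟨j, hj⟩ 3) ⟨j, hj⟩) :=
      (hSTN hPKA C.m j hj (TG C) _ XR M0 M1 M2 M3 S hm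
        (StOK_agree (update_agree p hj 3) hst)).2.2.2.1 (Function.update_self _ _ _)
    have invF : ∀ (i : ℕ) (π : Equiv.Perm (Fin 4)) (c : Fin C.m → Fin 4),
        FF tree.toL (TG C) i (π ∘ c) = FF tree.toL (TG C) i c := by
      intro i π c
      obtain ⟨-, -, -, -, h5, h6⟩ := hINV (Fin C.m) (TG C) c π
      unfold FF
      rw [h5, (h6 _ _).1]
    have invG : ∀ (i : ℕ) (π : Equiv.Perm (Fin 4)) (c : Fin C.m → Fin 4),
        GG tree.toL (TG C) i (π ∘ c) = GG tree.toL (TG C) i c := by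
      intro i π c
      obtain ⟨-, -, -, -, h5, h6⟩ := hINV (Fin C.m) (TG C) c π
      unfold GG
      rw [(h6 _ _).2]
    have symF := fun i => hSYM C.m j hj p k (FF tree.toL (TG C) i) (invF i) hp
    have symG := fun i => hSYM C.m j hj p k (GG tree.toL (TG C) i) (invG i) hp
    have hB : 4 * (2 ^ 70 * 4 ^ (C.m - (j + 1))) = 2 ^ 70 * 4 ^ (C.m - j) := by
      have : C.m - j = (C.m - (j + 1)) + 1 := by omega
      rw [this, pow_succ]; ring
    rw [go_cons] at hlt ⊢
    have K0 := fun w k' hw hk' hak hkk => key 0 w k' (M0 + 2 ^ (16 * j)) M1 M2 M3 _ hw hk' hak hkk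
      (by simp) (by simp) (by simp) (by simp) hx0
    have K1 := fun w k' hw hk' hak hkk => key 1 w k' M0 (M1 + 2 ^ (16 * j)) M2 M3 _ hw hk' hak hkk
      (by simp) (by simp) (by simp) (by simp) hx1
    have K2 := fun w k' hw hk' hak hkk => key 2 w k' M0 M1 (M2 + 2 ^ (16 * j)) M3 _ hw hk' hak hkk
      (by simp) (by simp) (by simp) (by simp) hx2
    have K3 := fun w k' hw hk' hak hkk => key 3 w k' M0 M1 M2 (M3 + 2 ^ (16 * j)) _ hw hk' hak hkk
      (by simp) (by simp) (by simp) (by simp) hx3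
    clear key
    rcases (by omega : k = 0 ∨ k = 1 ∨ k = 2 ∨ k = 3 ∨ k = 4) with rfl | rfl | rfl | rfl | rfl
    · have b1 : Nat.beq 0 0 = true := rfl
      have b2 : Nat.blt 0 1 = true := rfl
      have b3 : Nat.blt 0 2 = true := rfl
      have b4 : Nat.blt 0 3 = true := rfl
      simp only [b1, b2, b3, b4, cond_true, add_zero] at hlt ⊢
      refine GV_congr (K0 4 1 (by norm_num) (by norm_num) (by norm_num) (by norm_num) hlt)
        (fun i _ => ?_) (fun i _ => ?_) hB.le rfl
      · rw [(symF i).1 rfl]; norm_num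
      · rw [(symG i).1 rfl]; norm_num
    · have b1 : Nat.beq 1 0 = false := rfl
      have b5 : Nat.beq 1 1 = true := rfl
      have b2 : Nat.blt 1 1 = false := rfl
      have b3 : Nat.blt 1 2 = true := rfl
      have b4 : Nat.blt 1 3 = true := rfl
      simp only [b1, b5, b2, b3, b4, cond_true, cond_false, add_zero] at hlt ⊢
      refine GV_congr (GV_add
        (K0 1 1 (by norm_num) (by norm_num) (by norm_num) (by norm_num)
          (lt_of_le_of_lt (Nat.le_add_right _ _) hlt))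
        (K1 3 2 (by norm_num) (by norm_num) (by norm_num) (by norm_num)
          (lt_of_le_of_lt (Nat.le_add_left _ _) hlt)))
        (fun i _ => ?_) (fun i _ => ?_) (by rw [← hB]; omega) rfl
      · rw [(symF i).2.1 rfl]; push_cast; ring
      · rw [(symG i).2.1 rfl]; push_cast; ring
    · have b1 : Nat.beq 2 0 = false := rfl
      have b5 : Nat.beq 2 1 = false := rfl
      have b6 : Nat.beq 2 2 = true := rfl
      have b2 : Nat.blt 2 1 = false := rfl
      have b3 : Nat.blt 2 2 = false := rfl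
      have b4 : Nat.blt 2 3 = true := rfl
      simp only [b1, b5, b6, b2, b3, b4, cond_true, cond_false, add_zero] at hlt ⊢
      refine GV_congr (GV_add (GV_add
        (K0 1 2 (by norm_num) (by norm_num) (by norm_num) (by norm_num) (by omega))
        (K1 1 2 (by norm_num) (by norm_num) (by norm_num) (by norm_num) (by omega)))
        (K2 2 3 (by norm_num) (by norm_num) (by norm_num) (by norm_num) (by omega)))
        (fun i _ => ?_) (fun i _ => ?_) (by rw [← hB]; omega) rfl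
      · rw [(symF i).2.2.1 rfl]; push_cast; ring
      · rw [(symG i).2.2.1 rfl]; push_cast; ring
    · have b1 : Nat.beq 3 0 = false := rfl
      have b5 : Nat.beq 3 1 = false := rfl
      have b6 : Nat.beq 3 2 = false := rfl
      have b7 : Nat.beq 3 3 = true := rfl
      have b2 : Nat.blt 3 1 = false := rfl
      have b3 : Nat.blt 3 2 = false := rfl
      have b4 : Nat.blt 3 3 = false := rfl
      simp only [b1, b5, b6, b7, b2, b3, b4, cond_true, cond_false] at hlt ⊢
      refine GV_congr (GV_add (GV_add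
        (K0 1 3 (by norm_num) (by norm_num) (by norm_num) (by norm_num) (by omega))
        (K1 1 3 (by norm_num) (by norm_num) (by norm_num) (by norm_num) (by omega)))
        (GV_add
        (K2 1 3 (by norm_num) (by norm_num) (by norm_num) (by norm_num) (by omega))
        (K3 1 4 (by norm_num) (by norm_num) (by norm_num) (by norm_num) (by omega))))
        (fun i _ => ?_) (fun i _ => ?_) (by rw [← hB]; omega) rfl
      · rw [(symF i).2.2.2 (by norm_num)]; push_cast; ring
      · rw [(symG i).2.2.2 (by norm_num)]; push_cast; ring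
    · have b1 : Nat.beq 4 0 = false := rfl
      have b5 : Nat.beq 4 1 = false := rfl
      have b6 : Nat.beq 4 2 = false := rfl
      have b7 : Nat.beq 4 3 = false := rfl
      have b2 : Nat.blt 4 1 = false := rfl
      have b3 : Nat.blt 4 2 = false := rfl
      have b4 : Nat.blt 4 3 = false := rfl
      simp only [b1, b5, b6, b7, b2, b3, b4, cond_false] at hlt ⊢
      refine GV_congr (GV_add (GV_add
        (K0 1 4 (by norm_num) (by norm_num) (by norm_num) (by norm_num) (by omega))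
        (K1 1 4 (by norm_num) (by norm_num) (by norm_num) (by norm_num) (by omega)))
        (GV_add
        (K2 1 4 (by norm_num) (by norm_num) (by norm_num) (by norm_num) (by omega))
        (K3 1 4 (by norm_num) (by norm_num) (by norm_num) (by norm_num) (by omega))))
        (fun i _ => ?_) (fun i _ => ?_) (by rw [← hB]; omega) rfl
      · rw [(symF i).2.2.2 (by norm_num)]; push_cast; ring
      · rw [(symG i).2.2.2 (by norm_num)]; push_cast; ring

end GO_

open GO_ in
/-- **GO**: correctness of the recursion -/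
theorem p_GO : T_GO := by
  intro hPKA hSTN hRK1 hRK2 hPRN hMON hSYM hINV hROW hLVF hLFL hLOK hUNM C tree j p k XR M0 M1 M2
    M3 S cs r hwf htab hj hk hp hst hcs hlt
  have hcard : (TG C).card = C.E.length := (hROW C hwf).1
  have hn : Nat.mul 2 C.E.length = 2 * (TG C).card := by rw [hcard]; rfl
  rw [hn] at hlt ⊢
  exact main hPKA hSTN hRK1 hRK2 hPRN hMON hSYM hINV hROW hLVF hLFL hLOK hUNM C tree hwf htab
    (C.m - j) j (by omega) p k XR M0 M1 M2 M3 S cs r hk hp hst hcs hlt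

end Pool.Agent.KFV
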