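import Pool.Agent.KFV.Targets2

set_option autoImplicit false

/-!
# GOK: soundness of the check of a good graph
-/

namespace Pool.Agent.KFV

open Finset

namespace GOK_

theorem frc_eq {α : Type} (n : ℕ) (f : ℕ → α) : frc n f = f n := by
  cases n <;> rfl

end GOK_

open GOK_ in
theorem p_GOK : T_GOK := by
  intro h1 h2 h3 h4 hE V _ _ tree C φ T0 hT hg hc
  unfold goodOK at hg
  rw [frc_eq, Bool.and_eq_true, Bool.and_eq_true] at hg
  obtain ⟨⟨hw, hb⟩, hf⟩ := hg
  have hw' : C.Wf := of_decide_eq_true hw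
  have hb' : evalG tree C < BB ^ 15 := by
    have := Nat.blt_eq.mp hb
    exact this
  have hf' : fld (evalG tree C) 10 < LL * 4 ^ C.m := Nat.blt_eq.mp hf
  obtain ⟨ψ, _, hψ⟩ := h4 V C φ T0 hw' hc
  have h5 := (h3 h1 h2 V (Fin C.m) ψ (TG C) tree.toL 0).2.1
  rw [hψ, h5]
  have h6 := (hE C tree hw' hT hb').2 0 (by norm_num)
  rw [Nat.add_zero] at h6
  have h7 : (fld (evalG tree C) 10 : ℚ) < LL * 4 ^ C.m := by exact_mod_cast hf'
  have h8 : (0 : ℚ) < 4 ^ C.m := by positivity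
  exact lt_of_mul_lt_mul_right (lt_of_le_of_lt h6 h7) h8.le

end Pool.Agent.KFV
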