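import Pool.Agent.KFV.Targets

/-! KFV-INV: invariance under permutations of the colours. -/

namespace Pool.Agent.KFV

open Finset

namespace INV_

variable {V : Type} [Fintype V] [DecidableEq V]

theorem xr_iff (T : Finset (Sym2 V)) (c : V → Fin 4) (π : Equiv.Perm (Fin 4)) (u v : V) :
    xr T (π ∘ c) u v ↔ xr T c u v := by
  unfold xr
  simp only [Function.comp_apply, ne_eq, EmbeddingLike.apply_eq_iff_eq]

theorem dg_eq (T : Finset (Sym2 V)) (c : V → Fin 4) (π : Equiv.Perm (Fin 4)) (v : V) :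
    dg T (π ∘ c) v = dg T c v := by
  unfold dg
  refine Finset.sum_congr rfl fun w _ => ?_
  simp only [xr_iff]

theorem Ncl_eq (T : Finset (Sym2 V)) (c : V → Fin 4) (π : Equiv.Perm (Fin 4)) (k : Fin 4) :
    Ncl T (π ∘ c) (π k) = Ncl T c k := by
  unfold Ncl
  refine Finset.sum_congr rfl fun w _ => ?_
  simp only [dg_eq, Function.comp_apply, EmbeddingLike.apply_eq_iff_eq]

theorem Dcl_eq (T : Finset (Sym2 V)) (c : V → Fin 4) (π : Equiv.Perm (Fin 4)) (k : Fin 4) :
    Dcl T (π ∘ c) (π k) = Dcl T c k := by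
  unfold Dcl
  refine Finset.sum_congr rfl fun w _ => ?_
  simp only [dg_eq, Function.comp_apply, EmbeddingLike.apply_eq_iff_eq]

theorem wt_eq (T : Finset (Sym2 V)) (c : V → Fin 4) (π : Equiv.Perm (Fin 4)) (v : V) :
    wt T (π ∘ c) v = wt T c v := by
  unfold wt
  rw [dg_eq, Function.comp_apply, Ncl_eq, Dcl_eq]

theorem e2_eq (T : Finset (Sym2 V)) (c : V → Fin 4) (π : Equiv.Perm (Fin 4)) :
    e2 T (π ∘ c) = e2 T c := by
  unfold e2
  exact Finset.sum_congr rfl fun w _ => dg_eq T c π w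

theorem sp2_eq (T : Finset (Sym2 V)) (c : V → Fin 4) (π : Equiv.Perm (Fin 4)) :
    sp2 T (π ∘ c) = sp2 T c := by
  unfold sp2
  rw [← Equiv.sum_comp π (fun k => Ncl T (π ∘ c) k ^ 2)]
  refine Finset.sum_congr rfl fun k _ => ?_
  rw [Ncl_eq]

theorem X2_eq (T : Finset (Sym2 V)) (c : V → Fin 4) (π : Equiv.Perm (Fin 4)) :
    X2 T (π ∘ c) = X2 T c := by
  unfold X2
  refine Finset.sum_congr rfl fun v _ => Finset.sum_congr rfl fun w _ => ?_
  simp only [xr_iff, wt_eq]

theorem pr_eq (T : Finset (Sym2 V)) (c : V → Fin 4) (π : Equiv.Perm (Fin 4)) :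
    pr T (π ∘ c) = pr T c := by
  unfold pr
  congr 1
  funext b
  simp only [xr_iff]

theorem sg_eq (T : Finset (Sym2 V)) (c : V → Fin 4) (π : Equiv.Perm (Fin 4)) :
    sg T (π ∘ c) = sg T c := by
  unfold sg
  congr 2
  refine Finset.filter_congr fun e _ => ?_
  induction e using Sym2.ind with
  | _ a b =>
    simp only [Sym2.map_mk, Sym2.mk_isDiag_iff, Function.comp_apply,
      EmbeddingLike.apply_eq_iff_eq]

theorem Mat_iff (T : Finset (Sym2 V)) (c : V → Fin 4) (π : Equiv.Perm (Fin 4)) (t : Ent) :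
    Mat T (π ∘ c) t ↔ Mat T c t := by
  unfold Mat
  rw [pr_eq, e2_eq, sp2_eq, X2_eq]

theorem Dom_iff (k : ℕ) (T : Finset (Sym2 V)) (c : V → Fin 4) (π : Equiv.Perm (Fin 4))
    (t : Ent) : Dom k T (π ∘ c) t ↔ Dom k T c t := by
  unfold Dom
  rw [pr_eq, e2_eq, sp2_eq, X2_eq]

end INV_

open INV_ in
theorem p_INV : T_INV := by
  intro V _ _ T c π
  refine ⟨e2_eq T c π, sp2_eq T c π, X2_eq T c π, pr_eq T c π, sg_eq T c π, fun tab i => ?_⟩
  constructor
  · unfold Hn
    congr 2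
    funext t
    have h := propext (Mat_iff T c π t)
    by_cases h1 : Mat T c t
    · rw [if_pos h1, if_pos (by rw [h]; exact h1)]
    · rw [if_neg h1, if_neg (by rw [h]; exact h1)]
  · unfold Gn
    congr 2
    funext t
    have h := propext (Dom_iff i T c π t)
    by_cases h1 : Dom i T c t
    · rw [if_pos h1, if_pos (by rw [h]; exact h1)]
    · rw [if_neg h1, if_neg (by rw [h]; exact h1)]

end Pool.Agent.KFV
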