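import Pool.Agent.KFV.Targets2

/-!
# KFV-KEY: `keyOf` is correct
-/

namespace Pool.Agent.KFV

open Finset

namespace KEY_

lemma frc_eq {α : Type} (n : ℕ) (f : ℕ → α) : frc n f = f n := by
  cases n <;> rfl

lemma TJ_zero {m : ℕ} (T : Finset (Sym2 (Fin m))) : TJ T 0 = ∅ := by
  unfold TJ
  rw [Finset.filter_eq_empty_iff]
  intro e _ h
  induction e with
  | h a b => exact absurd (h a (Sym2.mem_mk_left a b)) (Nat.not_lt_zero _)

lemma TJ_full {m : ℕ} (T : Finset (Sym2 (Fin m))) : TJ T m = T := by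
  unfold TJ
  rw [Finset.filter_eq_self]
  intro e _ v _
  exact v.2

lemma xr_empty {m : ℕ} (c : Fin m → Fin 4) (u v : Fin m) :
    ¬ xr (∅ : Finset (Sym2 (Fin m))) c u v := by
  intro h
  exact absurd h.1 (Finset.notMem_empty _)

lemma dg_empty {m : ℕ} (c : Fin m → Fin 4) (v : Fin m) :
    dg (∅ : Finset (Sym2 (Fin m))) c v = 0 := by
  unfold dg
  apply Finset.sum_eq_zero
  intro w _
  rw [if_neg (xr_empty c v w)]

lemma spt_empty {m : ℕ} (c : Fin m → Fin 4) : spt (∅ : Finset (Sym2 (Fin m))) c = ∅ := by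
  unfold spt
  rw [Finset.filter_eq_empty_iff]
  intro v _
  simp [dg_empty]

lemma st0 {m : ℕ} (T : Finset (Sym2 (Fin m))) (c : Fin m → Fin 4) :
    StOK T c 0 [] 0 0 0 0 0 := by
  refine ⟨?_, ?_, ?_, ?_, ?_, ?_⟩
  · simp
  · simp [pkS]
  · simp [pkS]
  · simp [pkS]
  · simp [pkS]
  · rw [TJ_zero, spt_empty]
    simp [pkS]

lemma cs0 {m : ℕ} (T : Finset (Sym2 (Fin m))) (c : Fin m → Fin 4) :
    CsOK (TJ T 0) c [] 0 := by
  rw [TJ_zero]
  refine ⟨[], rfl, List.Pairwise.nil, by simp, ?_, ?_, ?_⟩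
  · intro v
    simp [dg_empty]
  · intro b
    simp [xr_empty]
  · simp [spt_empty]

/-- all edges are cross -/
lemma cross (D : CC) (hD : D.Wf) (u v : Fin D.C.m) (h : s(u, v) ∈ TG D.C) :
    colF D u ≠ colF D v := by
  obtain ⟨hC, hl, h4, hc⟩ := hD
  have key : ∀ p ∈ D.C.E, colF D p.1 ≠ colF D p.2 := by
    intro p hp heq
    have hb := hC.1 p hp
    apply hc p hp
    have e1 : D.col.getD p.1 0 < 4 := by
      rw [List.getD_eq_getElem (hn := by omega)]
      exact h4 _ (List.getElem_mem _)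
    have e2 : D.col.getD p.2 0 < 4 := by
      rw [List.getD_eq_getElem (hn := by omega)]
      exact h4 _ (List.getElem_mem _)
    have := congrArg Fin.val heq
    simp only [colF] at this
    rw [Nat.mod_eq_of_lt e1, Nat.mod_eq_of_lt e2] at this
    exact this
  unfold TG at h
  rw [Finset.mem_image] at h
  obtain ⟨q, hq, he⟩ := h
  rw [Finset.mem_filter] at hq
  have hk := key _ hq.2
  rw [Sym2.eq_iff] at he
  rcases he with ⟨h1, h2⟩ | ⟨h1, h2⟩
  · rw [← h1, ← h2]
    exact hk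
  · rw [← h1, ← h2]
    exact hk.symm

lemma rowS_eq (D : CC) (hD : D.Wf) (i : Fin D.C.m) :
    rowS (TG D.C) (fun i => colF D i) i = nbS (TG D.C) i := by
  unfold rowS nbS
  apply Finset.filter_congr
  intro u _
  constructor
  · rintro ⟨h1, h2⟩
    exact ⟨h1, h2.1⟩
  · rintro ⟨h1, h2⟩
    exact ⟨h1, h2, cross D hD u i h2⟩

lemma col_val (D : CC) (hD : D.Wf) (j : ℕ) (hj : j < D.C.m) :
    ∃ a, D.col[j]? = some a ∧ a < 4 ∧ ∀ k : Fin 4, (colF D j = k ↔ a = (k : ℕ)) := by
  obtain ⟨hC, hl, h4, hc⟩ := hD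
  have hj' : j < D.col.length := by omega
  refine ⟨D.col[j], List.getElem?_eq_getElem hj', h4 _ (List.getElem_mem _), ?_⟩
  intro k
  have e1 : D.col.getD j 0 = D.col[j] := by
    rw [List.getD_eq_getElem (hn := hj')]
  have e2 := h4 _ (List.getElem_mem hj')
  rw [Fin.ext_iff]
  simp only [colF]
  rw [e1, Nat.mod_eq_of_lt e2]

end KEY_

open KEY_

theorem p_KEY : T_KEY := by
  intro hPKA hSTN hRK1 hRK2 hROW hLFL D r e s x hD hkey
  have hm : D.C.m ≤ 12 := hD.1.2.2
  obtain ⟨-, -, hlen, hrow⟩ := hROW D.C hD.1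
  have main : ∀ (d j : ℕ), j + d = D.C.m → ∀ (XR : List (ℕ × ℕ)) (M0 M1 M2 M3 S : ℕ)
      (cs : List ℕ) (r : ℕ), StOK (TG D.C) (fun i => colF D i) j XR M0 M1 M2 M3 S →
      CsOK (TJ (TG D.C) j) (fun i => colF D i) cs r →
      ∃ r' : ℕ, pr (TG D.C) (fun i => colF D i) = (1 / 2) ^ r' ∧
      ∀ (α : Type) (f : ℕ → ℕ → ℕ → ℕ → α),
        keyGo ((rowsOf D.C).drop j) (D.col.drop j) XR M0 M1 M2 M3 S cs r f =
        f r' (e2 (TG D.C) (fun i => colF D i)) (sp2 (TG D.C) (fun i => colF D i))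
          (X2 (TG D.C) (fun i => colF D i)) := by
    intro d
    induction d with
    | zero =>
      intro j hj XR M0 M1 M2 M3 S cs r hSt hCs
      have hj' : j = D.C.m := by omega
      subst hj'
      rw [TJ_full] at hCs
      refine ⟨r, hRK2 _ _ _ _ _ hCs, ?_⟩
      intro α f
      rw [List.drop_eq_nil_of_le (by omega)]
      have : keyGo [] (D.col.drop D.C.m) XR M0 M1 M2 M3 S cs r f =
        leafK XR M0 M1 M2 M3 S (fun e s X => f r e s X) := by
        simp only [keyGo]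
      rw [this]
      exact hLFL hPKA _ _ _ _ _ _ _ _ _ hm hSt α _
    | succ d ih =>
      intro j hj XR M0 M1 M2 M3 S cs r hSt hCs
      have hj' : j < D.C.m := by omega
      have hr := hrow j hj'
      obtain ⟨a, ha, ha4, hak⟩ := col_val D hD j hj'
      have hrd : (rowsOf D.C).drop j =
          (2 ^ (16 * j), pkS (nbS (TG D.C) ⟨j, hj'⟩)) :: (rowsOf D.C).drop (j + 1) := by
        have hjl : j < (rowsOf D.C).length := by omega
        rw [List.drop_eq_getElem_cons hjl]
        congr 1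
        rw [List.getElem?_eq_getElem hjl] at hr
        exact Option.some.inj hr
      have hcd : D.col.drop j = a :: D.col.drop (j + 1) := by
        have hjl : j < D.col.length := by
          have := hD.2.1
          omega
        rw [List.drop_eq_getElem_cons hjl]
        congr 1
        rw [List.getElem?_eq_getElem hjl] at ha
        exact Option.some.inj ha
      have hst := hSTN hPKA D.C.m j hj' (TG D.C) (fun i => colF D i) XR M0 M1 M2 M3 S hm hSt
      obtain ⟨-, -, -, -, hs1, hs2⟩ := hst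
      obtain ⟨hc1, hc2⟩ := hRK1 hPKA D.C.m j hj' (TG D.C) (fun i => colF D i) cs r hm hCs
      have hif : ∀ (k : Fin 4) (M : ℕ), (M + if (fun i : Fin D.C.m => colF D i) ⟨j, hj'⟩ = k then
          2 ^ (16 * j) else 0) = if a = (k : ℕ) then Nat.add M (2 ^ (16 * j)) else M := by
        intro k M
        have := hak k
        by_cases h : a = (k : ℕ)
        · rw [if_pos h, if_pos (this.2 h)]
          rfl
        · rw [if_neg h, if_neg (fun h' => h (this.1 h'))]
          rfl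
      rw [hif 0, hif 1, hif 2, hif 3] at hs1 hs2
      rw [rowS_eq D hD] at hs1 hs2 hc1 hc2
      by_cases hR : nbS (TG D.C) ⟨j, hj'⟩ = ∅
      · obtain ⟨r', hr', hf⟩ := ih (j + 1) (by omega) _ _ _ _ _ _ _ _ (hs1 hR) (hc1 hR)
        refine ⟨r', hr', ?_⟩
        intro α f
        rw [hrd, hcd, ← hf α f]
        have hp0 : pkS (nbS (TG D.C) ⟨j, hj'⟩) = 0 := by
          rw [hR]
          simp [pkS]
        rw [hp0]
        simp only [keyGo, frc_eq]
        rfl
      · obtain ⟨cs', r1, hcs', hmerge⟩ := hc2 hR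
        obtain ⟨r', hr', hf⟩ := ih (j + 1) (by omega) _ _ _ _ _ _ _ _ (hs2 hR) hcs'
        refine ⟨r', hr', ?_⟩
        intro α f
        rw [hrd, hcd, ← hf α f]
        have hp0 : pkS (nbS (TG D.C) ⟨j, hj'⟩) ≠ 0 := by
          intro h0
          exact hR (((hPKA D.C.m hm).2.2.1 _).1 h0)
        have hb : Nat.beq (pkS (nbS (TG D.C) ⟨j, hj'⟩)) 0 = false := by
          cases h : Nat.beq (pkS (nbS (TG D.C) ⟨j, hj'⟩)) 0 with
          | false => rfl
          | true => exact absurd (Nat.eq_of_beq_eq_true h) hp0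
        simp only [keyGo, frc_eq, hb, cond_false]
        rw [← hSt.hs] at hmerge
        rw [hmerge]
        rfl
  obtain ⟨r', hr', hf⟩ := main D.C.m 0 (by omega) [] 0 0 0 0 0 [] 0 (st0 _ _) (cs0 _ _)
  have h1 := hf _ (fun r e s x => (r, e, s, x))
  rw [List.drop_zero, List.drop_zero] at h1
  have h2 : keyOf D = (r', e2 (TG D.C) (fun i => colF D i), sp2 (TG D.C) (fun i => colF D i),
    X2 (TG D.C) (fun i => colF D i)) := h1
  rw [hkey] at h2
  simp only [Prod.mk.injEq] at h2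
  obtain ⟨ha, hb, hc, hd⟩ := h2
  refine ⟨?_, hb.symm, hc.symm, hd.symm⟩
  rw [hr', ha]

end Pool.Agent.KFV
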