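import Pool.Agent.KFV.Targets2

/-! KFV-LAF: leaf averaging. -/

namespace Pool.Agent.KFV

open Finset

namespace LAF_

theorem avg_some {t : Ent} {o1 o2 o3 : Option Ent} (h : avg3 t o1 o2 o3 = true) :
    ∃ e1 e2 e3, o1 = some e1 ∧ o2 = some e2 ∧ o3 = some e3 ∧
      ∀ i, e1.h i + e2.h i + e3.h i = 3 * t.h (i + 1) := by
  cases o1 with
  | none => simp [avg3] at h
  | some a =>
    cases o2 with
    | none => simp [avg3] at h
    | some b =>
      cases o3 with
      | none => simp [avg3] at h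
      | some c =>
        refine ⟨a, b, c, rfl, rfl, rfl, fun i => ?_⟩
        unfold avg3 at h
        rw [List.all_eq_true] at h
        by_cases hi : i < 5
        · exact of_decide_eq_true (h i (List.mem_range.2 hi))
        · unfold Ent.h
          rw [if_neg hi, if_neg hi, if_neg hi, if_neg (by omega)]
          rfl

theorem sum3 (O : ℕ → Option Ent) (G : Fin 4 → ℤ) (z : Fin 4) (t : Ent) (i : ℕ)
    (h1 : avg3 t (O (oth z).1) (O (oth z).2.1) (O (oth z).2.2) = true)
    (h2 : ∀ a : Fin 4, a ≠ z → ∀ e, O a = some e → G a = e.h i) :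
    ∑ a ∈ univ.filter (fun a : Fin 4 => a ≠ z), G a = 3 * t.h (i + 1) := by
  obtain ⟨e1, e2, e3, g1, g2, g3, g⟩ := avg_some h1
  rw [← g i, Finset.sum_filter, Fin.sum_univ_four]
  fin_cases z
  · have s1 := h2 1 (by decide) e1 g1
    have s2 := h2 2 (by decide) e2 g2
    have s3 := h2 3 (by decide) e3 g3
    simp [s1, s2, s3]
  · have s1 := h2 0 (by decide) e1 g1
    have s2 := h2 2 (by decide) e2 g2
    have s3 := h2 3 (by decide) e3 g3
    simp [s1, s2, s3]
  · have s1 := h2 0 (by decide) e1 g1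
    have s2 := h2 1 (by decide) e2 g2
    have s3 := h2 3 (by decide) e3 g3
    simp [s1, s2, s3]
  · have s1 := h2 0 (by decide) e1 g1
    have s2 := h2 1 (by decide) e2 g2
    have s3 := h2 2 (by decide) e3 g3
    simp [s1, s2, s3]

theorem reindex (π : Equiv.Perm (Fin 4)) (z : Fin 4) (g : Fin 4 → ℤ) :
    ∑ a ∈ univ.filter (fun a => a ≠ π z), g a =
      ∑ a ∈ univ.filter (fun a => a ≠ z), g (π a) := by
  rw [Finset.sum_filter, Finset.sum_filter, ← Equiv.sum_comp π]
  refine Finset.sum_congr rfl fun a _ => ?_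
  simp only [ne_eq, EmbeddingLike.apply_eq_iff_eq]

theorem half_lt {r n : ℕ} (h : ((1 : ℚ) / 2) ^ r < (1 / 2) ^ n) : n < r := by
  by_contra hle
  have : ((1 : ℚ) / 2) ^ n ≤ (1 / 2) ^ r :=
    pow_le_pow_of_le_one (by norm_num) (by norm_num) (by omega)
  linarith

theorem Hn_zero {V : Type} [Fintype V] [DecidableEq V] {tab : List Ent} (hTab : TabOK tab)
    (T : Finset (Sym2 V)) (c : V → Fin 4) (i n : ℕ) (h : pr T c < (1 / 2) ^ n)
    (hn : 4 ≤ n + i) : Hn tab i T c = 0 := by
  unfold Hn
  refine List.sum_eq_zero fun x hx => ?_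
  obtain ⟨t, ht, rfl⟩ := List.mem_map.1 hx
  by_cases hM : Mat T c t
  · rw [if_pos hM]
    refine hTab.rk t ht i ?_
    rw [hM.1] at h
    have := half_lt h
    omega
  · rw [if_neg hM]

end LAF_

open LAF_ in
theorem p_LAF : T_LAF := by
  intro hKEY hRKY hCTY hLAT hLOK hUNM hLFK hAVU hPKA hSTN hRK1 hRK2 hROW hLFL hAVC hEMK hXRI
    hINV hMON hDGM hEXC hCCE tree types hTab hWf h0 hext hcov hla V _ _ T c u l i hul hl
  have hmatch : ∀ (D : CC) (T : Finset (Sym2 V)) (c : V → Fin 4) (t : Ent), D.Wf →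
      Real D T c → entOf tree D = some t → ∀ i, Hn tree.toL i T c = t.h i := by
    intro D T c t hD hR he
    unfold entOf at he
    rcases hk : keyOf D with ⟨r, e, s, x⟩
    rw [hk] at he
    simp only at he
    obtain ⟨ht, hr, he', hs, hx⟩ := hLOK tree r e s x t he
    obtain ⟨k1, k2, k3, k4⟩ := hKEY hPKA hSTN hRK1 hRK2 hROW hLFL D r e s x hD hk
    obtain ⟨r1, r2, r3, r4⟩ := hRKY hAVC hEMK hXRI hINV V D T c hD hR
    have hM : Mat T c t :=
      ⟨by rw [r1, k1, hr], by rw [r2, k2, he'], by rw [r3, k3, hs], by rw [r4, k4, hx]⟩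
    exact (hUNM V T c tree.toL t hTab ht hM).1
  by_cases hpr : pr T c < (1 / 2) ^ 3
  · rw [Hn_zero hTab T c (i + 1) 3 hpr (by omega), mul_zero]
    refine Finset.sum_eq_zero fun a ha => ?_
    have hL := (hLFK hAVU V T c u l a hul hl).2 (Finset.mem_filter.1 ha).2
    refine Hn_zero hTab _ _ i 4 ?_ (by omega)
    rw [hL.1]
    have : ((1 : ℚ) / 2) ^ 4 = (1 / 2) ^ 3 * (1 / 2) := by norm_num
    rw [this]
    linarith
  · have hpr' : 1 / 8 ≤ pr T c := by
      have := not_lt.1 hpr
      norm_num at this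
      linarith
    haveI : Nonempty V := ⟨u⟩
    obtain ⟨D, hD, hR⟩ := hCTY hPKA hSTN hRK1 hRK2 hROW hLFL hKEY hAVC hEMK hXRI hINV hRKY
      hMON hDGM hEXC hCCE V types T c hWf h0 hext hpr'
    have hok := hla D hD
    unfold laOK at hok
    rw [Bool.and_eq_true, Bool.and_eq_true, decide_eq_true_eq, decide_eq_true_eq] at hok
    obtain ⟨⟨hDW, hm⟩, hok⟩ := hok
    cases hent : entOf tree D with
    | none =>
      rw [hent] at hok
      simp at hok
    | some t =>
      rw [hent] at hok
      simp only [Bool.and_eq_true, List.all_eq_true] at hok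
      obtain ⟨hokA, hokB⟩ := hok
      rw [hmatch D T c t hDW hR hent (i + 1)]
      obtain ⟨π, hπ | hπ⟩ := hLAT V D T c u l hDW hm (hcov D hD) hul hl hR
      · obtain ⟨i0, hi0, hcu, hA⟩ := hπ
        rw [hcu, reindex]
        refine sum3 (fun a => entOf tree (attA D i0 a)) _ (colF D i0) t i ?_ ?_
        · have h := hokA i0 (List.mem_range.2 hi0)
          have hc : ((colF D i0 : Fin 4) : ℕ) = D.col.getD i0 0 := by
            unfold colF
            simp only
            refine Nat.mod_eq_of_lt ?_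
            rcases Nat.lt_or_ge i0 D.col.length with hlt | hge
            · rw [List.getD_eq_getElem _ _ hlt]
              exact hDW.2.2.1 _ (List.getElem_mem hlt)
            · rw [List.getD_eq_default _ _ hge]
              norm_num
          rw [hc]
          exact h
        · intro a ha e he
          obtain ⟨w, hr⟩ := hA a ha
          exact hmatch _ _ _ e w hr he i
      · obtain ⟨z, hcu, hB⟩ := hπ
        rw [hcu, reindex]
        refine sum3 (fun a => entOf tree (attB D z a)) _ z t i ?_ ?_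
        · exact hokB z (List.mem_range.2 z.2)
        · intro a ha e he
          obtain ⟨w, hr⟩ := hB a ha
          exact hmatch _ _ _ e w hr he i

end Pool.Agent.KFV
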