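import Pool.Agent.KFV.Targets2

/-!
# KFV, target LAT: attaching a leaf to a copy of a concrete coloured graph
-/

set_option autoImplicit false

namespace Pool.Agent.KFV

open Finset

namespace LAT_

variable {V : Type} [DecidableEq V]

theorem xr_ins {T : Finset (Sym2 V)} {c : V → Fin 4} {u l : V} {b : Fin 4}
    (hul : u ≠ l) (hl : ∀ w, s(l, w) ∉ T) (hb : c u ≠ b) (x y : V) :
    xr (insert s(u, l) T) (Function.update c l b) x y ↔ s(x, y) = s(u, l) ∨ xr T c x y := by
  have hT : s(x, y) ∈ T → x ≠ l ∧ y ≠ l := by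
    intro h
    constructor
    · rintro rfl
      exact hl _ h
    · rintro rfl
      rw [Sym2.eq_swap] at h
      exact hl _ h
  unfold xr
  rw [mem_insert]
  constructor
  · rintro ⟨h1 | h1, h2⟩
    · exact Or.inl h1
    · obtain ⟨h3, h4⟩ := hT h1
      rw [Function.update_of_ne h3, Function.update_of_ne h4] at h2
      exact Or.inr ⟨h1, h2⟩
  · rintro (h1 | ⟨h1, h2⟩)
    · refine ⟨Or.inl h1, ?_⟩
      rw [Sym2.eq_iff] at h1
      rcases h1 with ⟨rfl, rfl⟩ | ⟨rfl, rfl⟩
      · rw [Function.update_of_ne hul, Function.update_self]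
        exact hb
      · rw [Function.update_of_ne hul, Function.update_self]
        exact hb.symm
    · refine ⟨Or.inr h1, ?_⟩
      obtain ⟨h3, h4⟩ := hT h1
      rw [Function.update_of_ne h3, Function.update_of_ne h4]
      exact h2

theorem mem_img {φ : ℕ → V} {E : List (ℕ × ℕ)} {e : Sym2 V} :
    e ∈ img φ E ↔ ∃ p ∈ E, s(φ p.1, φ p.2) = e := by
  unfold img
  rw [List.mem_toFinset, List.mem_map]

theorem mem_img_cons {φ φ' : ℕ → V} {E : List (ℕ × ℕ)} {i j : ℕ} {e : Sym2 V}
    (h : ∀ p ∈ E, φ' p.1 = φ p.1 ∧ φ' p.2 = φ p.2) :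
    e ∈ img φ' ((i, j) :: E) ↔ e = s(φ' i, φ' j) ∨ e ∈ img φ E := by
  rw [mem_img, mem_img]
  constructor
  · rintro ⟨p, hp, rfl⟩
    rw [List.mem_cons] at hp
    rcases hp with rfl | hp
    · exact Or.inl rfl
    · obtain ⟨h1, h2⟩ := h p hp
      exact Or.inr ⟨p, hp, by rw [h1, h2]⟩
  · rintro (rfl | ⟨p, hp, rfl⟩)
    · exact ⟨(i, j), List.mem_cons_self, rfl⟩
    · obtain ⟨h1, h2⟩ := h p hp
      exact ⟨p, List.mem_cons_of_mem _ hp, by rw [h1, h2]⟩

theorem getD_lt {D : CC} (hD : D.Wf) {i : ℕ} (hi : i < D.C.m) : D.col.getD i 0 < 4 := by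
  have h1 : i < D.col.length := by rw [hD.2.1]; exact hi
  rw [List.getD_eq_getElem _ _ h1]
  exact hD.2.2.1 _ (List.getElem_mem h1)

theorem colF_val {D : CC} (hD : D.Wf) {i : ℕ} (hi : i < D.C.m) :
    (colF D i : ℕ) = D.col.getD i 0 := Nat.mod_eq_of_lt (getD_lt hD hi)

theorem colF_app {D D' : CC} {i : ℕ} {L : List ℕ} (hc : D'.col = D.col ++ L)
    (hi : i < D.col.length) : colF D' i = colF D i := by
  apply Fin.ext
  show D'.col.getD i 0 % 4 = D.col.getD i 0 % 4
  rw [hc, List.getD_append _ _ _ _ hi]

theorem colF_mk {D' : CC} {i : ℕ} {a : Fin 4} (h : D'.col.getD i 0 = a) : colF D' i = a := by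
  apply Fin.ext
  show D'.col.getD i 0 % 4 = (a : ℕ)
  rw [h]
  exact Nat.mod_eq_of_lt a.2

theorem wfA {D : CC} (hD : D.Wf) (hm : D.C.m ≤ 10) {i : ℕ} (hi : i < D.C.m) {a : Fin 4}
    (ha : a ≠ colF D i) : (attA D i a).Wf := by
  obtain ⟨⟨hE, hN, -⟩, hL, h4, hc⟩ := hD
  refine ⟨⟨?_, ?_, ?_⟩, ?_, ?_, ?_⟩
  · intro p hp
    change p ∈ (i, D.C.m) :: D.C.E at hp
    show p.1 < p.2 ∧ p.2 < D.C.m + 1
    rw [List.mem_cons] at hp
    rcases hp with rfl | hp
    · exact ⟨hi, Nat.lt_succ_self _⟩
    · have := hE p hp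
      exact ⟨this.1, by omega⟩
  · show ((i, D.C.m) :: D.C.E).Nodup
    rw [List.nodup_cons]
    refine ⟨fun h => ?_, hN⟩
    have := (hE _ h).2
    simp at this
  · show D.C.m + 1 ≤ 12
    omega
  · show (D.col ++ [(a : ℕ)]).length = D.C.m + 1
    rw [List.length_append, hL]
    rfl
  · intro b hb
    change b ∈ D.col ++ [(a : ℕ)] at hb
    rw [List.mem_append, List.mem_singleton] at hb
    rcases hb with hb | rfl
    · exact h4 b hb
    · exact a.2
  · intro p hp
    change p ∈ (i, D.C.m) :: D.C.E at hp
    show (D.col ++ [(a : ℕ)]).getD p.1 0 ≠ (D.col ++ [(a : ℕ)]).getD p.2 0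
    rw [List.mem_cons] at hp
    rcases hp with rfl | hp
    · show (D.col ++ [(a : ℕ)]).getD i 0 ≠ (D.col ++ [(a : ℕ)]).getD D.C.m 0
      rw [List.getD_append _ _ _ _ (by omega), List.getD_append_right _ _ _ _ (by omega), hL,
        Nat.sub_self, List.getD_cons_zero]
      intro h
      apply ha
      symm
      apply colF_mk h
    · have h1 := hE p hp
      rw [List.getD_append _ _ _ _ (by omega), List.getD_append _ _ _ _ (by omega)]
      exact hc p hp

theorem wfB {D : CC} (hD : D.Wf) (hm : D.C.m ≤ 10) {z a : Fin 4}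
    (ha : a ≠ z) : (attB D z a).Wf := by
  obtain ⟨⟨hE, hN, -⟩, hL, h4, hc⟩ := hD
  refine ⟨⟨?_, ?_, ?_⟩, ?_, ?_, ?_⟩
  · intro p hp
    change p ∈ (D.C.m, D.C.m + 1) :: D.C.E at hp
    show p.1 < p.2 ∧ p.2 < D.C.m + 2
    rw [List.mem_cons] at hp
    rcases hp with rfl | hp
    · exact ⟨Nat.lt_succ_self _, Nat.lt_succ_self _⟩
    · have := hE p hp
      exact ⟨this.1, by omega⟩
  · show ((D.C.m, D.C.m + 1) :: D.C.E).Nodup
    rw [List.nodup_cons]
    refine ⟨fun h => ?_, hN⟩
    have := (hE _ h).2
    simp at this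
  · show D.C.m + 2 ≤ 12
    omega
  · show (D.col ++ [(z : ℕ), (a : ℕ)]).length = D.C.m + 2
    rw [List.length_append, hL]
    rfl
  · intro b hb
    change b ∈ D.col ++ [(z : ℕ), (a : ℕ)] at hb
    rw [List.mem_append, List.mem_cons, List.mem_singleton] at hb
    rcases hb with hb | rfl | rfl
    · exact h4 b hb
    · exact z.2
    · exact a.2
  · intro p hp
    change p ∈ (D.C.m, D.C.m + 1) :: D.C.E at hp
    show (D.col ++ [(z : ℕ), (a : ℕ)]).getD p.1 0 ≠ (D.col ++ [(z : ℕ), (a : ℕ)]).getD p.2 0
    rw [List.mem_cons] at hp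
    rcases hp with rfl | hp
    · show (D.col ++ [(z : ℕ), (a : ℕ)]).getD D.C.m 0 ≠
        (D.col ++ [(z : ℕ), (a : ℕ)]).getD (D.C.m + 1) 0
      rw [List.getD_append_right _ _ _ _ (by omega), List.getD_append_right _ _ _ _ (by omega),
        hL, Nat.sub_self, Nat.add_sub_cancel_left, List.getD_cons_zero, List.getD_cons_succ,
        List.getD_cons_zero]
      intro h
      exact ha (Fin.ext h.symm)
    · have h1 := hE p hp
      rw [List.getD_append _ _ _ _ (by omega), List.getD_append _ _ _ _ (by omega)]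
      exact hc p hp

end LAT_

open LAT_ in
theorem p_LAT : T_LAT := by
  intro V _ _ D T c u l hD hm hiso hul hl hreal
  obtain ⟨φ, hinj, π, h1, h2⟩ := hreal
  have hE := hD.1.1
  have hL := hD.2.1
  -- `l` has no index
  have hlφ : ∀ i < D.C.m, φ i ≠ l := by
    intro i hi he
    obtain ⟨p, hp, h3⟩ := hiso i hi
    have h4 : xr T c (φ p.1) (φ p.2) := (h1 _ _).2 (mem_img.2 ⟨p, hp, rfl⟩)
    rcases h3 with h3 | h3
    · rw [h3, he] at h4
      exact hl _ h4.1
    · rw [h3, he] at h4
      have h5 := h4.1
      rw [Sym2.eq_swap] at h5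
      exact hl _ h5
  refine ⟨π, ?_⟩
  by_cases hu : ∃ i < D.C.m, φ i = u
  · obtain ⟨i, hi, rfl⟩ := hu
    refine Or.inl ⟨i, hi, h2 i hi, fun a ha => ⟨wfA hD hm hi ha, ?_⟩⟩
    have hsame : ∀ k < D.C.m, Function.update φ D.C.m l k = φ k := by
      intro k hk
      exact Function.update_of_ne (by omega) _ _
    refine ⟨Function.update φ D.C.m l, ?_, π, ?_, ?_⟩
    · intro x hx y hy hxy
      change x < D.C.m + 1 at hx
      change y < D.C.m + 1 at hy
      by_cases hx' : x < D.C.m
      · by_cases hy' : y < D.C.m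
        · rw [hsame x hx', hsame y hy'] at hxy
          exact hinj hx' hy' hxy
        · have : y = D.C.m := by omega
          subst this
          rw [hsame x hx', Function.update_self] at hxy
          exact absurd hxy (hlφ x hx')
      · have : x = D.C.m := by omega
        subst this
        by_cases hy' : y < D.C.m
        · rw [hsame y hy', Function.update_self] at hxy
          exact absurd hxy.symm (hlφ y hy')
        · omega
    · intro x y
      rw [xr_ins hul hl (by rw [h2 i hi]; exact fun h => ha (π.injective h).symm) x y]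
      show _ ↔ s(x, y) ∈ img (Function.update φ D.C.m l) ((i, D.C.m) :: D.C.E)
      rw [mem_img_cons (φ := φ) (fun p hp => ⟨hsame _ (by have := hE p hp; omega),
        hsame _ (by have := hE p hp; omega)⟩), hsame i hi, Function.update_self, h1]
    · intro k hk
      change k < D.C.m + 1 at hk
      by_cases hk' : k < D.C.m
      · rw [hsame k hk', Function.update_of_ne (hlφ k hk'), h2 k hk',
          colF_app (D' := attA D i a) (L := [(a : ℕ)]) rfl (by omega)]
      · have : k = D.C.m := by omega
        subst this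
        rw [Function.update_self, Function.update_self]
        congr 1
        symm
        apply colF_mk
        show (D.col ++ [(a : ℕ)]).getD D.C.m 0 = a
        rw [List.getD_append_right _ _ _ _ (by omega), hL, Nat.sub_self, List.getD_cons_zero]
  · have hu' : ∀ i < D.C.m, φ i ≠ u := fun i hi h => hu ⟨i, hi, h⟩
    refine Or.inr ⟨π.symm (c u), (π.apply_symm_apply _).symm, fun a ha => ⟨wfB hD hm ha, ?_⟩⟩
    have hsame : ∀ k < D.C.m,
        Function.update (Function.update φ D.C.m u) (D.C.m + 1) l k = φ k := by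
      intro k hk
      rw [Function.update_of_ne (by omega), Function.update_of_ne (by omega)]
    have hM : Function.update (Function.update φ D.C.m u) (D.C.m + 1) l D.C.m = u := by
      rw [Function.update_of_ne (by omega), Function.update_self]
    have hM1 : Function.update (Function.update φ D.C.m u) (D.C.m + 1) l (D.C.m + 1) = l := by
      rw [Function.update_self]
    refine ⟨Function.update (Function.update φ D.C.m u) (D.C.m + 1) l, ?_, π, ?_, ?_⟩
    · intro x hx y hy hxy
      change x < D.C.m + 2 at hx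
      change y < D.C.m + 2 at hy
      have tri : ∀ x < D.C.m + 2, x < D.C.m ∨ x = D.C.m ∨ x = D.C.m + 1 := by
        intro x hx
        omega
      rcases tri x hx with hx' | rfl | rfl
      · rcases tri y hy with hy' | rfl | rfl
        · rw [hsame x hx', hsame y hy'] at hxy
          exact hinj hx' hy' hxy
        · rw [hsame x hx', hM] at hxy
          exact absurd hxy (hu' x hx')
        · rw [hsame x hx', hM1] at hxy
          exact absurd hxy (hlφ x hx')
      · rcases tri y hy with hy' | rfl | rfl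
        · rw [hsame y hy', hM] at hxy
          exact absurd hxy.symm (hu' y hy')
        · rfl
        · rw [hM, hM1] at hxy
          exact absurd hxy hul
      · rcases tri y hy with hy' | rfl | rfl
        · rw [hsame y hy', hM1] at hxy
          exact absurd hxy.symm (hlφ y hy')
        · rw [hM, hM1] at hxy
          exact absurd hxy.symm hul
        · rfl
    · intro x y
      have hb : c u ≠ π a := by
        intro h
        apply ha
        rw [h, π.symm_apply_apply]
      rw [xr_ins hul hl hb x y]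
      show _ ↔ s(x, y) ∈ img (Function.update (Function.update φ D.C.m u) (D.C.m + 1) l)
        ((D.C.m, D.C.m + 1) :: D.C.E)
      rw [mem_img_cons (φ := φ) (fun p hp => ⟨hsame _ (by have := hE p hp; omega),
        hsame _ (by have := hE p hp; omega)⟩), hM, hM1, h1]
    · intro k hk
      change k < D.C.m + 2 at hk
      by_cases hk' : k < D.C.m
      · rw [hsame k hk', Function.update_of_ne (hlφ k hk'), h2 k hk',
          colF_app (D' := attB D (π.symm (c u)) a)
            (L := [((π.symm (c u) : Fin 4) : ℕ), (a : ℕ)]) rfl (by omega)]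
      · by_cases hk2 : k = D.C.m
        · subst hk2
          rw [hM, Function.update_of_ne hul]
          rw [colF_mk (D' := attB D (π.symm (c u)) a) (a := π.symm (c u)), π.apply_symm_apply]
          show (D.col ++ [((π.symm (c u) : Fin 4) : ℕ), (a : ℕ)]).getD D.C.m 0 = _
          rw [List.getD_append_right _ _ _ _ (by omega), hL, Nat.sub_self,
            List.getD_cons_zero]
        · have : k = D.C.m + 1 := by omega
          subst this
          rw [hM1, Function.update_self]
          congr 1
          symm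
          apply colF_mk
          show (D.col ++ [((π.symm (c u) : Fin 4) : ℕ), (a : ℕ)]).getD (D.C.m + 1) 0 = a
          rw [List.getD_append_right _ _ _ _ (by omega), hL, Nat.add_sub_cancel_left,
            List.getD_cons_succ, List.getD_cons_zero]

end Pool.Agent.KFV
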