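import Pool.Agent.KFV.Targets

/-!
# KFV: the leaf step for the averages (LFA)
-/

namespace Pool.Agent.KFV

open Finset

namespace LFA_

lemma Hn_congr {V : Type} [Fintype V] [DecidableEq V] {T T' : Finset (Sym2 V)}
    {c c' : V → Fin 4} (hp : pr T' c' = pr T c) (he : e2 T' c' = e2 T c)
    (hs : sp2 T' c' = sp2 T c) (hx : X2 T' c' = X2 T c) (tab : List Ent) (i : ℕ) :
    Hn tab i T' c' = Hn tab i T c := by
  unfold Hn Mat
  rw [hp, he, hs, hx]

end LFA_

open LFA_ in
theorem p_LFA : T_LFA := by
  intro hAVU hLFK V _ _ T u l tab i hLA hul hl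
  have h1 : ∀ c : V → Fin 4,
      (∑ a, ((sg (insert s(u, l) T) (Function.update c l a) *
        Hn tab i (insert s(u, l) T) (Function.update c l a) : ℤ) : ℚ)) =
      -((sg T c * Hn tab i T c : ℤ) : ℚ) + 3 * ((sg T c * Hn tab (i + 1) T c : ℤ) : ℚ) := by
    intro c
    rw [← Int.cast_sum]
    have h2 : (∑ a, sg (insert s(u, l) T) (Function.update c l a) *
        Hn tab i (insert s(u, l) T) (Function.update c l a)) =
        -(sg T c * Hn tab i T c) + 3 * (sg T c * Hn tab (i + 1) T c) := by
      rw [← sum_filter_add_sum_filter_not univ (fun a : Fin 4 => a = c u)]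
      congr 1
      · rw [filter_eq' univ (c u), if_pos (mem_univ _), sum_singleton]
        obtain ⟨e1, e2', e3, e4, e5⟩ := (hLFK hAVU V T c u l (c u) hul hl).1 rfl
        rw [e5, Hn_congr e1 e2' e3 e4]
        ring
      · have h3 : ∀ a ∈ univ.filter (fun a : Fin 4 => ¬ a = c u),
            sg (insert s(u, l) T) (Function.update c l a) *
              Hn tab i (insert s(u, l) T) (Function.update c l a) =
            sg T c * Hn tab i (insert s(u, l) T) (Function.update c l a) := by
          intro a ha
          rw [mem_filter] at ha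
          rw [((hLFK hAVU V T c u l a hul hl).2 ha.2).2.2.2.2]
        rw [sum_congr rfl h3, ← mul_sum]
        have h4 := hLA V T c u l i hul hl
        have h5 : (∑ a ∈ univ.filter (fun a : Fin 4 => ¬ a = c u),
            Hn tab i (insert s(u, l) T) (Function.update c l a)) =
            3 * Hn tab (i + 1) T c := h4
        rw [h5]
        ring
    rw [h2]
    push_cast
    ring
  unfold Av
  rw [hAVU V (Fin 4) l (fun c => ((sg (insert s(u, l) T) c *
    Hn tab i (insert s(u, l) T) c : ℤ) : ℚ))]
  simp only [h1]
  unfold Ex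
  rw [← sum_div, sum_add_distrib, ← mul_sum, sum_neg_distrib]
  simp only [Fintype.card_fin]
  push_cast
  ring

end Pool.Agent.KFV
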