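import Pool.Agent.KFV.Targets

/-! KFV-LFG: leaf step for the bounds. -/

namespace Pool.Agent.KFV

open Finset

namespace LFG_

theorem foldr_mono (tab : List Ent) (f g : Ent → ℕ) (h : ∀ t, f t ≤ g t) :
    (tab.map f).foldr max 0 ≤ (tab.map g).foldr max 0 := by
  induction tab with
  | nil => simp
  | cons a l ih =>
    simp only [List.map_cons, List.foldr_cons]
    exact max_le_max (h a) ih

variable {V : Type} [Fintype V] [DecidableEq V]

theorem Gn_le (tab : List Ent) {k k' : ℕ} {T T' : Finset (Sym2 V)} {c c' : V → Fin 4}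
    (h : ∀ t, Dom k T c t → Dom k' T' c' t) : Gn tab k T c ≤ Gn tab k' T' c' := by
  unfold Gn
  refine foldr_mono tab _ _ fun t => ?_
  by_cases h1 : Dom k T c t
  · rw [if_pos h1, if_pos (h t h1)]
  · rw [if_neg h1]
    exact Nat.zero_le _

theorem Ex_mono (κ : Type) [Fintype κ] {F G : (V → κ) → ℚ} (h : ∀ c, F c ≤ G c) :
    Ex κ F ≤ Ex κ G := by
  unfold Ex
  exact div_le_div_of_nonneg_right (Finset.sum_le_sum fun c _ => h c) (by positivity)

theorem Ex_lin (κ : Type) [Fintype κ] (F G : (V → κ) → ℚ) :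
    Ex κ (fun c => (F c + 3 * G c) / 4) = (Ex κ F + 3 * Ex κ G) / 4 := by
  unfold Ex
  rw [← Finset.sum_div, Finset.sum_add_distrib, ← Finset.mul_sum]
  ring

theorem sum4 (X : Fin 4 → ℚ) (a0 : Fin 4) (A B : ℚ) (h0 : X a0 ≤ A)
    (h1 : ∀ a, a ≠ a0 → X a ≤ B) : ∑ a, X a ≤ A + 3 * B := by
  rw [← Finset.add_sum_erase univ X (mem_univ a0)]
  have h2 : ∑ a ∈ univ.erase a0, X a ≤ (univ.erase a0).card • B :=
    Finset.sum_le_card_nsmul _ _ _ fun a ha => h1 a (Finset.ne_of_mem_erase ha)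
  have h3 : (univ.erase a0).card = 3 := by
    rw [Finset.card_erase_of_mem (mem_univ a0), Finset.card_univ, Fintype.card_fin]
  rw [h3, nsmul_eq_mul] at h2
  push_cast at h2
  linarith

end LFG_

open LFG_ in
theorem p_LFG : T_LFG := by
  intro hAVU hLFK V _ _ T u l tab k hul hl
  unfold Gv
  rw [hAVU V (Fin 4) l (fun c => ((Gn tab k (insert s(u, l) T) c : ℕ) : ℚ)), ← Ex_lin]
  refine Ex_mono (Fin 4) fun c => ?_
  simp only [Fintype.card_fin]
  push_cast
  refine div_le_div_of_nonneg_right ?_ (by norm_num)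
  refine sum4 _ (c u) _ _ ?_ ?_
  · have h := (hLFK hAVU V T c u l (c u) hul hl).1 rfl
    refine Nat.cast_le.2 (Gn_le tab fun t ht => ?_)
    unfold Dom at ht ⊢
    rw [h.1, h.2.1, h.2.2.1, h.2.2.2.1] at ht
    exact ht
  · intro a ha
    have h := (hLFK hAVU V T c u l a hul hl).2 ha
    refine Nat.cast_le.2 (Gn_le tab fun t ht => ?_)
    unfold Dom at ht ⊢
    obtain ⟨h1, h2, h3, h4, -⟩ := h
    rw [h1, h2] at ht
    obtain ⟨t1, t2, t3, t4⟩ := ht
    refine ⟨?_, by omega, by omega, by omega⟩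
    refine le_trans t1 (le_of_eq ?_)
    rw [pow_succ]
    ring

end Pool.Agent.KFV
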