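import Pool.Agent.KFV.Targets

set_option autoImplicit false

/-!
# LFK: the key after adding a leaf
-/

namespace Pool.Agent.KFV

open Finset

namespace LFK_

variable {V : Type} [Fintype V] [DecidableEq V] {T : Finset (Sym2 V)} {c : V → Fin 4}
  {u l : V} {a : Fin 4}

theorem not_l (hl : ∀ w, s(l, w) ∉ T) (w : V) : ¬ xr T c l w := fun h => hl w h.1

theorem not_r (hl : ∀ w, s(l, w) ∉ T) (v : V) : ¬ xr T c v l := fun h => by
  have h1 := h.1
  rw [Sym2.eq_swap] at h1
  exact hl v h1

theorem upd_ne {v : V} (hv : v ≠ l) : Function.update c l a v = c v :=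
  Function.update_of_ne hv _ _

theorem xr_iff (hul : u ≠ l) (hl : ∀ w, s(l, w) ∉ T) (v w : V) :
    xr (insert s(u, l) T) (Function.update c l a) v w ↔
      xr T c v w ∨ (a ≠ c u ∧ ((v = u ∧ w = l) ∨ (v = l ∧ w = u))) := by
  by_cases hv : v = l
  · subst hv
    constructor
    · rintro ⟨h1, h2⟩
      right
      rw [Finset.mem_insert] at h1
      rcases h1 with h1 | h1
      · rw [Sym2.eq_iff] at h1
        rcases h1 with ⟨h3, _⟩ | ⟨_, h3⟩
        · exact absurd h3.symm hul
        · subst h3
          rw [Function.update_self, upd_ne hul] at h2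
          exact ⟨h2, Or.inr ⟨rfl, rfl⟩⟩
      · exact absurd h1 (hl w)
    · rintro (h | ⟨h1, ⟨h2, _⟩ | ⟨_, h2⟩⟩)
      · exact absurd h (not_l hl w)
      · exact absurd h2.symm hul
      · subst h2
        refine ⟨?_, ?_⟩
        · rw [Sym2.eq_swap]; exact Finset.mem_insert_self _ _
        · rw [Function.update_self, upd_ne hul]; exact h1
  · by_cases hw : w = l
    · subst hw
      constructor
      · rintro ⟨h1, h2⟩
        right
        rw [Finset.mem_insert] at h1
        rcases h1 with h1 | h1
        · rw [Sym2.eq_iff] at h1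
          rcases h1 with ⟨h3, _⟩ | ⟨h3, _⟩
          · subst h3
            rw [Function.update_self, upd_ne hul] at h2
            exact ⟨h2.symm, Or.inl ⟨rfl, rfl⟩⟩
          · exact absurd h3 hv
        · rw [Sym2.eq_swap] at h1
          exact absurd h1 (hl v)
      · rintro (h | ⟨h1, ⟨h2, _⟩ | ⟨h2, _⟩⟩)
        · exact absurd h (not_r hl v)
        · subst h2
          refine ⟨Finset.mem_insert_self _ _, ?_⟩
          rw [Function.update_self, upd_ne hul]; exact h1.symm
        · exact absurd h2 hv
    · unfold xr
      rw [upd_ne hv, upd_ne hw, Finset.mem_insert]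
      constructor
      · rintro ⟨h1 | h1, h2⟩
        · rw [Sym2.eq_iff] at h1
          rcases h1 with ⟨_, h3⟩ | ⟨h3, _⟩
          · exact absurd h3 hw
          · exact absurd h3 hv
        · exact Or.inl ⟨h1, h2⟩
      · rintro (⟨h1, h2⟩ | ⟨_, ⟨_, h3⟩ | ⟨h3, _⟩⟩)
        · exact ⟨Or.inr h1, h2⟩
        · exact absurd h3 hw
        · exact absurd h3 hv

theorem dg_l (hl : ∀ w, s(l, w) ∉ T) : dg T c l = 0 := by
  unfold dg
  exact Finset.sum_eq_zero fun w _ => if_neg (not_l hl w)

theorem map_eq (hl : ∀ w, s(l, w) ∉ T) {e : Sym2 V} (he : e ∈ T) :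
    e.map (Function.update c l a) = e.map c := by
  induction e using Sym2.ind with
  | _ x y =>
    have hx : x ≠ l := fun h => hl y (h ▸ he)
    have hy : y ≠ l := fun h => by
      have h1 := he
      rw [Sym2.eq_swap, h] at h1
      exact hl x h1
    rw [Sym2.map_pair_eq, Sym2.map_pair_eq, upd_ne hx, upd_ne hy]

theorem notMem (hl : ∀ w, s(l, w) ∉ T) : s(u, l) ∉ T := by
  rw [Sym2.eq_swap]; exact hl u

/-! ### first part -/

section one

variable (hul : u ≠ l) (hl : ∀ w, s(l, w) ∉ T) (ha : a = c u)
include hul hl ha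

theorem xr_same (v w : V) : xr (insert s(u, l) T) (Function.update c l a) v w ↔ xr T c v w := by
  rw [xr_iff hul hl]
  exact or_iff_left fun h => h.1 ha

theorem dg_same (v : V) : dg (insert s(u, l) T) (Function.update c l a) v = dg T c v := by
  unfold dg
  exact Finset.sum_congr rfl fun w _ => if_congr (xr_same hul hl ha v w) rfl rfl

theorem Ncl_same (k : Fin 4) :
    Ncl (insert s(u, l) T) (Function.update c l a) k = Ncl T c k := by
  unfold Ncl
  refine Finset.sum_congr rfl fun v _ => ?_
  rw [dg_same hul hl ha]
  by_cases hv : v = l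
  · subst hv
    rw [dg_l hl]; simp
  · rw [upd_ne hv]

theorem Dcl_same (k : Fin 4) :
    Dcl (insert s(u, l) T) (Function.update c l a) k = Dcl T c k := by
  unfold Dcl
  refine Finset.sum_congr rfl fun v _ => ?_
  rw [dg_same hul hl ha]
  by_cases hv : v = l
  · subst hv
    rw [dg_l hl]; simp
  · rw [upd_ne hv]

theorem wt_same {v : V} (hv : v ≠ l) :
    wt (insert s(u, l) T) (Function.update c l a) v = wt T c v := by
  unfold wt
  rw [Dcl_same hul hl ha, Ncl_same hul hl ha, dg_same hul hl ha, upd_ne hv]

theorem X2_same : X2 (insert s(u, l) T) (Function.update c l a) = X2 T c := by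
  unfold X2
  refine Finset.sum_congr rfl fun v _ => Finset.sum_congr rfl fun w _ => ?_
  by_cases h : xr T c v w
  · have hv : v ≠ l := fun h' => not_l hl w (h' ▸ h)
    have hw : w ≠ l := fun h' => not_r hl v (h' ▸ h)
    rw [if_pos h, if_pos ((xr_same hul hl ha v w).2 h), wt_same hul hl ha hv,
      wt_same hul hl ha hw]
  · rw [if_neg h, if_neg (fun h' => h ((xr_same hul hl ha v w).1 h'))]

theorem pr_same : pr (insert s(u, l) T) (Function.update c l a) = pr T c := by
  unfold pr
  congr 1
  funext b
  exact if_congr (forall₂_congr fun v w => by rw [xr_same hul hl ha]) rfl rfl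

theorem sg_neg : sg (insert s(u, l) T) (Function.update c l a) = - sg T c := by
  unfold sg
  have h1 : (insert s(u, l) T).filter (fun e => (e.map (Function.update c l a)).IsDiag) =
      insert s(u, l) (T.filter (fun e => (e.map c).IsDiag)) := by
    rw [Finset.filter_insert, if_pos]
    · congr 1
      exact Finset.filter_congr fun e he => by rw [map_eq hl he]
    · rw [Sym2.map_pair_eq, Function.update_self, upd_ne hul, ha]
      exact Sym2.mk_isDiag_iff.2 rfl
  rw [h1, Finset.card_insert_of_notMem (fun h => notMem hl (Finset.mem_filter.1 h).1), pow_succ]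
  ring

end one

/-! ### second part -/

section two

variable (hul : u ≠ l) (hl : ∀ w, s(l, w) ∉ T) (ha : a ≠ c u)
include hul hl ha

theorem xr_new (v w : V) : xr (insert s(u, l) T) (Function.update c l a) v w ↔
    xr T c v w ∨ ((v = u ∧ w = l) ∨ (v = l ∧ w = u)) := by
  rw [xr_iff hul hl]
  exact or_congr Iff.rfl ⟨fun h => h.2, fun h => ⟨ha, h⟩⟩

theorem dg_new (v : V) : dg (insert s(u, l) T) (Function.update c l a) v =
    dg T c v + ((if v = u then 1 else 0) + (if v = l then 1 else 0)) := by
  unfold dg
  have h : ∀ w, (if xr (insert s(u, l) T) (Function.update c l a) v w then 1 else 0) =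
      (if xr T c v w then 1 else 0) + ((if v = u then (if w = l then 1 else 0) else 0) +
        (if v = l then (if w = u then 1 else 0) else 0)) := by
    intro w
    by_cases h1 : xr T c v w
    · have hv : v ≠ l := fun h' => not_l hl w (h' ▸ h1)
      have hw : w ≠ l := fun h' => not_r hl v (h' ▸ h1)
      rw [if_pos ((xr_new hul hl ha v w).2 (Or.inl h1)), if_pos h1, if_neg hw, if_neg hv]
      simp
    · by_cases h2 : v = u ∧ w = l
      · rw [if_pos ((xr_new hul hl ha v w).2 (Or.inr (Or.inl h2))), if_neg h1, if_pos h2.1,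
          if_pos h2.2, if_neg (by rw [h2.1]; exact hul)]
      · by_cases h3 : v = l ∧ w = u
        · rw [if_pos ((xr_new hul hl ha v w).2 (Or.inr (Or.inr h3))), if_neg h1, if_pos h3.1,
            if_pos h3.2, if_neg (by rw [h3.1]; exact hul.symm)]
        · rw [if_neg (fun h' => ?_), if_neg h1]
          · by_cases h4 : v = u
            · have h5 : w ≠ l := fun h' => h2 ⟨h4, h'⟩
              rw [if_pos h4, if_neg h5, if_neg (by rw [h4]; exact hul)]
            · by_cases h5 : v = l
              · have h6 : w ≠ u := fun h' => h3 ⟨h5, h'⟩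
                rw [if_neg h4, if_pos h5, if_neg h6]
              · rw [if_neg h4, if_neg h5]
          · rcases (xr_new hul hl ha v w).1 h' with h | h | h
            · exact h1 h
            · exact h2 h
            · exact h3 h
  simp_rw [h]
  rw [Finset.sum_add_distrib, Finset.sum_add_distrib]
  congr 2
  · by_cases h1 : v = u
    · simp [h1]
    · simp [h1]
  · by_cases h1 : v = l
    · simp [h1]
    · simp [h1]

theorem e2_new : e2 (insert s(u, l) T) (Function.update c l a) = e2 T c + 2 := by
  unfold e2
  simp_rw [dg_new hul hl ha]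
  rw [Finset.sum_add_distrib, Finset.sum_add_distrib]
  simp

theorem Ncl_new (k : Fin 4) : Ncl T c k + (if k = a then 1 else 0) ≤
    Ncl (insert s(u, l) T) (Function.update c l a) k := by
  unfold Ncl
  have h : (if k = a then 1 else 0) = ∑ v, if v = l then (if k = a then 1 else 0) else 0 := by
    simp
  rw [h, ← Finset.sum_add_distrib]
  refine Finset.sum_le_sum fun v _ => ?_
  rw [dg_new hul hl ha]
  by_cases hv : v = l
  · subst hv
    rw [dg_l hl, Function.update_self]
    by_cases hk : k = a
    · subst hk; simp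
    · simp [hk]
  · rw [upd_ne hv, if_neg hv, add_zero, if_neg hv, add_zero]
    by_cases h1 : c v = k ∧ dg T c v ≠ 0
    · rw [if_pos h1, if_pos ⟨h1.1, by omega⟩]
    · rw [if_neg h1]; exact Nat.zero_le _

theorem Ncl_mono (k : Fin 4) : Ncl T c k ≤ Ncl (insert s(u, l) T) (Function.update c l a) k :=
  (Nat.le_add_right _ _).trans (Ncl_new hul hl ha k)

theorem sp2_new : sp2 T c + 1 ≤ sp2 (insert s(u, l) T) (Function.update c l a) := by
  unfold sp2
  have h : (1 : ℕ) = ∑ k : Fin 4, if k = a then 1 else 0 := by simp
  rw [h, ← Finset.sum_add_distrib]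
  refine Finset.sum_le_sum fun k _ => ?_
  have h1 := Ncl_new hul hl ha k
  refine le_trans ?_ (Nat.pow_le_pow_left h1 2)
  by_cases hk : k = a
  · rw [if_pos hk]; nlinarith
  · rw [if_neg hk]; simp

theorem Dcl_mono (k : Fin 4) : Dcl T c k ≤ Dcl (insert s(u, l) T) (Function.update c l a) k := by
  unfold Dcl
  refine Finset.sum_le_sum fun v _ => ?_
  rw [dg_new hul hl ha]
  by_cases hv : v = l
  · subst hv
    rw [dg_l hl]; simp
  · rw [upd_ne hv]
    by_cases h1 : c v = k
    · rw [if_pos h1, if_pos h1]; omega
    · rw [if_neg h1]; exact Nat.zero_le _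

theorem wt_mono {v : V} (hv : v ≠ l) :
    wt T c v ≤ wt (insert s(u, l) T) (Function.update c l a) v := by
  unfold wt
  rw [upd_ne hv]
  have h1 := Dcl_mono hul hl ha (c v)
  have h2 := Ncl_mono hul hl ha (c v)
  have h3 : dg T c v ≤ dg (insert s(u, l) T) (Function.update c l a) v := by
    rw [dg_new hul hl ha]; omega
  omega

theorem wt_three {v : V} (hv : dg (insert s(u, l) T) (Function.update c l a) v ≠ 0) :
    3 ≤ wt (insert s(u, l) T) (Function.update c l a) v := by
  unfold wt
  have h1 : dg (insert s(u, l) T) (Function.update c l a) v ≤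
      Dcl (insert s(u, l) T) (Function.update c l a) (Function.update c l a v) := by
    unfold Dcl
    have h := Finset.single_le_sum (f := fun w => if Function.update c l a w =
      Function.update c l a v then dg (insert s(u, l) T) (Function.update c l a) w else 0)
      (fun w _ => Nat.zero_le _) (Finset.mem_univ v)
    simpa using h
  have h2 : 1 ≤ Ncl (insert s(u, l) T) (Function.update c l a) (Function.update c l a v) := by
    unfold Ncl
    have h := Finset.single_le_sum (f := fun w => if Function.update c l a w =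
      Function.update c l a v ∧ dg (insert s(u, l) T) (Function.update c l a) w ≠ 0
        then 1 else 0)
      (fun w _ => Nat.zero_le _) (Finset.mem_univ v)
    have h3 : (if Function.update c l a v = Function.update c l a v ∧
      dg (insert s(u, l) T) (Function.update c l a) v ≠ 0 then 1 else 0) = 1 :=
        if_pos ⟨rfl, hv⟩
    exact le_trans (le_of_eq h3.symm) h
  omega

theorem X2_new : X2 T c + 18 ≤ X2 (insert s(u, l) T) (Function.update c l a) := by
  unfold X2
  have h : (18 : ℕ) = ∑ v, ∑ w, ((if v = u then (if w = l then 9 else 0) else 0) +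
      (if v = l then (if w = u then 9 else 0) else 0)) := by
    simp_rw [Finset.sum_add_distrib]
    have h1 : ∑ v : V, ∑ w : V, (if v = u then (if w = l then 9 else 0) else 0) = 9 := by
      rw [Finset.sum_eq_single u]
      · simp
      · intro v _ hv; simp [hv]
      · intro h; exact absurd (Finset.mem_univ _) h
    have h2 : ∑ v : V, ∑ w : V, (if v = l then (if w = u then 9 else 0) else 0) = 9 := by
      rw [Finset.sum_eq_single l]
      · simp
      · intro v _ hv; simp [hv]
      · intro h; exact absurd (Finset.mem_univ _) h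
    rw [h1, h2]
  rw [h, ← Finset.sum_add_distrib]
  refine Finset.sum_le_sum fun v _ => ?_
  rw [← Finset.sum_add_distrib]
  refine Finset.sum_le_sum fun w _ => ?_
  have hu3 : 3 ≤ wt (insert s(u, l) T) (Function.update c l a) u :=
    wt_three hul hl ha (by rw [dg_new hul hl ha]; simp)
  have hl3 : 3 ≤ wt (insert s(u, l) T) (Function.update c l a) l :=
    wt_three hul hl ha (by rw [dg_new hul hl ha]; simp)
  by_cases h1 : xr T c v w
  · have hv : v ≠ l := fun h' => not_l hl w (h' ▸ h1)
    have hw : w ≠ l := fun h' => not_r hl v (h' ▸ h1)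
    rw [if_pos ((xr_new hul hl ha v w).2 (Or.inl h1)), if_pos h1, if_neg hw, if_neg hv]
    simp only [ite_self, add_zero]
    exact Nat.mul_le_mul (wt_mono hul hl ha hv) (wt_mono hul hl ha hw)
  · by_cases h2 : v = u ∧ w = l
    · rw [if_pos ((xr_new hul hl ha v w).2 (Or.inr (Or.inl h2))), if_neg h1, if_pos h2.1,
        if_pos h2.2, if_neg (by rw [h2.1]; exact hul), h2.1, h2.2]
      exact Nat.mul_le_mul hu3 hl3
    · by_cases h3 : v = l ∧ w = u
      · rw [if_pos ((xr_new hul hl ha v w).2 (Or.inr (Or.inr h3))), if_neg h1, if_pos h3.1,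
          if_pos h3.2, if_neg (by rw [h3.1]; exact hul.symm), h3.1, h3.2]
        exact Nat.mul_le_mul hl3 hu3
      · rw [if_neg h1]
        refine le_trans (le_of_eq ?_) (Nat.zero_le _)
        by_cases h4 : v = u
        · have h5 : w ≠ l := fun h' => h2 ⟨h4, h'⟩
          rw [if_pos h4, if_neg h5, if_neg (by rw [h4]; exact hul)]
        · by_cases h5 : v = l
          · have h6 : w ≠ u := fun h' => h3 ⟨h5, h'⟩
            rw [if_neg h4, if_pos h5, if_neg h6]
          · rw [if_neg h4, if_neg h5]

theorem sg_new : sg (insert s(u, l) T) (Function.update c l a) = sg T c := by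
  unfold sg
  have h1 : (insert s(u, l) T).filter (fun e => (e.map (Function.update c l a)).IsDiag) =
      T.filter (fun e => (e.map c).IsDiag) := by
    rw [Finset.filter_insert, if_neg]
    · exact Finset.filter_congr fun e he => by rw [map_eq hl he]
    · rw [Sym2.map_pair_eq, Function.update_self, upd_ne hul]
      intro h
      exact ha (Sym2.mk_isDiag_iff.1 h).symm
  rw [h1]

theorem pr_new (hA : T_AVU) :
    pr (insert s(u, l) T) (Function.update c l a) = pr T c * (1 / 2) := by
  unfold pr
  rw [hA V Bool l]
  unfold Ex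
  rw [div_mul_eq_mul_div, Finset.sum_mul]
  congr 1
  refine Finset.sum_congr rfl fun b _ => ?_
  have h1 : ∀ x : Bool, (∀ v w, xr (insert s(u, l) T) (Function.update c l a) v w →
      Function.update b l x v = Function.update b l x w) ↔
      (∀ v w, xr T c v w → b v = b w) ∧ b u = x := by
    intro x
    constructor
    · intro h
      refine ⟨fun v w hvw => ?_, ?_⟩
      · have hv : v ≠ l := fun h' => not_l hl w (h' ▸ hvw)
        have hw : w ≠ l := fun h' => not_r hl v (h' ▸ hvw)
        have := h v w ((xr_new hul hl ha v w).2 (Or.inl hvw))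
        rwa [Function.update_of_ne hv, Function.update_of_ne hw] at this
      · have := h u l ((xr_new hul hl ha u l).2 (Or.inr (Or.inl ⟨rfl, rfl⟩)))
        rwa [Function.update_of_ne hul, Function.update_self] at this
    · rintro ⟨h2, h3⟩ v w hvw
      rcases (xr_new hul hl ha v w).1 hvw with h | ⟨h4, h5⟩ | ⟨h4, h5⟩
      · have hv : v ≠ l := fun h' => not_l hl w (h' ▸ h)
        have hw : w ≠ l := fun h' => not_r hl v (h' ▸ h)
        rw [Function.update_of_ne hv, Function.update_of_ne hw]
        exact h2 v w h
      · rw [h4, h5, Function.update_of_ne hul, Function.update_self]; exact h3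
      · rw [h4, h5, Function.update_of_ne hul, Function.update_self]; exact h3.symm
  have h2 : ∀ x : Bool, (if ∀ v w, xr (insert s(u, l) T) (Function.update c l a) v w →
      Function.update b l x v = Function.update b l x w then (1 : ℚ) else 0) =
      if (∀ v w, xr T c v w → b v = b w) ∧ b u = x then 1 else 0 :=
    fun x => if_congr (h1 x) rfl rfl
  simp_rw [h2]
  rw [Fintype.sum_bool]
  by_cases hP : ∀ v w, xr T c v w → b v = b w
  · rw [if_pos hP]
    cases hb : b u
    · rw [if_neg (fun h => by simpa [hb] using h.2), if_pos ⟨hP, rfl⟩]; simp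
    · rw [if_pos ⟨hP, rfl⟩, if_neg (fun h => by simpa [hb] using h.2)]; simp
  · rw [if_neg hP, if_neg (fun h => hP h.1), if_neg (fun h => hP h.1)]; simp

end two

end LFK_

open LFK_ in
theorem p_LFK : T_LFK := by
  intro hA V _ _ T c u l a hul hl
  exact ⟨fun ha => ⟨pr_same hul hl ha, Finset.sum_congr rfl fun v _ => dg_same hul hl ha v,
      Finset.sum_congr rfl fun k _ => by rw [Ncl_same hul hl ha], X2_same hul hl ha,
      sg_neg hul hl ha⟩,
    fun ha => ⟨pr_new hul hl ha hA, e2_new hul hl ha, sp2_new hul hl ha, X2_new hul hl ha,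
      sg_new hul hl ha⟩⟩

end Pool.Agent.KFV
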