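import Pool.Agent.KFV.Targets2

/-!
# KFV, target LFL: the key computed from a complete state.
-/

namespace Pool.Agent.KFV

open Finset

namespace LFL_

theorem frc_eq {α : Type} (n : ℕ) (f : ℕ → α) : frc n f = f n := by
  cases n <;> rfl

theorem leafK_eq {α : Type} (XR : List (ℕ × ℕ)) (M0 M1 M2 M3 S : ℕ) (f : ℕ → ℕ → ℕ → α) :
    leafK XR M0 M1 M2 M3 S f =
      f (degP XR % 65535)
        ((Nat.land S M0 % 65535) * (Nat.land S M0 % 65535) +
          ((Nat.land S M1 % 65535) * (Nat.land S M1 % 65535) +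
          ((Nat.land S M2 % 65535) * (Nat.land S M2 % 65535) +
          (Nat.land S M3 % 65535) * (Nat.land S M3 % 65535))))
        (2 * xP (degP XR +
          ((Nat.land S M0 % 65535 + Nat.land (degP XR) (65535 * M0) % 65535) * M0 +
          ((Nat.land S M1 % 65535 + Nat.land (degP XR) (65535 * M1) % 65535) * M1 +
          ((Nat.land S M2 % 65535 + Nat.land (degP XR) (65535 * M2) % 65535) * M2 +
          (Nat.land S M3 % 65535 + Nat.land (degP XR) (65535 * M3) % 65535) * M3)))) XR) := by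
  unfold leafK
  simp only [frc_eq]
  rfl

theorem degP_map {ι : Type} (l : List ι) (b x : ι → ℕ) :
    degP (l.map fun i => (b i, x i)) = (l.map fun i => x i + (x i % 65535) * b i).sum := by
  induction l with
  | nil => rfl
  | cons a l ih =>
    rw [List.map_cons, List.map_cons, List.sum_cons, ← ih]
    rfl

theorem xP_map {ι : Type} (W : ℕ) (l : List ι) (b x : ι → ℕ) :
    xP W (l.map fun i => (b i, x i)) =
      (l.map fun i => (W / b i % 65536) * (Nat.land W (65535 * x i) % 65535)).sum := by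
  induction l with
  | nil => rfl
  | cons a l ih =>
    rw [List.map_cons, List.map_cons, List.sum_cons, ← ih]
    rfl

theorem sum_filt {ι : Type} (l : List ι) (p : ι → Bool) (g : ι → ℕ)
    (h : ∀ i, p i = false → g i = 0) : ((l.filter p).map g).sum = (l.map g).sum := by
  induction l with
  | nil => rfl
  | cons a l ih =>
    by_cases hp : p a = true
    · rw [List.filter_cons_of_pos hp, List.map_cons, List.map_cons, List.sum_cons, List.sum_cons,
        ih]
    · rw [List.filter_cons_of_neg hp, List.map_cons, List.sum_cons, ih,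
        h a (by simpa using hp), zero_add]

theorem sum_rev {m : ℕ} (p : Fin m → Bool) (g : Fin m → ℕ)
    (h : ∀ i, p i = false → g i = 0) :
    ((((List.finRange m).filter p).reverse).map g).sum = ∑ i, g i := by
  rw [List.map_reverse, List.sum_reverse, sum_filt _ _ _ h, Fin.sum_univ_def]

theorem xr_symm {V : Type} [Fintype V] [DecidableEq V] {T : Finset (Sym2 V)} {c : V → Fin 4}
    {u v : V} : xr T c u v ↔ xr T c v u := by
  unfold xr
  rw [Sym2.eq_swap (a := u) (b := v), ne_comm]

theorem xr_irr {V : Type} [Fintype V] [DecidableEq V] {T : Finset (Sym2 V)} {c : V → Fin 4}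
    {u : V} : ¬ xr T c u u := fun h => h.2 rfl

theorem tri {m : ℕ} (T : Finset (Sym2 (Fin m))) (c : Fin m → Fin 4) (u i : Fin m) :
    ((if (u : ℕ) < i ∧ xr T c u i then 1 else 0) + if (i : ℕ) < u ∧ xr T c i u then 1 else 0)
      = if xr T c u i then 1 else 0 := by
  rcases lt_trichotomy (u : ℕ) (i : ℕ) with h | h | h
  · have h1 : ¬ (i : ℕ) < u := by omega
    simp [h, h1]
  · have h1 : u = i := Fin.ext h
    subst h1
    simp
    exact fun h => xr_irr h
  · have h1 : ¬ (u : ℕ) < i := by omega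
    have h2 : xr T c i u ↔ xr T c u i := xr_symm
    simp [h, h1, h2]

theorem dg_eq {m : ℕ} (T : Finset (Sym2 (Fin m))) (c : Fin m → Fin 4) (u : Fin m) :
    dg T c u = (∑ i : Fin m, if (u : ℕ) < i ∧ xr T c u i then 1 else 0) + (rowS T c u).card := by
  unfold dg rowS
  rw [Finset.card_filter, ← Finset.sum_add_distrib]
  exact Finset.sum_congr rfl fun i _ => (tri T c u i).symm

theorem deg_sum {m : ℕ} (T : Finset (Sym2 (Fin m))) (c : Fin m → Fin 4) :
    ∑ i : Fin m, (pkS (rowS T c i) + (rowS T c i).card * 2 ^ (16 * (i : ℕ)))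
      = ∑ i : Fin m, dg T c i * 2 ^ (16 * (i : ℕ)) := by
  have h1 : ∑ i : Fin m, pkS (rowS T c i)
      = ∑ u : Fin m, (∑ i : Fin m, if (u : ℕ) < i ∧ xr T c u i then 1 else 0)
        * 2 ^ (16 * (u : ℕ)) := by
    unfold pkS rowS
    simp only [Finset.sum_filter]
    rw [Finset.sum_comm]
    refine Finset.sum_congr rfl fun u _ => ?_
    rw [Finset.sum_mul]
    refine Finset.sum_congr rfl fun i _ => ?_
    split_ifs <;> simp
  rw [Finset.sum_add_distrib, h1, ← Finset.sum_add_distrib]
  refine Finset.sum_congr rfl fun u _ => ?_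
  rw [dg_eq]
  ring

theorem X2_eq {m : ℕ} (T : Finset (Sym2 (Fin m))) (c : Fin m → Fin 4) :
    X2 T c = 2 * ∑ i : Fin m, wt T c i * ∑ u ∈ rowS T c i, wt T c u := by
  have h0 : ∀ v w : Fin m, (if xr T c v w then wt T c v * wt T c w else 0)
      = (if (v : ℕ) < w ∧ xr T c v w then wt T c v * wt T c w else 0) +
        if (w : ℕ) < v ∧ xr T c w v then wt T c v * wt T c w else 0 := by
    intro v w
    have h := tri T c v w
    have h1 := congrArg (fun k => k * (wt T c v * wt T c w)) h
    simp only [add_mul, ite_mul, one_mul, zero_mul] at h1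
    exact h1.symm
  have h1 : ∀ i : Fin m, wt T c i * ∑ u ∈ rowS T c i, wt T c u
      = ∑ u : Fin m, if (u : ℕ) < i ∧ xr T c u i then wt T c i * wt T c u else 0 := by
    intro i
    unfold rowS
    rw [Finset.sum_filter, Finset.mul_sum]
    refine Finset.sum_congr rfl fun u _ => ?_
    split_ifs <;> simp
  have h2 : ∑ v : Fin m, ∑ w : Fin m,
      (if (v : ℕ) < w ∧ xr T c v w then wt T c v * wt T c w else 0)
      = ∑ i : Fin m, ∑ u : Fin m, if (u : ℕ) < i ∧ xr T c u i then wt T c i * wt T c u else 0 := by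
    rw [Finset.sum_comm]
    refine Finset.sum_congr rfl fun i _ => Finset.sum_congr rfl fun u _ => ?_
    rw [mul_comm (wt T c u)]
  unfold X2
  simp only [h0, Finset.sum_add_distrib, h2, h1, two_mul]

theorem TJ_all {m : ℕ} (T : Finset (Sym2 (Fin m))) : TJ T m = T := by
  unfold TJ
  exact Finset.filter_true_of_mem fun e _ v _ => v.2

theorem dg_le {m : ℕ} (T : Finset (Sym2 (Fin m))) (c : Fin m → Fin 4) (u : Fin m) :
    dg T c u ≤ m := by
  unfold dg
  calc (∑ w, if xr T c u w then 1 else 0) ≤ ∑ _w : Fin m, 1 :=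
        Finset.sum_le_sum fun w _ => by split_ifs <;> simp
    _ = m := by simp

theorem Dcl_le {m : ℕ} (T : Finset (Sym2 (Fin m))) (c : Fin m → Fin 4) (k : Fin 4) :
    Dcl T c k ≤ m * m := by
  unfold Dcl
  calc (∑ v, if c v = k then dg T c v else 0) ≤ ∑ _v : Fin m, m :=
        Finset.sum_le_sum fun v _ => by
          split_ifs
          · exact dg_le T c v
          · exact Nat.zero_le _
    _ = m * m := by simp

theorem Ncl_le {m : ℕ} (T : Finset (Sym2 (Fin m))) (c : Fin m → Fin 4) (k : Fin 4) :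
    Ncl T c k ≤ m := by
  unfold Ncl
  calc (∑ v, if c v = k ∧ dg T c v ≠ 0 then 1 else 0) ≤ ∑ _v : Fin m, 1 :=
        Finset.sum_le_sum fun w _ => by split_ifs <;> simp
    _ = m := by simp

theorem wt_le {m : ℕ} (hm : m ≤ 12) (T : Finset (Sym2 (Fin m))) (c : Fin m → Fin 4)
    (u : Fin m) : wt T c u ≤ 168 := by
  have h1 := dg_le T c u
  have h2 := Dcl_le T c (c u)
  have h3 := Ncl_le T c (c u)
  have h4 : m * m ≤ 12 * 12 := Nat.mul_le_mul hm hm
  unfold wt
  omega

/-- the colour class -/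
def cls {m : ℕ} (c : Fin m → Fin 4) (a : Fin 4) : Finset (Fin m) :=
  univ.filter (fun i : Fin m => (i : ℕ) < m ∧ c i = a)

theorem mem_cls {m : ℕ} {c : Fin m → Fin 4} {a : Fin 4} {i : Fin m} : i ∈ cls c a ↔ c i = a := by
  unfold cls
  rw [Finset.mem_filter]
  exact ⟨fun h => h.2.2, fun h => ⟨mem_univ _, i.2, h⟩⟩

theorem card_cls {m : ℕ} (T : Finset (Sym2 (Fin m))) (c : Fin m → Fin 4) (a : Fin 4) :
    (spt T c ∩ cls c a).card = Ncl T c a := by
  unfold Ncl
  rw [← Finset.card_filter]
  congr 1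
  ext i
  simp only [Finset.mem_inter, mem_cls, spt, Finset.mem_filter, Finset.mem_univ, true_and]
  exact and_comm

theorem sum_cls {m : ℕ} (T : Finset (Sym2 (Fin m))) (c : Fin m → Fin 4) (a : Fin 4) :
    ∑ i ∈ cls c a, dg T c i = Dcl T c a := by
  unfold Dcl
  rw [← Finset.sum_filter]
  refine Finset.sum_congr ?_ fun _ _ => rfl
  ext i
  simp only [mem_cls, Finset.mem_filter, Finset.mem_univ, true_and]

theorem mul_cls {m : ℕ} (c : Fin m → Fin 4) (a : Fin 4) (n : ℕ) :
    n * pkS (cls c a) = ∑ i : Fin m, (if c i = a then n else 0) * 2 ^ (16 * (i : ℕ)) := by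
  have h : cls c a = univ.filter fun i => c i = a := by
    ext i
    simp [mem_cls]
  unfold pkS
  rw [h, Finset.sum_filter, Finset.mul_sum]
  refine Finset.sum_congr rfl fun i _ => ?_
  split_ifs <;> simp

end LFL_

open LFL_ in
/-- Target LFL. -/
theorem p_LFL : T_LFL := by
  intro hPKA m T c XR M0 M1 M2 M3 S hm hst α f
  obtain ⟨p1, p2, p3, p4, p5, p6⟩ := hPKA m hm
  obtain ⟨hx, h0, h1, h2, h3, hs⟩ := hst
  rw [TJ_all] at hs
  have hmm : m * m ≤ 12 * 12 := Nat.mul_le_mul hm hm
  change M0 = pkS (cls c 0) at h0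
  change M1 = pkS (cls c 1) at h1
  change M2 = pkS (cls c 2) at h2
  change M3 = pkS (cls c 3) at h3
  -- the degrees
  have hD : degP XR = ∑ i : Fin m, dg T c i * 2 ^ (16 * (i : ℕ)) := by
    rw [hx, degP_map, sum_rev, ← deg_sum]
    · exact Finset.sum_congr rfl fun i _ => by rw [p2]
    · intro i hi
      have h4 : rowS T c i = ∅ := by
        by_contra hne
        simp [hne] at hi
      simp [h4, pkS]
  have hdg : ∀ i, dg T c i < 65536 := fun i => by
    have := dg_le T c i
    omega
  have hN : ∀ a, Nat.land S (pkS (cls c a)) % 65535 = Ncl T c a := fun a => by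
    rw [hs, p1, p2, card_cls]
  have hC : ∀ a, Nat.land (degP XR) (65535 * pkS (cls c a)) % 65535 = Dcl T c a := fun a => by
    rw [hD, p4 _ hdg, p5, sum_cls]
    rw [sum_cls]
    have := Dcl_le T c a
    omega
  have hE : degP XR % 65535 = e2 T c := by
    rw [hD]
    refine p5 _ univ ?_
    have h5 : ∑ i, dg T c i ≤ ∑ _i : Fin m, m := Finset.sum_le_sum fun i _ => dg_le T c i
    have h6 : ∑ _i : Fin m, m = m * m := by simp
    omega
  have hWs : degP XR + ((Ncl T c 0 + Dcl T c 0) * pkS (cls c 0) +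
      ((Ncl T c 1 + Dcl T c 1) * pkS (cls c 1) + ((Ncl T c 2 + Dcl T c 2) * pkS (cls c 2) +
        (Ncl T c 3 + Dcl T c 3) * pkS (cls c 3)))) =
          ∑ i : Fin m, wt T c i * 2 ^ (16 * (i : ℕ)) := by
    rw [hD, mul_cls, mul_cls, mul_cls, mul_cls, ← Finset.sum_add_distrib,
      ← Finset.sum_add_distrib, ← Finset.sum_add_distrib, ← Finset.sum_add_distrib]
    refine Finset.sum_congr rfl fun i _ => ?_
    rw [← add_mul, ← add_mul, ← add_mul, ← add_mul]
    congr 1
    unfold wt
    generalize c i = a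
    have h4 : ∀ a : Fin 4, a = 0 ∨ a = 1 ∨ a = 2 ∨ a = 3 := by decide
    rcases h4 a with rfl | rfl | rfl | rfl <;> simp <;> omega
  have hX : xP (∑ i : Fin m, wt T c i * 2 ^ (16 * (i : ℕ))) XR
      = ∑ i : Fin m, wt T c i * ∑ u ∈ rowS T c i, wt T c u := by
    have hw : ∀ i, wt T c i < 65536 := fun i => by
      have := wt_le hm T c i
      omega
    have hr : ∀ i, Nat.land (∑ i : Fin m, wt T c i * 2 ^ (16 * (i : ℕ)))
        (65535 * pkS (rowS T c i)) % 65535 = ∑ u ∈ rowS T c i, wt T c u := fun i => by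
      rw [p4 _ hw]
      refine p5 _ _ ?_
      have h5 : ∑ u ∈ rowS T c i, wt T c u ≤ ∑ _u ∈ rowS T c i, 168 :=
        Finset.sum_le_sum fun u _ => wt_le hm T c u
      have h6 : (rowS T c i).card ≤ m := by
        have := Finset.card_le_univ (rowS T c i)
        simpa using this
      rw [Finset.sum_const, smul_eq_mul] at h5
      omega
    rw [hx, xP_map, sum_rev]
    · exact Finset.sum_congr rfl fun i _ => by rw [hr, p6 _ hw]
    · intro i hi
      have h4 : rowS T c i = ∅ := by
        by_contra hne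
        simp [hne] at hi
      rw [hr, h4]
      simp
  rw [leafK_eq, h0, h1, h2, h3]
  simp only [hN, hC]
  rw [hE, hWs, hX, ← X2_eq]
  congr 1
  unfold sp2
  rw [Fin.sum_univ_four]
  ring

end Pool.Agent.KFV
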