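import Pool.Agent.KFV.Targets2

set_option autoImplicit false

/-!
# KFV, target LOK: search in the tree (MP_64e56f_co, r = 5)
-/

namespace Pool.Agent.KFV

namespace LOK_

theorem find_mem (tree : Bst) (q : ℕ) (t : Ent) : tree.find q = some t → t ∈ tree.toL := by
  induction tree with
  | nil => intro h; exact absurd h (by simp [Bst.find])
  | node k e l r ihl ihr =>
    intro h
    unfold Bst.find at h
    unfold Bst.toL
    rw [List.mem_append, List.mem_cons]
    cases h1 : Nat.beq q k with
    | true =>
      rw [h1, cond_true, Option.some.injEq] at h
      exact Or.inr (Or.inl h.symm)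
    | false =>
      rw [h1, cond_false] at h
      cases h2 : Nat.blt q k with
      | true =>
        rw [h2, cond_true] at h
        exact Or.inl (ihl h)
      | false =>
        rw [h2, cond_false] at h
        exact Or.inr (Or.inr (ihr h))

end LOK_

theorem p_LOK : T_LOK := by
  intro tree r e s x t h
  unfold look at h
  split at h
  · exact absurd h (by simp)
  · rename_i t' ht'
    cases hb : (Nat.beq t'.r r && Nat.beq t'.e e && Nat.beq t'.s s && Nat.beq t'.x x) with
    | false =>
      rw [hb, cond_false] at h
      exact absurd h (by simp)
    | true =>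
      rw [hb, cond_true, Option.some.injEq] at h
      subst h
      simp only [Bool.and_eq_true, Nat.beq_eq] at hb
      exact ⟨LOK_.find_mem _ _ _ ht', hb.1.1.1, hb.1.1.2, hb.1.2, hb.2⟩

end Pool.Agent.KFV
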