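import Pool.Agent.KFV.Targets2

/-!
# KFV: the target LOW (all graphs in which the vertices of a fixed five-element set are independent)
-/

set_option autoImplicit false

namespace Pool.Agent.KFV

open Finset

namespace LOW_

open scoped Classical

/-- The pairs (2-element subsets) of `Fin n`. -/
abbrev Ed (n : ℕ) := {e : Finset (Fin n) // e.card = 2}

variable {n : ℕ}

/-- pairs inside a vertex set -/
noncomputable def inside (I : Finset (Fin n)) : Finset (Ed n) := univ.filter (fun e => e.1 ⊆ I)

lemma mem_inside {I : Finset (Fin n)} {e : Ed n} : e ∈ inside I ↔ e.1 ⊆ I := by simp [inside]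

lemma card_inside (I : Finset (Fin n)) : (inside I).card = I.card.choose 2 := by
  rw [← card_powersetCard]
  apply card_bij (fun e _ => e.1)
  · intro e he
    rw [mem_powersetCard]
    exact ⟨mem_inside.1 he, e.2⟩
  · intro a _ b _ h
    exact Subtype.ext h
  · intro s hs
    rw [mem_powersetCard] at hs
    exact ⟨⟨s, hs.2⟩, mem_inside.2 hs.1, rfl⟩

lemma card_Ed : Fintype.card (Ed n) = n.choose 2 := by
  have h := card_inside (univ : Finset (Fin n))
  have h2 : inside (univ : Finset (Fin n)) = univ := by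
    ext e; simp [mem_inside]
  rw [h2, card_univ, card_univ, Fintype.card_fin] at h
  exact h

/-- functions agreeing with `x` on `T` -/
noncomputable def cyl (T : Finset (Ed n)) (x : Ed n → Bool) : Finset (Ed n → Bool) :=
  univ.filter (fun f => ∀ e ∈ T, f e = x e)

lemma mem_cyl {T : Finset (Ed n)} {x f : Ed n → Bool} : f ∈ cyl T x ↔ ∀ e ∈ T, f e = x e := by
  simp [cyl]

lemma card_cyl (T : Finset (Ed n)) (x : Ed n → Bool) :
    (cyl T x).card = 2 ^ (Fintype.card (Ed n) - T.card) := by
  have h : cyl T x = Fintype.piFinset (fun e => if e ∈ T then ({x e} : Finset Bool) else univ) := by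
    ext f
    rw [mem_cyl, Fintype.mem_piFinset]
    constructor
    · intro hf e
      by_cases he : e ∈ T
      · simp [he, hf e he]
      · simp [he]
    · intro hf e he
      have := hf e
      simpa [he] using this
  rw [h, Fintype.card_piFinset]
  have h2 : ∀ e : Ed n, (if e ∈ T then ({x e} : Finset Bool) else univ).card
      = if e ∈ T then 1 else 2 := by
    intro e
    split_ifs <;> simp
  simp only [h2]
  rw [prod_ite]
  simp only [prod_const_one, one_mul, prod_const]
  congr 1
  rw [filter_not, card_sdiff_of_subset (filter_subset _ _), card_univ]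
  simp

/-- the graph of a function on pairs -/
def ofFn (f : Ed n → Bool) : SimpleGraph (Fin n) where
  Adj u v := ∃ h : u ≠ v, f ⟨{u, v}, card_pair h⟩ = true
  symm := ⟨by
    rintro u v ⟨h, hf⟩
    refine ⟨h.symm, ?_⟩
    have e : (⟨{v, u}, card_pair h.symm⟩ : Ed n) = ⟨{u, v}, card_pair h⟩ :=
      Subtype.ext (pair_comm v u)
    rw [e]
    exact hf⟩
  loopless := ⟨fun u hu => hu.1 rfl⟩

lemma ofFn_injective : Function.Injective (ofFn (n := n)) := by
  intro f g h
  funext e
  obtain ⟨e, he⟩ := e
  obtain ⟨u, v, huv, rfl⟩ := card_eq_two.1 he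
  have h1 : (ofFn f).Adj u v ↔ (ofFn g).Adj u v := by rw [h]
  have h2 : f ⟨{u, v}, he⟩ = true ↔ g ⟨{u, v}, he⟩ = true := by
    constructor
    · intro hf
      exact (h1.1 ⟨huv, hf⟩).2
    · intro hg
      exact (h1.2 ⟨huv, hg⟩).2
  exact Bool.eq_iff_iff.2 h2

theorem main (n r : ℕ) (hrn : r ≤ n) : ∃ F : Finset (SimpleGraph (Fin n)),
    (∀ G ∈ F, ∀ H ∈ F, G ≠ H → ∃ s : Finset (Fin n), (symmDiff G H).IsNIndepSet r s) ∧
    F.card = 2 ^ (n.choose 2 - r.choose 2) := by
  obtain ⟨S, _, hS⟩ := exists_subset_card_eq (s := (univ : Finset (Fin n))) (n := r)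
    (by rw [card_univ, Fintype.card_fin]; exact hrn)
  refine ⟨(cyl (inside S) (fun _ => false)).image ofFn, ?_, ?_⟩
  · intro G hG H hH _
    rw [mem_image] at hG hH
    obtain ⟨f, hf, rfl⟩ := hG
    obtain ⟨g, hg, rfl⟩ := hH
    refine ⟨S, ?_⟩
    rw [SimpleGraph.isNIndepSet_iff]
    refine ⟨?_, hS⟩
    intro u hu v hv huv
    have hin : (⟨{u, v}, card_pair huv⟩ : Ed n) ∈ inside S := by
      rw [mem_inside]
      intro w hw
      rcases mem_insert.1 hw with h | h
      · rw [h]; exact mem_coe.1 hu
      · rw [mem_singleton.1 h]; exact mem_coe.1 hv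
    have h1 : ¬ (ofFn f).Adj u v := by
      rintro ⟨h, hf2⟩
      rw [mem_cyl.1 hf _ hin] at hf2
      exact Bool.false_ne_true hf2
    have h2 : ¬ (ofFn g).Adj u v := by
      rintro ⟨h, hf2⟩
      rw [mem_cyl.1 hg _ hin] at hf2
      exact Bool.false_ne_true hf2
    simp only [symmDiff, SimpleGraph.sup_adj, SimpleGraph.sdiff_adj, h1, h2, false_and,
      or_self, not_false_eq_true]
  · rw [card_image_of_injective _ ofFn_injective, card_cyl, card_Ed, card_inside, hS]

end LOW_

/-- the target LOW -/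
theorem p_LOW : T_LOW := by
  intro n hn
  obtain ⟨F, h1, h2⟩ := LOW_.main n 5 hn
  exact ⟨F, h1, h2⟩

end Pool.Agent.KFV
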