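import Pool.Agent.KFV.Targets2

/-! KFV-LVF: value of a leaf of the evaluator. -/

namespace Pool.Agent.KFV

open Finset

namespace LVF_

theorem e2_card {V : Type} [Fintype V] [DecidableEq V] (T : Finset (Sym2 V)) (c : V → Fin 4) :
    e2 T c = 2 * (T.filter (fun e => ¬ (e.map c).IsDiag)).card := by
  have e1 : e2 T c = (univ.filter (fun p : V × V => xr T c p.1 p.2)).card := by
    unfold e2 dg
    rw [Finset.card_filter, Fintype.sum_prod_type]
  rw [e1, Finset.card_eq_sum_card_fiberwise (f := fun p : V × V => s(p.1, p.2))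
    (t := T.filter (fun e => ¬ (e.map c).IsDiag))]
  · have h : ∀ e ∈ T.filter (fun e => ¬ (e.map c).IsDiag),
        ((univ.filter (fun p : V × V => xr T c p.1 p.2)).filter
          (fun p => s(p.1, p.2) = e)).card = 2 := by
      intro e
      induction e using Sym2.ind with
      | _ a b =>
        intro he
        rw [Finset.mem_filter, Sym2.map_mk, Sym2.mk_isDiag_iff] at he
        obtain ⟨hT, hab⟩ := he
        have hne : a ≠ b := fun h => hab (by rw [h])
        have hset : ((univ.filter (fun p : V × V => xr T c p.1 p.2)).filter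
            (fun p => s(p.1, p.2) = s(a, b))) = {(a, b), (b, a)} := by
          ext ⟨x, y⟩
          simp only [Finset.mem_filter, Finset.mem_univ, true_and, Finset.mem_insert,
            Finset.mem_singleton, Prod.mk.injEq, Sym2.eq_iff]
          constructor
          · rintro ⟨-, h⟩
            exact h
          · rintro (⟨rfl, rfl⟩ | ⟨rfl, rfl⟩)
            · exact ⟨⟨hT, hab⟩, Or.inl ⟨rfl, rfl⟩⟩
            · refine ⟨⟨?_, fun h => hab h.symm⟩, Or.inr ⟨rfl, rfl⟩⟩
              rw [Sym2.eq_swap]
              exact hT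
        rw [hset, Finset.card_pair]
        intro h
        exact hne (Prod.mk.inj h).1
    rw [Finset.sum_congr rfl h, Finset.sum_const, smul_eq_mul, mul_comm]
  · intro p hp
    have hp2 := (Finset.mem_filter.1 hp).2
    unfold xr at hp2
    refine Finset.mem_coe.2 (Finset.mem_filter.2 ⟨hp2.1, ?_⟩)
    rw [Sym2.map_mk, Sym2.mk_isDiag_iff]
    exact hp2.2

theorem digits (N n : ℕ) : N % BB ^ n = ∑ q ∈ range n, fld N q * BB ^ q := by
  induction n with
  | zero => simp [Nat.mod_one]
  | succ n ih =>
    rw [Finset.sum_range_succ, ← ih, Nat.mod_pow_succ]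
    unfold fld
    ring

theorem digits' {N : ℕ} (h : N < BB ^ 15) : N = ∑ q ∈ range 15, fld N q * BB ^ q := by
  rw [← digits, Nat.mod_eq_of_lt h]

end LVF_

open LVF_ in
theorem p_LVF : T_LVF := by
  intro hPKA hLFL hLOK hUNM m T c tree XR M0 M1 M2 M3 S r hm hLpl hTab hSt hpr hlt
  unfold leafv at hlt ⊢
  rw [hLFL hPKA m T c XR M0 M1 M2 M3 S hm hSt] at hlt ⊢
  cases hlook : look tree r (e2 T c) (sp2 T c) (X2 T c) with
  | none =>
    rw [hlook] at hlt
    exact absurd hlt (lt_irrefl _)
  | some t =>
    rw [hlook] at hlt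
    simp only at hlt ⊢
    obtain ⟨ht, hr, he, hs, hx⟩ := hLOK tree r _ _ _ t hlook
    have hmat : Mat T c t := by
      refine ⟨?_, he.symm, hs.symm, hx.symm⟩
      rw [hr]
      exact hpr
    obtain ⟨hH, hG⟩ := hUNM (Fin m) T c tree.toL t hTab ht hmat
    obtain ⟨hpp, hpm, hsz⟩ := hTab.sz t ht
    have hsw := hTab.sw t ht
    have hcard := e2_card T c
    have hsplit := Finset.card_filter_add_card_filter_not (s := T) (fun e => (e.map c).IsDiag)
    set mo := (T.filter (fun e => (e.map c).IsDiag)).card with hmo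
    set cr := (T.filter (fun e => ¬ (e.map c).IsDiag)).card with hcr
    have hsub : Nat.sub (2 * T.card) (e2 T c) = 2 * mo := by
      change 2 * T.card - e2 T c = 2 * mo
      omega
    rw [hsub] at hlt ⊢
    have hsg : sg T c = (-1) ^ mo := rfl
    rcases Nat.even_or_odd mo with hev | hod
    · have hb : Nat.beq (Nat.mod (2 * mo) 4) 0 = true := by
        rw [Nat.beq_eq]
        change 2 * mo % 4 = 0
        obtain ⟨q, hq⟩ := hev
        omega
      rw [hb] at hlt ⊢
      simp only [cond_true] at hlt ⊢
      refine ⟨fld t.pp, digits' hlt, ?_, ?_, ?_⟩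
      · intro i hi
        rw [hsg, hev.neg_one_pow, one_mul, hH i]
        unfold Ent.h
        rw [if_pos hi]
      · intro k hk
        exact hG k hk
      · intro q hq
        exact (hsz q hq).le
    · have hb : Nat.beq (Nat.mod (2 * mo) 4) 0 = false := by
        rw [Bool.eq_false_iff, ne_eq, Nat.beq_eq]
        change ¬ 2 * mo % 4 = 0
        obtain ⟨q, hq⟩ := hod
        omega
      rw [hb] at hlt ⊢
      simp only [cond_false] at hlt ⊢
      refine ⟨fld t.pm, digits' hlt, ?_, ?_, ?_⟩
      · intro i hi
        obtain ⟨s1, s2, s3⟩ := hsw i hi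
        rw [hsg, hod.neg_one_pow, hH i, s1, s2]
        unfold Ent.h
        rw [if_pos hi]
        ring
      · intro k hk
        rw [(hsw k hk).2.2]
        exact hG k hk
      · intro q hq
        by_cases h10 : q < 10
        · rcases Nat.even_or_odd' q with ⟨i, hi | hi⟩
          · rw [hi, (hsw i (by omega)).1]
            exact (hsz _ (by omega)).le
          · rw [hi, (hsw i (by omega)).2.1]
            exact (hsz _ (by omega)).le
        · obtain ⟨i, hi⟩ : ∃ i, q = 10 + i := ⟨q - 10, by omega⟩
          rw [hi, (hsw i (by omega)).2.2]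
          exact (hsz _ (by omega)).le

end Pool.Agent.KFV
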