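import Pool.Agent.KFV.Targets

/-!
# KFV-MON: monotonicity of the key
-/

namespace Pool.Agent.KFV

open Finset

namespace MON_

variable {V : Type} [Fintype V] [DecidableEq V]

theorem xr_mono {T T' : Finset (Sym2 V)} (h : T ⊆ T') (c : V → Fin 4) {u v : V}
    (hx : xr T c u v) : xr T' c u v := ⟨h hx.1, hx.2⟩

theorem dg_mono {T T' : Finset (Sym2 V)} (h : T ⊆ T') (c : V → Fin 4) (v : V) :
    dg T c v ≤ dg T' c v := by
  unfold dg
  refine sum_le_sum fun w _ => ?_
  by_cases hx : xr T c v w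
  · rw [if_pos hx, if_pos (xr_mono h c hx)]
  · rw [if_neg hx]; exact Nat.zero_le _

theorem Ncl_mono {T T' : Finset (Sym2 V)} (h : T ⊆ T') (c : V → Fin 4) (k : Fin 4) :
    Ncl T c k ≤ Ncl T' c k := by
  unfold Ncl
  refine sum_le_sum fun v _ => ?_
  by_cases hx : c v = k ∧ dg T c v ≠ 0
  · have h1 := dg_mono h c v
    have h2 : c v = k ∧ dg T' c v ≠ 0 := ⟨hx.1, by have := hx.2; omega⟩
    rw [if_pos hx, if_pos h2]
  · rw [if_neg hx]; exact Nat.zero_le _

theorem Dcl_mono {T T' : Finset (Sym2 V)} (h : T ⊆ T') (c : V → Fin 4) (k : Fin 4) :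
    Dcl T c k ≤ Dcl T' c k := by
  unfold Dcl
  refine sum_le_sum fun v _ => ?_
  by_cases hx : c v = k
  · rw [if_pos hx, if_pos hx]; exact dg_mono h c v
  · rw [if_neg hx, if_neg hx]

theorem wt_mono {T T' : Finset (Sym2 V)} (h : T ⊆ T') (c : V → Fin 4) (v : V) :
    wt T c v ≤ wt T' c v := by
  unfold wt
  exact Nat.add_le_add (Nat.add_le_add (Dcl_mono h c _) (dg_mono h c v)) (Ncl_mono h c _)

end MON_

open MON_ in
theorem p_MON : T_MON := by
  intro V _ _ T T' c h
  refine ⟨?_, ?_, ?_, ?_, ?_⟩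
  · unfold e2
    exact sum_le_sum fun v _ => dg_mono h c v
  · unfold sp2
    exact sum_le_sum fun k _ => Nat.pow_le_pow_left (Ncl_mono h c k) 2
  · unfold X2
    refine sum_le_sum fun v _ => sum_le_sum fun w _ => ?_
    by_cases hx : xr T c v w
    · rw [if_pos hx, if_pos (xr_mono h c hx)]
      exact Nat.mul_le_mul (wt_mono h c v) (wt_mono h c w)
    · rw [if_neg hx]; exact Nat.zero_le _
  · unfold pr Ex
    refine div_le_div_of_nonneg_right ?_ (by positivity)
    refine sum_le_sum fun b _ => ?_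
    by_cases hx : ∀ u v, xr T' c u v → b u = b v
    · rw [if_pos hx, if_pos fun u v huv => hx u v (xr_mono h c huv)]
    · rw [if_neg hx]
      split_ifs <;> norm_num
  · unfold pr Ex
    refine div_nonneg (sum_nonneg fun b _ => ?_) (by positivity)
    split_ifs <;> norm_num

end Pool.Agent.KFV
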