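import Pool.Agent.KFV.Targets

/-!
# NED: the combination has to be considered
-/

set_option autoImplicit false

namespace Pool.Agent.KFV

open Finset

namespace NED_

theorem frc_eq {α : Type} (n : ℕ) (f : ℕ → α) : frc n f = f n := by
  cases n <;> rfl

theorem base_le (m u : ℕ) : m ≤ baseV m u ∧ u < baseV m u := by
  unfold baseV
  constructor
  · exact Nat.le_max_left _ _
  · exact Nat.lt_of_lt_of_le (Nat.lt_succ_self u) (Nat.le_max_right _ _)

theorem last_lt (m u k : ℕ) : lastV m u k < baseV m u + k := by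
  unfold lastV
  have h := (base_le m u).2
  split_ifs with h1
  · omega
  · omega

theorem img_cons {V : Type} [DecidableEq V] (ψ : ℕ → V) (a b : ℕ) (E : List (ℕ × ℕ)) :
    img ψ ((a, b) :: E) = insert s(ψ a, ψ b) (img ψ E) := by
  unfold img
  rw [List.map_cons, List.toFinset_cons]

end NED_

open NED_ in
theorem p_NED : T_NED := by
  intro hD V _ _ C0 u0 k j ψ T1 T hwf hu hm hψ hT1 hj hne hnot hT hleaf hpos hmax hmin
  set l0 : ℕ := lastV C0.m u0 k with hl0
  set m' : ℕ := baseV C0.m u0 + k with hm'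
  have hl : l0 < m' := last_lt C0.m u0 k
  have hE1 : ∀ p ∈ pathE C0.m u0 k ++ C0.E, p.1 < m' ∧ p.2 < m' ∧ p.1 ≠ p.2 := by
    intro p hp
    rcases List.mem_append.mp hp with h | h
    · unfold pathE at h
      rw [List.mem_map] at h
      obtain ⟨t, ht, rfl⟩ := h
      rw [List.mem_range] at ht
      have h1 := last_lt C0.m u0 t
      show lastV C0.m u0 t < m' ∧ baseV C0.m u0 + t < m' ∧ lastV C0.m u0 t ≠ baseV C0.m u0 + t
      omega
    · have h1 := hwf.1 p h
      have h2 := (base_le C0.m u0).1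
      omega
  have hlj : l0 ≠ j := fun h => hne (by rw [h])
  have hE : ∀ p ∈ comboE C0 u0 k j, p.1 < m' ∧ p.2 < m' ∧ p.1 ≠ p.2 := by
    intro p hp
    unfold comboE at hp
    rcases List.mem_cons.mp hp with h | h
    · rw [h]
      exact ⟨hl, hj, hlj⟩
    · exact hE1 p h
  have hTi : T = img ψ (comboE C0 u0 k j) := by
    rw [hT, hT1]
    unfold comboE
    rw [img_cons]
  obtain ⟨d1, d2, d3⟩ := hD V m' (comboE C0 u0 k j) ψ hm hE hψ
  obtain ⟨c1, -, -⟩ := hD V m' (pathE C0.m u0 k ++ C0.E) ψ hm hE1 hψ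
  refine ⟨?_, hTi, hE⟩
  unfold needC
  simp only [frc_eq]
  have e1 : Nat.beq (lastV C0.m u0 k) j = false := by
    rw [← Bool.not_eq_true]
    intro h
    exact hlj (Nat.eq_of_beq_eq_true h)
  have e2 : tb (adjM (pathE C0.m u0 k ++ C0.E)) (16 * lastV C0.m u0 k + j) = false := by
    rw [← Bool.not_eq_true]
    intro h
    rw [c1 l0 hl j hj] at h
    exact hnot (by rw [hT1]; exact h)
  rw [e1, e2]
  simp only [Bool.not_false, Bool.true_and]
  unfold need
  rw [List.all_eq_true]
  intro i hi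
  rw [List.mem_range] at hi
  have f1 : degM (adjM (comboE C0 u0 k j)) m' i = degT T (ψ i) := by rw [d2 i hi, ← hTi]
  have f2 : degM (adjM (comboE C0 u0 k j)) m' j = degT T (ψ j) := by rw [d2 j hj, ← hTi]
  have f3 : degM (adjM (comboE C0 u0 k j)) m' l0 = degT T (ψ l0) := by rw [d2 l0 hl, ← hTi]
  have g1 : Nat.ble 2 (degM (adjM (comboE C0 u0 k j)) m' i) = true := by
    rw [Nat.ble_eq, f1]
    have a1 := hpos i hi
    have a2 := hleaf (ψ i)
    omega
  have g2 : Nat.ble (degM (adjM (comboE C0 u0 k j)) m' i)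
      (degM (adjM (comboE C0 u0 k j)) m' j) = true := by
    rw [Nat.ble_eq, f1, f2]
    exact hmax (ψ i)
  have g3 : (!(tb (adjM (comboE C0 u0 k j)) (Nat.add (Nat.mul 16 j) i)) ||
      Nat.ble (degM (adjM (comboE C0 u0 k j)) m' l0)
        (degM (adjM (comboE C0 u0 k j)) m' i)) = true := by
    rw [Bool.or_eq_true, Bool.not_eq_true']
    by_cases h : tb (adjM (comboE C0 u0 k j)) (Nat.add (Nat.mul 16 j) i) = true
    · right
      rw [Nat.ble_eq, f1, f3]
      apply hmin
      rw [hTi, ← d1 j hj i hi]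
      exact h
    · left
      exact Bool.not_eq_true _ ▸ h
  rw [g1, g2]
  simpa using g3

end Pool.Agent.KFV
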