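import Pool.Agent.KFV.Targets

/-!
# KFV-PCH : a path extension is a chain and contains the start
-/

namespace Pool.Agent.KFV

theorem p_PCH : T_PCH := by
  intro V _ _ C T u l k h
  induction h with
  | zero => exact ⟨Chain.zero _, Finset.Subset.refl _⟩
  | succ _ h2 h3 ih => exact ⟨Chain.succ ih.1 h2 h3, ih.2.trans (Finset.subset_insert _ _)⟩

end Pool.Agent.KFV
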