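import Pool.Agent.KFV.Targets

/-!
# KFV-PD1: a graph with one leaf is a leafless graph with a path attached
-/

namespace Pool.Agent.KFV

open Finset

namespace PD1_

variable {V : Type} [Fintype V] [DecidableEq V]

theorem deg_other (T : Finset (Sym2 V)) {a b v : V} (h1 : v ≠ a) (h2 : v ≠ b) :
    degT (T.erase s(a, b)) v = degT T v := by
  unfold degT
  congr 1
  ext w
  simp only [mem_filter, mem_univ, true_and, mem_erase, ne_eq, Sym2.eq_iff]
  constructor
  · exact fun h => h.2
  · refine fun h => ⟨?_, h⟩
    rintro (⟨h3, _⟩ | ⟨h3, _⟩)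
    · exact h1 h3
    · exact h2 h3

theorem deg_end (T : Finset (Sym2 V)) {a b : V} (hab : a ≠ b) (h : s(a, b) ∈ T) :
    degT (T.erase s(a, b)) b = degT T b - 1 := by
  unfold degT
  have h1 : (univ.filter fun w => s(b, w) ∈ T.erase s(a, b)) =
      (univ.filter fun w => s(b, w) ∈ T).erase a := by
    ext w
    simp only [mem_filter, mem_univ, true_and, mem_erase, ne_eq, Sym2.eq_iff]
    constructor
    · rintro ⟨h3, h4⟩
      refine ⟨fun h5 => h3 (Or.inr h5), h4⟩
    · rintro ⟨h3, h4⟩
      refine ⟨?_, h4⟩
      rintro (⟨h5, _⟩ | h5)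
      · exact hab h5.symm
      · exact h3 h5
  rw [h1, card_erase_of_mem]
  simp only [mem_filter, mem_univ, true_and]
  rw [Sym2.eq_swap]
  exact h

theorem main (n : ℕ) : ∀ (T : Finset (Sym2 V)) (l : V), T.card = n →
    Lpl T → 1 ≤ degT T l → (∀ v, v ≠ l → degT T v ≠ 1) →
    ∃ (C : Finset (Sym2 V)) (u : V) (k : ℕ), Leafless C ∧ Lpl C ∧ C ⊆ T ∧ 1 ≤ degT C u ∧
      PExt C u k T l := by
  induction n with
  | zero =>
    intro T l hT _ hl _
    exfalso
    rw [card_eq_zero] at hT
    subst hT
    simp [degT] at hl
  | succ n ih =>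
    intro T l hT hL hl hv
    rcases Nat.lt_or_ge 1 (degT T l) with h2 | h2
    · refine ⟨T, l, 0, ?_, hL, Subset.refl _, hl, PExt.zero T l⟩
      intro v
      by_cases hvl : v = l
      · subst hvl; omega
      · exact hv v hvl
    · have h1 : degT T l = 1 := le_antisymm h2 hl
      obtain ⟨p, hp⟩ := card_eq_one.1 h1
      have hpT : s(l, p) ∈ T := by
        have : p ∈ univ.filter fun w => s(l, w) ∈ T := by rw [hp]; exact mem_singleton_self p
        exact (mem_filter.1 this).2
      have hlp : l ≠ p := by
        rintro rfl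
        exact hL l hpT
      have hl0 : ∀ w, s(l, w) ∉ T.erase s(l, p) := by
        intro w hw
        rw [mem_erase] at hw
        have : w ∈ univ.filter fun w => s(l, w) ∈ T :=
          mem_filter.2 ⟨mem_univ _, hw.2⟩
        rw [hp, mem_singleton] at this
        subst this
        exact hw.1 rfl
      have hdp : 1 ≤ degT T p := by
        unfold degT
        refine card_pos.2 ⟨l, mem_filter.2 ⟨mem_univ _, ?_⟩⟩
        rw [Sym2.eq_swap]; exact hpT
      have hdp1 := hv p hlp.symm
      have e1 := deg_end T hlp hpT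
      obtain ⟨C, u, k, hC1, hC2, hC3, hC4, hC5⟩ := ih (T.erase s(l, p)) p
        (by rw [card_erase_of_mem hpT]; omega)
        (fun v hv' => hL v (mem_erase.1 hv').2)
        (by omega)
        (by
          intro v hvp
          by_cases hvl : v = l
          · subst hvl
            have : degT (T.erase s(v, p)) v = 0 := by
              unfold degT
              rw [card_eq_zero, filter_eq_empty_iff]
              exact fun w _ => hl0 w
            omega
          · rw [deg_other T hvl hvp]
            exact hv v hvl)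
      refine ⟨C, u, k + 1, hC1, hC2, hC3.trans (erase_subset _ _), hC4, ?_⟩
      have h5 := PExt.succ hC5 hlp.symm hl0
      rwa [Sym2.eq_swap, insert_erase hpT] at h5

end PD1_

theorem p_PD1 : T_PD1 := by
  intro V _ _ T l h1 h2 h3
  exact PD1_.main T.card T l rfl h1 h2 h3

end Pool.Agent.KFV
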