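import Pool.Agent.KFV.Targets

/-!
# KFV, target PD2: a graph with two leaves and all other degrees 0 or 2
-/

set_option autoImplicit false

namespace Pool.Agent.KFV

open Finset

namespace PD2_

variable {V : Type} [Fintype V] [DecidableEq V]

theorem deg_other {T : Finset (Sym2 V)} {a b v : V} (ha : v ≠ a) (hb : v ≠ b) :
    degT (T.erase s(a, b)) v = degT T v := by
  unfold degT
  congr 1
  apply Finset.filter_congr
  intro w _
  rw [Finset.mem_erase]
  constructor
  · exact fun h => h.2
  · intro h
    refine ⟨fun h' => ?_, h⟩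
    rw [Sym2.eq_iff] at h'
    rcases h' with h' | h'
    · exact ha h'.1
    · exact hb h'.1

theorem deg_left {T : Finset (Sym2 V)} {a b : V} (h : s(a, b) ∈ T) :
    degT (T.erase s(a, b)) a + 1 = degT T a := by
  unfold degT
  have h1 : univ.filter (fun w => s(a, w) ∈ T.erase s(a, b)) =
      (univ.filter (fun w => s(a, w) ∈ T)).erase b := by
    ext w
    simp only [mem_filter, mem_univ, true_and, mem_erase]
    rw [Ne, Sym2.congr_right]
  rw [h1]
  exact card_erase_add_one (by simp [h])

theorem deg_right {T : Finset (Sym2 V)} {a b : V} (h : s(a, b) ∈ T) :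
    degT (T.erase s(a, b)) b + 1 = degT T b := by
  rw [Sym2.eq_swap] at h ⊢
  exact deg_left h

theorem isol {T : Finset (Sym2 V)} {l : V} (h : degT T l = 0) (w : V) : s(l, w) ∉ T := by
  intro h1
  unfold degT at h
  rw [card_eq_zero, filter_eq_empty_iff] at h
  exact h (mem_univ w) h1

theorem nbr {T : Finset (Sym2 V)} {l : V} (h : degT T l = 1) : ∃ p, s(l, p) ∈ T := by
  unfold degT at h
  obtain ⟨p, hp⟩ := card_eq_one.1 h
  have h1 : p ∈ univ.filter (fun w => s(l, w) ∈ T) := by rw [hp]; exact mem_singleton_self p
  exact ⟨p, (mem_filter.1 h1).2⟩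

theorem main (z : V) : ∀ (n : ℕ) (T : Finset (Sym2 V)) (l : V), T.card = n → Lpl T → z ≠ l →
    degT T z = 1 → degT T l = 1 → (∀ v, v ≠ z → v ≠ l → degT T v = 0 ∨ degT T v = 2) →
    ∃ (C : Finset (Sym2 V)) (k : ℕ), Leafless C ∧ Lpl C ∧ C ⊆ T ∧ degT C z = 0 ∧
      PExt C z k T l := by
  intro n
  induction n using Nat.strong_induction_on with
  | _ n ih =>
    intro T l hn hL hzl hz hl hv
    obtain ⟨p, hp⟩ := nbr hl
    have hpl : l ≠ p := fun h => hL l (by rw [← h] at hp; exact hp)
    have hL1 : Lpl (T.erase s(l, p)) := fun v h => hL v (mem_of_mem_erase h)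
    have hl0 : degT (T.erase s(l, p)) l = 0 := by
      have := deg_left hp
      omega
    have hTi : insert s(p, l) (T.erase s(l, p)) = T := by
      rw [Sym2.eq_swap, insert_erase hp]
    by_cases hpz : p = z
    · subst hpz
      have hp0 : degT (T.erase s(l, p)) p = 0 := by
        have := deg_right hp
        omega
      refine ⟨T.erase s(l, p), 1, ?_, hL1, erase_subset _ _, hp0, ?_⟩
      · intro v
        by_cases h1 : v = l
        · rw [h1, hl0]
          exact zero_ne_one
        · by_cases h2 : v = p
          · rw [h2, hp0]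
            exact zero_ne_one
          · rw [deg_other h1 h2]
            rcases hv v h2 h1 with h3 | h3 <;> omega
      · have h1 := PExt.succ (PExt.zero (T.erase s(l, p)) p) (Ne.symm hpl) (isol hl0)
        rw [hTi] at h1
        exact h1
    · have hp2 : degT T p = 2 := by
        rcases hv p hpz (Ne.symm hpl) with h1 | h1
        · have h2 := isol h1 l
          rw [Sym2.eq_swap] at h2
          exact absurd hp h2
        · exact h1
      have hp1 : degT (T.erase s(l, p)) p = 1 := by
        have := deg_right hp
        omega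
      have hz1 : degT (T.erase s(l, p)) z = 1 := by
        rw [deg_other hzl (Ne.symm hpz)]
        exact hz
      have hc : (T.erase s(l, p)).card < n := by
        rw [← hn]
        exact card_erase_lt_of_mem hp
      obtain ⟨C, k, h1, h2, h3, h4, h5⟩ := ih _ hc (T.erase s(l, p)) p rfl hL1 (Ne.symm hpz)
        hz1 hp1 (by
          intro v hvz hvp
          by_cases h6 : v = l
          · left
            rw [h6]
            exact hl0
          · rw [deg_other h6 hvp]
            exact hv v hvz h6)
      refine ⟨C, k + 1, h1, h2, h3.trans (erase_subset _ _), h4, ?_⟩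
      have h6 := PExt.succ h5 (Ne.symm hpl) (isol hl0)
      rw [hTi] at h6
      exact h6

end PD2_

theorem p_PD2 : T_PD2 := by
  intro V _ _ T z l hL hzl hz hl hv
  exact PD2_.main z T.card T l rfl hL hzl hz hl hv

end Pool.Agent.KFV
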