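import Pool.Agent.KFV.Targets2

/-! KFV-PKA: packed arithmetic. -/

namespace Pool.Agent.KFV

open Finset

namespace PKA_

/-- packed number with digits `g 0, ..., g (n - 1)` -/
def P (g : ℕ → ℕ) (n : ℕ) : ℕ := ∑ i ∈ range n, g i * 2 ^ (16 * i)

theorem P_lt (g : ℕ → ℕ) (hg : ∀ i, g i < 65536) (n : ℕ) : P g n < 2 ^ (16 * n) := by
  induction n with
  | zero => simp [P]
  | succ n ih =>
    unfold P at *
    rw [Finset.sum_range_succ]
    have h1 := hg n
    have h2 : g n * 2 ^ (16 * n) ≤ 65535 * 2 ^ (16 * n) := Nat.mul_le_mul_right _ (by omega)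
    have h3 : 2 ^ (16 * (n + 1)) = 65536 * 2 ^ (16 * n) := by
      rw [show 16 * (n + 1) = 16 * n + 16 by ring, pow_add]
      norm_num
      ring
    omega

theorem P_bit (g : ℕ → ℕ) (hg : ∀ i, g i < 65536) (n q r : ℕ) (hr : r < 16) :
    (P g n).testBit (16 * q + r) = (decide (q < n) && (g q).testBit r) := by
  induction n with
  | zero => simp [P]
  | succ n ih =>
    have e : P g (n + 1) = 2 ^ (16 * n) * g n + P g n := by
      unfold P
      rw [Finset.sum_range_succ]
      ring
    rw [e, Nat.testBit_two_pow_mul_add _ (P_lt g hg n)]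
    by_cases h : 16 * q + r < 16 * n
    · rw [if_pos h, ih]
      have h1 : q < n := by omega
      have h2 : q < n + 1 := by omega
      simp [h1, h2]
    · rw [if_neg h]
      by_cases h1 : q = n
      · subst h1
        have : 16 * q + r - 16 * q = r := by omega
        rw [this]
        simp
      · have h2 : ¬ q < n + 1 := by omega
        have h3 : g n < 2 ^ (16 * q + r - 16 * n) := by
          refine lt_of_lt_of_le (hg n) ?_
          have : 16 ≤ 16 * q + r - 16 * n := by omega
          calc 65536 = 2 ^ 16 := by norm_num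
            _ ≤ _ := Nat.pow_le_pow_right (by norm_num) this
        rw [Nat.testBit_lt_two_pow h3]
        simp [h2]

/-- the digit function on `ℕ` -/
def ext {m : ℕ} (f : Fin m → ℕ) (i : ℕ) : ℕ := if h : i < m then f ⟨i, h⟩ else 0

theorem num_eq {m : ℕ} (f : Fin m → ℕ) :
    ∑ i, f i * 2 ^ (16 * (i : ℕ)) = P (ext f) m := by
  unfold P
  rw [Finset.sum_range]
  refine Finset.sum_congr rfl fun i _ => ?_
  unfold ext
  rw [dif_pos i.2]

theorem ext_lt {m : ℕ} {f : Fin m → ℕ} (hf : ∀ i, f i < 65536) (i : ℕ) : ext f i < 65536 := by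
  unfold ext
  by_cases h : i < m
  · rw [dif_pos h]; exact hf _
  · rw [dif_neg h]; norm_num

theorem land_num {m : ℕ} (f g : Fin m → ℕ) (hf : ∀ i, f i < 65536) (hg : ∀ i, g i < 65536) :
    Nat.land (∑ i, f i * 2 ^ (16 * (i : ℕ))) (∑ i, g i * 2 ^ (16 * (i : ℕ))) =
      ∑ i, Nat.land (f i) (g i) * 2 ^ (16 * (i : ℕ)) := by
  have hfg : ∀ i, Nat.land (f i) (g i) < 65536 := fun i =>
    lt_of_le_of_lt (Nat.and_le_left (n := f i) (m := g i)) (hf i)
  rw [num_eq f, num_eq g, num_eq (fun i => Nat.land (f i) (g i))]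
  refine Nat.eq_of_testBit_eq fun p => ?_
  have hp : p = 16 * (p / 16) + p % 16 := by omega
  have hr : p % 16 < 16 := Nat.mod_lt _ (by norm_num)
  have e : Nat.land (P (ext f) m) (P (ext g) m) = P (ext f) m &&& P (ext g) m := rfl
  rw [e, Nat.testBit_and, hp, P_bit _ (ext_lt hf) _ _ _ hr, P_bit _ (ext_lt hg) _ _ _ hr,
    P_bit _ (ext_lt hfg) _ _ _ hr]
  by_cases h : p / 16 < m
  · simp only [h, decide_true, Bool.true_and]
    unfold ext
    simp only [dif_pos h]
    exact (Nat.testBit_and _ _ _).symm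
  · simp only [h, decide_false, Bool.false_and]

theorem sub_num {m : ℕ} (f : Fin m → ℕ) (A : Finset (Fin m)) :
    ∑ i ∈ A, f i * 2 ^ (16 * (i : ℕ)) = ∑ i, (if i ∈ A then f i else 0) * 2 ^ (16 * (i : ℕ)) := by
  rw [← Finset.sum_filter_add_sum_filter_not univ (fun i => i ∈ A)
    (fun i => (if i ∈ A then f i else 0) * 2 ^ (16 * (i : ℕ)))]
  have h1 : ∑ i ∈ univ.filter (fun i => ¬ i ∈ A),
      (if i ∈ A then f i else 0) * 2 ^ (16 * (i : ℕ)) = 0 := by
    refine Finset.sum_eq_zero fun i hi => ?_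
    rw [if_neg (Finset.mem_filter.1 hi).2, zero_mul]
  rw [h1, add_zero]
  have h2 : univ.filter (fun i => i ∈ A) = A := by
    ext i
    simp
  rw [h2]
  refine Finset.sum_congr rfl fun i hi => ?_
  rw [if_pos hi]

theorem pkS_num {m : ℕ} (A : Finset (Fin m)) :
    pkS A = ∑ i, (if i ∈ A then 1 else 0) * 2 ^ (16 * (i : ℕ)) := by
  rw [← sub_num (fun _ => 1)]
  unfold pkS
  refine Finset.sum_congr rfl fun i _ => ?_
  rw [one_mul]

theorem mod_num {m : ℕ} (f : Fin m → ℕ) (A : Finset (Fin m)) :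
    (∑ i ∈ A, f i * 2 ^ (16 * (i : ℕ))) % 65535 = (∑ i ∈ A, f i) % 65535 := by
  have h : ∑ i ∈ A, f i * 2 ^ (16 * (i : ℕ)) ≡ ∑ i ∈ A, f i [MOD 65535] := by
    refine Nat.ModEq.sum fun i _ => ?_
    have h1 : (2 : ℕ) ^ (16 * (i : ℕ)) ≡ 1 [MOD 65535] := by
      rw [pow_mul]
      have h2 : (2 : ℕ) ^ 16 ≡ 1 [MOD 65535] := by decide
      simpa using h2.pow (i : ℕ)
    simpa using h1.mul_left (f i)
  exact h

end PKA_

open PKA_ in
theorem p_PKA : T_PKA := by
  intro m hm
  refine ⟨?_, ?_, ?_, ?_, ?_, ?_⟩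
  · intro A B
    rw [pkS_num A, pkS_num B, pkS_num (A ∩ B), land_num]
    · refine Finset.sum_congr rfl fun i _ => ?_
      by_cases h1 : i ∈ A <;> by_cases h2 : i ∈ B <;> simp [h1, h2] <;> rfl
    · intro i; split_ifs <;> norm_num
    · intro i; split_ifs <;> norm_num
  · intro A
    have h := mod_num (fun _ => 1) A
    have e : ∑ i ∈ A, 1 * 2 ^ (16 * (i : ℕ)) = pkS A := by
      unfold pkS
      refine Finset.sum_congr rfl fun i _ => ?_
      rw [one_mul]
    rw [e, Finset.sum_const, smul_eq_mul, mul_one] at h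
    rw [h, Nat.mod_eq_of_lt]
    have := Finset.card_le_univ A
    rw [Fintype.card_fin] at this
    omega
  · intro A
    unfold pkS
    rw [Finset.sum_eq_zero_iff]
    constructor
    · intro h
      refine Finset.eq_empty_of_forall_notMem fun i hi => ?_
      have := h i hi
      exact absurd this (by positivity)
    · intro h i hi
      rw [h] at hi
      simp at hi
  · intro f hf A
    have e : 65535 * pkS A = ∑ i, (if i ∈ A then 65535 else 0) * 2 ^ (16 * (i : ℕ)) := by
      rw [pkS_num A, Finset.mul_sum]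
      refine Finset.sum_congr rfl fun i _ => ?_
      split_ifs <;> ring
    rw [e, land_num f _ hf (by intro i; split_ifs <;> norm_num), sub_num f A]
    refine Finset.sum_congr rfl fun i _ => ?_
    congr 1
    by_cases h1 : i ∈ A
    · rw [if_pos h1, if_pos h1]
      have h2 : f i < 2 ^ 16 := by
        have := hf i
        norm_num
        exact this
      have h3 := Nat.and_two_pow_sub_one_of_lt_two_pow h2
      norm_num at h3
      exact h3
    · rw [if_neg h1, if_neg h1]
      exact Nat.and_zero (f i)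
  · intro f A hf
    rw [mod_num f A, Nat.mod_eq_of_lt hf]
  · intro f hf j
    rw [num_eq f]
    refine Nat.eq_of_testBit_eq fun r => ?_
    have e : (65536 : ℕ) = 2 ^ 16 := by norm_num
    rw [e, Nat.testBit_mod_two_pow, Nat.testBit_div_two_pow]
    by_cases hr : r < 16
    · have h1 : r + 16 * (j : ℕ) = 16 * (j : ℕ) + r := by ring
      rw [h1, P_bit _ (ext_lt hf) _ _ _ hr]
      unfold PKA_.ext
      simp [hr]
    · have h2 : f j < 2 ^ r := by
        refine lt_of_lt_of_le (hf j) ?_
        rw [e]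
        exact Nat.pow_le_pow_right (by norm_num) (by omega)
      rw [Nat.testBit_lt_two_pow h2]
      simp [hr]

end Pool.Agent.KFV
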