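import Pool.Agent.KFV.Targets2

set_option autoImplicit false

/-!
# PRN: pruning
-/

namespace Pool.Agent.KFV

open Finset

namespace PRN_

theorem sum_zero {α : Type} (l : List α) (f : α → ℤ) (h : ∀ t ∈ l, f t = 0) :
    (l.map f).sum = 0 := by
  induction l with
  | nil => rfl
  | cons x l ih =>
    rw [List.map_cons, List.sum_cons, h x (List.mem_cons_self ..),
      ih fun t ht => h t (List.mem_cons_of_mem _ ht), add_zero]

theorem fold_zero {α : Type} (l : List α) (f : α → ℕ) (h : ∀ t ∈ l, f t = 0) :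
    (l.map f).foldr max 0 = 0 := by
  induction l with
  | nil => rfl
  | cons x l ih =>
    rw [List.map_cons, List.foldr_cons, h x (List.mem_cons_self ..),
      ih fun t ht => h t (List.mem_cons_of_mem _ ht)]
    rfl

theorem pow_le {r : ℕ} (h : r ≤ 4) : (1 / 16 : ℚ) ≤ (1 / 2) ^ r := by
  interval_cases r <;> norm_num

end PRN_

open PRN_ in
theorem p_PRN : T_PRN := by
  intro hM V _ _ T T' c tab i hT hs hp
  obtain ⟨_, _, _, h1, h0⟩ := hM V T T' c hs
  have h2 : pr T' c < 1 / 16 := lt_of_le_of_lt h1 hp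
  constructor
  · unfold Hn
    refine sum_zero _ _ fun t ht => if_neg fun h => ?_
    have h3 := pow_le (hT.r4 t ht)
    rw [h.1] at h2
    linarith
  · unfold Gn
    refine fold_zero _ _ fun t ht => if_neg fun h => ?_
    have h3 := pow_le (hT.r4 t ht)
    have h4 : pr T' c * (1 / 2) ^ i ≤ pr T' c * 1 :=
      mul_le_mul_of_nonneg_left (pow_le_one₀ (by norm_num) (by norm_num)) h0
    have h5 := h.1
    linarith

end Pool.Agent.KFV
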