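import Pool.Agent.KFV.Targets2

/-!
# KFV: one step of the components
-/

namespace Pool.Agent.KFV

open Finset

namespace RK1_

theorem frc_eq {α : Type} (n : ℕ) (f : ℕ → α) : frc n f = f n := by
  cases n <;> rfl

theorem dg_ne {m : ℕ} (T : Finset (Sym2 (Fin m))) (c : Fin m → Fin 4) (v : Fin m) :
    dg T c v ≠ 0 ↔ ∃ w, xr T c v w := by
  unfold dg
  rw [Ne, Finset.sum_eq_zero_iff]
  simp

theorem mem_TJ {m : ℕ} (T : Finset (Sym2 (Fin m))) (k : ℕ) (u v : Fin m) :
    s(u, v) ∈ TJ T k ↔ s(u, v) ∈ T ∧ (u : ℕ) < k ∧ (v : ℕ) < k := by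
  unfold TJ
  rw [Finset.mem_filter]
  simp

theorem xr_TJ {m : ℕ} (T : Finset (Sym2 (Fin m))) (c : Fin m → Fin 4) (k : ℕ) (u v : Fin m) :
    xr (TJ T k) c u v ↔ xr T c u v ∧ (u : ℕ) < k ∧ (v : ℕ) < k := by
  unfold xr
  rw [mem_TJ]
  tauto

theorem xr_symm {m : ℕ} (T : Finset (Sym2 (Fin m))) (c : Fin m → Fin 4) (u v : Fin m) :
    xr T c u v ↔ xr T c v u := by
  unfold xr
  rw [Sym2.eq_swap, ne_comm]

theorem mem_row {m : ℕ} (T : Finset (Sym2 (Fin m))) (c : Fin m → Fin 4) (i u : Fin m) :
    u ∈ rowS T c i ↔ (u : ℕ) < i ∧ xr T c u i := by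
  unfold rowS
  simp

theorem mem_spt {m : ℕ} (T : Finset (Sym2 (Fin m))) (c : Fin m → Fin 4) (u : Fin m) :
    u ∈ spt T c ↔ dg T c u ≠ 0 := by
  unfold spt
  simp

/-- the cross edges of the next graph -/
theorem xr_next {m j : ℕ} (hj : j < m) (T : Finset (Sym2 (Fin m))) (c : Fin m → Fin 4)
    (u v : Fin m) : xr (TJ T (j + 1)) c u v ↔ xr (TJ T j) c u v ∨
      (u = ⟨j, hj⟩ ∧ v ∈ rowS T c ⟨j, hj⟩) ∨ (v = ⟨j, hj⟩ ∧ u ∈ rowS T c ⟨j, hj⟩) := by
  rw [xr_TJ, xr_TJ, mem_row, mem_row]
  constructor
  · rintro ⟨h, hu, hv⟩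
    by_cases hu' : (u : ℕ) = j
    · have hu2 : u = ⟨j, hj⟩ := Fin.ext hu'
      have hne : u ≠ v := fun e => h.2 (by rw [e])
      have hv' : (v : ℕ) ≠ j := fun e => hne (Fin.ext (by omega))
      right; left
      refine ⟨hu2, by simp only; omega, ?_⟩
      rw [← hu2]
      exact (xr_symm T c u v).1 h
    · by_cases hv' : (v : ℕ) = j
      · have hv2 : v = ⟨j, hj⟩ := Fin.ext hv'
        right; right
        refine ⟨hv2, by simp only; omega, ?_⟩
        rw [← hv2]
        exact h
      · left
        exact ⟨h, by omega, by omega⟩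
  · rintro (⟨h, hu, hv⟩ | ⟨rfl, hv, h⟩ | ⟨rfl, hu, h⟩)
    · exact ⟨h, by omega, by omega⟩
    · simp only at hv
      exact ⟨(xr_symm T c _ _).1 h, by simp, by omega⟩
    · simp only at hu
      exact ⟨h, by omega, by simp⟩

theorem sub_land {m : ℕ} (hP : T_PKA) (hm : m ≤ 12) (A B : Finset (Fin m)) :
    Nat.sub (pkS A) (Nat.land (pkS A) (pkS B)) = pkS (A \ B) := by
  rw [(hP m hm).1 A B]
  have h : pkS A = pkS (A ∩ B) + pkS (A \ B) := by
    unfold pkS
    exact (Finset.sum_inter_add_sum_sdiff A B _).symm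
  rw [h]
  exact Nat.add_sub_cancel_left _ _

theorem add_pk {m : ℕ} (A B : Finset (Fin m)) (h : Disjoint A B) :
    Nat.add (pkS A) (pkS B) = pkS (A ∪ B) := by
  unfold pkS
  exact (Finset.sum_union h).symm

/-- what the loop computes -/
theorem loop {m : ℕ} (hP : T_PKA) (hm : m ≤ 12) (R : Finset (Fin m)) (α : Type)
    (f : List ℕ → ℕ → α) : ∀ (Ks acc : List (Finset (Fin m))) (U : Finset (Fin m)) (r : ℕ),
    mergeC (Ks.map pkS) (pkS R) (pkS U) r (acc.map pkS) f =
      f (((U ∪ univ.filter (fun v => ∃ K ∈ Ks, K ∩ R ≠ ∅ ∧ v ∈ K)) ::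
        ((Ks.filter (fun K => decide (K ∩ R = ∅))).reverse ++ acc)).map pkS)
        (r + (Ks.filter (fun K => decide (K ∩ R ≠ ∅))).length)
  | [], acc, U, r => by
    simp [mergeC, frc_eq]
  | K :: Ks, acc, U, r => by
    have hb : Nat.beq (Nat.land (pkS K) (pkS R)) 0 = decide (K ∩ R = ∅) := by
      rw [(hP m hm).1 K R]
      by_cases h : K ∩ R = ∅
      · have h0 : pkS (K ∩ R) = 0 := ((hP m hm).2.2.1 _).2 h
        rw [h0]
        simp [h]
      · have h0 : pkS (K ∩ R) ≠ 0 := fun e => h (((hP m hm).2.2.1 _).1 e)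
        have h1 : Nat.beq (pkS (K ∩ R)) 0 = false := by
          rw [← Bool.not_eq_true, Nat.beq_eq]
          exact h0
        rw [h1]
        simp [h]
    rw [List.map_cons, mergeC, hb]
    by_cases h : K ∩ R = ∅
    · have h1 := loop hP hm R α f Ks (K :: acc) U r
      rw [List.map_cons] at h1
      simp only [h, decide_true, cond_true]
      rw [h1]
      have e1 : (univ.filter (fun v => ∃ K' ∈ K :: Ks, K' ∩ R ≠ ∅ ∧ v ∈ K')) =
          univ.filter (fun v => ∃ K' ∈ Ks, K' ∩ R ≠ ∅ ∧ v ∈ K') := by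
        ext v
        simp [h]
      rw [e1]
      simp [h]
    · simp only [h, decide_false, cond_false]
      rw [sub_land hP hm, add_pk _ _ Finset.disjoint_sdiff]
      have h1 := loop hP hm R α f Ks acc (U ∪ K \ U) (r + 1)
      rw [h1]
      have e1 : U ∪ (univ.filter (fun v => ∃ K' ∈ K :: Ks, K' ∩ R ≠ ∅ ∧ v ∈ K')) =
          (U ∪ K \ U) ∪ univ.filter (fun v => ∃ K' ∈ Ks, K' ∩ R ≠ ∅ ∧ v ∈ K') := by
        ext v
        simp only [List.mem_cons, exists_eq_or_imp, mem_union, mem_filter, mem_univ, true_and,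
          mem_sdiff]
        tauto
      rw [e1]
      have e2 : ((K :: Ks).filter (fun K => decide (K ∩ R = ∅))) =
          (Ks.filter (fun K => decide (K ∩ R = ∅))) := by
        simp [h]
      have e3 : ((K :: Ks).filter (fun K => decide (K ∩ R ≠ ∅))).length =
          (Ks.filter (fun K => decide (K ∩ R ≠ ∅))).length + 1 := by
        simp [h]
      rw [e2, e3]
      congr 1
      omega

theorem count {m : ℕ} (R : Finset (Fin m)) : ∀ (Ks : List (Finset (Fin m))),
    (Ks.filter (fun K => decide (K ∩ R ≠ ∅))).length +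
      (Ks.filter (fun K => decide (K ∩ R = ∅))).length = Ks.length
  | [] => by simp
  | K :: Ks => by
    have ih := count R Ks
    by_cases h : K ∩ R = ∅
    · simp only [List.filter_cons, h, ne_eq, not_true_eq_false, decide_false, decide_true,
        if_true, List.length_cons] at ih ⊢
      simp only [Bool.false_eq_true, if_false]
      omega
    · simp only [List.filter_cons, h, ne_eq, not_false_eq_true, decide_false, decide_true,
        if_true, List.length_cons] at ih ⊢
      simp only [Bool.false_eq_true, if_false]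
      omega

end RK1_

open RK1_ in
theorem p_RK1 : T_RK1 := by
  intro hP m j hj T c cs r hm hC
  have hx := xr_next hj T c
  constructor
  · intro hR
    have hx' : ∀ u v, xr (TJ T (j + 1)) c u v ↔ xr (TJ T j) c u v := by
      intro u v
      rw [hx u v, hR]
      simp
    have hd : ∀ v, dg (TJ T (j + 1)) c v ≠ 0 ↔ dg (TJ T j) c v ≠ 0 := by
      intro v
      rw [dg_ne, dg_ne]
      simp only [hx']
    have hs : spt (TJ T (j + 1)) c = spt (TJ T j) c := by
      ext v
      rw [mem_spt, mem_spt, hd]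
    obtain ⟨Ks, h1, h2, h3, h4, h5, h6⟩ := hC
    refine ⟨Ks, h1, h2, h3, ?_, ?_, ?_⟩
    · intro v
      rw [hd v]
      exact h4 v
    · intro b
      simp only [hx']
      exact h5 b
    · rw [hs]
      exact h6
  · intro hR
    obtain ⟨Ks, h1, h2, h3, h4, h5, h6⟩ := hC
    set J : Fin m := ⟨j, hj⟩ with hJ
    set R := rowS T c J with hRd
    have hdlt : ∀ v, dg (TJ T j) c v ≠ 0 → (v : ℕ) < j := by
      intro v hv
      obtain ⟨w, hw⟩ := (dg_ne _ _ _).1 hv
      exact ((xr_TJ T c j v w).1 hw).2.1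
    have hJK : ∀ K ∈ Ks, J ∉ K := by
      intro K hK hJK
      have := hdlt J ((h4 J).2 ⟨K, hK, hJK⟩)
      simp [hJ] at this
    have hJR : J ∉ R := by
      intro h
      have := ((mem_row T c J J).1 h).1
      omega
    have hJS : J ∉ spt (TJ T j) c := by
      intro h
      have := hdlt J ((mem_spt _ _ _).1 h)
      simp [hJ] at this
    have hd : ∀ v, dg (TJ T (j + 1)) c v ≠ 0 ↔ dg (TJ T j) c v ≠ 0 ∨ v = J ∨ v ∈ R := by
      intro v
      rw [dg_ne, dg_ne]
      simp only [hx]
      constructor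
      · rintro ⟨w, h | ⟨h, -⟩ | ⟨-, h⟩⟩
        · exact Or.inl ⟨w, h⟩
        · exact Or.inr (Or.inl h)
        · exact Or.inr (Or.inr h)
      · rintro (⟨w, h⟩ | h | h)
        · exact ⟨w, Or.inl h⟩
        · obtain ⟨w, hw⟩ := Finset.nonempty_iff_ne_empty.2 hR
          exact ⟨w, Or.inr (Or.inl ⟨h, hw⟩)⟩
        · exact ⟨J, Or.inr (Or.inr ⟨rfl, h⟩)⟩
    have hs : spt (TJ T (j + 1)) c = insert J (spt (TJ T j) c ∪ (R \ spt (TJ T j) c)) := by
      ext v
      simp only [mem_spt, hd, mem_insert, mem_union, mem_sdiff]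
      tauto
    have hscard : (spt (TJ T (j + 1)) c).card =
        (spt (TJ T j) c).card + (R \ spt (TJ T j) c).card + 1 := by
      rw [hs, Finset.card_insert_of_notMem, Finset.card_union_of_disjoint Finset.disjoint_sdiff]
      simp only [mem_union, mem_sdiff, not_or, not_and, not_not]
      exact ⟨hJS, fun h => absurd h hJR⟩
    set U : Finset (Fin m) := R ∪ {J} with hU
    set U' : Finset (Fin m) := U ∪ univ.filter (fun v => ∃ K ∈ Ks, K ∩ R ≠ ∅ ∧ v ∈ K) with hU'
    set L := Ks.filter (fun K => decide (K ∩ R = ∅)) with hL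
    set h := (Ks.filter (fun K => decide (K ∩ R ≠ ∅))).length with hh
    have hmU : ∀ v, v ∈ U' ↔ v ∈ R ∨ v = J ∨ ∃ K ∈ Ks, K ∩ R ≠ ∅ ∧ v ∈ K := by
      intro v
      rw [hU', hU]
      simp only [mem_union, mem_singleton, mem_filter, mem_univ, true_and]
      tauto
    have hmL : ∀ K, K ∈ L ↔ K ∈ Ks ∧ K ∩ R = ∅ := by
      intro K
      rw [hL, List.mem_filter]
      simp
    have hpw : ∀ K ∈ Ks, ∀ K' ∈ Ks, K ≠ K' → Disjoint K K' := by
      intro K hK K' hK' hne
      exact List.Pairwise.forall h2 hK hK' hne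
    refine ⟨(U' :: (L.reverse ++ [])).map pkS, r + (R \ spt (TJ T j) c).card + h, ?_, ?_⟩
    · refine ⟨U' :: (L.reverse ++ []), rfl, ?_, ?_, ?_, ?_, ?_⟩
      · rw [List.append_nil, List.pairwise_cons]
        constructor
        · intro K hK
          rw [List.mem_reverse, hmL] at hK
          rw [Finset.disjoint_left]
          intro v hv hvK
          rcases (hmU v).1 hv with h0 | h0 | ⟨K', hK', hm', hv'⟩
          · have : v ∈ K ∩ R := Finset.mem_inter.2 ⟨hvK, h0⟩
            rw [hK.2] at this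
            simp at this
          · rw [h0] at hvK
            exact hJK K hK.1 hvK
          · have hne : K ≠ K' := by
              intro e
              rw [e] at hK
              exact hm' hK.2
            exact Finset.disjoint_left.1 (hpw K hK.1 K' hK' hne) hvK hv'
        · rw [List.pairwise_reverse]
          exact (h2.filter _).imp (fun h => Disjoint.symm h)
      · intro K hK
        rw [List.append_nil, List.mem_cons, List.mem_reverse, hmL] at hK
        rcases hK with rfl | hK
        · exact ⟨J, (hmU J).2 (Or.inr (Or.inl rfl))⟩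
        · exact h3 K hK.1
      · intro v
        rw [hd v, h4 v]
        simp only [List.append_nil, List.mem_cons, List.mem_reverse, hmL]
        constructor
        · rintro (⟨K, hK, hv⟩ | hv | hv)
          · by_cases hKR : K ∩ R = ∅
            · exact ⟨K, Or.inr ⟨hK, hKR⟩, hv⟩
            · exact ⟨U', Or.inl rfl, (hmU v).2 (Or.inr (Or.inr ⟨K, hK, hKR, hv⟩))⟩
          · exact ⟨U', Or.inl rfl, (hmU v).2 (Or.inr (Or.inl hv))⟩
          · exact ⟨U', Or.inl rfl, (hmU v).2 (Or.inl hv)⟩
        · rintro ⟨K, rfl | hK, hv⟩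
          · rcases (hmU v).1 hv with h0 | h0 | ⟨K', hK', -, hv'⟩
            · exact Or.inr (Or.inr h0)
            · exact Or.inr (Or.inl h0)
            · exact Or.inl ⟨K', hK', hv'⟩
          · exact Or.inl ⟨K, hK.1, hv⟩
      · intro b
        have hb1 : (∀ u v, xr (TJ T (j + 1)) c u v → b u = b v) ↔
            (∀ u v, xr (TJ T j) c u v → b u = b v) ∧ ∀ v ∈ R, b v = b J := by
          simp only [hx]
          constructor
          · intro H
            exact ⟨fun u v huv => H u v (Or.inl huv), fun v hv => H v J (Or.inr (Or.inr ⟨rfl, hv⟩))⟩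
          · rintro ⟨H1, H2⟩ u v (huv | ⟨rfl, hv⟩ | ⟨rfl, hu⟩)
            · exact H1 u v huv
            · exact (H2 v hv).symm
            · exact H2 u hu
        rw [hb1, h5 b]
        constructor
        · rintro ⟨H1, H2⟩ K hK u hu v hv
          rw [List.append_nil, List.mem_cons, List.mem_reverse, hmL] at hK
          rcases hK with rfl | hK
          · have key : ∀ w ∈ U', b w = b J := by
              intro w hw
              rcases (hmU w).1 hw with h0 | h0 | ⟨K', hK', hm', hw'⟩
              · exact H2 w h0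
              · rw [h0]
              · obtain ⟨z, hz⟩ := Finset.nonempty_iff_ne_empty.2 hm'
                rw [Finset.mem_inter] at hz
                rw [H1 K' hK' w hw' z hz.1]
                exact H2 z hz.2
            rw [key u hu, key v hv]
          · exact H1 K hK.1 u hu v hv
        · intro H
          simp only [List.append_nil, List.mem_cons, List.mem_reverse, hmL] at H
          constructor
          · intro K hK u hu v hv
            by_cases hKR : K ∩ R = ∅
            · exact H K (Or.inr ⟨hK, hKR⟩) u hu v hv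
            · exact H U' (Or.inl rfl) u ((hmU u).2 (Or.inr (Or.inr ⟨K, hK, hKR, hu⟩))) v
                ((hmU v).2 (Or.inr (Or.inr ⟨K, hK, hKR, hv⟩)))
          · intro v hv
            exact H U' (Or.inl rfl) v ((hmU v).2 (Or.inl hv)) J
              ((hmU J).2 (Or.inr (Or.inl rfl)))
      · have hc := count R Ks
        rw [hscard]
        simp only [List.append_nil, List.length_cons, List.length_reverse]
        rw [← hL, ← hh] at hc
        omega
    · intro α f
      have e1 : (2 : ℕ) ^ (16 * j) = pkS ({J} : Finset (Fin m)) := by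
        unfold pkS
        simp [hJ]
      have e2 : Nat.add (pkS R) (2 ^ (16 * j)) = pkS U := by
        rw [e1, add_pk]
        rw [Finset.disjoint_singleton_right]
        exact hJR
      have e3 : Nat.mod (Nat.sub (pkS R) (Nat.land (pkS R) (pkS (spt (TJ T j) c)))) 65535 =
          (R \ spt (TJ T j) c).card := by
        rw [sub_land hP hm]
        exact (hP m hm).2.1 _
      rw [e2, e3, h1]
      have := loop hP hm R α f Ks [] U (r + (R \ spt (TJ T j) c).card)
      exact this

end Pool.Agent.KFV
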