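import Pool.Agent.KFV.Targets2

set_option autoImplicit false

/-!
# RK2: the rank is correct
-/

namespace Pool.Agent.KFV

open Finset

namespace RK2_

variable {V : Type} [Fintype V] [DecidableEq V]

open Classical in
/-- number of the functions with the property `P` -/
noncomputable def cnt (P : (V → Bool) → Prop) : ℕ := (univ.filter (fun b => P b)).card

lemma cnt_eq (P : (V → Bool) → Prop) [DecidablePred P] :
    cnt P = (univ.filter (fun b => P b)).card := by
  unfold cnt
  congr!

lemma sum_cnt (f : (V → Bool) → ℚ) (Q : (V → Bool) → Prop) (h1 : ∀ b, Q b → f b = 1)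
    (h2 : ∀ b, ¬ Q b → f b = 0) : (∑ b, f b) = cnt Q := by
  classical
  rw [cnt_eq, Finset.card_filter, Nat.cast_sum]
  refine Finset.sum_congr rfl fun b _ => ?_
  by_cases h : Q b
  · rw [h1 b h, if_pos h, Nat.cast_one]
  · rw [h2 b h, if_neg h, Nat.cast_zero]

open Classical in
lemma step (K : Finset V) (hK : K.Nonempty) (P : (V → Bool) → Prop)
    (hP : ∀ b b' : V → Bool, (∀ v, v ∉ K → b v = b' v) → P b → P b') :
    cnt (fun b : V → Bool => P b ∧ ∀ u ∈ K, ∀ v ∈ K, b u = b v) * 2 ^ K.card =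
      2 * cnt (fun b : V → Bool => P b) := by
  obtain ⟨k0, hk0⟩ := hK
  have h1 : ((univ.filter (fun b : V → Bool => P b)) ×ˢ (univ : Finset Bool)).card =
      ((univ.filter (fun b : V → Bool => P b ∧ ∀ u ∈ K, ∀ v ∈ K, b u = b v)) ×ˢ
        (univ : Finset (K → Bool))).card := by
    refine Finset.card_nbij'
      (fun q : (V → Bool) × Bool => ((fun v => if v ∈ K then q.2 else q.1 v : V → Bool),
        (fun x => q.1 x : K → Bool)))
      (fun q : (V → Bool) × (K → Bool) =>
        ((fun v => if h : v ∈ K then q.2 ⟨v, h⟩ else q.1 v : V → Bool), q.1 k0)) ?_ ?_ ?_ ?_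
    · rintro ⟨b, t⟩ hb
      have hb1 : P b := (mem_filter.1 (mem_product.1 hb).1).2
      refine mem_coe.2 (mem_product.2 ⟨mem_filter.2 ⟨mem_univ _, ?_, ?_⟩, mem_univ _⟩)
      · refine hP b _ (fun v hv => ?_) hb1
        show b v = if v ∈ K then t else b v
        rw [if_neg hv]
      · intro u hu v hv
        show (if u ∈ K then t else b u) = if v ∈ K then t else b v
        rw [if_pos hu, if_pos hv]
    · rintro ⟨b, g⟩ hb
      have hb1 : P b := (mem_filter.1 (mem_product.1 hb).1).2.1
      refine mem_coe.2 (mem_product.2 ⟨mem_filter.2 ⟨mem_univ _, ?_⟩, mem_univ _⟩)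
      refine hP b _ (fun v hv => ?_) hb1
      show b v = if h : v ∈ K then g ⟨v, h⟩ else b v
      rw [dif_neg hv]
    · rintro ⟨b, t⟩ -
      refine Prod.ext ?_ ?_
      · funext v
        show (if h : v ∈ K then b v else if v ∈ K then t else b v) = b v
        by_cases h : v ∈ K
        · rw [dif_pos h]
        · rw [dif_neg h, if_neg h]
      · show (if k0 ∈ K then t else b k0) = t
        rw [if_pos hk0]
    · rintro ⟨b, g⟩ hb
      have hb1 := (mem_filter.1 (mem_product.1 hb).1).2.2
      refine Prod.ext ?_ ?_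
      · funext v
        show (if v ∈ K then b k0 else if h : v ∈ K then g ⟨v, h⟩ else b v) = b v
        by_cases h : v ∈ K
        · rw [if_pos h]
          exact hb1 k0 hk0 v h
        · rw [if_neg h, dif_neg h]
      · funext x
        show (if h : (x : V) ∈ K then g ⟨x, h⟩ else b x) = g x
        rw [dif_pos x.2]
  rw [card_product, card_product, card_univ, card_univ, Fintype.card_bool, Fintype.card_fun,
    Fintype.card_bool, Fintype.card_coe] at h1
  rw [cnt_eq (fun b : V → Bool => P b ∧ ∀ u ∈ K, ∀ v ∈ K, b u = b v),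
    cnt_eq (fun b : V → Bool => P b), ← h1, mul_comm]

lemma count : ∀ Ks : List (Finset V), Ks.Pairwise Disjoint → (∀ K ∈ Ks, K.Nonempty) →
    cnt (fun b : V → Bool => ∀ K ∈ Ks, ∀ u ∈ K, ∀ v ∈ K, b u = b v) *
      2 ^ (Ks.map card).sum = 2 ^ Ks.length * 2 ^ Fintype.card V := by
  intro Ks
  induction Ks with
  | nil =>
    intro _ _
    simp [cnt]
  | cons K Ks ih =>
    intro hd hn
    rw [List.pairwise_cons] at hd
    have h1 := ih hd.2 fun K' hK' => hn K' (List.mem_cons_of_mem _ hK')
    have h2 := step K (hn K List.mem_cons_self)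
      (fun b : V → Bool => ∀ K ∈ Ks, ∀ u ∈ K, ∀ v ∈ K, b u = b v) (by
        intro b b' hb h K' hK' u hu v hv
        have h3 := hd.1 K' hK'
        rw [← hb u fun hu2 => Finset.disjoint_left.1 h3 hu2 hu,
          ← hb v fun hv2 => Finset.disjoint_left.1 h3 hv2 hv]
        exact h K' hK' u hu v hv)
    have h3 : (fun b : V → Bool => ∀ K' ∈ K :: Ks, ∀ u ∈ K', ∀ v ∈ K', b u = b v) =
        fun b : V → Bool => (∀ K ∈ Ks, ∀ u ∈ K, ∀ v ∈ K, b u = b v) ∧
          ∀ u ∈ K, ∀ v ∈ K, b u = b v := by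
      funext b
      rw [List.forall_mem_cons, and_comm]
    rw [h3, List.map_cons, List.sum_cons, pow_add, List.length_cons, pow_succ, ← mul_assoc, h2,
      mul_assoc, h1]
    ring

lemma union : ∀ (Ks : List (Finset V)) (S : Finset V), Ks.Pairwise Disjoint →
    (∀ v, v ∈ S ↔ ∃ K ∈ Ks, v ∈ K) → S.card = (Ks.map card).sum := by
  intro Ks
  induction Ks with
  | nil =>
    intro S _ h
    have : S = ∅ := by
      refine Finset.eq_empty_of_forall_notMem fun v hv => ?_
      obtain ⟨K, hK, -⟩ := (h v).1 hv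
      exact absurd hK List.not_mem_nil
    simp [this]
  | cons K Ks ih =>
    intro S hd h
    rw [List.pairwise_cons] at hd
    have hKS : K ⊆ S := fun v hv => (h v).2 ⟨K, List.mem_cons_self, hv⟩
    have h1 := ih (S \ K) hd.2 (by
      intro v
      rw [mem_sdiff, h v]
      constructor
      · rintro ⟨⟨K', hK', hv⟩, hv2⟩
        rw [List.mem_cons] at hK'
        rcases hK' with rfl | hK'
        · exact absurd hv hv2
        · exact ⟨K', hK', hv⟩
      · rintro ⟨K', hK', hv⟩
        exact ⟨⟨K', List.mem_cons_of_mem _ hK', hv⟩,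
          fun hv2 => Finset.disjoint_left.1 (hd.1 K' hK') hv2 hv⟩)
    rw [List.map_cons, List.sum_cons, ← h1, ← card_sdiff_add_card_eq_card hKS, add_comm]

end RK2_

open RK2_ in
theorem p_RK2 : T_RK2 := by
  intro m T c cs r h
  obtain ⟨Ks, -, hd, hn, hv, hb, hr⟩ := h
  have h1 := count Ks hd hn
  have h2 := union Ks (spt T c) hd (by
    intro v
    unfold spt
    rw [mem_filter, ← hv v]
    simp)
  rw [← h2, ← hr, pow_add, ← mul_assoc, mul_comm (2 ^ Ks.length)] at h1
  have h3 := Nat.eq_of_mul_eq_mul_right (by positivity) h1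
  set N : ℕ := cnt (fun b : Fin m → Bool => ∀ K ∈ Ks, ∀ u ∈ K, ∀ v ∈ K, b u = b v) with hN
  have h5 : (N : ℚ) * 2 ^ r = 2 ^ Fintype.card (Fin m) := by
    exact_mod_cast h3
  have h9 : pr T c = (N : ℚ) / 2 ^ Fintype.card (Fin m) := by
    unfold pr Ex
    rw [Fintype.card_bool]
    refine congrArg (fun q : ℚ => q / ((2 : ℕ) : ℚ) ^ Fintype.card (Fin m))
      (sum_cnt _ _ (fun b h => ?_) fun b h => ?_)
    · exact if_pos ((hb b).2 h)
    · exact if_neg fun h7 => h ((hb b).1 h7)
  have h6 : ((1 : ℚ) / 2) ^ r * 2 ^ r = 1 := by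
    rw [← mul_pow]
    norm_num
  rw [h9, div_eq_iff (by positivity), ← h5]
  linear_combination (-(N : ℚ)) * h6

end Pool.Agent.KFV
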