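import Pool.Agent.KFV.Targets2
import Pool.Agent.KFV.P_CPY

set_option autoImplicit false

/-!
# KFV, target RKY: a copy has the same key (MP_64e56f_co, r = 5)
-/

namespace Pool.Agent.KFV

open Finset

/-- RKY. a copy has the same key. -/
theorem p_RKY : T_RKY := by
  intro hAVC hEMK hXRI hINV V _ _ D T c hD hR
  obtain ⟨φ, hinj, π, hx, hc⟩ := hR
  obtain ⟨ψ, hψ, hT'⟩ := p_CPY V D.C φ (img φ D.C.E) hD.1 ⟨hinj, rfl⟩
  have hxr : ∀ u v, xr T c u v ↔ xr ((TG D.C).map ψ.sym2Map) c u v := by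
    intro u v
    constructor
    · intro h
      refine ⟨?_, h.2⟩
      rw [← hT']
      exact (hx u v).1 h
    · intro h
      have h1 := h.1
      rw [← hT'] at h1
      exact (hx u v).2 h1
  have hcc : c ∘ ψ = π ∘ (fun i : Fin D.C.m => colF D i) := by
    funext i
    simp only [Function.comp_apply]
    rw [hψ i]
    exact hc i i.2
  obtain ⟨x1, x2, x3, x4, -⟩ := hXRI V T ((TG D.C).map ψ.sym2Map) c hxr
  obtain ⟨y1, y2, y3, y4, -⟩ := hEMK hAVC V (Fin D.C.m) ψ (TG D.C) c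
  obtain ⟨z1, z2, z3, z4, -⟩ := hINV (Fin D.C.m) (TG D.C) (fun i : Fin D.C.m => colF D i) π
  rw [hcc] at y1 y2 y3 y4
  refine ⟨?_, ?_, ?_, ?_⟩
  · rw [x4, y4, z4]
  · rw [x1, y1, z1]
  · rw [x2, y2, z2]
  · rw [x3, y3, z3]

end Pool.Agent.KFV
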