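import Pool.Agent.KFV.Targets2

/-!
# KFV, target ROW: rows of a well formed graph
-/

namespace Pool.Agent.KFV

open Finset

namespace ROW_

theorem mem_TG (C : CG) (_hC : C.Wf) (u v : Fin C.m) :
    s(u, v) ∈ TG C ↔ ((u : ℕ), (v : ℕ)) ∈ C.E ∨ ((v : ℕ), (u : ℕ)) ∈ C.E := by
  unfold TG
  rw [Finset.mem_image]
  constructor
  · rintro ⟨⟨a, b⟩, hq, he⟩
    rw [Finset.mem_filter] at hq
    rw [Sym2.eq_iff] at he
    rcases he with ⟨rfl, rfl⟩ | ⟨rfl, rfl⟩
    · exact Or.inl hq.2
    · exact Or.inr hq.2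
  · rintro (h | h)
    · exact ⟨(u, v), by simpa using h, rfl⟩
    · exact ⟨(v, u), by simpa using h, Sym2.eq_swap⟩

theorem card_TG (C : CG) (hC : C.Wf) : (TG C).card = C.E.length := by
  unfold TG
  rw [Finset.card_image_of_injOn]
  · rw [← List.toFinset_card_of_nodup hC.2.1]
    apply Finset.card_bij (fun q _ => ((q.1 : ℕ), (q.2 : ℕ)))
    · intro q hq
      rw [Finset.mem_filter] at hq
      rw [List.mem_toFinset]
      exact hq.2
    · intro q _ q' _ he
      rw [Prod.mk.injEq] at he
      exact Prod.ext (Fin.ext he.1) (Fin.ext he.2)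
    · intro p hp
      rw [List.mem_toFinset] at hp
      obtain ⟨h1, h2⟩ := hC.1 p hp
      exact ⟨(⟨p.1, by omega⟩, ⟨p.2, h2⟩), by simpa using hp, rfl⟩
  · intro q hq q' hq' he
    have hq1 := hC.1 _ (Finset.mem_filter.mp hq).2
    have hq2 := hC.1 _ (Finset.mem_filter.mp hq').2
    simp only at hq1 hq2 he
    rw [Sym2.eq_iff] at he
    rcases he with ⟨h1, h2⟩ | ⟨h1, h2⟩
    · exact Prod.ext h1 h2
    · exfalso
      rw [h1, h2] at hq1
      omega

theorem rowm_eq (j : ℕ) : ∀ E : List (ℕ × ℕ), E.Nodup →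
    rowm E j = ∑ p ∈ E.toFinset.filter (fun p => p.2 = j), 2 ^ (16 * p.1) := by
  intro E
  induction E with
  | nil => intro _; simp [rowm]
  | cons p E ih =>
    intro hE
    rw [List.nodup_cons] at hE
    have ih' := ih hE.2
    have e1 : rowm (p :: E) j = bif Nat.beq p.2 j then
        Nat.add (rowm E j) (Nat.pow 2 (Nat.mul 16 p.1)) else rowm E j := rfl
    rw [e1, List.toFinset_cons, Finset.filter_insert]
    by_cases h : p.2 = j
    · have h1 : Nat.beq p.2 j = true := by rw [h]; exact Nat.beq_refl j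
      rw [h1, if_pos h, Finset.sum_insert]
      · rw [cond_true, ← ih']
        show rowm E j + 2 ^ (16 * p.1) = _
        rw [add_comm]
      · rw [Finset.mem_filter, List.mem_toFinset]
        exact fun h2 => hE.1 h2.1
    · have h1 : Nat.beq p.2 j = false := by
        rw [Bool.eq_false_iff]
        exact fun h2 => h (Nat.eq_of_beq_eq_true h2)
      rw [h1, if_neg h, cond_false, ih']

theorem pkS_nbS (C : CG) (hC : C.Wf) (j : ℕ) (hj : j < C.m) :
    rowm C.E j = pkS (nbS (TG C) ⟨j, hj⟩) := by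
  rw [rowm_eq j C.E hC.2.1]
  unfold pkS
  symm
  apply Finset.sum_bij (fun (u : Fin C.m) _ => ((u : ℕ), j))
  · intro u hu
    unfold nbS at hu
    rw [Finset.mem_filter, mem_TG C hC] at hu
    rw [Finset.mem_filter, List.mem_toFinset]
    refine ⟨?_, rfl⟩
    rcases hu.2.2 with h | h
    · exact h
    · have := (hC.1 _ h).1
      have h2 := hu.2.1
      simp only at this h2
      omega
  · intro u _ v _ he
    rw [Prod.mk.injEq] at he
    exact Fin.ext he.1
  · intro p hp
    rw [Finset.mem_filter, List.mem_toFinset] at hp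
    obtain ⟨h1, h2⟩ := hC.1 p hp.1
    refine ⟨⟨p.1, by omega⟩, ?_, ?_⟩
    · unfold nbS
      rw [Finset.mem_filter, mem_TG C hC]
      refine ⟨Finset.mem_univ _, ?_, Or.inl ?_⟩
      · show p.1 < j
        omega
      · show (p.1, j) ∈ C.E
        rw [← hp.2]
        exact hp.1
    · exact Prod.ext rfl hp.2.symm
  · intro u _
    rfl

end ROW_

open ROW_ in
theorem p_ROW : T_ROW := by
  intro C hC
  refine ⟨card_TG C hC, ?_, ?_, ?_⟩
  · intro v hv
    rw [mem_TG C hC] at hv
    rcases hv with h | h <;>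
    · have := (hC.1 _ h).1
      simp only at this
      omega
  · unfold rowsOf
    rw [List.length_map, List.length_range]
  · intro j hj
    unfold rowsOf
    rw [List.getElem?_map, List.getElem?_range hj, Option.map_some, pkS_nbS C hC j hj]
    rfl

end Pool.Agent.KFV
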