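import Pool.Agent.KFV.Targets

/-!
# KFV, RUN: the run through the combinations
-/

namespace Pool.Agent.KFV

theorem p_RUN : T_RUN := by
  intro cores goods C qs
  induction qs with
  | nil =>
    intro certs _ q hq
    exact absurd hq List.not_mem_nil
  | cons q0 qs ih =>
    intro certs h q hq hn
    by_cases h0 : needC C q0 = true
    · cases certs with
      | nil =>
        simp only [runC, h0, cond_true] at h
        exact absurd h Bool.false_ne_true
      | cons n ns =>
        simp only [runC, h0, cond_true, Bool.and_eq_true] at h
        rcases List.mem_cons.1 hq with e | e
        · subst e
          exact ⟨n, h.1⟩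
        · exact ih ns h.2 q e hn
    · have h1 : needC C q0 = false := by simpa using h0
      simp only [runC, h1, cond_false] at h
      rcases List.mem_cons.1 hq with e | e
      · subst e
        exact absurd hn h0
      · exact ih certs h q e hn

end Pool.Agent.KFV
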