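import Pool.Agent.KFV.Targets2

/-!
# KFV: the target STN (one step of the masks)
-/

set_option autoImplicit false

namespace Pool.Agent.KFV

open Finset

namespace STN_

variable {m : ℕ}

lemma pkS_sdiff (A B : Finset (Fin m)) : pkS A - pkS (A ∩ B) = pkS (A \ B) := by
  unfold pkS
  have h := Finset.sum_inter_add_sum_sdiff A B (fun i : Fin m => 2 ^ (16 * (i : ℕ)))
  omega

lemma pkS_union_add (A B : Finset (Fin m)) : pkS B + pkS (A \ B) = pkS (B ∪ A) := by
  unfold pkS
  rw [← Finset.sum_union Finset.disjoint_sdiff, Finset.union_sdiff_self_eq_union]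

lemma pkS_insert {v : Fin m} {A : Finset (Fin m)} (h : v ∉ A) :
    pkS (insert v A) = 2 ^ (16 * (v : ℕ)) + pkS A := by
  unfold pkS
  rw [Finset.sum_insert h]

lemma sub_land (hP : T_PKA) (hm : m ≤ 12) (A B : Finset (Fin m)) :
    Nat.sub (pkS A) (Nat.land (pkS A) (pkS B)) = pkS (A \ B) := by
  rw [(hP m hm).1 A B]
  exact pkS_sdiff A B

lemma row_eq (T : Finset (Sym2 (Fin m))) (c : Fin m → Fin 4) (v : Fin m) (a : Fin 4)
    (h : c v = a) :
    nbS T v \ univ.filter (fun i : Fin m => (i : ℕ) < (v : ℕ) ∧ c i = a) = rowS T c v := by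
  ext u
  have h1 : u ∈ rowS T c v ↔ (u : ℕ) < v ∧ s(u, v) ∈ T ∧ c u ≠ c v := by
    unfold rowS
    rw [mem_filter]
    simp only [mem_univ, true_and]
    rfl
  have h2 : u ∈ nbS T v ↔ (u : ℕ) < v ∧ s(u, v) ∈ T := by
    unfold nbS
    rw [mem_filter]
    simp only [mem_univ, true_and]
  have h3 : u ∈ univ.filter (fun i : Fin m => (i : ℕ) < (v : ℕ) ∧ c i = a) ↔
      (u : ℕ) < v ∧ c u = a := by
    rw [mem_filter]
    simp only [mem_univ, true_and]
  rw [mem_sdiff, h1, h2, h3, h]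
  tauto

lemma cls_succ (c : Fin m → Fin 4) (j : ℕ) (hj : j < m) (a : Fin 4) :
    pkS (univ.filter (fun i : Fin m => (i : ℕ) < j + 1 ∧ c i = a)) =
      pkS (univ.filter (fun i : Fin m => (i : ℕ) < j ∧ c i = a)) +
        if c ⟨j, hj⟩ = a then 2 ^ (16 * j) else 0 := by
  split_ifs with h
  · have h1 : univ.filter (fun i : Fin m => (i : ℕ) < j + 1 ∧ c i = a) =
        insert ⟨j, hj⟩ (univ.filter (fun i : Fin m => (i : ℕ) < j ∧ c i = a)) := by
      ext u
      simp only [mem_filter, mem_univ, true_and, mem_insert]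
      constructor
      · rintro ⟨h2, h3⟩
        rcases Nat.lt_succ_iff_lt_or_eq.1 h2 with h4 | h4
        · exact Or.inr ⟨h4, h3⟩
        · exact Or.inl (Fin.ext h4)
      · rintro (h2 | ⟨h2, h3⟩)
        · subst h2
          exact ⟨Nat.lt_succ_self j, h⟩
        · exact ⟨Nat.lt_succ_of_lt h2, h3⟩
    rw [h1, pkS_insert (by simp), add_comm]
  · rw [add_zero]
    congr 1
    ext u
    simp only [mem_filter, mem_univ, true_and]
    constructor
    · rintro ⟨h2, h3⟩
      rcases Nat.lt_succ_iff_lt_or_eq.1 h2 with h4 | h4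
      · exact ⟨h4, h3⟩
      · refine absurd ?_ h
        have h5 : u = ⟨j, hj⟩ := Fin.ext h4
        rw [← h5]
        exact h3
    · rintro ⟨h2, h3⟩
      exact ⟨Nat.lt_succ_of_lt h2, h3⟩

lemma filter_succ (j : ℕ) (hj : j < m) (p : Fin m → Prop) [DecidablePred p] :
    (List.finRange m).filter (fun i : Fin m => decide ((i : ℕ) < j + 1 ∧ p i)) =
      (List.finRange m).filter (fun i : Fin m => decide ((i : ℕ) < j ∧ p i)) ++
        if p ⟨j, hj⟩ then [⟨j, hj⟩] else [] := by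
  have hlen : (List.finRange m).length = m := List.length_finRange
  have hsplit : List.finRange m = (List.finRange m).take j ++
      (⟨j, hj⟩ : Fin m) :: (List.finRange m).drop (j + 1) := by
    have h1 := List.take_append_drop j (List.finRange m)
    rw [List.drop_eq_getElem_cons (by rw [hlen]; exact hj)] at h1
    rw [List.getElem_finRange] at h1
    exact h1.symm
  have htake : ∀ i ∈ (List.finRange m).take j, (i : ℕ) < j := by
    intro i hi
    rw [List.mem_take_iff_getElem] at hi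
    obtain ⟨k, hk, rfl⟩ := hi
    rw [List.getElem_finRange]
    exact lt_of_lt_of_le hk (min_le_left _ _)
  have hdrop : ∀ i ∈ (List.finRange m).drop (j + 1), j + 1 ≤ (i : ℕ) := by
    intro i hi
    rw [List.mem_drop_iff_getElem] at hi
    obtain ⟨k, hk, rfl⟩ := hi
    rw [List.getElem_finRange]
    simp
  rw [hsplit]
  simp only [List.filter_append, List.filter_cons]
  have e1 : ((List.finRange m).take j).filter (fun i : Fin m => decide ((i : ℕ) < j + 1 ∧ p i)) =
      ((List.finRange m).take j).filter (fun i : Fin m => decide ((i : ℕ) < j ∧ p i)) := by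
    refine List.filter_congr fun i hi => ?_
    have := htake i hi
    simp [this, Nat.lt_succ_of_lt this]
  have e2 : ((List.finRange m).drop (j + 1)).filter
      (fun i : Fin m => decide ((i : ℕ) < j + 1 ∧ p i)) = [] := by
    rw [List.filter_eq_nil_iff]
    intro i hi
    have := hdrop i hi
    simp only [decide_eq_true_eq, not_and]
    intro h
    omega
  have e3 : ((List.finRange m).drop (j + 1)).filter
      (fun i : Fin m => decide ((i : ℕ) < j ∧ p i)) = [] := by
    rw [List.filter_eq_nil_iff]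
    intro i hi
    have := hdrop i hi
    simp only [decide_eq_true_eq, not_and]
    intro h
    omega
  rw [e1, e2, e3]
  by_cases hp : p ⟨j, hj⟩
  · simp [hp]
  · simp [hp]

/-! ### the support -/

lemma mem_spt (T : Finset (Sym2 (Fin m))) (c : Fin m → Fin 4) (v : Fin m) :
    v ∈ spt T c ↔ ∃ w, xr T c v w := by
  unfold spt dg
  rw [mem_filter]
  simp only [mem_univ, true_and]
  constructor
  · intro h
    by_contra h1
    push Not at h1
    exact h (Finset.sum_eq_zero fun w _ => if_neg (h1 w))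
  · rintro ⟨w, hw⟩ h
    rw [Finset.sum_eq_zero_iff] at h
    have := h w (mem_univ w)
    rw [if_pos hw] at this
    exact one_ne_zero this

lemma xr_TJ (T : Finset (Sym2 (Fin m))) (c : Fin m → Fin 4) (j : ℕ) (v w : Fin m) :
    xr (TJ T j) c v w ↔ xr T c v w ∧ (v : ℕ) < j ∧ (w : ℕ) < j := by
  unfold xr TJ
  rw [mem_filter]
  simp only [Sym2.mem_iff, forall_eq_or_imp, forall_eq]
  tauto

lemma xr_symm {T : Finset (Sym2 (Fin m))} {c : Fin m → Fin 4} {v w : Fin m}
    (h : xr T c v w) : xr T c w v := by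
  unfold xr at *
  rw [Sym2.eq_swap]
  exact ⟨h.1, h.2.symm⟩

lemma mem_rowS (T : Finset (Sym2 (Fin m))) (c : Fin m → Fin 4) (i u : Fin m) :
    u ∈ rowS T c i ↔ (u : ℕ) < i ∧ xr T c u i := by
  unfold rowS
  simp

lemma spt_succ (T : Finset (Sym2 (Fin m))) (c : Fin m → Fin 4) (j : ℕ) (hj : j < m)
    (v : Fin m) : v ∈ spt (TJ T (j + 1)) c ↔ v ∈ spt (TJ T j) c ∨ v ∈ rowS T c ⟨j, hj⟩ ∨
      (v = ⟨j, hj⟩ ∧ rowS T c ⟨j, hj⟩ ≠ ∅) := by
  rw [mem_spt, mem_spt, mem_rowS]
  simp only [xr_TJ]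
  constructor
  · rintro ⟨w, hx, hv, hw⟩
    rcases Nat.lt_succ_iff_lt_or_eq.1 hv with hv | hv
    · rcases Nat.lt_succ_iff_lt_or_eq.1 hw with hw | hw
      · exact Or.inl ⟨w, hx, hv, hw⟩
      · have h1 : w = ⟨j, hj⟩ := Fin.ext hw
        subst h1
        exact Or.inr (Or.inl ⟨hv, hx⟩)
    · have h1 : v = ⟨j, hj⟩ := Fin.ext hv
      subst h1
      rcases Nat.lt_succ_iff_lt_or_eq.1 hw with hw | hw
      · refine Or.inr (Or.inr ⟨rfl, ?_⟩)
        refine Finset.ne_empty_of_mem (a := w) ?_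
        rw [mem_rowS]
        exact ⟨hw, xr_symm hx⟩
      · have h1 : w = ⟨j, hj⟩ := Fin.ext hw
        subst h1
        exact absurd rfl hx.2
  · rintro (⟨w, hx, hv, hw⟩ | ⟨hv, hx⟩ | ⟨hv, hne⟩)
    · exact ⟨w, hx, Nat.lt_succ_of_lt hv, Nat.lt_succ_of_lt hw⟩
    · exact ⟨⟨j, hj⟩, hx, Nat.lt_succ_of_lt hv, Nat.lt_succ_self j⟩
    · obtain ⟨w, hw⟩ := Finset.nonempty_iff_ne_empty.2 hne
      rw [mem_rowS] at hw
      subst hv
      exact ⟨w, xr_symm hw.2, Nat.lt_succ_self j, Nat.lt_succ_of_lt hw.1⟩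

lemma not_mem_spt (T : Finset (Sym2 (Fin m))) (c : Fin m → Fin 4) (j : ℕ) (hj : j < m) :
    (⟨j, hj⟩ : Fin m) ∉ spt (TJ T j) c := by
  rw [mem_spt]
  rintro ⟨w, hw⟩
  rw [xr_TJ] at hw
  exact absurd hw.2.1 (lt_irrefl j)

end STN_

open STN_ in
/-- the target STN -/
theorem p_STN : T_STN := by
  intro hP m j hj T c XR M0 M1 M2 M3 S hm hS
  refine ⟨?_, ?_, ?_, ?_, ?_, ?_⟩
  · intro h
    rw [hS.h0, sub_land hP hm, row_eq T c ⟨j, hj⟩ 0 h]
  · intro h
    rw [hS.h1, sub_land hP hm, row_eq T c ⟨j, hj⟩ 1 h]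
  · intro h
    rw [hS.h2, sub_land hP hm, row_eq T c ⟨j, hj⟩ 2 h]
  · intro h
    rw [hS.h3, sub_land hP hm, row_eq T c ⟨j, hj⟩ 3 h]
  · intro hR
    refine ⟨?_, ?_, ?_, ?_, ?_, ?_⟩
    · rw [hS.hx, filter_succ j hj (fun i => rowS T c i ≠ ∅), if_neg (not_not.2 hR),
        List.append_nil]
    · rw [hS.h0, cls_succ c j hj 0]
    · rw [hS.h1, cls_succ c j hj 1]
    · rw [hS.h2, cls_succ c j hj 2]
    · rw [hS.h3, cls_succ c j hj 3]
    · rw [hS.hs]
      congr 1
      ext v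
      rw [spt_succ T c j hj, hR]
      simp
  · intro hR
    refine ⟨?_, ?_, ?_, ?_, ?_, ?_⟩
    · rw [hS.hx, filter_succ j hj (fun i => rowS T c i ≠ ∅), if_pos hR,
        List.reverse_append, List.map_append]
      rfl
    · rw [hS.h0, cls_succ c j hj 0]
    · rw [hS.h1, cls_succ c j hj 1]
    · rw [hS.h2, cls_succ c j hj 2]
    · rw [hS.h3, cls_succ c j hj 3]
    · rw [hS.hs, sub_land hP hm]
      have h1 : spt (TJ T (j + 1)) c =
          insert ⟨j, hj⟩ (spt (TJ T j) c ∪ rowS T c ⟨j, hj⟩) := by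
        ext v
        rw [spt_succ T c j hj, mem_insert, mem_union]
        tauto
      have h2 : (⟨j, hj⟩ : Fin m) ∉ spt (TJ T j) c ∪ rowS T c ⟨j, hj⟩ := by
        rw [mem_union, not_or]
        refine ⟨not_mem_spt T c j hj, ?_⟩
        rw [mem_rowS]
        intro h
        exact absurd h.1 (lt_irrefl j)
      rw [h1, pkS_insert h2, ← pkS_union_add]
      rfl

end Pool.Agent.KFV
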