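import Pool.Agent.KFV.Targets

/-!
# STR: strip leaves one by one
-/

set_option autoImplicit false

namespace Pool.Agent.KFV

open Finset

namespace STR_

theorem main {V : Type} [Fintype V] [DecidableEq V] (n : ℕ) : ∀ T : Finset (Sym2 V),
    T.card = n → Lpl T →
    ∃ (C : Finset (Sym2 V)) (j : ℕ), Leafless C ∧ Lpl C ∧ Chain C j T := by
  induction n with
  | zero =>
    intro T hT hL
    have h0 : T = ∅ := Finset.card_eq_zero.mp hT
    refine ⟨T, 0, fun v hv => ?_, hL, Chain.zero T⟩
    subst h0
    simp [degT] at hv
  | succ n ih =>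
    intro T hT hL
    by_cases h : Leafless T
    · exact ⟨T, 0, h, hL, Chain.zero T⟩
    · unfold Leafless at h
      push Not at h
      obtain ⟨l, hl⟩ := h
      unfold degT at hl
      obtain ⟨u, hu⟩ := Finset.card_eq_one.mp hl
      have hmem : ∀ w, s(l, w) ∈ T ↔ w = u := by
        intro w
        have h1 : w ∈ univ.filter (fun w => s(l, w) ∈ T) ↔ w ∈ ({u} : Finset V) := by rw [hu]
        simpa using h1
      have hlu : s(l, u) ∈ T := (hmem u).mpr rfl
      have hne : u ≠ l := by
        intro h1
        subst h1
        exact hL u hlu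
      have hc : (T.erase s(l, u)).card = n := by
        rw [Finset.card_erase_of_mem hlu, hT]
        rfl
      have hL0 : Lpl (T.erase s(l, u)) := fun v hv => hL v (Finset.mem_of_mem_erase hv)
      obtain ⟨C, j, hC, hLC, hch⟩ := ih (T.erase s(l, u)) hc hL0
      refine ⟨C, j + 1, hC, hLC, ?_⟩
      have h2 : ∀ w, s(l, w) ∉ T.erase s(l, u) := by
        intro w hw
        rw [Finset.mem_erase] at hw
        have h3 := (hmem w).mp hw.2
        subst h3
        exact hw.1 rfl
      have h4 := Chain.succ hch hne h2
      have h5 : insert s(u, l) (T.erase s(l, u)) = T := by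
        rw [Sym2.eq_swap]
        exact Finset.insert_erase hlu
      rwa [h5] at h4

end STR_

theorem p_STR : T_STR := by
  intro V _ _ T hL
  exact STR_.main T.card T rfl hL

end Pool.Agent.KFV
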