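import Pool.Agent.KFV.Targets

/-!
# SUA: averages of the supremum bound
-/

set_option autoImplicit false

namespace Pool.Agent.KFV

open Finset

namespace SUA_

theorem Ex_mono {V : Type} [Fintype V] [DecidableEq V] {F G : (V → Fin 4) → ℚ}
    (h : ∀ c, F c ≤ G c) : Ex (Fin 4) F ≤ Ex (Fin 4) G := by
  unfold Ex
  exact div_le_div_of_nonneg_right (Finset.sum_le_sum fun c _ => h c) (by positivity)

theorem abs_Ex {V : Type} [Fintype V] [DecidableEq V] (F : (V → Fin 4) → ℚ) :
    |Ex (Fin 4) F| ≤ Ex (Fin 4) (fun c => |F c|) := by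
  unfold Ex
  rw [abs_div, abs_of_nonneg (show (0 : ℚ) ≤ (Fintype.card (Fin 4) : ℚ) ^ Fintype.card V by
    positivity)]
  exact div_le_div_of_nonneg_right (Finset.abs_sum_le_sum_abs _ _) (by positivity)

theorem abs_sg {V : Type} [Fintype V] [DecidableEq V] (T : Finset (Sym2 V)) (c : V → Fin 4) :
    |sg T c| = 1 := by
  unfold sg
  rw [abs_pow, abs_neg, abs_one, one_pow]

end SUA_

open SUA_ in
theorem p_SUA : T_SUA := by
  intro hM hS V _ _ T T' tab i k htab hT
  constructor
  · unfold Av Gv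
    refine (abs_Ex _).trans (Ex_mono fun c => ?_)
    have h1 := (hS hM V T T' c tab i 0 htab hT).1
    have h2 : |sg T' c * Hn tab i T' c| ≤ (Gn tab 0 T c : ℤ) := by
      rw [abs_mul, abs_sg, one_mul]
      exact h1
    have h3 : ((|sg T' c * Hn tab i T' c| : ℤ) : ℚ) ≤ (((Gn tab 0 T c : ℕ) : ℤ) : ℚ) :=
      Int.cast_le.mpr h2
    rw [Int.cast_abs] at h3
    exact_mod_cast h3
  · unfold Gv
    refine Ex_mono fun c => ?_
    have h1 := (hS hM V T T' c tab i k htab hT).2
    exact_mod_cast h1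

end Pool.Agent.KFV
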