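import Pool.Agent.KFV.Targets

/-!
# KFV: the bound for the kernel
-/

set_option autoImplicit false

namespace Pool.Agent.KFV

open Finset

namespace SUP_

theorem le_foldr {l : List ℕ} {x : ℕ} (h : x ∈ l) : x ≤ l.foldr max 0 := by
  induction l with
  | nil => simp at h
  | cons a l ih =>
    rw [List.foldr_cons]
    rcases List.mem_cons.mp h with rfl | h
    · exact le_max_left _ _
    · exact (ih h).trans (le_max_right _ _)

theorem foldr_mono {α : Type} (l : List α) (f g : α → ℕ) (h : ∀ t ∈ l, f t ≤ g t) :
    (l.map f).foldr max 0 ≤ (l.map g).foldr max 0 := by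
  induction l with
  | nil => simp
  | cons a l ih =>
    rw [List.map_cons, List.map_cons, List.foldr_cons, List.foldr_cons]
    exact max_le_max (h a (by simp)) (ih fun t ht => h t (by simp [ht]))

theorem sum_one {α : Type} (l : List α) (P : α → Prop) [DecidablePred P] (f : α → ℤ)
    (h : l.Pairwise (fun t t' => ¬ (P t ∧ P t'))) :
    (l.map (fun t => if P t then f t else 0)).sum = 0 ∨
      ∃ t ∈ l, P t ∧ (l.map (fun t => if P t then f t else 0)).sum = f t := by
  induction l with
  | nil => left; simp
  | cons a l ih =>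
    rw [List.pairwise_cons] at h
    rw [List.map_cons, List.sum_cons]
    by_cases ha : P a
    · right
      refine ⟨a, by simp, ha, ?_⟩
      have h0 : (l.map (fun t => if P t then f t else 0)).sum = 0 := by
        apply List.sum_eq_zero
        intro x hx
        rw [List.mem_map] at hx
        obtain ⟨t, ht, rfl⟩ := hx
        rw [if_neg]
        exact fun hp => h.1 t ht ⟨ha, hp⟩
      rw [h0, if_pos ha, add_zero]
    · rw [if_neg ha, zero_add]
      rcases ih h.2 with h0 | ⟨t, ht, hp, hs⟩
      · left
        exact h0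
      · right
        exact ⟨t, by simp [ht], hp, hs⟩

theorem h_le (t : Ent) (i : ℕ) : |t.h i| ≤ (t.mx : ℤ) := by
  unfold Ent.h
  split_ifs with hi
  · have h1 : fld t.pp (2 * i) ≤ t.mx := by
      unfold Ent.mx
      apply le_foldr
      rw [List.mem_map]
      exact ⟨2 * i, by rw [List.mem_range]; omega, rfl⟩
    have h2 : fld t.pp (2 * i + 1) ≤ t.mx := by
      unfold Ent.mx
      apply le_foldr
      rw [List.mem_map]
      exact ⟨2 * i + 1, by rw [List.mem_range]; omega, rfl⟩
    rw [abs_le]
    constructor <;> omega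
  · simp

theorem key_inj {V : Type} [Fintype V] [DecidableEq V] (T : Finset (Sym2 V)) (c : V → Fin 4)
    (t t' : Ent) (h : Mat T c t) (h' : Mat T c t') :
    t.r = t'.r ∧ t.e = t'.e ∧ t.s = t'.s ∧ t.x = t'.x := by
  obtain ⟨a1, a2, a3, a4⟩ := h
  obtain ⟨b1, b2, b3, b4⟩ := h'
  refine ⟨?_, ?_, ?_, ?_⟩
  · have h1 : ((1 : ℚ) / 2) ^ t.r = (1 / 2) ^ t'.r := by rw [← a1, ← b1]
    exact pow_right_injective₀ (by norm_num) (by norm_num) h1
  · rw [← a2, ← b2]
  · rw [← a3, ← b3]
  · rw [← a4, ← b4]

end SUP_

open SUP_ in
theorem p_SUP : T_SUP := by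
  classical
  intro hmon V _ _ T T' c tab i k htab hT
  obtain ⟨m1, m2, m3, m4, m5⟩ := hmon V T T' c hT
  constructor
  · have hp : tab.Pairwise (fun t t' => ¬ (Mat T' c t ∧ Mat T' c t')) := by
      refine htab.inj.imp ?_
      intro t t' hne hb
      exact hne (key_inj T' c t t' hb.1 hb.2)
    rcases sum_one tab (Mat T' c) (fun t => t.h i) hp with h0 | ⟨t, ht, hm, hs⟩
    · have h1 : Hn tab i T' c = 0 := by
        unfold Hn
        convert h0 using 6
      rw [h1]
      simp
    · have h1 : Hn tab i T' c = t.h i := by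
        unfold Hn
        rw [← hs]
      rw [h1]
      refine (h_le t i).trans ?_
      have hd : Dom 0 T c t := by
        obtain ⟨a1, a2, a3, a4⟩ := hm
        refine ⟨?_, ?_, ?_, ?_⟩
        · rw [pow_zero, mul_one, ← a1]
          exact m4
        · omega
        · omega
        · omega
      have h2 : t.mx ≤ Gn tab 0 T c := by
        unfold Gn
        apply le_foldr
        rw [List.mem_map]
        exact ⟨t, ht, if_pos hd⟩
      exact_mod_cast h2
  · unfold Gn
    apply foldr_mono
    intro t _
    by_cases h : Dom k T' c t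
    · have h' : Dom k T c t := by
        obtain ⟨a1, a2, a3, a4⟩ := h
        refine ⟨?_, ?_, ?_, ?_⟩
        · refine a1.trans ?_
          exact mul_le_mul_of_nonneg_right m4 (by positivity)
        · omega
        · omega
        · omega
      rw [if_pos h, if_pos h']
    · rw [if_neg h]
      exact Nat.zero_le _

end Pool.Agent.KFV
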