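import Pool.Agent.KFV.Targets2

/-!
# KFV, target SYM: colour symmetry
-/

set_option autoImplicit false

namespace Pool.Agent.KFV

open Finset

namespace SYM_

variable {m : ℕ}

theorem agree_iff {j : ℕ} (hj : j < m) (p c : Fin m → Fin 4) (a : Fin 4) :
    (∀ i : Fin m, (i : ℕ) < j + 1 → c i = Function.update p ⟨j, hj⟩ a i) ↔
      (∀ i : Fin m, (i : ℕ) < j → c i = p i) ∧ c ⟨j, hj⟩ = a := by
  constructor
  · intro h
    constructor
    · intro i hi
      have h1 := h i (by omega)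
      have h2 : i ≠ ⟨j, hj⟩ := by
        intro h3
        rw [h3] at hi
        exact lt_irrefl _ hi
      rwa [Function.update_of_ne h2] at h1
    · have h1 := h ⟨j, hj⟩ (Nat.lt_succ_self j)
      rwa [Function.update_self] at h1
  · rintro ⟨h1, h2⟩ i hi
    by_cases h3 : i = ⟨j, hj⟩
    · rw [h3, Function.update_self, h2]
    · rw [Function.update_of_ne h3]
      apply h1
      have h4 : (i : ℕ) ≠ j := fun h => h3 (Fin.ext h)
      omega

theorem split {j : ℕ} (hj : j < m) (p : Fin m → Fin 4) (F : (Fin m → Fin 4) → ℤ) :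
    SX j p F = ∑ a : Fin 4, SX (j + 1) (Function.update p ⟨j, hj⟩ a) F := by
  unfold SX
  rw [← Finset.sum_fiberwise (univ.filter (fun c : Fin m → Fin 4 =>
    ∀ i : Fin m, (i : ℕ) < j → c i = p i)) (fun c => c ⟨j, hj⟩) F]
  refine Finset.sum_congr rfl fun a _ => ?_
  rw [Finset.filter_filter]
  refine Finset.sum_congr ?_ fun _ _ => rfl
  ext c
  simp only [mem_filter, mem_univ, true_and]
  exact (agree_iff hj p c a).symm

theorem swap_mem {j : ℕ} (hj : j < m) (p : Fin m → Fin 4) {k : ℕ}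
    (hp : ∀ i : Fin m, (i : ℕ) < j → (p i : ℕ) < k) {a a' : Fin 4} (ha : k ≤ (a : ℕ))
    (ha' : k ≤ (a' : ℕ)) {c : Fin m → Fin 4}
    (hc : ∀ i : Fin m, (i : ℕ) < j + 1 → c i = Function.update p ⟨j, hj⟩ a i) :
    ∀ i : Fin m, (i : ℕ) < j + 1 →
      (Equiv.swap a a' ∘ c) i = Function.update p ⟨j, hj⟩ a' i := by
  rw [agree_iff] at hc ⊢
  obtain ⟨h1, h2⟩ := hc
  constructor
  · intro i hi
    show Equiv.swap a a' (c i) = p i
    rw [h1 i hi]
    have h3 := hp i hi
    apply Equiv.swap_apply_of_ne_of_ne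
    · intro h
      rw [h] at h3
      omega
    · intro h
      rw [h] at h3
      omega
  · show Equiv.swap a a' (c ⟨j, hj⟩) = a'
    rw [h2, Equiv.swap_apply_left]

theorem swap_swap (a a' : Fin 4) (c : Fin m → Fin 4) :
    Equiv.swap a' a ∘ (Equiv.swap a a' ∘ c) = c := by
  funext i
  show Equiv.swap a' a (Equiv.swap a a' (c i)) = c i
  rw [Equiv.swap_comm a' a, Equiv.swap_apply_self]

theorem eq {j : ℕ} (hj : j < m) (p : Fin m → Fin 4) {k : ℕ} {F : (Fin m → Fin 4) → ℤ}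
    (hF : ∀ (π : Equiv.Perm (Fin 4)) (c : Fin m → Fin 4), F (π ∘ c) = F c)
    (hp : ∀ i : Fin m, (i : ℕ) < j → (p i : ℕ) < k) (a a' : Fin 4) (ha : k ≤ (a : ℕ))
    (ha' : k ≤ (a' : ℕ)) :
    SX (j + 1) (Function.update p ⟨j, hj⟩ a) F =
      SX (j + 1) (Function.update p ⟨j, hj⟩ a') F := by
  unfold SX
  refine Finset.sum_nbij' (fun c => Equiv.swap a a' ∘ c) (fun c => Equiv.swap a' a ∘ c)
    ?_ ?_ ?_ ?_ ?_
  · intro c hc
    rw [mem_filter] at hc ⊢
    exact ⟨mem_univ _, swap_mem hj p hp ha ha' hc.2⟩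
  · intro c hc
    rw [mem_filter] at hc ⊢
    exact ⟨mem_univ _, swap_mem hj p hp ha' ha hc.2⟩
  · intro c _
    exact swap_swap a a' c
  · intro c _
    exact swap_swap a' a c
  · intro c _
    exact (hF (Equiv.swap a a') c).symm

end SYM_

open SYM_ in
theorem p_SYM : T_SYM := by
  intro m j hj p k F hF hp
  have h1 := split hj p F
  rw [Fin.sum_univ_four] at h1
  have e := fun a a' ha ha' => SYM_.eq hj p hF hp a a' ha ha'
  refine ⟨fun hk => ?_, fun hk => ?_, fun hk => ?_, fun _ => h1⟩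
  · subst hk
    rw [h1, e 1 0 (by norm_num) (by norm_num), e 2 0 (by norm_num) (by norm_num),
      e 3 0 (by norm_num) (by norm_num)]
    ring
  · subst hk
    rw [h1, e 2 1 (by norm_num) (by norm_num), e 3 1 (by norm_num) (by norm_num)]
    ring
  · subst hk
    rw [h1, e 3 2 (by norm_num) (by norm_num)]
    ring

end Pool.Agent.KFV
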