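import Pool.Agent.KFV.Targets2

/-!
# KFV, T_UNM

A matched entry gives all values.
-/

namespace Pool.Agent.KFV

open Finset

namespace UNM_

theorem half_pow_inj {a b : ℕ} (h : ((1 : ℚ) / 2) ^ a = (1 / 2) ^ b) : a = b :=
  pow_right_injective₀ (by norm_num : (0 : ℚ) < 1 / 2) (by norm_num : (1 : ℚ) / 2 ≠ 1) h

theorem half_pow_le {a b : ℕ} (h : ((1 : ℚ) / 2) ^ b ≤ (1 / 2) ^ a) : a ≤ b :=
  (pow_le_pow_iff_right_of_lt_one₀ (by norm_num : (0 : ℚ) < 1 / 2)
    (by norm_num : (1 : ℚ) / 2 < 1)).1 h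

theorem sum_zero {α : Type} (P : α → Prop) [DecidablePred P] (f : α → ℤ) (l : List α)
    (h : ∀ t ∈ l, ¬ P t) : (l.map (fun t => if P t then f t else 0)).sum = 0 := by
  induction l with
  | nil => rfl
  | cons a l ih =>
    rw [List.map_cons, List.sum_cons, if_neg (h a (by simp)),
      ih (fun t ht => h t (List.mem_cons_of_mem _ ht)), add_zero]

theorem sum_one {α : Type} (P : α → Prop) [DecidablePred P] (f : α → ℤ) (l : List α)
    (h : l.Pairwise (fun a b => ¬ (P a ∧ P b))) (t : α) (ht : t ∈ l) (hp : P t) :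
    (l.map (fun t => if P t then f t else 0)).sum = f t := by
  induction l with
  | nil => simp at ht
  | cons a l ih =>
    rw [List.pairwise_cons] at h
    rw [List.map_cons, List.sum_cons]
    rcases List.mem_cons.1 ht with rfl | ht'
    · rw [if_pos hp, sum_zero P f l (fun b hb hPb => h.1 b hb ⟨hp, hPb⟩), add_zero]
    · rw [if_neg (fun hPa => h.1 t ht' ⟨hPa, hp⟩), zero_add]
      exact ih h.2 ht'

theorem foldr_max_le (l : List ℕ) (B : ℕ) (h : ∀ x ∈ l, x ≤ B) : l.foldr max 0 ≤ B := by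
  induction l with
  | nil => exact Nat.zero_le _
  | cons a l ih =>
    rw [List.foldr_cons]
    exact max_le (h a (by simp)) (ih (fun x hx => h x (List.mem_cons_of_mem _ hx)))

end UNM_

theorem p_UNM : T_UNM := by
  classical
  intro V _ _ T c tab t hT ht hm
  refine ⟨fun i => ?_, fun k hk => ?_⟩
  · unfold Hn
    refine UNM_.sum_one _ (fun t => t.h i) tab ?_ t ht hm
    refine hT.inj.imp ?_
    rintro a b hab ⟨ha, hb⟩
    refine hab ⟨UNM_.half_pow_inj (ha.1.symm.trans hb.1), ?_, ?_, ?_⟩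
    · exact ha.2.1.symm.trans hb.2.1
    · exact ha.2.2.1.symm.trans hb.2.2.1
    · exact ha.2.2.2.symm.trans hb.2.2.2
  · unfold Gn
    refine UNM_.foldr_max_le _ _ ?_
    intro x hx
    rw [List.mem_map] at hx
    obtain ⟨t', ht', rfl⟩ := hx
    split_ifs with hd
    · obtain ⟨h1, h2, h3, h4⟩ := hm
      obtain ⟨d1, d2, d3, d4⟩ := hd
      refine hT.gb t ht k hk t' ht' ?_ ?_ ?_ ?_
      · rw [h1, ← pow_add] at d1
        exact UNM_.half_pow_le d1
      · rw [← h2]; exact d2
      · rw [← h3]; exact d3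
      · rw [← h4]; exact d4
    · exact Nat.zero_le _

end Pool.Agent.KFV
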