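import Pool.Agent.KFV.Targets

/-!
# KFV: everything depends only on the cross edges (XRI)
-/

namespace Pool.Agent.KFV

open Finset

theorem p_XRI : T_XRI := by
  intro V _ _ T T' c h
  have hdg : ∀ v, dg T c v = dg T' c v := by
    intro v
    unfold dg
    exact sum_congr rfl fun w _ => by simp only [h v w]
  have hN : ∀ k, Ncl T c k = Ncl T' c k := by
    intro k
    unfold Ncl
    exact sum_congr rfl fun v _ => by simp only [hdg v]
  have hD : ∀ k, Dcl T c k = Dcl T' c k := by
    intro k
    unfold Dcl
    exact sum_congr rfl fun v _ => by simp only [hdg v]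
  have hw : ∀ v, wt T c v = wt T' c v := by
    intro v
    unfold wt
    rw [hD, hdg, hN]
  have he : e2 T c = e2 T' c := by
    unfold e2
    exact sum_congr rfl fun v _ => hdg v
  have hs : sp2 T c = sp2 T' c := by
    unfold sp2
    exact sum_congr rfl fun k _ => by rw [hN k]
  have hx : X2 T c = X2 T' c := by
    unfold X2
    exact sum_congr rfl fun v _ => sum_congr rfl fun w _ => by simp only [h v w, hw]
  have hp : pr T c = pr T' c := by
    unfold pr
    congr 1
    funext b
    simp only [h]
  refine ⟨he, hs, hx, hp, fun tab i => ⟨?_, ?_⟩⟩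
  · unfold Hn Mat
    rw [he, hs, hx, hp]
  · unfold Gn Dom
    rw [he, hs, hx, hp]

end Pool.Agent.KFV
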