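import Pool.Agent.KFV.P_AVC
import Pool.Agent.KFV.P_AVU
import Pool.Agent.KFV.P_CCE
import Pool.Agent.KFV.P_CER
import Pool.Agent.KFV.P_CHA
import Pool.Agent.KFV.P_CHG
import Pool.Agent.KFV.P_CLO
import Pool.Agent.KFV.P_COK
import Pool.Agent.KFV.P_CPY
import Pool.Agent.KFV.P_CTY
import Pool.Agent.KFV.P_DEC
import Pool.Agent.KFV.P_DGM
import Pool.Agent.KFV.P_EMK
import Pool.Agent.KFV.P_EMV
import Pool.Agent.KFV.P_EVL
import Pool.Agent.KFV.P_EXC
import Pool.Agent.KFV.P_FOU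
import Pool.Agent.KFV.P_GO
import Pool.Agent.KFV.P_GOK
import Pool.Agent.KFV.P_INV
import Pool.Agent.KFV.P_KEY
import Pool.Agent.KFV.P_LAF
import Pool.Agent.KFV.P_LAT
import Pool.Agent.KFV.P_LFA
import Pool.Agent.KFV.P_LFG
import Pool.Agent.KFV.P_LFK
import Pool.Agent.KFV.P_LFL
import Pool.Agent.KFV.P_LOK
import Pool.Agent.KFV.P_LOW
import Pool.Agent.KFV.P_LVF
import Pool.Agent.KFV.P_MON
import Pool.Agent.KFV.P_NED
import Pool.Agent.KFV.P_PCH
import Pool.Agent.KFV.P_PCO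
import Pool.Agent.KFV.P_PD1
import Pool.Agent.KFV.P_PD2
import Pool.Agent.KFV.P_PKA
import Pool.Agent.KFV.P_PRN
import Pool.Agent.KFV.P_RK1
import Pool.Agent.KFV.P_RK2
import Pool.Agent.KFV.P_RKY
import Pool.Agent.KFV.P_ROW
import Pool.Agent.KFV.P_RUN
import Pool.Agent.KFV.P_STN
import Pool.Agent.KFV.P_STR
import Pool.Agent.KFV.P_SUA
import Pool.Agent.KFV.P_SUP
import Pool.Agent.KFV.P_SYM
import Pool.Agent.KFV.P_UNM
import Pool.Agent.KFV.P_XRI

set_option autoImplicit false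

/-!
# KFV: assembly, abstract part
-/

namespace Pool.Agent.KFV

open Finset

/-- the evaluator is correct -/
theorem evl_all (C : CG) (tree : Bst) (hC : C.Wf) (hT : TabOK tree.toL)
    (hN : evalG tree C < BB ^ 15) :
    (∀ i < 5, Av tree.toL i (TG C) * 4 ^ C.m =
      (fld (evalG tree C) (2 * i) : ℚ) - (fld (evalG tree C) (2 * i + 1) : ℚ)) ∧
    (∀ k < 5, Gv tree.toL k (TG C) * 4 ^ C.m ≤ (fld (evalG tree C) (10 + k) : ℚ)) :=
  p_EVL p_PKA p_STN p_RK1 p_RK2 p_PRN p_MON p_SYM p_INV p_ROW p_LVF p_LFL p_LOK p_UNM p_GO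
    C tree hC hT hN

/-- everything above `T` is small -/
def Good {V : Type} [Fintype V] [DecidableEq V] (tab : List Ent) (T : Finset (Sym2 V)) : Prop :=
  ∀ T', T ⊆ T' → ∀ i, |Av tab i T'| ≤ LL

/-- checked data -/
structure Dat (tree : Bst) (cores : List Core) (goods : List CG) : Prop where
  tab : TabOK tree.toL
  la : LA tree.toL
  c : ∀ t ∈ cores, coreOK tree t = true
  g : ∀ t ∈ goods, goodOK tree t = true
  r : ∀ t ∈ cores, ∃ certs, runC cores goods t.C (combos t) certs = true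
  wc : ∀ C ∈ cores, C.C.Wf
  wg : ∀ C ∈ goods, C.Wf
  em : ∃ C ∈ cores, C.C.m = 0 ∧ C.C.E = []
  dg : ∀ C ∈ cores, ∀ i < C.C.m, 1 ≤ degM (adjM C.C.E) C.C.m i
  k : ∀ C ∈ cores, C.C.m + 1 + C.K ≤ 16

section

variable {tree : Bst} {cores : List Core} {goods : List CG} (D : Dat tree cores goods)

include D

theorem cok (V : Type) [Fintype V] [DecidableEq V] (C : Core) (hC : C ∈ cores) (φ : ℕ → V)
    (T0 : Finset (Sym2 V)) (hcp : Copy C.C.m C.C.E φ T0) :
    (∀ T1, Chain T0 C.K T1 → Gv tree.toL 0 T1 < LL) ∧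
    (∀ j T1, Chain T0 j T1 → T1 ≠ ∅ → 0 ≤ (LL : ℚ) + Av tree.toL 0 T1) :=
  p_COK p_AVC p_EMK p_EMV p_CPY p_LFG (p_CHG p_AVU p_LFK) p_LFA (p_CHA p_AVU p_LFK) evl_all
    V tree C φ T0 D.tab D.la (D.c C hC) hcp

theorem gok (V : Type) [Fintype V] [DecidableEq V] (C : CG) (hC : C ∈ goods) (φ : ℕ → V)
    (T0 : Finset (Sym2 V)) (hcp : Copy C.m C.E φ T0) : Gv tree.toL 0 T0 < LL :=
  p_GOK p_AVC p_EMK p_EMV p_CPY evl_all V tree C φ T0 D.tab (D.g C hC) hcp

theorem good_of {V : Type} [Fintype V] [DecidableEq V] {T : Finset (Sym2 V)}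
    (h : Gv tree.toL 0 T < LL) : Good tree.toL T := by
  intro T' hT' i
  exact le_trans (p_SUA p_MON p_SUP V T T' tree.toL i 0 D.tab hT').1 h.le

theorem clos (V : Type) [Fintype V] [DecidableEq V] [Nonempty V] (T : Finset (Sym2 V))
    (hL : Lpl T) (hl : Leafless T) :
    Good tree.toL T ∨ ∃ C ∈ cores, ∃ φ : ℕ → V, Copy C.C.m C.C.E φ T :=
  p_CLO2 p_DEC p_PD1 p_PD2 p_PCH p_PCO p_DGM p_NED p_CER p_RUN V cores goods (Good tree.toL)
    (fun _ _ h hg T'' h' i => hg T'' (subset_trans h h') i) D.wc D.wg D.em D.dg D.k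
    (fun C hC φ T0 T1 hcp hch => good_of D ((cok D V C hC φ T0 hcp).1 T1 hch))
    (fun C hC φ T0 hcp => good_of D (gok D V C hC φ T0 hcp)) D.r T hL hl

theorem chain_small {V : Type} [Fintype V] [DecidableEq V] {C : Finset (Sym2 V)}
    (hC : ∀ i, |Av tree.toL i C| ≤ LL) {T : Finset (Sym2 V)} {j : ℕ} (h : Chain C j T) :
    ∀ i, |Av tree.toL i T| ≤ LL := by
  induction h with
  | zero => exact hC
  | succ hch hul hl ih =>
    intro i
    rw [p_LFA p_AVU p_LFK V _ _ _ tree.toL i D.la hul hl]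
    have a := abs_le.1 (ih i)
    have b := abs_le.1 (ih (i + 1))
    rw [abs_le]
    constructor
    · linarith [a.1, a.2, b.1, b.2]
    · linarith [a.1, a.2, b.1, b.2]

theorem pos (V : Type) [Fintype V] [DecidableEq V] [Nonempty V] (T : Finset (Sym2 V))
    (hL : Lpl T) (hne : T ≠ ∅) : 0 ≤ (LL : ℚ) + Av tree.toL 0 T := by
  obtain ⟨C, j, h1, h2, h3⟩ := p_STR V T hL
  rcases clos D V C h2 h1 with hg | ⟨C0, hC0, φ, hφ⟩
  · have := abs_le.1 (chain_small D (fun i => hg C (subset_refl C) i) h3 0)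
    linarith [this.1]
  · exact (cok D V C0 hC0 φ C hφ).2 j T h3 hne

omit D in
theorem Ex_const {V κ : Type} [Fintype V] [DecidableEq V] [Fintype κ] [Nonempty κ] (a : ℚ) :
    Ex κ (fun _ : V → κ => a) = a := by
  unfold Ex
  rw [Finset.sum_const, Finset.card_univ, Fintype.card_fun, nsmul_eq_mul]
  have h : ((Fintype.card κ : ℚ) ^ (Fintype.card V)) ≠ 0 := by
    apply pow_ne_zero
    exact_mod_cast Fintype.card_ne_zero
  push_cast
  field_simp

omit D in
theorem dg_empty {V : Type} [Fintype V] [DecidableEq V] (c : V → Fin 4) (v : V) :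
    dg (∅ : Finset (Sym2 V)) c v = 0 := by
  unfold dg
  apply Finset.sum_eq_zero
  intro w _
  rw [if_neg]
  rintro ⟨h, _⟩
  simp at h

theorem av_empty (V : Type) [Fintype V] [DecidableEq V] :
    Av tree.toL 0 (∅ : Finset (Sym2 V)) = 1023 * LL := by
  obtain ⟨t, ht, h1, h2, h3, h4, h5⟩ := D.tab.em
  have hx : ∀ (c : V → Fin 4) (u v : V), ¬ xr (∅ : Finset (Sym2 V)) c u v := by
    rintro c u v ⟨h, _⟩
    simp at h
  have hm : ∀ c : V → Fin 4, Mat (∅ : Finset (Sym2 V)) c t := by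
    intro c
    refine ⟨?_, ?_, ?_, ?_⟩
    · rw [h1, pow_zero]
      unfold pr
      have : (fun b : V → Bool => if ∀ u v, xr (∅ : Finset (Sym2 V)) c u v → b u = b v
          then (1 : ℚ) else 0) = fun _ => 1 := by
        funext b
        rw [if_pos]
        intro u v h
        exact absurd h (hx c u v)
      rw [this, Ex_const]
    · rw [h2]
      unfold e2
      exact Finset.sum_eq_zero (fun v _ => dg_empty c v)
    · rw [h3]
      unfold sp2
      apply Finset.sum_eq_zero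
      intro k _
      have : Ncl (∅ : Finset (Sym2 V)) c k = 0 := by
        unfold Ncl
        apply Finset.sum_eq_zero
        intro v _
        rw [if_neg]
        rintro ⟨_, h⟩
        exact h (dg_empty c v)
      rw [this]
      rfl
    · rw [h4]
      unfold X2
      apply Finset.sum_eq_zero
      intro v _
      apply Finset.sum_eq_zero
      intro w _
      rw [if_neg (hx c v w)]
  have hs : ∀ c : V → Fin 4, sg (∅ : Finset (Sym2 V)) c = 1 := by
    intro c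
    simp [sg]
  unfold Av
  have : (fun c : V → Fin 4 => ((sg (∅ : Finset (Sym2 V)) c *
      Hn tree.toL 0 (∅ : Finset (Sym2 V)) c : ℤ) : ℚ)) = fun _ => 1023 * (LL : ℚ) := by
    funext c
    rw [hs, (p_UNM V ∅ c tree.toL t D.tab ht (hm c)).1 0, h5]
    push_cast
    ring
  rw [this, Ex_const]

omit D in
theorem Ex_div {V : Type} [Fintype V] [DecidableEq V] (T : Finset (Sym2 V)) :
    1 + Ex (Fin 4) (fun c : V → Fin 4 => (sg T c : ℚ) * ((Hn tree.toL 0 T c : ℚ) / LL)) =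
      ((LL : ℚ) + Av tree.toL 0 T) / LL := by
  have hLL : (LL : ℚ) ≠ 0 := by
    have : LL ≠ 0 := by decide
    exact_mod_cast this
  have e : Ex (Fin 4) (fun c : V → Fin 4 => (sg T c : ℚ) * ((Hn tree.toL 0 T c : ℚ) / LL)) =
      Av tree.toL 0 T / LL := by
    unfold Av Ex
    rw [div_right_comm]
    congr 1
    rw [Finset.sum_div]
    apply Finset.sum_congr rfl
    intro c _
    push_cast
    ring
  rw [e]
  field_simp

theorem upper (n : ℕ) (hn : 5 ≤ n) (F : Finset (SimpleGraph (Fin n)))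
    (hF : ∀ G ∈ F, ∀ H ∈ F, G ≠ H → ∃ s : Finset (Fin n), (symmDiff G H).IsNIndepSet 5 s) :
    F.card ≤ 2 ^ (n.choose 2 - 10) := by
  have hLL : (0 : ℚ) < (LL : ℚ) := by
    have : 0 < LL := by decide
    exact_mod_cast this
  haveI : Nonempty (Fin n) := ⟨⟨0, by omega⟩⟩
  have h := p_FOU n (fun c T => (Hn tree.toL 0 T c : ℚ) / LL) hn
    (fun c T T' hx => by
      have := ((p_XRI (Fin n) T T' c hx).2.2.2.2 tree.toL 0).1
      simp only [this])
    (fun T hL hne => by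
      rw [Ex_div]
      exact div_nonneg (pos D (Fin n) T hL hne) hLL.le)
    (by
      rw [Ex_div, av_empty D]
      field_simp
      norm_num)
    F hF
  have h10 : 10 ≤ n.choose 2 := by
    have := Nat.choose_le_choose 2 hn
    have e : Nat.choose 5 2 = 10 := by decide
    omega
  obtain ⟨N, hN⟩ := Nat.exists_eq_add_of_le h10
  rw [hN] at h ⊢
  have e : 10 + N - 10 = N := by omega
  rw [e]
  have e2 : 2 ^ (10 + N) = 2 ^ N * 1024 := by
    rw [pow_add]
    ring
  rw [e2] at h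
  exact Nat.le_of_mul_le_mul_right h (by norm_num)

theorem final : ∀ n : ℕ, 5 ≤ n →
    (∀ F : Finset (SimpleGraph (Fin n)),
      (∀ G ∈ F, ∀ H ∈ F, G ≠ H → ∃ s : Finset (Fin n), (symmDiff G H).IsNIndepSet 5 s) →
      F.card ≤ 2 ^ (n.choose 2 - 10)) ∧
    (∃ F : Finset (SimpleGraph (Fin n)),
      (∀ G ∈ F, ∀ H ∈ F, G ≠ H → ∃ s : Finset (Fin n), (symmDiff G H).IsNIndepSet 5 s) ∧
      F.card = 2 ^ (n.choose 2 - 10)) :=
  fun n hn => ⟨fun F hF => upper D n hn F hF, p_LOW n hn⟩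

end

end Pool.Agent.KFV
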