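import Pool.Agent.KFV.FinA
import Pool.Agent.KFV.Chk.All
import Pool.Agent.KFV.Chk.TabFin
import Pool.Agent.KFV.Chk.Ty

set_option autoImplicit false

/-!
# KFV: assembly
-/

namespace Pool.Agent.KFV

theorem la_tree : LA tree.toL :=
  p_LAF p_KEY p_RKY p_CTY p_LAT p_LOK p_UNM p_LFK p_AVU p_PKA p_STN p_RK1 p_RK2 p_ROW p_LFL
    p_AVC p_EMK p_XRI p_INV p_MON p_DGM p_EXC p_CCE tree ctypes tabOK ctypes_wf ctypes_em
    (extAll_sound _ _ chkExt) ctypes_cov (fun D hD => List.all_eq_true.1 chkLA D hD)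

theorem dat : Dat tree cores goods where
  tab := tabOK
  la := la_tree
  c := allC
  g := allG
  r := allR
  wc := cores_wf
  wg := goods_wf
  em := cores_em
  dg := cores_deg
  k := cores_K

end Pool.Agent.KFV
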