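import Pool.Agent.KFV.Targets

/-!
# KFV, target AVC: averages over functions which depend on the restriction to a subset only.
-/

namespace Pool.Agent.KFV

open Finset

namespace AVC_

theorem card_split {V W : Type} [Fintype V] [Fintype W] (φ : W ↪ V)
    (p : V → Prop) [DecidablePred p] (hp : ∀ v, p v ↔ v ∈ Set.range φ) :
    Fintype.card V = Fintype.card {v // ¬ p v} + Fintype.card W := by
  have e : W ≃ {v // p v} :=
    (Equiv.ofInjective φ φ.injective).trans (Equiv.subtypeEquivRight fun v => (hp v).symm)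
  rw [Fintype.card_congr e, add_comm, ← Fintype.card_sum]
  exact (Fintype.card_congr (Equiv.sumCompl p)).symm

theorem sum_split {V W κ : Type} [Fintype V] [DecidableEq V] [Fintype W] [DecidableEq W]
    [Fintype κ] (φ : W ↪ V) (F : (W → κ) → ℚ)
    (p : V → Prop) [DecidablePred p] (hp : ∀ v, p v ↔ v ∈ Set.range φ) :
    ∑ c : V → κ, F (c ∘ φ)
      = (Fintype.card κ : ℚ) ^ Fintype.card {v // ¬ p v} * ∑ d : W → κ, F d := by
  let e : W ≃ {v // p v} :=
    (Equiv.ofInjective φ φ.injective).trans (Equiv.subtypeEquivRight fun v => (hp v).symm)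
  have he : ∀ w, ((e w : {v // p v}) : V) = φ w := fun w => rfl
  have h1 : ∑ c : V → κ, F (c ∘ φ)
      = ∑ q : (W → κ) × ({v // ¬ p v} → κ), F q.1 := by
    refine Fintype.sum_equiv ((Equiv.piEquivPiSubtypeProd p (fun _ => κ)).trans
      (Equiv.prodCongr (Equiv.arrowCongr e (Equiv.refl κ)).symm (Equiv.refl _))) _ _ fun c => ?_
    congr 1
  rw [h1, Fintype.sum_prod_type, Finset.mul_sum]
  refine Finset.sum_congr rfl fun d _ => ?_
  simp [Finset.sum_const, Finset.card_univ]

end AVC_

/-- Target AVC. -/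
theorem p_AVC : T_AVC := by
  intro V W κ _ _ _ _ _ _ φ F
  classical
  have hk : (Fintype.card κ : ℚ) ≠ 0 := Nat.cast_ne_zero.2 Fintype.card_ne_zero
  have h1 := AVC_.sum_split φ F (fun v => v ∈ Set.range φ) (fun v => Iff.rfl)
  have h2 := AVC_.card_split φ (fun v => v ∈ Set.range φ) (fun v => Iff.rfl)
  unfold Ex
  rw [h1, h2, pow_add]
  exact mul_div_mul_left _ _ (pow_ne_zero _ hk)

end Pool.Agent.KFV
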