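import Pool.Agent.KFV.Targets2

/-!
# KFV: the Fourier argument (target T_FOU)
-/

namespace Pool.Agent.KFV

open Finset

namespace FOU_

variable {n : ℕ}

/-- the non-loop pairs -/
def EE (n : ℕ) : Finset (Sym2 (Fin n)) := univ.filter (fun e => ¬ e.IsDiag)

lemma card_EE (n : ℕ) : (EE n).card = n.choose 2 := by
  have h := Sym2.card_subtype_not_diag (α := Fin n)
  rw [Fintype.card_fin] at h
  rw [← h, EE, Fintype.card_subtype]

open Classical in
/-- sign of a pair in a graph -/
noncomputable def xx (G : SimpleGraph (Fin n)) (e : Sym2 (Fin n)) : ℚ :=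
  if e ∈ G.edgeSet then -1 else 1

lemma xx_sq (G : SimpleGraph (Fin n)) (e : Sym2 (Fin n)) : xx G e * xx G e = 1 := by
  unfold xx; split_ifs <;> norm_num

lemma xx_mul (G H : SimpleGraph (Fin n)) (e : Sym2 (Fin n))
    (h : e ∈ G.edgeSet ↔ e ∈ H.edgeSet) : xx G e * xx H e = 1 := by
  unfold xx
  by_cases h1 : e ∈ G.edgeSet
  · rw [if_pos h1, if_pos (h.1 h1)]; norm_num
  · rw [if_neg h1, if_neg (fun h2 => h1 (h.2 h2))]; norm_num

lemma xx_mul_neg (G H : SimpleGraph (Fin n)) (e : Sym2 (Fin n))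
    (h : ¬ (e ∈ G.edgeSet ↔ e ∈ H.edgeSet)) : xx G e * xx H e = -1 := by
  unfold xx
  by_cases h1 : e ∈ G.edgeSet
  · have h2 : e ∉ H.edgeSet := fun h2 => h ⟨fun _ => h2, fun _ => h1⟩
    rw [if_pos h1, if_neg h2]; norm_num
  · have h2 : e ∈ H.edgeSet := by
      by_contra h2
      exact h ⟨fun h3 => absurd h3 h1, fun h3 => absurd h3 h2⟩
    rw [if_neg h1, if_pos h2]; norm_num

/-- the transform -/
noncomputable def Fh (F : Finset (SimpleGraph (Fin n))) (T : Finset (Sym2 (Fin n))) : ℚ :=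
  ∑ G ∈ F, ∏ e ∈ T, xx G e

lemma Fh_sq (F : Finset (SimpleGraph (Fin n))) (T : Finset (Sym2 (Fin n))) :
    Fh F T ^ 2 = ∑ G ∈ F, ∑ H ∈ F, ∏ e ∈ T, (xx G e * xx H e) := by
  unfold Fh
  rw [sq, Finset.sum_mul_sum]
  refine Finset.sum_congr rfl fun G _ => Finset.sum_congr rfl fun H _ => ?_
  rw [← Finset.prod_mul_distrib]

open Classical in
lemma orth (G H : SimpleGraph (Fin n)) :
    ∑ T ∈ (EE n).powerset, ∏ e ∈ T, (xx G e * xx H e) =
      if G = H then (2 : ℚ) ^ (n.choose 2) else 0 := by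
  rw [← Finset.prod_one_add]
  split_ifs with h
  · subst h
    rw [Finset.prod_congr rfl (fun e _ => by rw [xx_sq])]
    rw [Finset.prod_const, card_EE]
    norm_num
  · have : ∃ u v, ¬ (G.Adj u v ↔ H.Adj u v) := by
      by_contra hc
      push Not at hc
      apply h
      ext u v
      exact hc u v
    obtain ⟨u, v, huv⟩ := this
    have hne : u ≠ v := by
      rintro rfl
      apply huv
      simp
    apply Finset.prod_eq_zero (i := s(u, v))
    · simp [EE, hne]
    · rw [xx_mul_neg]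
      · norm_num
      · simpa [SimpleGraph.mem_edgeSet] using huv

open Classical in
lemma parseval (F : Finset (SimpleGraph (Fin n))) :
    ∑ T ∈ (EE n).powerset, Fh F T ^ 2 = (2 : ℚ) ^ (n.choose 2) * F.card := by
  simp_rw [Fh_sq]
  rw [Finset.sum_comm]
  have : ∀ G ∈ F, ∑ T ∈ (EE n).powerset, ∑ H ∈ F, ∏ e ∈ T, (xx G e * xx H e) =
      (2 : ℚ) ^ (n.choose 2) := by
    intro G hG
    rw [Finset.sum_comm]
    simp_rw [orth]
    rw [Finset.sum_ite_eq, if_pos hG]
  rw [Finset.sum_congr rfl this, Finset.sum_const, nsmul_eq_mul, mul_comm]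

lemma cancel (K : (Fin n → Fin 4) → Finset (Sym2 (Fin n)) → ℚ)
    (hK : ∀ (c : Fin n → Fin 4) (T T' : Finset (Sym2 (Fin n))),
      (∀ u v, xr T c u v ↔ xr T' c u v) → K c T = K c T')
    (c : Fin n → Fin 4) (G H : SimpleGraph (Fin n)) (u v : Fin n) (huv : u ≠ v)
    (hc : c u = c v) (hGH : G.Adj u v ↔ H.Adj u v) :
    ∑ T ∈ (EE n).powerset, ((sg T c : ℚ) * K c T) * ∏ e ∈ T, (xx G e * xx H e) = 0 := by
  have hmem : s(u, v) ∈ EE n := by simp [EE, huv]
  have hE : EE n = insert s(u, v) ((EE n).erase s(u, v)) := (Finset.insert_erase hmem).symm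
  rw [hE, Finset.sum_powerset_insert (Finset.notMem_erase _ _), ← Finset.sum_add_distrib]
  refine Finset.sum_eq_zero fun T hT => ?_
  have hnot : s(u, v) ∉ T := fun h =>
    (Finset.notMem_erase s(u, v) (EE n)) (Finset.mem_powerset.1 hT h)
  have h1 : sg (insert s(u, v) T) c = - sg T c := by
    unfold sg
    rw [Finset.filter_insert, if_pos (by simp [hc]), Finset.card_insert_of_notMem (by
      simp [hnot]), pow_succ]
    ring
  have h2 : K c (insert s(u, v) T) = K c T := by
    apply hK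
    intro a b
    unfold xr
    constructor
    · rintro ⟨h3, h4⟩
      refine ⟨?_, h4⟩
      rcases Finset.mem_insert.1 h3 with h5 | h5
      · exfalso
        rcases Sym2.eq_iff.1 h5 with ⟨rfl, rfl⟩ | ⟨rfl, rfl⟩
        · exact h4 hc
        · exact h4 hc.symm
      · exact h5
    · rintro ⟨h3, h4⟩
      exact ⟨Finset.mem_insert_of_mem h3, h4⟩
  have h3 : xx G s(u, v) * xx H s(u, v) = 1 := by
    apply xx_mul
    simpa [SimpleGraph.mem_edgeSet] using hGH
  rw [h1, h2, Finset.prod_insert hnot, h3]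
  push_cast
  ring

lemma cancelF (K : (Fin n → Fin 4) → Finset (Sym2 (Fin n)) → ℚ) (hn : 5 ≤ n)
    (hK : ∀ (c : Fin n → Fin 4) (T T' : Finset (Sym2 (Fin n))),
      (∀ u v, xr T c u v ↔ xr T' c u v) → K c T = K c T')
    (F : Finset (SimpleGraph (Fin n)))
    (hF : ∀ G ∈ F, ∀ H ∈ F, G ≠ H → ∃ s : Finset (Fin n), (symmDiff G H).IsNIndepSet 5 s)
    (c : Fin n → Fin 4) :
    ∑ T ∈ (EE n).powerset, ((sg T c : ℚ) * K c T) * Fh F T ^ 2 = 0 := by
  simp_rw [Fh_sq, Finset.mul_sum]
  rw [Finset.sum_comm]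
  refine Finset.sum_eq_zero fun G hG => ?_
  rw [Finset.sum_comm]
  refine Finset.sum_eq_zero fun H hH => ?_
  by_cases h : G = H
  · subst h
    obtain ⟨u, v, huv, hc⟩ := Fintype.exists_ne_map_eq_of_card_lt c (by simp; omega)
    exact cancel K hK c G G u v huv hc Iff.rfl
  · obtain ⟨s, hs⟩ := hF G hG H hH h
    have hcard : (univ : Finset (Fin 4)).card < s.card := by rw [hs.card_eq]; simp
    obtain ⟨u, hu, v, hv, huv, hc⟩ := Finset.exists_ne_map_eq_of_card_lt_of_maps_to hcard
      (f := c) (fun _ _ => Finset.mem_univ _)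
    refine cancel K hK c G H u v huv hc ?_
    have h1 := hs.isIndepSet hu hv huv
    rw [symmDiff_def, SimpleGraph.sup_adj, SimpleGraph.sdiff_adj, SimpleGraph.sdiff_adj] at h1
    tauto

end FOU_

open FOU_ in
theorem p_FOU : T_FOU := by
  intro n K hn hK hpos hemp F hF
  have hmain : ∑ T ∈ (EE n).powerset,
      (1 + Ex (Fin 4) (fun c => (sg T c : ℚ) * K c T)) * Fh F T ^ 2 =
      (2 : ℚ) ^ (n.choose 2) * F.card := by
    rw [← parseval F]
    have h0 : ∑ T ∈ (EE n).powerset,
        Ex (Fin 4) (fun c => (sg T c : ℚ) * K c T) * Fh F T ^ 2 = 0 := by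
      unfold Ex
      simp_rw [div_mul_eq_mul_div]
      rw [← Finset.sum_div]
      simp_rw [Finset.sum_mul]
      rw [Finset.sum_comm, Finset.sum_eq_zero, zero_div]
      intro c _
      exact cancelF K hn hK F hF c
    simp_rw [add_mul, one_mul]
    rw [Finset.sum_add_distrib, h0, add_zero]
  have hlow : (1024 : ℚ) * F.card ^ 2 ≤ (2 : ℚ) ^ (n.choose 2) * F.card := by
    rw [← hmain]
    have hmem : (∅ : Finset (Sym2 (Fin n))) ∈ (EE n).powerset := by simp
    have hle := Finset.single_le_sum (f := fun T =>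
      (1 + Ex (Fin 4) (fun c => (sg T c : ℚ) * K c T)) * Fh F T ^ 2) (s := (EE n).powerset)
      (fun T hT => by
        by_cases hT0 : T = ∅
        · subst hT0
          rw [hemp]
          positivity
        · have hl : Lpl T := by
            intro v hv
            have := Finset.mem_powerset.1 hT hv
            simp [EE] at this
          exact mul_nonneg (hpos T hl hT0) (sq_nonneg _)) hmem
    rw [hemp] at hle
    have : Fh F (∅ : Finset (Sym2 (Fin n))) = F.card := by simp [Fh]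
    rw [this] at hle
    exact hle
  rcases Nat.eq_zero_or_pos F.card with h | h
  · rw [h]; simp
  · have h' : (0 : ℚ) < F.card := by exact_mod_cast h
    have : (F.card * 1024 : ℚ) ≤ 2 ^ (n.choose 2) := by
      have h2 : (F.card * 1024 : ℚ) * F.card ≤ 2 ^ (n.choose 2) * F.card := by
        linarith [hlow, (by ring : (F.card * 1024 : ℚ) * F.card = 1024 * F.card ^ 2)]
      exact le_of_mul_le_mul_right h2 h'
    exact_mod_cast this

end Pool.Agent.KFV
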