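import Pool.Agent.KFV.Targets

set_option autoImplicit false

/-!
# PCO: concrete form of a path extension
-/

namespace Pool.Agent.KFV

open Finset

namespace PCO_

variable {V : Type} [Fintype V] [DecidableEq V]

lemma deg_pos {T : Finset (Sym2 V)} {v : V} : 1 ≤ degT T v ↔ ∃ w, s(v, w) ∈ T := by
  unfold degT
  rw [Nat.one_le_iff_ne_zero, ← Nat.pos_iff_ne_zero, Finset.card_pos]
  constructor
  · rintro ⟨w, hw⟩
    exact ⟨w, (mem_filter.1 hw).2⟩
  · rintro ⟨w, hw⟩
    exact ⟨w, mem_filter.2 ⟨mem_univ _, hw⟩⟩

lemma mem_img {φ : ℕ → V} {E : List (ℕ × ℕ)} {e : Sym2 V} :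
    e ∈ img φ E ↔ ∃ p ∈ E, s(φ p.1, φ p.2) = e := by
  unfold img
  rw [List.mem_toFinset, List.mem_map]

lemma img_congr {φ ψ : ℕ → V} {E : List (ℕ × ℕ)} (h : ∀ p ∈ E, φ p.1 = ψ p.1 ∧ φ p.2 = ψ p.2) :
    img φ E = img ψ E := by
  ext e
  rw [mem_img, mem_img]
  constructor
  · rintro ⟨p, hp, he⟩
    exact ⟨p, hp, by rw [← (h p hp).1, ← (h p hp).2]; exact he⟩
  · rintro ⟨p, hp, he⟩
    exact ⟨p, hp, by rw [(h p hp).1, (h p hp).2]; exact he⟩

lemma injOn_update {ψ : ℕ → V} {n : ℕ} (h : Set.InjOn ψ (Set.Iio n)) {a : V}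
    (ha : ∀ i < n, ψ i ≠ a) : Set.InjOn (Function.update ψ n a) (Set.Iio (n + 1)) := by
  intro i hi j hj hij
  simp only [Set.mem_Iio] at hi hj
  by_cases h1 : i = n
  · by_cases h2 : j = n
    · rw [h1, h2]
    · rw [h1, Function.update_self, Function.update_of_ne h2] at hij
      exact absurd hij.symm (ha j (by omega))
  · by_cases h2 : j = n
    · rw [h2, Function.update_self, Function.update_of_ne h1] at hij
      exact absurd hij (ha i (by omega))
    · rw [Function.update_of_ne h2, Function.update_of_ne h1] at hij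
      exact h (by simp only [Set.mem_Iio]; omega) (by simp only [Set.mem_Iio]; omega) hij

lemma base_ge (m u : ℕ) : m ≤ baseV m u ∧ u < baseV m u := by
  unfold baseV
  constructor
  · exact Nat.le_max_left _ _
  · exact Nat.lt_of_lt_of_le (Nat.lt_succ_self u) (Nat.le_max_right _ _)

lemma last_lt (m u k : ℕ) : lastV m u k < baseV m u + k := by
  have := (base_ge m u).2
  unfold lastV
  split_ifs with h
  · omega
  · omega

lemma path_succ (m u k : ℕ) :
    pathE m u (k + 1) = pathE m u k ++ [(lastV m u k, baseV m u + k)] := by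
  unfold pathE
  rw [List.range_succ, List.map_append, List.map_singleton]

lemma path_lt (m u k : ℕ) : ∀ p ∈ pathE m u k, p.1 < baseV m u + k ∧ p.2 < baseV m u + k := by
  intro p hp
  unfold pathE at hp
  rw [List.mem_map] at hp
  obtain ⟨t, ht, rfl⟩ := hp
  rw [List.mem_range] at ht
  have := last_lt m u t
  constructor
  · show lastV m u t < _
    omega
  · show baseV m u + t < _
    omega

lemma main (C0 : CG) (hW : C0.Wf) (φ : ℕ → V) {C T : Finset (Sym2 V)} {u l : V} {k : ℕ}
    (h : PExt C u k T l) : Copy C0.m C0.E φ C → (∀ i < C0.m, 1 ≤ degT C (φ i)) →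
    ∃ u0 ≤ C0.m, ∃ ψ : ℕ → V, Set.InjOn ψ (Set.Iio (baseV C0.m u0 + k)) ∧
    T = img ψ (pathE C0.m u0 k ++ C0.E) ∧ ψ (lastV C0.m u0 k) = l ∧
    (∀ i < baseV C0.m u0 + k, ψ i = l ∨ 1 ≤ degT T (ψ i)) ∧
    (∀ v, 1 ≤ degT T v → ∃ i < baseV C0.m u0 + k, ψ i = v) := by
  induction h with
  | zero u =>
    intro hC hd
    have hv : ∀ v, 1 ≤ degT C v → ∃ i < C0.m, φ i = v := by
      intro v hv
      obtain ⟨w, hw⟩ := deg_pos.1 hv
      rw [hC.2, mem_img] at hw
      obtain ⟨p, hp, he⟩ := hw
      have h1 := hW.1 p hp
      rw [Sym2.eq_iff] at he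
      rcases he with ⟨he, -⟩ | ⟨-, he⟩
      · exact ⟨p.1, by omega, he⟩
      · exact ⟨p.2, by omega, he⟩
    by_cases hu : ∃ i < C0.m, φ i = u
    · obtain ⟨u0, hu0, rfl⟩ := hu
      have hb : baseV C0.m u0 = C0.m := by
        unfold baseV
        exact Nat.max_eq_left (by omega)
      refine ⟨u0, hu0.le, φ, ?_, ?_, ?_, ?_, ?_⟩
      · rw [hb, add_zero]
        exact hC.1
      · exact hC.2
      · rfl
      · intro i hi
        rw [hb, add_zero] at hi
        exact Or.inr (hd i hi)
      · rw [hb, add_zero]
        exact hv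
    · push Not at hu
      have hb : baseV C0.m C0.m = C0.m + 1 := by
        unfold baseV
        exact Nat.max_eq_right (by omega)
      have hne : ∀ i < C0.m, Function.update φ C0.m u i = φ i := fun i hi =>
        Function.update_of_ne (by omega) _ _
      refine ⟨C0.m, le_refl _, Function.update φ C0.m u, ?_, ?_, ?_, ?_, ?_⟩
      · rw [hb, add_zero]
        exact injOn_update hC.1 hu
      · rw [hC.2]
        refine img_congr fun p hp => ?_
        have h1 := hW.1 p hp
        exact ⟨(hne _ (by omega)).symm, (hne _ (by omega)).symm⟩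
      · exact Function.update_self _ _ _
      · intro i hi
        rw [hb, add_zero] at hi
        by_cases hi2 : i = C0.m
        · left
          rw [hi2]
          exact Function.update_self _ _ _
        · right
          rw [hne i (by omega)]
          exact hd i (by omega)
      · rw [hb, add_zero]
        intro v hv1
        obtain ⟨i, hi, he⟩ := hv v hv1
        exact ⟨i, by omega, by rw [hne i hi]; exact he⟩
  | @succ T u l l' k h hne hiso ih =>
    intro hC hd
    obtain ⟨u0, hu0, ψ, hinj, hT, hl, hdeg, hcov⟩ := ih hC hd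
    set b := baseV C0.m u0 + k with hb
    have hnew : ∀ i < b, ψ i ≠ l' := by
      intro i hi he
      rcases hdeg i hi with h1 | h1
      · exact hne (h1.symm.trans he)
      · rw [he] at h1
        obtain ⟨w, hw⟩ := deg_pos.1 h1
        exact hiso w hw
    have hup : ∀ i < b, Function.update ψ b l' i = ψ i := fun i hi =>
      Function.update_of_ne (by omega) _ _
    have hbm := (base_ge C0.m u0).1
    have hlast := last_lt C0.m u0 k
    refine ⟨u0, hu0, Function.update ψ b l', ?_, ?_, ?_, ?_, ?_⟩
    · rw [← add_assoc, ← hb]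
      exact injOn_update hinj hnew
    · have h2 : img (Function.update ψ b l') (pathE C0.m u0 k ++ C0.E) =
          img ψ (pathE C0.m u0 k ++ C0.E) := by
        refine img_congr fun p hp => ?_
        rw [List.mem_append] at hp
        rcases hp with hp | hp
        · have h1 := path_lt C0.m u0 k p hp
          exact ⟨hup _ h1.1, hup _ h1.2⟩
        · have h1 := hW.1 p hp
          exact ⟨hup _ (by omega), hup _ (by omega)⟩
      rw [hT, ← h2, path_succ]
      ext e
      rw [mem_insert, mem_img, mem_img]
      constructor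
      · rintro (he | ⟨p, hp, he⟩)
        · refine ⟨(lastV C0.m u0 k, b), by simp [hb], ?_⟩
          show s(Function.update ψ b l' (lastV C0.m u0 k), Function.update ψ b l' b) = e
          rw [hup _ hlast, Function.update_self, hl, he]
        · refine ⟨p, ?_, he⟩
          rw [List.mem_append] at hp
          rw [List.mem_append, List.mem_append]
          tauto
      · rintro ⟨p, hp, he⟩
        rw [List.mem_append, List.mem_append, List.mem_singleton] at hp
        rcases hp with (hp | hp) | hp
        · exact Or.inr ⟨p, List.mem_append.2 (Or.inl hp), he⟩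
        · left
          rw [← he, hp]
          show s(Function.update ψ b l' (lastV C0.m u0 k), Function.update ψ b l' b) = _
          rw [hup _ hlast, Function.update_self, hl]
        · exact Or.inr ⟨p, List.mem_append.2 (Or.inr hp), he⟩
    · have h3 : lastV C0.m u0 (k + 1) = b := by
        unfold lastV
        rw [if_neg (by omega)]
        omega
      rw [h3, Function.update_self]
    · intro i hi
      by_cases hi2 : i = b
      · left
        rw [hi2, Function.update_self]
      · right
        have hi3 : i < b := by omega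
        rw [hup i hi3]
        rcases hdeg i hi3 with h1 | h1
        · rw [h1]
          exact deg_pos.2 ⟨l', mem_insert_self _ _⟩
        · obtain ⟨w, hw⟩ := deg_pos.1 h1
          exact deg_pos.2 ⟨w, mem_insert_of_mem hw⟩
    · intro v hv
      obtain ⟨w, hw⟩ := deg_pos.1 hv
      rw [mem_insert, Sym2.eq_iff] at hw
      rcases hw with (⟨he, -⟩ | ⟨he, -⟩) | hw
      · exact ⟨lastV C0.m u0 k, by omega, by rw [hup _ hlast, hl, he]⟩
      · exact ⟨b, by omega, by rw [Function.update_self, he]⟩
      · obtain ⟨i, hi, he⟩ := hcov v (deg_pos.2 ⟨w, hw⟩)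
        exact ⟨i, by omega, by rw [hup i hi]; exact he⟩

end PCO_

open PCO_ in
theorem p_PCO : T_PCO := by
  intro V _ _ C0 φ C T u l k hW hC hd h
  exact main C0 hW φ h hC hd

end Pool.Agent.KFV
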