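import Pool.Agent.KFV.Defs

/-!
# KFV: targets (MP_64e56f_co, r = 5, every n)

One job = one target `T_XXX` proved in the file `Pool/Agent/KFV/P_XXX.lean` as
`theorem p_XXX : T_XXX`.  Other targets may be used only as hypotheses which are already part of
the statement.

Plan.  `f T = LL + Av tab 0 T ≥ 0` for all loopless `T ≠ ∅` and `f ∅ = 1024 LL` give the bound by
Fourier analysis (FOU).  `Av` is invariant under embeddings (EMK, EMV), adding a leaf acts linearly
on the vector `(Av 0, ..., Av 4)` (LFA, from the leaf averaging property LA), and `|Av i T'| ≤ Gv 0 T`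
for `T ⊆ T'` (SUA).  So only leafless graphs matter; the closure theorem (CLO) says that a leafless
graph is a copy of one of 195 cores or is good (all `|Av i| ≤ LL` for it and for all larger graphs);
the cores are checked by computation (`coreOK`).
-/

namespace Pool.Agent.KFV

open Finset

/-! ## A. averages -/

/-- AVC. `Ex` of a function which depends only on the restriction to a subset.
Proof: fibres of `c ↦ c ∘ φ` all have the same number `|κ| ^ (|V| - |W|)` of elements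
(e.g. through an equivalence `(V → κ) ≃ (W → κ) × ({v // v ∉ range φ} → κ)`,
`Equiv.piEquivPiSubtypeProd` and `Equiv.ofInjective`). -/
def T_AVC : Prop := ∀ (V W κ : Type) [Fintype V] [DecidableEq V] [Fintype W] [DecidableEq W]
  [Fintype κ] [Nonempty κ] (φ : W ↪ V) (F : (W → κ) → ℚ),
  Ex κ (fun c : V → κ => F (c ∘ φ)) = Ex κ F

/-- AVU. averaging over one coordinate first.
Proof: `∑ c, ∑ a, F (update c l a) = |κ| * ∑ c, F c`: the map `(c, a) ↦ update c l a` has fibres of
size `|κ|` (the value `c l` is forgotten); e.g. `Equiv.funSplitAt l` or `Fintype.sum_prod_type`. -/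
def T_AVU : Prop := ∀ (V κ : Type) [Fintype V] [DecidableEq V] [Fintype κ] [Nonempty κ]
  (l : V) (F : (V → κ) → ℚ),
  Ex κ F = Ex κ (fun c : V → κ => (∑ a, F (Function.update c l a)) / (Fintype.card κ : ℚ))

/-! ## B. embeddings -/

/-- EMK. The key of the image of a graph.  `s(φ u, φ v) ∈ T.map φ.sym2Map ↔ s(u, v) ∈ T`, and an
edge of the image has both ends in the range; so `xr T' c (φ u) (φ v) ↔ xr T (c ∘ φ) u v` and
`xr T' c v w` is false if `v` or `w` is not in the range. All sums over `V` reduce to sums over `W`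
(`Finset.sum_map`, `Finset.sum_subset`). For `pr` use AVC with `κ = Bool`; `sg`: the filtered set is
the image of the filtered set (`Sym2.map_map`, `Finset.card_map`). -/
def T_EMK : Prop := T_AVC → ∀ (V W : Type) [Fintype V] [DecidableEq V] [Fintype W] [DecidableEq W]
  (φ : W ↪ V) (T : Finset (Sym2 W)) (c : V → Fin 4),
  e2 (T.map φ.sym2Map) c = e2 T (c ∘ φ) ∧ sp2 (T.map φ.sym2Map) c = sp2 T (c ∘ φ) ∧
  X2 (T.map φ.sym2Map) c = X2 T (c ∘ φ) ∧ pr (T.map φ.sym2Map) c = pr T (c ∘ φ) ∧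
  sg (T.map φ.sym2Map) c = sg T (c ∘ φ)

/-- EMV. consequences for the kernels and the averages (AVC with `κ = Fin 4`). -/
def T_EMV : Prop := T_AVC → T_EMK → ∀ (V W : Type) [Fintype V] [DecidableEq V] [Fintype W]
  [DecidableEq W] (φ : W ↪ V) (T : Finset (Sym2 W)) (tab : List Ent) (i : ℕ),
  Av tab i (T.map φ.sym2Map) = Av tab i T ∧ Gv tab i (T.map φ.sym2Map) = Gv tab i T ∧
  ∀ c : V → Fin 4, Hn tab i (T.map φ.sym2Map) c = Hn tab i T (c ∘ φ)

/-- CPY. a copy of a well formed concrete graph is an image of `TG C`. -/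
def T_CPY : Prop := ∀ (V : Type) [Fintype V] [DecidableEq V] (C : CG) (φ : ℕ → V)
  (T : Finset (Sym2 V)), C.Wf → Copy C.m C.E φ T →
  ∃ ψ : Fin C.m ↪ V, (∀ i : Fin C.m, ψ i = φ i) ∧ T = (TG C).map ψ.sym2Map

/-- XRI. everything depends only on the cross edges. -/
def T_XRI : Prop := ∀ (V : Type) [Fintype V] [DecidableEq V] (T T' : Finset (Sym2 V))
  (c : V → Fin 4), (∀ u v, xr T c u v ↔ xr T' c u v) →
  e2 T c = e2 T' c ∧ sp2 T c = sp2 T' c ∧ X2 T c = X2 T' c ∧ pr T c = pr T' c ∧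
  ∀ (tab : List Ent) (i : ℕ), Hn tab i T c = Hn tab i T' c ∧ Gn tab i T c = Gn tab i T' c

/-- INV. everything is invariant under permutations of the colours. -/
def T_INV : Prop := ∀ (V : Type) [Fintype V] [DecidableEq V] (T : Finset (Sym2 V))
  (c : V → Fin 4) (π : Equiv.Perm (Fin 4)),
  e2 T (π ∘ c) = e2 T c ∧ sp2 T (π ∘ c) = sp2 T c ∧ X2 T (π ∘ c) = X2 T c ∧
  pr T (π ∘ c) = pr T c ∧ sg T (π ∘ c) = sg T c ∧
  ∀ (tab : List Ent) (i : ℕ), Hn tab i T (π ∘ c) = Hn tab i T c ∧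
    Gn tab i T (π ∘ c) = Gn tab i T c

/-! ## C. monotonicity -/

/-- MON. all components of the key grow (and `pr` decreases) when edges are added. -/
def T_MON : Prop := ∀ (V : Type) [Fintype V] [DecidableEq V] (T T' : Finset (Sym2 V))
  (c : V → Fin 4), T ⊆ T' →
  e2 T c ≤ e2 T' c ∧ sp2 T c ≤ sp2 T' c ∧ X2 T c ≤ X2 T' c ∧ pr T' c ≤ pr T c ∧ 0 ≤ pr T' c

/-- SUP. By `TabOK.inj` at most one entry `t` matches the key of `(T', c)` (note that
`(1/2)^r = (1/2)^r'` gives `r = r'`), so `Hn` is `0` or `t.h i`, `|t.h i| ≤ t.mx` (also for `i ≥ 5`),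
and by MON `Dom 0 T c t`.  Second statement: `Dom k T' c t → Dom k T c t`. -/
def T_SUP : Prop := T_MON → ∀ (V : Type) [Fintype V] [DecidableEq V] (T T' : Finset (Sym2 V))
  (c : V → Fin 4) (tab : List Ent) (i k : ℕ), TabOK tab → T ⊆ T' →
  |Hn tab i T' c| ≤ (Gn tab 0 T c : ℤ) ∧ Gn tab k T' c ≤ Gn tab k T c

/-- SUA. average of SUP (`|sg| = 1`). -/
def T_SUA : Prop := T_MON → T_SUP → ∀ (V : Type) [Fintype V] [DecidableEq V]
  (T T' : Finset (Sym2 V)) (tab : List Ent) (i k : ℕ), TabOK tab → T ⊆ T' →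
  |Av tab i T'| ≤ Gv tab 0 T ∧ Gv tab k T' ≤ Gv tab k T

/-! ## D. leaves -/

/-- LFK. The key after adding a leaf `l` at `u` (`l` is isolated in `T`) with colour `a`.
First part (`a = c u`): the new edge is not cross and the colour of `l` does not matter (no cross
edge at `l`), the number of mono edges grows by one.
Second part (`a ≠ c u`): the new edge is the only new cross edge. `pr`: AVU with `κ = Bool` at `l`:
the condition for the old edges does not depend on `b l`, the new condition `b u = b l` holds for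
exactly one of the two values. `dg` grows by one at `u` and from `0` to `1` at `l`; so `e2` grows by
2; `Ncl (a)` grows by one and no `Ncl` decreases, so `sp2` grows by at least one; `Dcl`, `Ncl`, `dg`
never decrease, so the old terms of `X2` do not decrease, and the new edge contributes twice
`wt u * wt l ≥ 3 * 3` (at both ends `dg, Dcl, Ncl ≥ 1`). -/
def T_LFK : Prop := T_AVU → ∀ (V : Type) [Fintype V] [DecidableEq V] (T : Finset (Sym2 V))
  (c : V → Fin 4) (u l : V) (a : Fin 4), u ≠ l → (∀ w, s(l, w) ∉ T) →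
  (a = c u →
    pr (insert s(u, l) T) (Function.update c l a) = pr T c ∧
    e2 (insert s(u, l) T) (Function.update c l a) = e2 T c ∧
    sp2 (insert s(u, l) T) (Function.update c l a) = sp2 T c ∧
    X2 (insert s(u, l) T) (Function.update c l a) = X2 T c ∧
    sg (insert s(u, l) T) (Function.update c l a) = - sg T c) ∧
  (a ≠ c u →
    pr (insert s(u, l) T) (Function.update c l a) = pr T c * (1 / 2) ∧
    e2 (insert s(u, l) T) (Function.update c l a) = e2 T c + 2 ∧
    sp2 T c + 1 ≤ sp2 (insert s(u, l) T) (Function.update c l a) ∧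
    X2 T c + 18 ≤ X2 (insert s(u, l) T) (Function.update c l a) ∧
    sg (insert s(u, l) T) (Function.update c l a) = sg T c)

/-- LFG. leaf step for the bounds: AVU at `l`; for `a = c u` the key is the same, hence
`Gn k` is the same; for `a ≠ c u`: `Dom k T' c' t → Dom (k + 1) T c t`. -/
def T_LFG : Prop := T_AVU → T_LFK → ∀ (V : Type) [Fintype V] [DecidableEq V]
  (T : Finset (Sym2 V)) (u l : V) (tab : List Ent) (k : ℕ), u ≠ l → (∀ w, s(l, w) ∉ T) →
  Gv tab k (insert s(u, l) T) ≤ (Gv tab k T + 3 * Gv tab (k + 1) T) / 4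

/-- LFA. leaf step for the averages: AVU at `l`, LFK and the leaf averaging property.  Note that
`Hn tab i T (update c l a) = Hn tab i T c` because `l` is isolated (contained in LFK, first part:
matching keys); the sum over `a ≠ c u` is `3 * Hn (i+1) T c` by `LA`. -/
def T_LFA : Prop := T_AVU → T_LFK → ∀ (V : Type) [Fintype V] [DecidableEq V]
  (T : Finset (Sym2 V)) (u l : V) (tab : List Ent) (i : ℕ), LA tab → u ≠ l →
  (∀ w, s(l, w) ∉ T) →
  Av tab i (insert s(u, l) T) = (- Av tab i T + 3 * Av tab (i + 1) T) / 4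

/-- CHG. bounds along a chain: induction on the chain with the five numbers `Gv tab k`, `k < 5`
(`Gv tab 5 = 0` because `t.r ≤ 4` and `pr ≤ 1`). (Generalise over the list: after `j` steps the list
`gIter j l` bounds `Gv tab k T' * D * 4 ^ j`; prove `gIter (j+1) l = step (gIter j l)` first, or do
the induction from the other end using a version of the statement for all five entries.) -/
def T_CHG : Prop := T_LFG → ∀ (V : Type) [Fintype V] [DecidableEq V] (T T' : Finset (Sym2 V))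
  (tab : List Ent) (j : ℕ) (D : ℚ) (a b c d e : ℕ), (∀ t ∈ tab, t.r ≤ 4) → 0 < D → Chain T j T' →
  Gv tab 0 T * D ≤ a → Gv tab 1 T * D ≤ b → Gv tab 2 T * D ≤ c → Gv tab 3 T * D ≤ d →
  Gv tab 4 T * D ≤ e →
  Gv tab 0 T' * (D * 4 ^ j) ≤ ((gIter j [a, b, c, d, e]).headD 0 : ℕ)

/-- CHA. positivity along a chain: `D` is a positive integer scale, `Av tab i T * (D / LL) = a_i`.
Unfold `aIter`: at the current graph either everything is small (then it stays small under leaf
steps since `|-x + 3 y| / 4 ≤ max |x| |y|`, so `LL + Av tab 0 T' ≥ 0` for all later graphs) or go one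
leaf further.  (`Av tab 5 = 0` by `hz`.)  Here `Av tab 0 T' + LL ≥ 0` is claimed for the graph itself
(`j = 0`) only if `st = false`. -/
def T_CHA : Prop := T_LFA → ∀ (V : Type) [Fintype V] [DecidableEq V] (T T' : Finset (Sym2 V))
  (tab : List Ent) (j f : ℕ) (st : Bool) (D : ℤ) (a b c d e : ℤ), LA tab →
  (∀ (T : Finset (Sym2 V)) (i : ℕ), 5 ≤ i → Av tab i T = 0) → 0 < D →
  Av tab 0 T * (D / LL : ℚ) = a → Av tab 1 T * (D / LL : ℚ) = b → Av tab 2 T * (D / LL : ℚ) = c →
  Av tab 3 T * (D / LL : ℚ) = d → Av tab 4 T * (D / LL : ℚ) = e →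
  aIter f st D [a, b, c, d, e] = true → Chain T j T' → (st = true → 1 ≤ j) →
  0 ≤ (LL : ℚ) + Av tab 0 T'

/-! ## E. graph theory -/

/-- STR. strip leaves one by one. (Induction on `T.card`: if some vertex `l` has degree one, with
neighbour `u`, apply the hypothesis to `T.erase s(u, l)`.) -/
def T_STR : Prop := ∀ (V : Type) [Fintype V] [DecidableEq V] (T : Finset (Sym2 V)), Lpl T →
  ∃ (C : Finset (Sym2 V)) (j : ℕ), Leafless C ∧ Lpl C ∧ Chain C j T

/-- PD1. a graph whose only possible leaf is `l`: it is a leafless graph with a path attached.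
Induction on `T.card`: if `degT T l ≥ 2` then `T` is leafless (`k = 0`, `u = l`).  If it is one, let
`p` be the neighbour; `degT T p ≠ 1`, so `degT T p ≥ 2`; in `T.erase s(l, p)` the vertex `l` has
degree zero, `p` has degree `≥ 1`, all others as before; apply the hypothesis with `p`. -/
def T_PD1 : Prop := ∀ (V : Type) [Fintype V] [DecidableEq V] (T : Finset (Sym2 V)) (l : V),
  Lpl T → 1 ≤ degT T l → (∀ v, v ≠ l → degT T v ≠ 1) →
  ∃ (C : Finset (Sym2 V)) (u : V) (k : ℕ), Leafless C ∧ Lpl C ∧ C ⊆ T ∧ 1 ≤ degT C u ∧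
    PExt C u k T l

/-- PD2. all degrees are 0 or 2, except two leaves `z, l`: a leafless graph and a path from `z`
to `l`. Induction on `T.card`: `p` = neighbour of `l`; if `p = z` then `T.erase s(l, z)` is leafless
and `k = 1`; otherwise `degT T p = 2` and in `T.erase s(l, p)` the vertex `p` is the new end. -/
def T_PD2 : Prop := ∀ (V : Type) [Fintype V] [DecidableEq V] (T : Finset (Sym2 V)) (z l : V),
  Lpl T → z ≠ l → degT T z = 1 → degT T l = 1 →
  (∀ v, v ≠ z → v ≠ l → degT T v = 0 ∨ degT T v = 2) →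
  ∃ (C : Finset (Sym2 V)) (k : ℕ), Leafless C ∧ Lpl C ∧ C ⊆ T ∧ degT C z = 0 ∧ PExt C z k T l

/-- DEC. Let `w` be a vertex of maximum degree and `l` a neighbour of `w` of minimum degree, and
`T1 = T.erase s(l, w)`.  If `degT T w ≥ 3` use PD1 (all vertices `≠ l` have degree `≠ 1` in `T1`).
Otherwise `degT T w = 2` (it is not 0 since `T ≠ ∅`, and not 1), all degrees of `T` are 0 or 2 and
PD2 applies with `z = w`. -/
def T_DEC : Prop := T_PD1 → T_PD2 → ∀ (V : Type) [Fintype V] [DecidableEq V]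
  (T : Finset (Sym2 V)), Lpl T → Leafless T → T ≠ ∅ →
  ∃ (C T1 : Finset (Sym2 V)) (u l w : V) (k : ℕ), Leafless C ∧ Lpl C ∧ C ⊆ T1 ∧
    PExt C u k T1 l ∧ s(l, w) ∉ T1 ∧ l ≠ w ∧ T = insert s(l, w) T1 ∧ 1 ≤ degT T1 w ∧
    (∀ v, degT T v ≤ degT T w) ∧ (∀ v, s(w, v) ∈ T → degT T l ≤ degT T v)

/-- PCH. a path extension is a chain and contains the start. -/
def T_PCH : Prop := ∀ (V : Type) [Fintype V] [DecidableEq V] (C T : Finset (Sym2 V)) (u l : V)
  (k : ℕ), PExt C u k T l → Chain C k T ∧ C ⊆ T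

/-! ## F. from concrete to abstract graphs -/

/-- PCO. concrete form of a path extension. `u0` is the index of `u` (`u0 = C.m` if `u` is not
in `φ '' Iio C.m`; then put `φ C.m = u` by `Function.update`); the new vertices get the next free
indices. Induction on `k`; injectivity: the new vertex `l'` is isolated in `T`, and every used index
is mapped to a vertex of positive degree or to the current end `l ≠ l'`. -/
def T_PCO : Prop := ∀ (V : Type) [Fintype V] [DecidableEq V] (C0 : CG) (φ : ℕ → V)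
  (C T : Finset (Sym2 V)) (u l : V) (k : ℕ), C0.Wf → Copy C0.m C0.E φ C →
  (∀ i < C0.m, 1 ≤ degT C (φ i)) → PExt C u k T l →
  ∃ u0 ≤ C0.m, ∃ ψ : ℕ → V, Set.InjOn ψ (Set.Iio (baseV C0.m u0 + k)) ∧
    T = img ψ (pathE C0.m u0 k ++ C0.E) ∧ ψ (lastV C0.m u0 k) = l ∧
    (∀ i < baseV C0.m u0 + k, ψ i = l ∨ 1 ≤ degT T (ψ i)) ∧
    (∀ v, 1 ≤ degT T v → ∃ i < baseV C0.m u0 + k, ψ i = v)

/-- DGM. meaning of the adjacency mask (`m ≤ 16`, all indices `< m`, no loops). -/
def T_DGM : Prop := ∀ (V : Type) [Fintype V] [DecidableEq V] (m : ℕ) (E : List (ℕ × ℕ))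
  (ψ : ℕ → V), m ≤ 16 → (∀ p ∈ E, p.1 < m ∧ p.2 < m ∧ p.1 ≠ p.2) → Set.InjOn ψ (Set.Iio m) →
  (∀ i < m, ∀ j < m, (tb (adjM E) (16 * i + j) = true ↔ s(ψ i, ψ j) ∈ img ψ E)) ∧
  (∀ i < m, degM (adjM E) m i = degT (img ψ E) (ψ i)) ∧
  (∀ v, 1 ≤ degT (img ψ E) v → ∃ i < m, ψ i = v)

/-- NED. the combination has to be considered. -/
def T_NED : Prop := T_DGM → ∀ (V : Type) [Fintype V] [DecidableEq V] (C0 : CG) (u0 k j : ℕ)
  (ψ : ℕ → V) (T1 T : Finset (Sym2 V)), C0.Wf → u0 ≤ C0.m → baseV C0.m u0 + k ≤ 16 →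
  Set.InjOn ψ (Set.Iio (baseV C0.m u0 + k)) → T1 = img ψ (pathE C0.m u0 k ++ C0.E) →
  j < baseV C0.m u0 + k → ψ j ≠ ψ (lastV C0.m u0 k) → s(ψ (lastV C0.m u0 k), ψ j) ∉ T1 →
  T = insert s(ψ (lastV C0.m u0 k), ψ j) T1 → Leafless T →
  (∀ i < baseV C0.m u0 + k, 1 ≤ degT T (ψ i)) →
  (∀ v, degT T v ≤ degT T (ψ j)) →
  (∀ v, s(ψ j, v) ∈ T → degT T (ψ (lastV C0.m u0 k)) ≤ degT T v) →
  needC C0 (u0, k, j) = true ∧ T = img ψ (comboE C0 u0 k j) ∧
  (∀ p ∈ comboE C0 u0 k j, p.1 < baseV C0.m u0 + k ∧ p.2 < baseV C0.m u0 + k ∧ p.1 ≠ p.2)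

/-- CER. meaning of a certificate. Kind 0: equality of masks means equality of edge sets (`φ = ψ ∘
cmap n`). Kind 1: copy of a core, a chain of `C.K` leaf insertions, all inside `T`. Other kinds: a
good graph inside `T`. -/
def T_CER : Prop := T_DGM → ∀ (V : Type) [Fintype V] [DecidableEq V] (cores : List Core)
  (goods : List CG) (m n : ℕ) (E : List (ℕ × ℕ)) (ψ : ℕ → V),
  (∀ C ∈ cores, C.C.Wf) → (∀ C ∈ goods, C.Wf) →
  m ≤ 16 → (∀ p ∈ E, p.1 < m ∧ p.2 < m ∧ p.1 ≠ p.2) → Set.InjOn ψ (Set.Iio m) →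
  certOK cores goods (adjM E) m n = true →
  (∃ C ∈ cores, ∃ φ : ℕ → V, Copy C.C.m C.C.E φ (img ψ E)) ∨
  (∃ C ∈ cores, ∃ (φ : ℕ → V) (T0 T1 : Finset (Sym2 V)), Copy C.C.m C.C.E φ T0 ∧
    Chain T0 C.K T1 ∧ T1 ⊆ img ψ E) ∨
  (∃ C ∈ goods, ∃ (φ : ℕ → V) (T0 : Finset (Sym2 V)), Copy C.m C.E φ T0 ∧ T0 ⊆ img ψ E)

/-- RUN. the run through the combinations (induction on `qs`). -/
def T_RUN : Prop := ∀ (cores : List Core) (goods : List CG) (C : CG) (qs : List (ℕ × ℕ × ℕ))
  (certs : List ℕ), runC cores goods C qs certs = true → ∀ q ∈ qs, needC C q = true →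
  ∃ n, certOK cores goods (adjM (comboE C q.1 q.2.1 q.2.2)) (baseV C.m q.1 + q.2.1) n = true

/-- CLO. The closure theorem, by strong induction on `T.card`: `T = ∅` is a copy of the core
`⟨0, []⟩` (hypothesis `hE`).  Otherwise take DEC; `C` has fewer edges than `T`; if `C` is good so is
`T` (`C ⊆ T1 ⊆ T`).  If `C` is a copy of the core `C0`: if `k ≥ C0.K` then (PCH) the chain from `C` to
`T1` passes a graph `T2 ⊆ T1` with `Chain C C0.K T2` (truncate the chain), so `T` is good; if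
`k < C0.K` use PCO (all vertices of `C0` have positive degree: `hD`), NED, RUN and CER for the
combination `(u0, k, j)`, where `ψ j = w`. The result is a copy of a core, or good by the hypotheses
`h1`, `h2` (and `hup`). -/
def T_CLO : Prop := T_DEC → T_PD1 → T_PD2 → T_PCH → T_PCO → T_DGM → T_NED → T_CER → T_RUN →
  ∀ (V : Type) [Fintype V] [DecidableEq V] [Nonempty V] (cores : List Core) (goods : List CG)
  (Good : Finset (Sym2 V) → Prop),
  (∀ T T' : Finset (Sym2 V), T ⊆ T' → Good T → Good T') →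
  (∀ C ∈ cores, C.C.Wf) → (∀ C ∈ goods, C.Wf) →
  (∃ C ∈ cores, C.C.m = 0 ∧ C.C.E = []) →
  (∀ C ∈ cores, ∀ i < C.C.m, 1 ≤ degM (adjM C.C.E) C.C.m i) →
  (∀ C ∈ cores, C.C.m + 1 + C.K ≤ 16) →
  (∀ C ∈ cores, ∀ (φ : ℕ → V) (T0 T1 : Finset (Sym2 V)), Copy C.C.m C.C.E φ T0 →
    Chain T0 C.K T1 → Good T1) →
  (∀ C ∈ goods, ∀ (φ : ℕ → V) (T0 : Finset (Sym2 V)), Copy C.m C.E φ T0 → Good T0) →
  (∀ C ∈ cores, ∃ certs, runC cores goods C.C (combos C) certs = true) →
  ∀ T : Finset (Sym2 V), Lpl T → Leafless T →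
    Good T ∨ ∃ C ∈ cores, ∃ φ : ℕ → V, Copy C.C.m C.C.E φ T

end Pool.Agent.KFV
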