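import Pool.Agent.KFV.Targets

/-!
# KFV: targets, part 2 (evaluator, leaf averaging, Fourier)

The state of the evaluator `go` after the vertices `0, ..., j - 1` have been coloured by `c` is
described by `StOK` (masks) and `CsOK` (components, rank).  Masks use 16 bits per vertex.
-/

namespace Pool.Agent.KFV

open Finset

/-- edges of `T` among the first `j` vertices -/
def TJ {m : ℕ} (T : Finset (Sym2 (Fin m))) (j : ℕ) : Finset (Sym2 (Fin m)) :=
  T.filter (fun e => ∀ v ∈ e, (v : ℕ) < j)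

/-- packed set -/
def pkS {m : ℕ} (A : Finset (Fin m)) : ℕ := ∑ i ∈ A, 2 ^ (16 * (i : ℕ))

/-- smaller neighbours -/
def nbS {m : ℕ} (T : Finset (Sym2 (Fin m))) (i : Fin m) : Finset (Fin m) :=
  univ.filter (fun u => (u : ℕ) < i ∧ s(u, i) ∈ T)

/-- smaller cross neighbours -/
def rowS {m : ℕ} (T : Finset (Sym2 (Fin m))) (c : Fin m → Fin 4) (i : Fin m) : Finset (Fin m) :=
  univ.filter (fun u => (u : ℕ) < i ∧ xr T c u i)

/-- vertices with a cross neighbour -/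
def spt {m : ℕ} (T : Finset (Sym2 (Fin m))) (c : Fin m → Fin 4) : Finset (Fin m) :=
  univ.filter (fun v => dg T c v ≠ 0)

/-- state (masks) after `j` vertices -/
structure StOK {m : ℕ} (T : Finset (Sym2 (Fin m))) (c : Fin m → Fin 4) (j : ℕ)
    (XR : List (ℕ × ℕ)) (M0 M1 M2 M3 S : ℕ) : Prop where
  hx : XR = (((List.finRange m).filter
    (fun i : Fin m => decide ((i : ℕ) < j ∧ rowS T c i ≠ ∅))).reverse).map
      (fun i : Fin m => (2 ^ (16 * (i : ℕ)), pkS (rowS T c i)))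
  h0 : M0 = pkS (univ.filter (fun i : Fin m => (i : ℕ) < j ∧ c i = 0))
  h1 : M1 = pkS (univ.filter (fun i : Fin m => (i : ℕ) < j ∧ c i = 1))
  h2 : M2 = pkS (univ.filter (fun i : Fin m => (i : ℕ) < j ∧ c i = 2))
  h3 : M3 = pkS (univ.filter (fun i : Fin m => (i : ℕ) < j ∧ c i = 3))
  hs : S = pkS (spt (TJ T j) c)

/-- components of the cross graph (those with an edge) and rank -/
def CsOK {m : ℕ} (T : Finset (Sym2 (Fin m))) (c : Fin m → Fin 4) (cs : List ℕ) (r : ℕ) : Prop :=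
  ∃ Ks : List (Finset (Fin m)), cs = Ks.map pkS ∧ Ks.Pairwise Disjoint ∧
    (∀ K ∈ Ks, K.Nonempty) ∧ (∀ v, dg T c v ≠ 0 ↔ ∃ K ∈ Ks, v ∈ K) ∧
    (∀ b : Fin m → Bool, (∀ u v, xr T c u v → b u = b v) ↔
      ∀ K ∈ Ks, ∀ u ∈ K, ∀ v ∈ K, b u = b v) ∧
    r + Ks.length = (spt T c).card

/-- sum over all colourings which agree with `p` on the first `j` vertices -/
def SX {m : ℕ} (j : ℕ) (p : Fin m → Fin 4) (F : (Fin m → Fin 4) → ℤ) : ℤ :=
  ∑ c ∈ univ.filter (fun c : Fin m → Fin 4 => ∀ i : Fin m, (i : ℕ) < j → c i = p i), F c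

/-! ## G. evaluator -/

/-- PKA. packed arithmetic. (1), (4): fields do not interact; induction on `m` or
`Nat.testBit` / `Nat.eq_of_testBit_eq`; (2), (5): `2 ^ 16 % 65535 = 1`; (6): split the sum into
indices `< j`, `= j`, `> j`. -/
def T_PKA : Prop := ∀ m : ℕ, m ≤ 12 →
  (∀ A B : Finset (Fin m), Nat.land (pkS A) (pkS B) = pkS (A ∩ B)) ∧
  (∀ A : Finset (Fin m), pkS A % 65535 = A.card) ∧
  (∀ A : Finset (Fin m), pkS A = 0 ↔ A = ∅) ∧
  (∀ (f : Fin m → ℕ), (∀ i, f i < 65536) → ∀ A : Finset (Fin m),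
    Nat.land (∑ i, f i * 2 ^ (16 * (i : ℕ))) (65535 * pkS A) =
      ∑ i ∈ A, f i * 2 ^ (16 * (i : ℕ))) ∧
  (∀ (f : Fin m → ℕ) (A : Finset (Fin m)), (∑ i ∈ A, f i) < 65535 →
    (∑ i ∈ A, f i * 2 ^ (16 * (i : ℕ))) % 65535 = ∑ i ∈ A, f i) ∧
  (∀ (f : Fin m → ℕ), (∀ i, f i < 65536) → ∀ j : Fin m,
    (∑ i, f i * 2 ^ (16 * (i : ℕ))) / 2 ^ (16 * (j : ℕ)) % 65536 = f j)

/-- LFL. the key computed from a complete state. All the numbers are small (`m ≤ 12`: `dg ≤ 11`,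
`Dcl ≤ 132`, `Ncl ≤ 12`, `wt ≤ 155`).  `degP XR = ∑ i, dg i * 2 ^ (16 i)`: every cross edge `u < i` is
counted once in the row of `i`, which contributes `pkS (rowS i)` and `|rowS i| * 2 ^ (16 i)` (empty
rows contribute nothing). `N_a = |spt ∩ class a| = Ncl a`, the `D_a` are `Dcl a`, `W = ∑ i, wt i *
2 ^ (16 i)` in the sense that its digit at `i` is `dg i + Dcl (c i) + Ncl (c i)`, which is `wt i` for all
`i`; `e = ∑ dg`; `xP W XR = ∑ i, wt i * ∑ u ∈ rowS i, wt u`, half of `X2` by symmetry. -/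
def T_LFL : Prop := T_PKA → ∀ (m : ℕ) (T : Finset (Sym2 (Fin m))) (c : Fin m → Fin 4)
  (XR : List (ℕ × ℕ)) (M0 M1 M2 M3 S : ℕ), m ≤ 12 → StOK T c m XR M0 M1 M2 M3 S →
  ∀ (α : Type) (f : ℕ → ℕ → ℕ → α),
    leafK XR M0 M1 M2 M3 S f = f (e2 T c) (sp2 T c) (X2 T c)

/-- STN. one step of the masks, `jj` is the vertex with number `j`. -/
def T_STN : Prop := T_PKA → ∀ (m j : ℕ) (hj : j < m) (T : Finset (Sym2 (Fin m)))
  (c : Fin m → Fin 4) (XR : List (ℕ × ℕ)) (M0 M1 M2 M3 S : ℕ), m ≤ 12 →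
  StOK T c j XR M0 M1 M2 M3 S →
  (c ⟨j, hj⟩ = 0 → Nat.sub (pkS (nbS T ⟨j, hj⟩)) (Nat.land (pkS (nbS T ⟨j, hj⟩)) M0) =
    pkS (rowS T c ⟨j, hj⟩)) ∧
  (c ⟨j, hj⟩ = 1 → Nat.sub (pkS (nbS T ⟨j, hj⟩)) (Nat.land (pkS (nbS T ⟨j, hj⟩)) M1) =
    pkS (rowS T c ⟨j, hj⟩)) ∧
  (c ⟨j, hj⟩ = 2 → Nat.sub (pkS (nbS T ⟨j, hj⟩)) (Nat.land (pkS (nbS T ⟨j, hj⟩)) M2) =
    pkS (rowS T c ⟨j, hj⟩)) ∧
  (c ⟨j, hj⟩ = 3 → Nat.sub (pkS (nbS T ⟨j, hj⟩)) (Nat.land (pkS (nbS T ⟨j, hj⟩)) M3) =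
    pkS (rowS T c ⟨j, hj⟩)) ∧
  (rowS T c ⟨j, hj⟩ = ∅ →
    StOK T c (j + 1) XR (M0 + if c ⟨j, hj⟩ = 0 then 2 ^ (16 * j) else 0)
      (M1 + if c ⟨j, hj⟩ = 1 then 2 ^ (16 * j) else 0)
      (M2 + if c ⟨j, hj⟩ = 2 then 2 ^ (16 * j) else 0)
      (M3 + if c ⟨j, hj⟩ = 3 then 2 ^ (16 * j) else 0) S) ∧
  (rowS T c ⟨j, hj⟩ ≠ ∅ →
    StOK T c (j + 1) ((2 ^ (16 * j), pkS (rowS T c ⟨j, hj⟩)) :: XR)
      (M0 + if c ⟨j, hj⟩ = 0 then 2 ^ (16 * j) else 0)
      (M1 + if c ⟨j, hj⟩ = 1 then 2 ^ (16 * j) else 0)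
      (M2 + if c ⟨j, hj⟩ = 2 then 2 ^ (16 * j) else 0)
      (M3 + if c ⟨j, hj⟩ = 3 then 2 ^ (16 * j) else 0)
      (Nat.add (2 ^ (16 * j)) (Nat.add S (Nat.sub (pkS (rowS T c ⟨j, hj⟩))
        (Nat.land (pkS (rowS T c ⟨j, hj⟩)) S)))))

/-- RK1. one step of the components. `T_{j+1}` has the cross edges of `T_j` and the edges from `j`
to `R = rowS j`.  If `R = ∅` nothing changes.  Otherwise the new component is the union `K'` of
`{j} ∪ R` with all components which meet `R` (let `h` be their number), the others stay; `support' =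
support ∪ R ∪ {j}`; `r' = r + |R \ support| + h`.  `mergeC` computes exactly this: loop invariant:
`u = pkS U` with `U ⊇ {j} ∪ R` a union of the met components, the remaining components are disjoint
from the met ones; `M - land M u = pkS (K \ U)`. -/
def T_RK1 : Prop := T_PKA → ∀ (m j : ℕ) (hj : j < m) (T : Finset (Sym2 (Fin m)))
  (c : Fin m → Fin 4) (cs : List ℕ) (r : ℕ), m ≤ 12 → CsOK (TJ T j) c cs r →
  (rowS T c ⟨j, hj⟩ = ∅ → CsOK (TJ T (j + 1)) c cs r) ∧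
  (rowS T c ⟨j, hj⟩ ≠ ∅ → ∃ (cs' : List ℕ) (r' : ℕ), CsOK (TJ T (j + 1)) c cs' r' ∧
    ∀ (α : Type) (f : List ℕ → ℕ → α),
      mergeC cs (pkS (rowS T c ⟨j, hj⟩)) (Nat.add (pkS (rowS T c ⟨j, hj⟩)) (2 ^ (16 * j)))
        (Nat.add r (Nat.mod (Nat.sub (pkS (rowS T c ⟨j, hj⟩))
          (Nat.land (pkS (rowS T c ⟨j, hj⟩)) (pkS (spt (TJ T j) c)))) 65535)) [] f = f cs' r')

/-- RK2. the rank is correct. The number of `b : Fin m → Bool` constant on every `K ∈ Ks` (disjoint,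
nonempty, union the support) is `2 ^ Ks.length * 2 ^ (m - |support|)`; so `pr = 2 ^ (-r)`. (For
instance by induction on `Ks` for arbitrary lists of disjoint nonempty sets: the fraction of the `b`
which are constant on all of them is the product of `2 ^ (1 - |K|)`.) -/
def T_RK2 : Prop := ∀ (m : ℕ) (T : Finset (Sym2 (Fin m))) (c : Fin m → Fin 4) (cs : List ℕ)
  (r : ℕ), CsOK T c cs r → pr T c = (1 / 2) ^ r

/-- PRN. pruning. -/
def T_PRN : Prop := T_MON → ∀ (V : Type) [Fintype V] [DecidableEq V] (T T' : Finset (Sym2 V))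
  (c : V → Fin 4) (tab : List Ent) (i : ℕ), TabOK tab → T ⊆ T' → pr T c < 1 / 16 →
  Hn tab i T' c = 0 ∧ Gn tab i T' c = 0

/-- SYM. colour symmetry. `SX j p F = ∑ a, SX (j + 1) (update p j a) F`, and for two colours
`a, a' ≥ k` the summands agree (swap `a` and `a'`: it fixes the values of `p` on the first `j`
vertices). -/
def T_SYM : Prop := ∀ (m j : ℕ) (hj : j < m) (p : Fin m → Fin 4) (k : ℕ)
  (F : (Fin m → Fin 4) → ℤ), (∀ (π : Equiv.Perm (Fin 4)) (c : Fin m → Fin 4), F (π ∘ c) = F c) →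
  (∀ i : Fin m, (i : ℕ) < j → (p i : ℕ) < k) →
  (k = 0 → SX j p F = 4 * SX (j + 1) (Function.update p ⟨j, hj⟩ 0) F) ∧
  (k = 1 → SX j p F = SX (j + 1) (Function.update p ⟨j, hj⟩ 0) F +
    3 * SX (j + 1) (Function.update p ⟨j, hj⟩ 1) F) ∧
  (k = 2 → SX j p F = SX (j + 1) (Function.update p ⟨j, hj⟩ 0) F +
    SX (j + 1) (Function.update p ⟨j, hj⟩ 1) F +
    2 * SX (j + 1) (Function.update p ⟨j, hj⟩ 2) F) ∧
  (3 ≤ k → SX j p F = SX (j + 1) (Function.update p ⟨j, hj⟩ 0) F +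
    SX (j + 1) (Function.update p ⟨j, hj⟩ 1) F + SX (j + 1) (Function.update p ⟨j, hj⟩ 2) F +
    SX (j + 1) (Function.update p ⟨j, hj⟩ 3) F)

/-- LOK. search in the tree. -/
def T_LOK : Prop := ∀ (tree : Bst) (r e s x : ℕ) (t : Ent), look tree r e s x = some t →
  t ∈ tree.toL ∧ t.r = r ∧ t.e = e ∧ t.s = s ∧ t.x = x

/-- ROW. rows of a well formed graph; and number of edges. -/
def T_ROW : Prop := ∀ (C : CG), C.Wf → (TG C).card = C.E.length ∧ Lpl (TG C) ∧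
  (rowsOf C).length = C.m ∧ ∀ (j : ℕ) (hj : j < C.m),
    (rowsOf C)[j]? = some (2 ^ (16 * j), pkS (nbS (TG C) ⟨j, hj⟩))

/-- UNM. a matched entry gives all values: `Hn i = t.h i` (keys are distinct) and `Gn k ≤ t.g k`
(property `gb`: `Dom k T c t'` and `pr = (1/2)^t.r` give `t.r + k ≤ t'.r` etc.). -/
def T_UNM : Prop := ∀ (V : Type) [Fintype V] [DecidableEq V] (T : Finset (Sym2 V))
  (c : V → Fin 4) (tab : List Ent) (t : Ent), TabOK tab → t ∈ tab → Mat T c t →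
  (∀ i, Hn tab i T c = t.h i) ∧ (∀ k < 5, Gn tab k T c ≤ t.g k)

/-- LVF. value of a leaf: by LFL the key is right, by LOK and UNM the entry is right; `f q` is the
digit number `q` of `t.pp` or `t.pm` (numbers below `BB ^ 15` are the sums of their fifteen digits).
Sign: `e2 T c = 2 * (number of cross edges)`, `T.card` minus this number is the number of mono edges;
`(2 * T.card - e2) % 4 = 0` iff it is even. (`Lpl T`.)  On failure the value is `BB ^ 15`. -/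
def T_LVF : Prop := T_PKA → T_LFL → T_LOK → T_UNM → ∀ (m : ℕ) (T : Finset (Sym2 (Fin m)))
  (c : Fin m → Fin 4) (tree : Bst) (XR : List (ℕ × ℕ)) (M0 M1 M2 M3 S r : ℕ), m ≤ 12 →
  Lpl T → TabOK tree.toL → StOK T c m XR M0 M1 M2 M3 S → pr T c = (1 / 2) ^ r →
  leafv tree (2 * T.card) XR M0 M1 M2 M3 S r < BB ^ 15 →
  ∃ f : ℕ → ℕ, leafv tree (2 * T.card) XR M0 M1 M2 M3 S r = ∑ q ∈ range 15, f q * BB ^ q ∧
    (∀ i < 5, (f (2 * i) : ℤ) - (f (2 * i + 1) : ℤ) = sg T c * Hn tree.toL i T c) ∧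
    (∀ k < 5, Gn tree.toL k T c ≤ f (10 + k)) ∧ (∀ q < 15, f q ≤ 2 ^ 70)

/-- GO. Correctness of the recursion, by induction on `C.m - j` (the remaining rows). Leaf (`j =
C.m`): LVF; there is exactly one colouring agreeing with `p` everywhere. Step: the four children are
the colourings `update p j a`; for `a > k` the child is skipped, and SYM (with `F = sg * Hn i` and
`F = Gn k`, invariant by INV) says how the sums combine with the weights; a child is computed by STN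
and RK1 (`x = 0` iff the row is empty), it is skipped if `r' > 4`: then RK2 and PRN (with
`TJ T (j+1) ⊆ T`) say that all its terms vanish, `f = 0`. The digit functions `f` are added with the
weights; if the total is `< BB ^ 15` every child is. (Only the values of `p` below `j` matter in all
hypotheses: `StOK` and `CsOK` at `j` depend only on these; you may want a lemma (if `c, c'` agree below
`j` then StOK/CsOK at `j` agree).) -/
def T_GO : Prop := T_PKA → T_STN → T_RK1 → T_RK2 → T_PRN → T_MON → T_SYM → T_INV → T_ROW →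
  T_LVF → T_LFL → T_LOK → T_UNM → ∀ (C : CG) (tree : Bst) (j : ℕ) (p : Fin C.m → Fin 4)
  (k : ℕ) (XR : List (ℕ × ℕ)) (M0 M1 M2 M3 S : ℕ) (cs : List ℕ) (r : ℕ), C.Wf →
  TabOK tree.toL → j ≤ C.m → k ≤ 4 → (∀ i : Fin C.m, (i : ℕ) < j → (p i : ℕ) < k) →
  StOK (TG C) p j XR M0 M1 M2 M3 S → CsOK (TJ (TG C) j) p cs r →
  go tree (Nat.mul 2 C.E.length) ((rowsOf C).drop j) k XR M0 M1 M2 M3 S cs r < BB ^ 15 →
  ∃ f : ℕ → ℕ,
    go tree (Nat.mul 2 C.E.length) ((rowsOf C).drop j) k XR M0 M1 M2 M3 S cs r =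
      ∑ q ∈ range 15, f q * BB ^ q ∧
    (∀ i < 5, (f (2 * i) : ℤ) - (f (2 * i + 1) : ℤ) =
      SX j p (fun c => sg (TG C) c * Hn tree.toL i (TG C) c)) ∧
    (∀ i < 5, SX j p (fun c => (Gn tree.toL i (TG C) c : ℤ)) ≤ (f (10 + i) : ℤ)) ∧
    (∀ q < 15, f q ≤ 2 ^ 70 * 4 ^ (C.m - j))

/-- EVL. GO at `j = 0`, and the digits are unique since `2 ^ 70 * 4 ^ 12 < BB = 2 ^ 100`. -/
def T_EVL : Prop := T_PKA → T_STN → T_RK1 → T_RK2 → T_PRN → T_MON → T_SYM → T_INV → T_ROW →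
  T_LVF → T_LFL → T_LOK → T_UNM → T_GO → ∀ (C : CG) (tree : Bst), C.Wf → TabOK tree.toL →
  evalG tree C < BB ^ 15 →
  (∀ i < 5, Av tree.toL i (TG C) * 4 ^ C.m =
    (fld (evalG tree C) (2 * i) : ℚ) - (fld (evalG tree C) (2 * i + 1) : ℚ)) ∧
  (∀ k < 5, Gv tree.toL k (TG C) * 4 ^ C.m ≤ (fld (evalG tree C) (10 + k) : ℚ))

/-- COK. soundness of `coreOK` (CPY, EMV: the averages of a copy are those of `TG C`; EVL, CHG,
CHA with `D = 4 ^ m` resp. `D = LL * 4 ^ m`). -/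
def T_COK : Prop := T_AVC → T_EMK → T_EMV → T_CPY → T_LFG → T_CHG → T_LFA → T_CHA →
  (∀ (C : CG) (tree : Bst), C.Wf → TabOK tree.toL → evalG tree C < BB ^ 15 →
    (∀ i < 5, Av tree.toL i (TG C) * 4 ^ C.m =
      (fld (evalG tree C) (2 * i) : ℚ) - (fld (evalG tree C) (2 * i + 1) : ℚ)) ∧
    (∀ k < 5, Gv tree.toL k (TG C) * 4 ^ C.m ≤ (fld (evalG tree C) (10 + k) : ℚ))) →
  ∀ (V : Type) [Fintype V] [DecidableEq V] (tree : Bst) (C : Core) (φ : ℕ → V)
  (T0 : Finset (Sym2 V)), TabOK tree.toL → LA tree.toL → coreOK tree C = true →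
  Copy C.C.m C.C.E φ T0 →
  (∀ T1, Chain T0 C.K T1 → Gv tree.toL 0 T1 < LL) ∧
  (∀ j T1, Chain T0 j T1 → T1 ≠ ∅ → 0 ≤ (LL : ℚ) + Av tree.toL 0 T1)

/-- GOK. soundness of `goodOK`. -/
def T_GOK : Prop := T_AVC → T_EMK → T_EMV → T_CPY →
  (∀ (C : CG) (tree : Bst), C.Wf → TabOK tree.toL → evalG tree C < BB ^ 15 →
    (∀ i < 5, Av tree.toL i (TG C) * 4 ^ C.m =
      (fld (evalG tree C) (2 * i) : ℚ) - (fld (evalG tree C) (2 * i + 1) : ℚ)) ∧
    (∀ k < 5, Gv tree.toL k (TG C) * 4 ^ C.m ≤ (fld (evalG tree C) (10 + k) : ℚ))) →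
  ∀ (V : Type) [Fintype V] [DecidableEq V] (tree : Bst) (C : CG) (φ : ℕ → V)
  (T0 : Finset (Sym2 V)), TabOK tree.toL → goodOK tree C = true → Copy C.m C.E φ T0 →
  Gv tree.toL 0 T0 < LL

/-! ## H. leaf averaging -/

/-- the colouring of a concrete coloured graph -/
def colF (D : CC) (i : ℕ) : Fin 4 := ⟨D.col.getD i 0 % 4, Nat.mod_lt _ (by norm_num)⟩

/-- the coloured graph `(T, c)` is a copy of `D` (cross edges only, colours up to a permutation) -/
def Real {V : Type} [Fintype V] [DecidableEq V] (D : CC) (T : Finset (Sym2 V))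
    (c : V → Fin 4) : Prop :=
  ∃ φ : ℕ → V, Set.InjOn φ (Set.Iio D.C.m) ∧ ∃ π : Equiv.Perm (Fin 4),
    (∀ u v, xr T c u v ↔ s(u, v) ∈ img φ D.C.E) ∧ ∀ i < D.C.m, c (φ i) = π (colF D i)

/-- KEY. `keyOf` is correct: `keyGo` follows the states StOK, CsOK (STN, RK1; all edges are cross so
the row mask is the cross row mask: ROW), at the end LFL and RK2. -/
def T_KEY : Prop := T_PKA → T_STN → T_RK1 → T_RK2 → T_ROW → T_LFL → ∀ (D : CC) (r e s x : ℕ),
  D.Wf → keyOf D = (r, e, s, x) →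
  pr (TG D.C) (fun i => colF D i) = (1 / 2) ^ r ∧ e2 (TG D.C) (fun i => colF D i) = e ∧
  sp2 (TG D.C) (fun i => colF D i) = s ∧ X2 (TG D.C) (fun i => colF D i) = x

/-- RKY. a copy has the same key (EMK, XRI, INV). -/
def T_RKY : Prop := T_AVC → T_EMK → T_XRI → T_INV → ∀ (V : Type) [Fintype V] [DecidableEq V]
  (D : CC) (T : Finset (Sym2 V)) (c : V → Fin 4), D.Wf → Real D T c →
  pr T c = pr (TG D.C) (fun i => colF D i) ∧ e2 T c = e2 (TG D.C) (fun i => colF D i) ∧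
  sp2 T c = sp2 (TG D.C) (fun i => colF D i) ∧ X2 T c = X2 (TG D.C) (fun i => colF D i)

/-- EXC. one new cross edge: if `(T.erase s(u, v), c)` is a copy of `D` and `uv` is a cross edge of
`T` then `(T, c)` is a copy of one of the extensions in `extC D`. Cases: both `u, v` have an index
`< m` (`attE`, smaller index first), exactly one (`attA`, new index `m`; the colour of the new vertex
is `π a`), none (`attB`; the vertex whose colour number `π⁻¹ (c ·)` is larger gets index `m`). -/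
def T_EXC : Prop := T_DGM → ∀ (V : Type) [Fintype V] [DecidableEq V] (D : CC)
  (T : Finset (Sym2 V)) (c : V → Fin 4) (u v : V), D.Wf → xr T c u v →
  Real D (T.erase s(u, v)) c → ∃ D' ∈ extC D, Real D' T c

/-- CCE. meaning of `ccert`. Copy of `D'` and isomorphism from `D` to `D'` give copy of `D`. -/
def T_CCE : Prop := T_DGM → ∀ (V : Type) [Fintype V] [DecidableEq V] (types : List CC) (D' : CC)
  (n : ℕ) (T : Finset (Sym2 V)) (c : V → Fin 4), (∀ D ∈ types, D.Wf) → D'.Wf →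
  ccert types D' n = true → Real D' T c → 4 ≤ (keyOf D').1 ∨ ∃ D ∈ types, Real D T c

/-- CTY. every coloured graph of rank at most three is a copy of one of the types. Induction on the
number of cross edges: none: the type with `m = 0`; otherwise erase a cross edge (`pr` does not
decrease: MON), EXC, and CCE; rank at least four of the extension would give `pr T c ≤ 1/16` (KEY,
RKY). -/
def T_CTY : Prop := T_PKA → T_STN → T_RK1 → T_RK2 → T_ROW → T_LFL → T_KEY → T_AVC → T_EMK →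
  T_XRI → T_INV → T_RKY → T_MON → T_DGM → T_EXC → T_CCE →
  ∀ (V : Type) [Fintype V] [DecidableEq V] [Nonempty V] (types : List CC) (T : Finset (Sym2 V))
  (c : V → Fin 4), (∀ D ∈ types, D.Wf) → (∃ D ∈ types, D.C.m = 0 ∧ D.C.E = []) →
  (∀ D ∈ types, ∃ ns, extOK types (extC D) ns = true) → 1 / 8 ≤ pr T c →
  ∃ D ∈ types, Real D T c

/-- LAT. attaching a leaf `l` (isolated in `T`) of colour `π a` at `u` to a copy of `D` (all vertices
of `D` have an edge, so `l` has no index): it is a copy of `attA D i a` if `u = φ i`, and of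
`attB D z a` if `u` has no index, `z = π⁻¹ (c u)`. -/
def T_LAT : Prop := ∀ (V : Type) [Fintype V] [DecidableEq V] (D : CC) (T : Finset (Sym2 V))
  (c : V → Fin 4) (u l : V), D.Wf → D.C.m ≤ 10 →
  (∀ i < D.C.m, ∃ p ∈ D.C.E, p.1 = i ∨ p.2 = i) → u ≠ l → (∀ w, s(l, w) ∉ T) → Real D T c →
  ∃ π : Equiv.Perm (Fin 4),
    (∃ i < D.C.m, c u = π (colF D i) ∧ ∀ a : Fin 4, a ≠ colF D i →
      (attA D i a).Wf ∧ Real (attA D i a) (insert s(u, l) T) (Function.update c l (π a))) ∨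
    (∃ z : Fin 4, c u = π z ∧ ∀ a : Fin 4, a ≠ z →
      (attB D z a).Wf ∧ Real (attB D z a) (insert s(u, l) T) (Function.update c l (π a)))

/-- LAF. leaf averaging. If `pr T c < 1/8` both sides vanish (LFK for the left side, `TabOK.r4`,
`TabOK.rk`). Otherwise CTY gives a type `D` with `laOK tree D`, and LAT the copies of the three
extensions; the entries are matched by KEY, RKY, LOK, UNM; `avg3` is the identity (for `i ≥ 5` both
sides are zero). Reindex the sum over `a ≠ c u` by `π`. -/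
def T_LAF : Prop := T_KEY → T_RKY → T_CTY → T_LAT → T_LOK → T_UNM → T_LFK → T_AVU →
  T_PKA → T_STN → T_RK1 → T_RK2 → T_ROW → T_LFL → T_AVC → T_EMK → T_XRI → T_INV → T_MON →
  T_DGM → T_EXC → T_CCE →
  ∀ (tree : Bst) (types : List CC), TabOK tree.toL → (∀ D ∈ types, D.Wf) →
  (∃ D ∈ types, D.C.m = 0 ∧ D.C.E = []) →
  (∀ D ∈ types, ∃ ns, extOK types (extC D) ns = true) →
  (∀ D ∈ types, ∀ i < D.C.m, ∃ p ∈ D.C.E, p.1 = i ∨ p.2 = i) →
  (∀ D ∈ types, laOK tree D = true) → LA tree.toL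

/-! ## I. Fourier and assembly -/

/-- FOU. The Hoffman / Fourier argument. Let `E` be the set of the `N = C(n,2)` non-loop pairs,
identify graphs with subsets of `E`, `Fh T = ∑ G ∈ F, (-1)^|G ∩ T|`.  For every colouring `c` and all
`G, H ∈ F` there is a pair `e0` of vertices of the same colour with `e0 ∉ G Δ H`: this is clear for
`G = H` (`n ≥ 5 > 4`), otherwise two of the five vertices of an independent set of `G Δ H` have the
same colour.  Hence `∑ T, sg T c * K c T * (-1)^|T ∩ G| * (-1)^|T ∩ H| = 0`: the involution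
`T ↦ T Δ {e0}` changes the sign of `sg T c` and nothing else.  So
`∑ T, (1 + Ex (sg * K)) * Fh T ^ 2 = ∑ T, Fh T ^ 2 = 2^N * |F|` (orthogonality of characters), and the
left side is at least its term for `T = ∅`, which is `1024 * |F|^2`.  (All sums over subsets `T` of
`E`, these are exactly the loopless `T`.) -/
def T_FOU : Prop := ∀ (n : ℕ) (K : (Fin n → Fin 4) → Finset (Sym2 (Fin n)) → ℚ), 5 ≤ n →
  (∀ (c : Fin n → Fin 4) (T T' : Finset (Sym2 (Fin n))),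
    (∀ u v, xr T c u v ↔ xr T' c u v) → K c T = K c T') →
  (∀ T : Finset (Sym2 (Fin n)), Lpl T → T ≠ ∅ →
    0 ≤ 1 + Ex (Fin 4) (fun c => (sg T c : ℚ) * K c T)) →
  (1 + Ex (Fin 4) (fun c => (sg (∅ : Finset (Sym2 (Fin n))) c : ℚ) * K c ∅) = 1024) →
  ∀ F : Finset (SimpleGraph (Fin n)),
    (∀ G ∈ F, ∀ H ∈ F, G ≠ H → ∃ s : Finset (Fin n), (symmDiff G H).IsNIndepSet 5 s) →
    F.card * 1024 ≤ 2 ^ (n.choose 2)

/-- LOW. The family of all graphs in which the five vertices `0, ..., 4` are independent. -/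
def T_LOW : Prop := ∀ n : ℕ, 5 ≤ n → ∃ F : Finset (SimpleGraph (Fin n)),
  (∀ G ∈ F, ∀ H ∈ F, G ≠ H → ∃ s : Finset (Fin n), (symmDiff G H).IsNIndepSet 5 s) ∧
  F.card = 2 ^ (n.choose 2 - 10)

end Pool.Agent.KFV
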